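import Mathlib

/-!
# Soft reflection gap process (MP_25ed44_pr): definitions

`n + 1` particles (so `d = n + 1`), `n` gaps.
-/

open MeasureTheory ProbabilityTheory Set Filter Topology
open scoped ENNReal NNReal

namespace Pool.Agent.OYG

noncomputable section

/-! ### The objects of the problem -/

/-- `B 0, …, B n` are independent standard real Brownian motions with continuous paths, started at `0`:
a standard Brownian motion in dimension `n + 1`. -/
structure IsBMd {Ω : Type*} [MeasurableSpace Ω] (P : Measure Ω) (n : ℕ)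
    (B : Fin (n + 1) → ℝ≥0 → Ω → ℝ) : Prop where
  meas : ∀ i t, Measurable (B i t)
  brownian : ∀ i, IsBrownianReal (B i) P
  cont : ∀ i ω, Continuous fun t => B i t ω
  zero : ∀ i ω, B i 0 ω = 0
  indep : iIndepFun (fun i ω (t : ℝ≥0) => B i t ω) P

/-- The drift of the gap `i` at the position `y`: `μ̃_i + U'(y_i) - U'(y_{i-1})`, where the last term
is absent for the first gap. -/
def drift (n : ℕ) (μ : Fin (n + 1) → ℝ) (U' : ℝ → ℝ) (y : Fin n → ℝ) (i : Fin n) : ℝ :=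
  (μ i.succ - μ i.castSucc) + U' (y i) -
    (if 0 < (i : ℕ) then U' (y ⟨(i : ℕ) - 1, by omega⟩) else 0)

/-- `G` is the gap process started at `x`: the (pathwise) solution of
`dG_i = (μ̃_i + U'(G_i) - U'(G_{i-1})) dt + dB_{i+1} - dB_i`. -/
structure IsGap {Ω : Type*} [MeasurableSpace Ω] (n : ℕ) (μ : Fin (n + 1) → ℝ) (U' : ℝ → ℝ)
    (B : Fin (n + 1) → ℝ≥0 → Ω → ℝ) (x : Fin n → ℝ) (G : ℝ≥0 → Ω → Fin n → ℝ) : Prop where
  meas : ∀ t, Measurable (G t)
  cont : ∀ ω, Continuous fun t => G t ω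
  eq : ∀ ω (t : ℝ≥0) (i : Fin n), G t ω i = x i +
    (∫ s in (0 : ℝ)..t, drift n μ U' (G s.toNNReal ω) i) + B i.succ t ω - B i.castSucc t ω

/-- `‖ν₁ - ν₂‖_TV ≤ r`, where `‖ν‖_TV = sup_{|g| ≤ 1} ∫ g dν`. -/
def TVle {E : Type*} [MeasurableSpace E] (ν₁ ν₂ : Measure E) (r : ℝ) : Prop :=
  ∀ g : E → ℝ, Measurable g → (∀ y, |g y| ≤ 1) → |∫ y, g y ∂ν₁ - ∫ y, g y ∂ν₂| ≤ r

/-- `π` is a stationary distribution; `G x` is the process started at `x` and
`P^t(x, ·)` is the law of `G x t`. -/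
structure IsStat {Ω : Type*} [MeasurableSpace Ω] (P : Measure Ω) {n : ℕ}
    (G : (Fin n → ℝ) → ℝ≥0 → Ω → Fin n → ℝ) (π : Measure (Fin n → ℝ)) : Prop where
  prob : IsProbabilityMeasure π
  stat : ∀ (t : ℝ≥0) (A : Set (Fin n → ℝ)), MeasurableSet A →
    ∫⁻ x, P.map (G x t) A ∂π = π A

/-- uniform ergodicity with exponent `δ` -/
def UnifErg {Ω : Type*} [MeasurableSpace Ω] (P : Measure Ω) {n : ℕ}
    (G : (Fin n → ℝ) → ℝ≥0 → Ω → Fin n → ℝ) (π : Measure (Fin n → ℝ)) (δ : ℝ) : Prop :=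
  ∃ C > 0, ∃ W : (Fin n → ℝ) → ℝ, (∀ x, 1 ≤ W x) ∧
    ∀ x (t : ℝ≥0), TVle (P.map (G x t)) π (C * W x * Real.exp (-(δ * t)))

/-- The exact rate for `U'(y) = a exp (-b y)`: `m` is the modulus of the first relative drift. -/
def rate (m b : ℝ) : ℝ := if m ≤ 2 * b then m ^ 2 / 4 else b * (m - b)

/-! ### The multiplicative coordinates and the explicit flow -/

/-- states: `X j = exp (b (Z_{j+1} - Z_0))` -/
abbrev St (n : ℕ) := Fin n → ℝ

/-- paths of the Brownian motions during one unit of time -/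
abbrev Blk (n : ℕ) := Fin (n + 1) → C(unitInterval, ℝ)

instance instMSPath : MeasurableSpace C(unitInterval, ℝ) := borel _
instance instBSPath : BorelSpace C(unitInterval, ℝ) := ⟨rfl⟩

/-- The recursion `X_{j+1}(t) = exp (b v_j(t)) (X_{j+1}(0) + κ ∫_0^t exp (-b v_j(s)) X_j(s) ds)`,
`X_0 = 1`. -/
def XX (b κ : ℝ) (v : ℕ → ℝ → ℝ) (X0 : ℕ → ℝ) : ℕ → ℝ → ℝ
  | 0 => fun _ => 1
  | (j + 1) => fun t => Real.exp (b * v j t) *
      (X0 j + κ * ∫ s in (0 : ℝ)..t, Real.exp (-(b * v j s)) * XX b κ v X0 j s)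

variable {n : ℕ} (μ : Fin (n + 1) → ℝ) (b κ : ℝ)

/-- the driving paths `w_{j+1} - w_0 + (μ_{j+1} - μ_0) s` -/
def pv (w : Blk n) (j : ℕ) (s : ℝ) : ℝ :=
  if h : j < n then w ⟨j + 1, by omega⟩ (projIcc 0 1 zero_le_one s) -
    w 0 (projIcc 0 1 zero_le_one s) + (μ ⟨j + 1, by omega⟩ - μ 0) * s else 0

/-- extension of a state to all indices -/
def exs (X : St n) (j : ℕ) : ℝ := if h : j < n then X ⟨j, h⟩ else 1

/-- the state at time `t` in `[0,1]` -/
def flow (t : ℝ) (X : St n) (w : Blk n) : St n := fun j => XX b κ (pv μ w) (exs X) (j + 1) t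

/-- positive states -/
def Pos (X : St n) : Prop := ∀ j, 0 < X j

/-- total size of a block of paths -/
def osc (w : Blk n) : ℝ := ∑ k, ‖w k‖

/-- the value at time `1` of the relative path `w_{j+1} - w_0`, without drift -/
def inc (w : Blk n) (j : Fin n) : ℝ := w j.succ 1 - w 0 1

/-- the path `s ↦ s` -/
def idp : C(unitInterval, ℝ) := ⟨fun s => (s : ℝ), continuous_subtype_val⟩

/-- replace the end point of line `i` by `η`, keeping the bridge -/
def resm (i : Fin (n + 1)) (w : Blk n) (η : ℝ) : Blk n :=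
  Function.update w i (w i + (η - w i 1) • idp)

/-- The properties of the law of a unit block of Brownian paths which are used. -/
structure WProp (n : ℕ) (Wl : Measure (Blk n)) : Prop where
  prob : IsProbabilityMeasure Wl
  zero : ∀ᵐ w ∂Wl, ∀ i, w i 0 = 0
  osc : ∀ c : ℝ, ∫⁻ w, ENNReal.ofReal (Real.exp (c * osc w)) ∂Wl < ∞
  mgf : ∀ (j : Fin n) (c : ℝ), ∫⁻ w, ENNReal.ofReal (Real.exp (c * inc w j)) ∂Wl =
    ENNReal.ofReal (Real.exp (c ^ 2))
  res : ∀ (i : Fin (n + 1)) (F : Blk n → ℝ), Measurable F → (∀ w, |F w| ≤ 1) →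
    ∫ w, F w ∂Wl = ∫ w, (∫ η, F (resm i w η) ∂(gaussianReal 0 1)) ∂Wl

/-- the transition operator of the chain at integer times, on real functions -/
def QQ (Wl : Measure (Blk n)) (g : St n → ℝ) (X : St n) : ℝ := ∫ w, g (flow μ b κ 1 X w) ∂Wl

/-- the transition operator on non-negative functions of a pair of states (same noise) -/
def Qp (Wl : Measure (Blk n)) (f : St n × St n → ℝ≥0∞) (X : St n × St n) : ℝ≥0∞ :=
  ∫⁻ w, f (flow μ b κ 1 X.1 w, flow μ b κ 1 X.2 w) ∂Wl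

/-- `ν` is a stationary distribution of the chain of the states at integer times, supported by positive states -/
structure StatQ (Wl : Measure (Blk n)) (ν : Measure (St n)) : Prop where
  prob : IsProbabilityMeasure ν
  pos : ∀ᵐ X ∂ν, Pos X
  inv : (ν.prod Wl).map (fun p : St n × Blk n => flow μ b κ 1 p.1 p.2) = ν

/-- the block of paths during `[N, N+1]` -/
def blk {Ω : Type*} (B : Fin (n + 1) → ℝ≥0 → Ω → ℝ) (hB : ∀ i ω, Continuous fun t => B i t ω)
    (N : ℕ) (ω : Ω) : Blk n := fun i =>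
  ⟨fun s => B i ((N : ℝ≥0) + ⟨(s : ℝ), s.2.1⟩) ω - B i (N : ℝ≥0) ω, by
    refine Continuous.sub ?_ continuous_const
    refine (hB i ω).comp ?_
    refine continuous_const.add ?_
    exact Continuous.subtype_mk continuous_subtype_val _⟩

/-- the path of one line during `[0,1]` -/
def bpath {Ω : Type*} (X : ℝ≥0 → Ω → ℝ) (hX : ∀ ω, Continuous fun t => X t ω) (ω : Ω) :
    C(unitInterval, ℝ) :=
  ⟨fun s => X ⟨(s : ℝ), s.2.1⟩ ω, (hX ω).comp (Continuous.subtype_mk continuous_subtype_val _)⟩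

/-- multiplicative coordinates of a gap vector: `X j = exp (b (x 0 + … + x j))` -/
def toX (x : Fin n → ℝ) : St n := fun j =>
  Real.exp (b * ∑ i ∈ Finset.univ.filter (fun i => i ≤ j), x i)

/-- gap vector of a state -/
def toG (X : St n) : Fin n → ℝ := fun j =>
  (Real.log (X j) - (if 0 < (j : ℕ) then Real.log (X ⟨(j : ℕ) - 1, by omega⟩) else 0)) / b

end

end Pool.Agent.OYG
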