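import Pool.Agent.OYG.XCO

/-!
FME: measurability. The map `(X, w) ↦ flow t X w` is continuous on `St n × Blk n` (paths with the sup norm):
by induction on `j`, `(X, w, t) ↦ XX b κ (pv μ w) (exs X) j t` is jointly continuous for `t` in `ℝ`
(`intervalIntegral.continuous_parametric_intervalIntegral_of_continuous`); evaluation
`C(I, ℝ) × I → ℝ` is continuous (`continuous_eval`). Then everything is Borel measurable:
`St n × Blk n` is second countable and the product sigma algebra is the Borel one
(`C(unitInterval, ℝ)` is second countable: `ContinuousMap.instSecondCountableTopology`, `BorelSpace` instances for `Pi` and `Prod`).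
`osc`, `inc`, `resm` are continuous as well.
-/

open MeasureTheory ProbabilityTheory Set Filter Topology
open scoped ENNReal NNReal

namespace Pool.Agent.OYG

variable {n : ℕ} (μ : Fin (n + 1) → ℝ) (b κ : ℝ)

private theorem fme_pv (j : ℕ) : Continuous fun q : (St n × Blk n) × ℝ => pv μ q.1.2 j q.2 := by
  unfold pv
  by_cases h : j < n
  · simp only [h, dif_pos]
    have h1 : Continuous fun q : (St n × Blk n) × ℝ =>
        q.1.2 ⟨j + 1, by omega⟩ (projIcc (0 : ℝ) 1 zero_le_one q.2) :=
      Continuous.eval ((continuous_apply _).comp (continuous_snd.comp continuous_fst))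
        (continuous_projIcc.comp continuous_snd)
    have h2 : Continuous fun q : (St n × Blk n) × ℝ =>
        q.1.2 0 (projIcc (0 : ℝ) 1 zero_le_one q.2) :=
      Continuous.eval ((continuous_apply _).comp (continuous_snd.comp continuous_fst))
        (continuous_projIcc.comp continuous_snd)
    exact (h1.sub h2).add (continuous_const.mul continuous_snd)
  · simp only [h, dif_neg, not_false_iff]
    exact continuous_const

private theorem fme_exs (j : ℕ) : Continuous fun q : (St n × Blk n) × ℝ => exs q.1.1 j := by
  unfold exs
  by_cases h : j < n
  · simp only [h, dif_pos]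
    exact (continuous_apply _).comp (continuous_fst.comp continuous_fst)
  · simp only [h, dif_neg, not_false_iff]
    exact continuous_const

private theorem fme_XX (j : ℕ) : Continuous fun q : (St n × Blk n) × ℝ =>
    XX b κ (pv μ q.1.2) (exs q.1.1) j q.2 := by
  induction j with
  | zero =>
    change Continuous fun _ : (St n × Blk n) × ℝ => (1 : ℝ)
    exact continuous_const
  | succ j ih =>
    have hf : Continuous (Function.uncurry fun (q : (St n × Blk n) × ℝ) (s : ℝ) =>
        Real.exp (-(b * pv μ q.1.2 j s)) * XX b κ (pv μ q.1.2) (exs q.1.1) j s) := by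
      have hm : Continuous fun r : ((St n × Blk n) × ℝ) × ℝ => ((r.1.1, r.2) : (St n × Blk n) × ℝ) :=
        (continuous_fst.comp continuous_fst).prodMk continuous_snd
      have h1 : Continuous fun r : ((St n × Blk n) × ℝ) × ℝ => pv μ r.1.1.2 j r.2 :=
        (fme_pv μ j).comp hm
      have h2 : Continuous fun r : ((St n × Blk n) × ℝ) × ℝ =>
          XX b κ (pv μ r.1.1.2) (exs r.1.1.1) j r.2 := ih.comp hm
      exact (Real.continuous_exp.comp ((continuous_const.mul h1).neg)).mul h2
    have hI := intervalIntegral.continuous_parametric_intervalIntegral_of_continuous (a₀ := 0)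
      (μ := volume) hf (s := fun q : (St n × Blk n) × ℝ => q.2) continuous_snd
    change Continuous fun q : (St n × Blk n) × ℝ => Real.exp (b * pv μ q.1.2 j q.2) *
      (exs q.1.1 j + κ * ∫ s in (0 : ℝ)..q.2,
        Real.exp (-(b * pv μ q.1.2 j s)) * XX b κ (pv μ q.1.2) (exs q.1.1) j s)
    exact (Real.continuous_exp.comp (continuous_const.mul (fme_pv μ j))).mul
      ((fme_exs j).add (continuous_const.mul hI))

theorem measurable_flow (t : ℝ) : Measurable fun p : St n × Blk n => flow μ b κ t p.1 p.2 := by
  have h : Continuous fun p : St n × Blk n => flow μ b κ t p.1 p.2 := by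
    apply continuous_pi
    intro j
    exact (fme_XX μ b κ ((j : ℕ) + 1)).comp (continuous_id.prodMk continuous_const)
  exact h.measurable

theorem measurable_osc : Measurable (osc : Blk n → ℝ) := by
  have h : Continuous (osc : Blk n → ℝ) := by
    unfold osc
    exact continuous_finsetSum _ fun k _ => (continuous_apply k).norm
  exact h.measurable

theorem measurable_inc (j : Fin n) : Measurable fun w : Blk n => inc w j := by
  have h : Continuous fun w : Blk n => inc w j := by
    unfold inc
    exact (Continuous.eval (continuous_apply _) continuous_const).sub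
      (Continuous.eval (continuous_apply _) continuous_const)
  exact h.measurable

theorem measurable_resm (i : Fin (n + 1)) : Measurable fun p : Blk n × ℝ => resm i p.1 p.2 := by
  have h : Continuous fun p : Blk n × ℝ => resm i p.1 p.2 := by
    unfold resm
    refine Continuous.update continuous_fst i ?_
    have h1 : Continuous fun p : Blk n × ℝ => p.1 i := (continuous_apply i).comp continuous_fst
    have h2 : Continuous fun p : Blk n × ℝ => (p.1 i) 1 := Continuous.eval h1 continuous_const
    exact h1.add ((continuous_snd.sub h2).smul continuous_const)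
  exact h.measurable

/-- measurability of a path valued map -/
theorem measurable_path {Ω : Type*} [MeasurableSpace Ω] (f : Ω → C(unitInterval, ℝ))
    (hf : ∀ s, Measurable fun ω => f ω s) : Measurable f := by
  have hd : ∀ y : C(unitInterval, ℝ), Measurable fun ω => dist (f ω) y := by
    intro y
    apply measurable_of_Iic
    intro C
    have e : (fun ω => dist (f ω) y) ⁻¹' Iic C = ⋂ k : ℕ,
        {ω | dist (f ω (TopologicalSpace.denseSeq unitInterval k))
          (y (TopologicalSpace.denseSeq unitInterval k)) ≤ C} := by
      ext ω
      simp only [mem_preimage, mem_Iic, mem_iInter, mem_ofPred_eq]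
      rw [ContinuousMap.dist_le_iff_of_nonempty]
      constructor
      · intro h k
        exact h _
      · intro h x
        have hcl : IsClosed {x : unitInterval | dist (f ω x) (y x) ≤ C} :=
          isClosed_le ((f ω).continuous.dist y.continuous) continuous_const
        exact (TopologicalSpace.denseRange_denseSeq unitInterval).induction_on
          (p := fun x => dist (f ω x) (y x) ≤ C) x hcl h
    rw [e]
    exact MeasurableSet.iInter fun k =>
      measurableSet_le ((hf _).dist measurable_const) measurable_const
  apply measurable_of_isOpen
  intro U hU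
  have hr : ∀ x : U, ∃ ε > 0, Metric.ball (x : C(unitInterval, ℝ)) ε ⊆ U := fun x =>
    Metric.isOpen_iff.1 hU x x.2
  choose r hr0 hrU using hr
  obtain ⟨T, hT, hTU⟩ := TopologicalSpace.isOpen_iUnion_countable
    (fun x : U => Metric.ball (x : C(unitInterval, ℝ)) (r x)) (fun x => Metric.isOpen_ball)
  have e1 : U = ⋃ i ∈ T, Metric.ball (i : C(unitInterval, ℝ)) (r i) := by
    rw [hTU]
    apply Subset.antisymm
    · intro x hx
      exact mem_iUnion.2 ⟨⟨x, hx⟩, Metric.mem_ball_self (hr0 _)⟩
    · exact iUnion_subset fun x => hrU x
  rw [e1, preimage_iUnion₂]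
  refine MeasurableSet.biUnion hT fun i _ => ?_
  exact measurableSet_lt (hd i) measurable_const

theorem measurable_toX : Measurable (toX b : (Fin n → ℝ) → St n) := by
  apply measurable_pi_lambda
  intro j
  unfold toX
  exact Real.measurable_exp.comp (measurable_const.mul
    (Finset.measurable_sum _ fun i _ => measurable_pi_apply i))

theorem measurable_toG : Measurable (toG b : St n → Fin n → ℝ) := by
  apply measurable_pi_lambda
  intro j
  unfold toG
  by_cases h : 0 < (j : ℕ)
  · simp only [h, if_true]
    exact ((Real.measurable_log.comp (measurable_pi_apply _)).sub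
      (Real.measurable_log.comp (measurable_pi_apply _))).div_const _
  · simp only [h, if_false]
    exact ((Real.measurable_log.comp (measurable_pi_apply _)).sub measurable_const).div_const _

end Pool.Agent.OYG
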