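import Pool.Agent.OYG.XCO
import Pool.Agent.OYG.FME

/-!
EXG: existence of the gap process (so the main theorem is not vacuous).

On `[0, ∞)` let `v_j(s) = B_{j+1}(s) - B_0(s) + (μ_{j+1} - μ_0) s` (for `j < n`, else `0`), `X_j = XX b (a b) v (exs (toX b x)) j`, positive and continuous for `t ≥ 0`
(`continuous_XX`, `XX_pos`), and `G_j = (log X_{j+1} - log X_j)/b`. Then `Y_j = log X_{j+1}/b - v_j` is C^1 with
`Y_j' = a X_j / X_{j+1} = a exp (-b G_j)`, and `Y_j(0) = Σ_{i ≤ j} x_i`; subtracting the equations for `j` and `j - 1` gives `IsGap.eq` (fundamental theorem of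
calculus; `s.toNNReal` for `s ≥ 0`). Extend the paths to `ℝ` by `v_j(s) = v_j(max s 0)`. Measurability in `ω` of `G t`: `X_j(t)` is a limit of Riemann sums, or by induction
`measurable` of the parametric integral (`StronglyMeasurable.integral_prod_right`, joint measurability of `(ω, s) ↦ B i s ω` from continuity in `s`:
`measurable_uncurry_of_continuous_of_measurable`).
-/

open MeasureTheory ProbabilityTheory Set Filter Topology
open scoped ENNReal NNReal

namespace Pool.Agent.OYG

variable {n : ℕ} (μ : Fin (n + 1) → ℝ) (a b : ℝ)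

/-- the driving paths of the gap process -/
private noncomputable def exgV {Ω : Type*} (B : Fin (n + 1) → ℝ≥0 → Ω → ℝ) (ω : Ω) (j : ℕ) (s : ℝ) : ℝ :=
  if h : j < n then B ⟨j + 1, by omega⟩ s.toNNReal ω - B 0 s.toNNReal ω +
    (μ ⟨j + 1, by omega⟩ - μ 0) * s else 0

private theorem exg_cont {Ω : Type*} {B : Fin (n + 1) → ℝ≥0 → Ω → ℝ}
    (hB : ∀ i ω, Continuous fun t => B i t ω) (ω : Ω) (j : ℕ) : Continuous (exgV μ B ω j) := by
  unfold exgV
  by_cases h : j < n
  · simp only [h, dif_pos]
    exact (((hB _ ω).comp continuous_real_toNNReal).sub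
      ((hB 0 ω).comp continuous_real_toNNReal)).add (continuous_const.mul continuous_id)
  · simp only [h, dif_neg, not_false_iff]
    exact continuous_const

private theorem exg_meas {Ω : Type*} [MeasurableSpace Ω] {B : Fin (n + 1) → ℝ≥0 → Ω → ℝ}
    (hB : ∀ i t, Measurable (B i t)) (s : ℝ) (j : ℕ) : Measurable fun ω => exgV μ B ω j s := by
  unfold exgV
  by_cases h : j < n
  · simp only [h, dif_pos]
    exact ((hB _ _).sub (hB _ _)).add measurable_const
  · simp only [h, dif_neg, not_false_iff]
    exact measurable_const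

private theorem exg_XX_meas {Ω : Type*} [MeasurableSpace Ω] {B : Fin (n + 1) → ℝ≥0 → Ω → ℝ}
    (hm : ∀ i t, Measurable (B i t)) (hc : ∀ i ω, Continuous fun t => B i t ω) (κ : ℝ)
    (X0 : ℕ → ℝ) (j : ℕ) : ∀ t : ℝ, Measurable fun ω => XX b κ (exgV μ B ω) X0 j t := by
  induction j with
  | zero =>
    intro t
    change Measurable fun _ : Ω => (1 : ℝ)
    exact measurable_const
  | succ j ih =>
    intro t
    have hF : Measurable (Function.uncurry fun (s : ℝ) (ω : Ω) =>
        Real.exp (-(b * exgV μ B ω j s)) * XX b κ (exgV μ B ω) X0 j s) := by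
      apply measurable_uncurry_of_continuous_of_measurable
      · intro ω
        exact (Real.continuous_exp.comp ((continuous_const.mul (exg_cont μ hc ω j)).neg)).mul
          (continuous_XX b κ (exg_cont μ hc ω) X0 j)
      · intro s
        exact (Real.measurable_exp.comp ((measurable_const.mul (exg_meas μ hm s j)).neg)).mul (ih s)
    have hF' : StronglyMeasurable fun p : Ω × ℝ =>
        Real.exp (-(b * exgV μ B p.1 j p.2)) * XX b κ (exgV μ B p.1) X0 j p.2 :=
      (hF.comp measurable_swap).stronglyMeasurable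
    have hI : Measurable fun ω => ∫ s in (0 : ℝ)..t,
        Real.exp (-(b * exgV μ B ω j s)) * XX b κ (exgV μ B ω) X0 j s := by
      unfold intervalIntegral
      exact (hF'.integral_prod_right' (ν := volume.restrict (Ioc 0 t))).measurable.sub
        (hF'.integral_prod_right' (ν := volume.restrict (Ioc t 0))).measurable
    change Measurable fun ω => Real.exp (b * exgV μ B ω j t) *
      (X0 j + κ * ∫ s in (0 : ℝ)..t, Real.exp (-(b * exgV μ B ω j s)) * XX b κ (exgV μ B ω) X0 j s)
    exact (Real.measurable_exp.comp (measurable_const.mul (exg_meas μ hm t j))).mul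
      (measurable_const.add (measurable_const.mul hI))

private theorem exg_log (ha : 0 < a) (hb : 0 < b) {v : ℕ → ℝ → ℝ} (hv : ∀ j, Continuous (v j))
    {X0 : ℕ → ℝ} (hX : ∀ j, 0 < X0 j) (j : ℕ) {t : ℝ} (ht : 0 ≤ t) :
    Real.log (XX b (a * b) v X0 (j + 1) t) / b = v j t + Real.log (X0 j) / b +
      ∫ s in (0 : ℝ)..t, a * (XX b (a * b) v X0 j s / XX b (a * b) v X0 (j + 1) s) := by
  have hκ : 0 < a * b := mul_pos ha hb
  have hc : Continuous (fun s => Real.exp (-(b * v j s)) * XX b (a * b) v X0 j s) :=
    (Real.continuous_exp.comp ((continuous_const.mul (hv j)).neg)).mul (continuous_XX b _ hv X0 j)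
  set H : ℝ → ℝ := fun t => X0 j + (a * b) *
    ∫ s in (0 : ℝ)..t, Real.exp (-(b * v j s)) * XX b (a * b) v X0 j s with hH
  have hXH : ∀ s, XX b (a * b) v X0 (j + 1) s = Real.exp (b * v j s) * H s := fun s => rfl
  have hHpos : ∀ s, 0 ≤ s → 0 < H s := by
    intro s hs
    have h1 := XX_pos b (a * b) hv hκ.le hX (j + 1) hs
    rw [hXH] at h1
    exact (mul_pos_iff_of_pos_left (Real.exp_pos _)).1 h1
  have hder : ∀ s, HasDerivAt H ((a * b) * (Real.exp (-(b * v j s)) * XX b (a * b) v X0 j s)) s := by
    intro s
    have h1 := intervalIntegral.integral_hasDerivAt_right (hc.intervalIntegrable 0 s)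
      (hc.stronglyMeasurableAtFilter _ _) hc.continuousAt
    exact (h1.const_mul (a * b)).const_add (X0 j)
  have hder2 : ∀ s ∈ uIcc 0 t, HasDerivAt (fun s => Real.log (H s) / b)
      (a * (XX b (a * b) v X0 j s / XX b (a * b) v X0 (j + 1) s)) s := by
    intro s hs
    rw [uIcc_of_le ht] at hs
    have h0 := hHpos s hs.1
    have h1 := ((hder s).log h0.ne').div_const b
    have e : (a * b) * (Real.exp (-(b * v j s)) * XX b (a * b) v X0 j s) / H s / b =
        a * (XX b (a * b) v X0 j s / XX b (a * b) v X0 (j + 1) s) := by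
      rw [hXH, Real.exp_neg]
      have h2 := (Real.exp_pos (b * v j s)).ne'
      have h3 := h0.ne'
      field_simp
    rw [e] at h1
    exact h1
  have hcont : ContinuousOn (fun s => a * (XX b (a * b) v X0 j s / XX b (a * b) v X0 (j + 1) s))
      (uIcc 0 t) := by
    rw [uIcc_of_le ht]
    apply ContinuousOn.mul continuousOn_const
    apply ContinuousOn.div (continuous_XX b _ hv X0 j).continuousOn
      (continuous_XX b _ hv X0 (j + 1)).continuousOn
    intro s hs
    exact (XX_pos b (a * b) hv hκ.le hX (j + 1) hs.1).ne'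
  have hftc := intervalIntegral.integral_eq_sub_of_hasDerivAt hder2 hcont.intervalIntegrable
  have hH0 : H 0 = X0 j := by
    rw [hH]
    simp
  rw [hftc, hH0, hXH, Real.log_mul (Real.exp_pos _).ne' (hHpos t ht).ne', Real.log_exp]
  have hb' := hb.ne'
  field_simp
  ring

theorem exists_gap (ha : 0 < a) (hb : 0 < b) {Ω : Type*} [MeasurableSpace Ω] {P : Measure Ω}
    {B : Fin (n + 1) → ℝ≥0 → Ω → ℝ} (hB : IsBMd P n B) (x : Fin n → ℝ) :
    ∃ G : ℝ≥0 → Ω → Fin n → ℝ, IsGap n μ (fun y => a * Real.exp (-(b * y))) B x G := by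
  have hκ : 0 < a * b := mul_pos ha hb
  have hXt : Pos (toX b x) := fun j => Real.exp_pos _
  set X0 : ℕ → ℝ := exs (toX b x) with hX0
  have hX0pos : ∀ j, 0 < X0 j := exs_pos hXt
  set Z : Ω → ℕ → ℝ → ℝ := fun ω j t => XX b (a * b) (exgV μ B ω) X0 j t with hZ
  have hZpos : ∀ ω j t, 0 ≤ t → 0 < Z ω j t := fun ω j t ht =>
    XX_pos b (a * b) (exg_cont μ hB.cont ω) hκ.le hX0pos j ht
  have hZcont : ∀ ω j, Continuous (Z ω j) := fun ω j =>
    continuous_XX b (a * b) (exg_cont μ hB.cont ω) X0 j
  set G : ℝ≥0 → Ω → Fin n → ℝ := fun t ω j =>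
    (Real.log (Z ω (j + 1) t) - Real.log (Z ω j t)) / b with hG
  have hGexp : ∀ (s : ℝ) (ω : Ω) (j : Fin n), 0 ≤ s →
      a * Real.exp (-(b * G s.toNNReal ω j)) = a * (Z ω j s / Z ω (j + 1) s) := by
    intro s ω j hs
    have h1 := hZpos ω j s hs
    have h2 := hZpos ω (j + 1) s hs
    have e1 : (s.toNNReal : ℝ) = s := Real.coe_toNNReal s hs
    have e2 : -(b * G s.toNNReal ω j) = Real.log (Z ω j s) - Real.log (Z ω (j + 1) s) := by
      rw [hG]
      simp only [e1]
      field_simp
      ring
    rw [e2, Real.exp_sub, Real.exp_log h1, Real.exp_log h2]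
  have hGcont : ∀ ω, Continuous fun t => G t ω := by
    intro ω
    apply continuous_pi
    intro j
    have c1 : Continuous fun t : ℝ≥0 => Real.log (Z ω (j + 1) t) :=
      ((hZcont ω (j + 1)).comp NNReal.continuous_coe).log fun t => (hZpos ω _ t t.2).ne'
    have c2 : Continuous fun t : ℝ≥0 => Real.log (Z ω j t) :=
      ((hZcont ω j).comp NNReal.continuous_coe).log fun t => (hZpos ω _ t t.2).ne'
    exact (c1.sub c2).div_const b
  refine ⟨G, ?_, hGcont, ?_⟩
  · intro t
    apply measurable_pi_lambda
    intro j
    exact ((Real.measurable_log.comp (exg_XX_meas μ b hB.meas hB.cont (a * b) X0 (j + 1) t)).sub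
      (Real.measurable_log.comp (exg_XX_meas μ b hB.meas hB.cont (a * b) X0 j t))).div_const b
  · intro ω t i
    have ht : (0 : ℝ) ≤ (t : ℝ) := t.2
    have hUc : ∀ j : Fin n, Continuous fun s : ℝ =>
        a * Real.exp (-(b * G s.toNNReal ω j)) := by
      intro j
      have c : Continuous fun s : ℝ => G s.toNNReal ω j :=
        ((continuous_apply j).comp (hGcont ω)).comp continuous_real_toNNReal
      exact continuous_const.mul (Real.continuous_exp.comp ((continuous_const.mul c).neg))
    have hlog : ∀ j : Fin n, Real.log (Z ω (j + 1) t) / b = exgV μ B ω j t +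
        ∑ k ∈ Finset.univ.filter (fun k => k ≤ j), x k +
        ∫ s in (0 : ℝ)..t, a * Real.exp (-(b * G s.toNNReal ω j)) := by
      intro j
      have h1 := exg_log a b ha hb (exg_cont μ hB.cont ω) hX0pos j ht
      have e1 : Real.log (X0 j) / b = ∑ k ∈ Finset.univ.filter (fun k => k ≤ j), x k := by
        rw [hX0]
        unfold exs toX
        rw [dif_pos j.isLt, Real.log_exp, mul_div_cancel_left₀ _ hb.ne']
      have e2 : ∫ s in (0 : ℝ)..t, a * Real.exp (-(b * G s.toNNReal ω j)) =
          ∫ s in (0 : ℝ)..t, a * (Z ω j s / Z ω (j + 1) s) := by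
        apply intervalIntegral.integral_congr
        intro s hs
        rw [uIcc_of_le ht] at hs
        exact hGexp s ω j hs.1
      rw [e2, ← e1]
      exact h1
    have hGt : G t ω i = Real.log (Z ω (i + 1) t) / b - Real.log (Z ω i t) / b := by
      rw [hG]
      simp only
      ring
    by_cases hi : 0 < (i : ℕ)
    · have hi' : (i : ℕ) - 1 < n := by omega
      set i' : Fin n := ⟨(i : ℕ) - 1, hi'⟩ with hi'def
      have hii : (i' : ℕ) + 1 = (i : ℕ) := by
        rw [hi'def]
        simp only
        omega
      have l1 := hlog i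
      have l2 := hlog i'
      rw [hii] at l2
      have hint : ∫ s in (0 : ℝ)..t, drift n μ (fun y => a * Real.exp (-(b * y)))
          (G s.toNNReal ω) i = (μ i.succ - μ i.castSucc) * t +
          (∫ s in (0 : ℝ)..t, a * Real.exp (-(b * G s.toNNReal ω i))) -
          ∫ s in (0 : ℝ)..t, a * Real.exp (-(b * G s.toNNReal ω i')) := by
        unfold drift
        simp only [hi, if_true]
        rw [intervalIntegral.integral_sub, intervalIntegral.integral_add,
          intervalIntegral.integral_const, smul_eq_mul]
        · ring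
        · exact continuous_const.intervalIntegrable _ _
        · exact (hUc i).intervalIntegrable _ _
        · exact (continuous_const.add (hUc i)).intervalIntegrable _ _
        · exact (hUc i').intervalIntegrable _ _
      have hV : exgV μ B ω i t - exgV μ B ω i' t = B i.succ t ω - B i.castSucc t ω +
          (μ i.succ - μ i.castSucc) * t := by
        unfold exgV
        rw [dif_pos i.isLt, dif_pos i'.isLt]
        have e1 : (⟨(i : ℕ) + 1, by omega⟩ : Fin (n + 1)) = i.succ := rfl
        have e2 : (⟨(i' : ℕ) + 1, by omega⟩ : Fin (n + 1)) = i.castSucc := Fin.ext hii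
        rw [e1, e2, Real.toNNReal_coe]
        ring
      have hs : ∑ k ∈ Finset.univ.filter (fun k => k ≤ i), x k =
          ∑ k ∈ Finset.univ.filter (fun k => k ≤ i'), x k + x i := by
        have h1 : (Finset.univ.filter (fun k : Fin n => k ≤ i)) =
            insert i (Finset.univ.filter (fun k : Fin n => k ≤ i')) := by
          ext k
          simp only [Finset.mem_filter, Finset.mem_univ, true_and, Finset.mem_insert, Fin.le_def,
            Fin.ext_iff]
          omega
        rw [h1, Finset.sum_insert, add_comm]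
        simp only [Finset.mem_filter, Finset.mem_univ, true_and, Fin.le_def]
        omega
      rw [hGt, l1, l2, hint, hs]
      linarith
    · have hi0 : (i : ℕ) = 0 := by omega
      have l1 := hlog i
      have l0 : Real.log (Z ω i t) = 0 := by
        have : Z ω i t = 1 := by
          rw [hZ, hi0]
          rfl
        rw [this, Real.log_one]
      have hint : ∫ s in (0 : ℝ)..t, drift n μ (fun y => a * Real.exp (-(b * y)))
          (G s.toNNReal ω) i = (μ i.succ - μ i.castSucc) * t +
          (∫ s in (0 : ℝ)..t, a * Real.exp (-(b * G s.toNNReal ω i))) := by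
        unfold drift
        simp only [hi, if_false, sub_zero]
        rw [intervalIntegral.integral_add, intervalIntegral.integral_const, smul_eq_mul]
        · ring
        · exact continuous_const.intervalIntegrable _ _
        · exact (hUc i).intervalIntegrable _ _
      have hV : exgV μ B ω i t = B i.succ t ω - B i.castSucc t ω +
          (μ i.succ - μ i.castSucc) * t := by
        unfold exgV
        rw [dif_pos i.isLt]
        have e1 : (⟨(i : ℕ) + 1, by omega⟩ : Fin (n + 1)) = i.succ := rfl
        have e2 : (0 : Fin (n + 1)) = i.castSucc := Fin.ext hi0.symm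
        rw [e1, Real.toNNReal_coe, ← e2]
      have hs : ∑ k ∈ Finset.univ.filter (fun k => k ≤ i), x k = x i := by
        have h1 : (Finset.univ.filter (fun k : Fin n => k ≤ i)) = {i} := by
          ext k
          simp only [Finset.mem_filter, Finset.mem_univ, true_and, Finset.mem_singleton, Fin.le_def,
            Fin.ext_iff]
          omega
        rw [h1, Finset.sum_singleton]
      rw [hGt, l1, l0, hint, hs, zero_div]
      linarith

end Pool.Agent.OYG
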