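import Pool.Agent.OYG.FIN

/-!
# The exact exponential rate of the soft-reflection gap process for exponential repulsion

`n + 1` particles (`n ≥ 1`), drifts with `μ (i+1) < μ i`, and `U'(y) = a exp (-b y)` with `a, b > 0` (the O'Connell–Yor
potential `U(x) = -exp (-x)` is `a = b = 1`). The supremum of the exponents of uniform ergodicity of the gap process is
`m² / 4` if `m ≤ 2 b` and `b (m - b)` if `m > 2 b`, where `m = μ 0 - μ 1` is the modulus of the first relative drift.
It does not depend on the number of particles.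
-/

open MeasureTheory ProbabilityTheory Set Filter Topology
open scoped ENNReal NNReal

namespace Pool.Agent.OYG.ExactRateOConnellYor

open Pool.Agent.OYG

theorem result {Ω : Type*} [MeasurableSpace Ω] (P : Measure Ω) [IsProbabilityMeasure P]
    (n : ℕ) (hn : 0 < n) (μ : Fin (n + 1) → ℝ) (hμ : ∀ i : Fin n, μ i.succ < μ i.castSucc)
    (a b : ℝ) (ha : 0 < a) (hb : 0 < b)
    (B : Fin (n + 1) → ℝ≥0 → Ω → ℝ) (hB : IsBMd P n B)
    (G : (Fin n → ℝ) → ℝ≥0 → Ω → Fin n → ℝ)
    (hG : ∀ x, IsGap n μ (fun y => a * Real.exp (-(b * y))) B x (G x))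
    (π : Measure (Fin n → ℝ)) (hπ : IsStat P G π) :
    IsLUB {δ : ℝ | 0 < δ ∧ UnifErg P G π δ} (rate (μ 0 - μ (Fin.succ ⟨0, hn⟩)) b) :=
  exact_rate P n hn μ hμ a b ha hb B hB G hG π hπ

end Pool.Agent.OYG.ExactRateOConnellYor
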