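import Pool.Agent.OYG.FME

/-!
QME: elementary properties of the operators `QQ` and `Qp` and of their iterates.

`flow` is jointly measurable (`measurable_flow`), so integrals in `w` are measurable in the state
(`StronglyMeasurable.integral_prod_right`, `Measurable.lintegral_prod_right'`). `D` is a set of pairs of states which is
invariant under the flow with the same noise. Everything by induction on `N` with `Function.iterate_succ_apply'`
(outermost operator last applied).
-/

open MeasureTheory ProbabilityTheory Set Filter Topology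
open scoped ENNReal NNReal

namespace Pool.Agent.OYG

variable {n : ℕ} (μ : Fin (n + 1) → ℝ) (b κ : ℝ) {Wl : Measure (Blk n)}

/-- `D` is invariant under the flow with common noise -/
def InvD (μ : Fin (n + 1) → ℝ) (b κ : ℝ) (D : Set (St n × St n)) : Prop :=
  ∀ p ∈ D, ∀ w, (flow μ b κ 1 p.1 w, flow μ b κ 1 p.2 w) ∈ D

theorem invD_pos (hκ : 0 ≤ κ) : InvD μ b κ {p : St n × St n | Pos p.1 ∧ Pos p.2} := by
  rintro ⟨X, X'⟩ ⟨h1, h2⟩ w
  exact ⟨flow_pos μ b κ hκ zero_le_one h1 w, flow_pos μ b κ hκ zero_le_one h2 w⟩

private theorem qme_meas_QQ (hW : WProp n Wl) {g : St n → ℝ} (hg : Measurable g) :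
    Measurable (QQ μ b κ Wl g) := by
  haveI := hW.prob
  have h1 : StronglyMeasurable (Function.uncurry fun (X : St n) (w : Blk n) =>
      g (flow μ b κ 1 X w)) := (hg.comp (measurable_flow μ b κ 1)).stronglyMeasurable
  exact (h1.integral_prod_right (ν := Wl)).measurable

theorem measurable_QQ_iter (hW : WProp n Wl) {g : St n → ℝ} (hg : Measurable g) (N : ℕ) :
    Measurable ((QQ μ b κ Wl)^[N] g) := by
  induction N with
  | zero => exact hg
  | succ N ih =>
    rw [Function.iterate_succ_apply']
    exact qme_meas_QQ μ b κ hW ih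

theorem abs_QQ_iter_le (hW : WProp n Wl) {g : St n → ℝ} (hg : ∀ X, |g X| ≤ 1) (N : ℕ) (X : St n) :
    |(QQ μ b κ Wl)^[N] g X| ≤ 1 := by
  induction N generalizing X with
  | zero => exact hg X
  | succ N ih =>
    haveI := hW.prob
    rw [Function.iterate_succ_apply']
    have h := norm_integral_le_of_norm_le_const (μ := Wl) (C := 1)
      (f := fun w => (QQ μ b κ Wl)^[N] g (flow μ b κ 1 X w))
      (Filter.Eventually.of_forall fun w => by
        rw [Real.norm_eq_abs]
        exact ih _)
    rw [Real.norm_eq_abs] at h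
    simpa [QQ] using h

private theorem qme_meas_comp {f : St n × St n → ℝ≥0∞} (hf : Measurable f) :
    Measurable fun q : (St n × St n) × Blk n => f (flow μ b κ 1 q.1.1 q.2, flow μ b κ 1 q.1.2 q.2) := by
  refine hf.comp (Measurable.prodMk ?_ ?_)
  · exact (measurable_flow μ b κ 1).comp
      ((measurable_fst.comp measurable_fst).prodMk measurable_snd)
  · exact (measurable_flow μ b κ 1).comp
      ((measurable_snd.comp measurable_fst).prodMk measurable_snd)

private theorem qme_meas_sec {f : St n × St n → ℝ≥0∞} (hf : Measurable f) (p : St n × St n) :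
    Measurable fun w : Blk n => f (flow μ b κ 1 p.1 w, flow μ b κ 1 p.2 w) :=
  (qme_meas_comp μ b κ hf).comp (measurable_const.prodMk measurable_id)

private theorem qme_meas_Qp (hW : WProp n Wl) {f : St n × St n → ℝ≥0∞} (hf : Measurable f) :
    Measurable (Qp μ b κ Wl f) := by
  haveI := hW.prob
  exact (qme_meas_comp μ b κ hf).lintegral_prod_right'

theorem measurable_Qp_iter (hW : WProp n Wl) {f : St n × St n → ℝ≥0∞} (hf : Measurable f) (N : ℕ) :
    Measurable ((Qp μ b κ Wl)^[N] f) := by
  induction N with
  | zero => exact hf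
  | succ N ih =>
    rw [Function.iterate_succ_apply']
    exact qme_meas_Qp μ b κ hW ih

theorem Qp_iter_mono {D : Set (St n × St n)} (hD : InvD μ b κ D) {f g : St n × St n → ℝ≥0∞}
    (h : ∀ p ∈ D, f p ≤ g p) (N : ℕ) {p : St n × St n} (hp : p ∈ D) :
    (Qp μ b κ Wl)^[N] f p ≤ (Qp μ b κ Wl)^[N] g p := by
  induction N generalizing p with
  | zero => exact h p hp
  | succ N ih =>
    rw [Function.iterate_succ_apply', Function.iterate_succ_apply']
    exact lintegral_mono fun w => ih (hD p hp w)

theorem Qp_iter_add (hW : WProp n Wl) {f g : St n × St n → ℝ≥0∞} (hf : Measurable f) (N : ℕ)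
    (p : St n × St n) : (Qp μ b κ Wl)^[N] (fun q => f q + g q) p =
      (Qp μ b κ Wl)^[N] f p + (Qp μ b κ Wl)^[N] g p := by
  induction N generalizing p with
  | zero => rfl
  | succ N ih =>
    rw [Function.iterate_succ_apply', Function.iterate_succ_apply', Function.iterate_succ_apply',
      funext ih]
    exact lintegral_add_left (qme_meas_sec μ b κ (measurable_Qp_iter μ b κ hW hf N) p) _

theorem Qp_iter_mul (hW : WProp n Wl) {f : St n × St n → ℝ≥0∞} (hf : Measurable f) (c : ℝ≥0∞) (N : ℕ)
    (p : St n × St n) : (Qp μ b κ Wl)^[N] (fun q => c * f q) p = c * (Qp μ b κ Wl)^[N] f p := by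
  induction N generalizing p with
  | zero => rfl
  | succ N ih =>
    rw [Function.iterate_succ_apply', Function.iterate_succ_apply', funext ih]
    exact lintegral_const_mul c (qme_meas_sec μ b κ (measurable_Qp_iter μ b κ hW hf N) p)

theorem Qp_iter_const (hW : WProp n Wl) (c : ℝ≥0∞) (N : ℕ) (p : St n × St n) :
    (Qp μ b κ Wl)^[N] (fun _ => c) p = c := by
  induction N generalizing p with
  | zero => rfl
  | succ N ih =>
    haveI := hW.prob
    rw [Function.iterate_succ_apply', funext ih]
    simp [Qp]

theorem Qp_iter_sum (hW : WProp n Wl) {ι : Type} (s : Finset ι) {f : ι → St n × St n → ℝ≥0∞}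
    (hf : ∀ i, Measurable (f i)) (N : ℕ) (p : St n × St n) :
    (Qp μ b κ Wl)^[N] (fun q => ∑ i ∈ s, f i q) p = ∑ i ∈ s, (Qp μ b κ Wl)^[N] (f i) p := by
  classical
  induction s using Finset.induction_on with
  | empty =>
    simp only [Finset.sum_empty]
    exact Qp_iter_const μ b κ hW 0 N p
  | insert i s hi ih =>
    simp only [Finset.sum_insert hi]
    rw [Qp_iter_add μ b κ hW (hf i), ih]

end Pool.Agent.OYG
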