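import Pool.Agent.OYG.MK1
import Pool.Agent.OYG.QME

/-!
MKV: the law of the process at time `N + s` in terms of the operator `QQ`.

`chain_law`: for `g` measurable with `|g| ≤ 1`: `∫ g (toX b (G N ω)) dP = QQ^[N] g (toX b x)`, induction on `N`: `N = 0`: `gap_zero`;
`N + 1`: `gap_flow` with `s = 1` and `one_step` with `h (X, w) = g (flow 1 X w)` give `∫ g (toX b (G (N+1))) dP = ∫ QQ g (toX b (G N)) dP`;
`Function.iterate_succ_apply`. (`|QQ g| ≤ 1`, measurable: `measurable_QQ_iter`, `abs_QQ_iter_le` with `N = 1`; the law of the block is a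
probability measure: `WProp` follows from WPR, here it is a hypothesis.)
`real_law`: the same with `gap_flow` for `s ≤ 1` and `h (X, w) = g (toG b (flow s X w))`; `toG (toX y) = y`. `real_zero`: the case `N = 0` as an
identity of measures (apply the previous one, or directly `gap_flow` at `N = 0`, `blk 0`).
-/

open MeasureTheory ProbabilityTheory Set Filter Topology
open scoped ENNReal NNReal

namespace Pool.Agent.OYG

variable {n : ℕ} (μ : Fin (n + 1) → ℝ) (a b : ℝ)

theorem chain_law (hb : 0 < b) {Ω : Type*} [MeasurableSpace Ω] {P : Measure Ω} [IsProbabilityMeasure P]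
    {B : Fin (n + 1) → ℝ≥0 → Ω → ℝ} (hB : IsBMd P n B) (hW : WProp n (P.map (blk B hB.cont 0)))
    {x : Fin n → ℝ} {G : ℝ≥0 → Ω → Fin n → ℝ}
    (hG : IsGap n μ (fun y => a * Real.exp (-(b * y))) B x G) (N : ℕ) {g : St n → ℝ}
    (hm : Measurable g) (h1 : ∀ X, |g X| ≤ 1) :
    ∫ ω, g (toX b (G N ω)) ∂P = (QQ μ b (a * b) (P.map (blk B hB.cont 0)))^[N] g (toX b x) := by
  have hWp : IsProbabilityMeasure (P.map (blk B hB.cont 0)) := hW.prob
  induction N generalizing g with
  | zero =>
    have h : ∀ ω, g (toX b (G ((0 : ℕ) : ℝ≥0) ω)) = g (toX b x) := fun ω => by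
      rw [Nat.cast_zero, gap_zero μ hB hG ω]
    simp only [h]
    simp
  | succ N ih =>
    have h2 : ∀ ω, g (toX b (G ((N + 1 : ℕ) : ℝ≥0) ω)) =
        g (flow μ b (a * b) 1 (toX b (G N ω)) (blk B hB.cont N ω)) := fun ω => by
      have h := gap_flow μ a b hb hB hG ω N 1 le_rfl
      rw [Nat.cast_succ, h, NNReal.coe_one]
    simp only [h2]
    have h3 := one_step μ a b hb hB hG N
      (h := fun p : St n × Blk n => g (flow μ b (a * b) 1 p.1 p.2))
      (hm.comp (measurable_flow μ b (a * b) 1)) (fun p => h1 _)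
    rw [h3, Function.iterate_succ_apply]
    exact ih (g := QQ μ b (a * b) (P.map (blk B hB.cont 0)) g)
      (measurable_QQ_iter μ b (a * b) hW hm 1) (fun X => abs_QQ_iter_le μ b (a * b) hW h1 1 X)

theorem real_law (hb : 0 < b) {Ω : Type*} [MeasurableSpace Ω] {P : Measure Ω} [IsProbabilityMeasure P]
    {B : Fin (n + 1) → ℝ≥0 → Ω → ℝ} (hB : IsBMd P n B) (hW : WProp n (P.map (blk B hB.cont 0)))
    {x : Fin n → ℝ} {G : ℝ≥0 → Ω → Fin n → ℝ}
    (hG : IsGap n μ (fun y => a * Real.exp (-(b * y))) B x G) (N : ℕ) (s : ℝ≥0) (hs : s ≤ 1)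
    {g : (Fin n → ℝ) → ℝ} (hm : Measurable g) (h1 : ∀ y, |g y| ≤ 1) :
    ∫ y, g y ∂(P.map (G ((N : ℝ≥0) + s))) =
      (QQ μ b (a * b) (P.map (blk B hB.cont 0)))^[N]
        (fun X => ∫ w, g (toG b (flow μ b (a * b) s X w)) ∂(P.map (blk B hB.cont 0))) (toX b x) := by
  have hWp : IsProbabilityMeasure (P.map (blk B hB.cont 0)) := hW.prob
  have hm2 : Measurable (fun p : St n × Blk n => g (toG b (flow μ b (a * b) s p.1 p.2))) :=
    hm.comp ((measurable_toG b).comp (measurable_flow μ b (a * b) s))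
  rw [integral_map (hG.meas _).aemeasurable hm.aestronglyMeasurable]
  have h2 : ∀ ω, g (G ((N : ℝ≥0) + s) ω) =
      g (toG b (flow μ b (a * b) s (toX b (G N ω)) (blk B hB.cont N ω))) := fun ω => by
    rw [← gap_flow μ a b hb hB hG ω N s hs, toG_toX b hb]
  simp only [h2]
  have h3 := one_step μ a b hb hB hG N
    (h := fun p : St n × Blk n => g (toG b (flow μ b (a * b) s p.1 p.2))) hm2 (fun p => h1 _)
  rw [h3]
  refine chain_law μ a b hb hB hW hG N
    (g := fun X => ∫ w, g (toG b (flow μ b (a * b) s X w)) ∂(P.map (blk B hB.cont 0))) ?_ ?_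
  · exact (hm2.stronglyMeasurable.integral_prod_right' (ν := P.map (blk B hB.cont 0))).measurable
  · intro X
    have h4 := norm_integral_le_of_norm_le_const (μ := P.map (blk B hB.cont 0)) (C := 1)
      (f := fun w => g (toG b (flow μ b (a * b) s X w)))
      (Filter.Eventually.of_forall fun w => by rw [Real.norm_eq_abs]; exact h1 _)
    rw [Real.norm_eq_abs] at h4
    simpa using h4

theorem real_zero (hb : 0 < b) {Ω : Type*} [MeasurableSpace Ω] {P : Measure Ω} [IsProbabilityMeasure P]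
    {B : Fin (n + 1) → ℝ≥0 → Ω → ℝ} (hB : IsBMd P n B)
    {x : Fin n → ℝ} {G : ℝ≥0 → Ω → Fin n → ℝ}
    (hG : IsGap n μ (fun y => a * Real.exp (-(b * y))) B x G) (s : ℝ≥0) (hs : s ≤ 1) :
    P.map (G s) = (P.map (blk B hB.cont 0)).map (fun w => toG b (flow μ b (a * b) s (toX b x) w)) := by
  have hf : Measurable (fun w : Blk n => toG b (flow μ b (a * b) s (toX b x) w)) :=
    (measurable_toG b).comp ((measurable_flow μ b (a * b) s).comp
      (Measurable.prodMk measurable_const measurable_id))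
  rw [Measure.map_map hf (measurable_blk hB 0)]
  congr 1
  funext ω
  have h := gap_flow μ a b hb hB hG ω 0 s hs
  rw [Nat.cast_zero, zero_add, gap_zero μ hB hG ω] at h
  show G s ω = toG b (flow μ b (a * b) s (toX b x) (blk B hB.cont 0 ω))
  rw [← h, toG_toX b hb]

end Pool.Agent.OYG
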