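import Pool.Agent.OYG.QME

/-!
QCP: comparison of `QQ` at two states with `Qp` at the pair.

`QQ g X - QQ g X' = ∫ (g (flow X w) - g (flow X' w)) dWl` (both integrable: bounded and measurable), so
`|…| ≤ ∫⁻ ofReal |…|`. Induction on `N`: apply the one step statement to `g₁ = QQ^[N] g`, `h₁ = Qp^[N] h`
(`Function.iterate_succ_apply'`).
-/

open MeasureTheory ProbabilityTheory Set Filter Topology
open scoped ENNReal NNReal

namespace Pool.Agent.OYG

variable {n : ℕ} (μ : Fin (n + 1) → ℝ) (b κ : ℝ) {Wl : Measure (Blk n)}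

private theorem qcp_int (hW : WProp n Wl) {g : St n → ℝ} (hg : Measurable g)
    (hg1 : ∀ X, |g X| ≤ 1) (X : St n) :
    Integrable (fun w : Blk n => g (flow μ b κ 1 X w)) Wl := by
  haveI := hW.prob
  refine Integrable.of_bound (C := 1) ?_ (Filter.Eventually.of_forall fun w => ?_)
  · exact (hg.comp ((measurable_flow μ b κ 1).comp
      (measurable_const.prodMk measurable_id))).aestronglyMeasurable
  · rw [Real.norm_eq_abs]
    exact hg1 _

private theorem qcp_sub (hW : WProp n Wl) {g : St n → ℝ} (hg : Measurable g)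
    (hg1 : ∀ X, |g X| ≤ 1) (X X' : St n) :
    QQ μ b κ Wl g X - QQ μ b κ Wl g X' =
      ∫ w, (g (flow μ b κ 1 X w) - g (flow μ b κ 1 X' w)) ∂Wl :=
  (integral_sub (qcp_int μ b κ hW hg hg1 X) (qcp_int μ b κ hW hg hg1 X')).symm

theorem QQ_iter_le (hW : WProp n Wl) {D : Set (St n × St n)} (hD : InvD μ b κ D) {g : St n → ℝ}
    (hg : Measurable g) (hg1 : ∀ X, |g X| ≤ 1) {h : St n × St n → ℝ≥0∞}
    (hh : ∀ p ∈ D, ENNReal.ofReal |g p.1 - g p.2| ≤ h p) (N : ℕ) {p : St n × St n} (hp : p ∈ D) :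
    ENNReal.ofReal |(QQ μ b κ Wl)^[N] g p.1 - (QQ μ b κ Wl)^[N] g p.2| ≤
      (Qp μ b κ Wl)^[N] h p := by
  induction N generalizing p with
  | zero => exact hh p hp
  | succ N ih =>
    rw [Function.iterate_succ_apply', Function.iterate_succ_apply', qcp_sub μ b κ hW (measurable_QQ_iter μ b κ hW hg N) (abs_QQ_iter_le μ b κ hW hg1 N)]
    calc ENNReal.ofReal |∫ w, ((QQ μ b κ Wl)^[N] g (flow μ b κ 1 p.1 w) -
          (QQ μ b κ Wl)^[N] g (flow μ b κ 1 p.2 w)) ∂Wl|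
        = ‖∫ w, ((QQ μ b κ Wl)^[N] g (flow μ b κ 1 p.1 w) -
          (QQ μ b κ Wl)^[N] g (flow μ b κ 1 p.2 w)) ∂Wl‖ₑ := by
          rw [← Real.norm_eq_abs, ofReal_norm]
      _ ≤ ∫⁻ w, ‖((QQ μ b κ Wl)^[N] g (flow μ b κ 1 p.1 w) -
          (QQ μ b κ Wl)^[N] g (flow μ b κ 1 p.2 w))‖ₑ ∂Wl := enorm_integral_le_lintegral_enorm _
      _ ≤ Qp μ b κ Wl ((Qp μ b κ Wl)^[N] h) p := by
          refine lintegral_mono fun w => ?_
          rw [← ofReal_norm, Real.norm_eq_abs]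
          exact ih (hD p hp w)

theorem QQ_iter_ge (hW : WProp n Wl) {D : Set (St n × St n)} (hD : InvD μ b κ D) {g : St n → ℝ}
    (hg : Measurable g) (hg1 : ∀ X, |g X| ≤ 1) {h : St n × St n → ℝ≥0∞}
    (hle : ∀ p ∈ D, g p.2 ≤ g p.1)
    (hh : ∀ p ∈ D, h p ≤ ENNReal.ofReal (g p.1 - g p.2)) (N : ℕ) {p : St n × St n} (hp : p ∈ D) :
    (Qp μ b κ Wl)^[N] h p ≤
      ENNReal.ofReal ((QQ μ b κ Wl)^[N] g p.1 - (QQ μ b κ Wl)^[N] g p.2) := by
  suffices H : ∀ N : ℕ, ∀ p ∈ D, (QQ μ b κ Wl)^[N] g p.2 ≤ (QQ μ b κ Wl)^[N] g p.1 ∧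
      (Qp μ b κ Wl)^[N] h p ≤
        ENNReal.ofReal ((QQ μ b κ Wl)^[N] g p.1 - (QQ μ b κ Wl)^[N] g p.2) from
    (H N p hp).2
  intro N
  induction N with
  | zero => exact fun p hp => ⟨hle p hp, hh p hp⟩
  | succ N ih =>
    intro p hp
    have hm := measurable_QQ_iter μ b κ hW hg N
    have ha := abs_QQ_iter_le μ b κ hW hg1 N
    constructor
    · rw [Function.iterate_succ_apply']
      exact integral_mono (qcp_int μ b κ hW hm ha p.2) (qcp_int μ b κ hW hm ha p.1)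
        fun w => (ih _ (hD p hp w)).1
    · have hI : Integrable (fun w : Blk n => (QQ μ b κ Wl)^[N] g (flow μ b κ 1 p.1 w) -
          (QQ μ b κ Wl)^[N] g (flow μ b κ 1 p.2 w)) Wl :=
        (qcp_int μ b κ hW hm ha p.1).sub (qcp_int μ b κ hW hm ha p.2)
      rw [Function.iterate_succ_apply', Function.iterate_succ_apply', qcp_sub μ b κ hW hm ha,
        ofReal_integral_eq_lintegral_ofReal hI
          (Filter.Eventually.of_forall fun w => sub_nonneg.2 (ih _ (hD p hp w)).1)]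
      exact lintegral_mono fun w => (ih _ (hD p hp w)).2

end Pool.Agent.OYG
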