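import Pool.Agent.OYG.LB3
import Pool.Agent.OYG.QCP
import Pool.Agent.OYG.MKV

/-!
LB4: no exponent above `rate` is possible.

Fix `ε > 0`, gap vectors `x = 1`-vector scaled so that `toX b x` has first coordinate `2`, `x' = 0` (first coordinate `1`): e.g. `x 0 = log 2 / b`,
`x i = 0` otherwise; `p = (toX b x, toX b x') ∈ DD`. `low_moment` gives `K, c, N₀`. Let `g X = min (X 0) K / K` (`|·| ≤ 1` after clipping below at 0:
`g X = max 0 (min (X 0) K) / K`, measurable). On `DD`: `g q.2 ≤ g q.1`, and if `q.1 0 ≤ K` then `g q.1 - g q.2 = (q.1 0 - q.2 0)/K`. `QQ_iter_ge`,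
`Qp_iter_mul`: `(c/K) exp (-(rate+ε) N) ≤ QQ^[N] g p.1 - QQ^[N] g p.2` for `N ≥ N₀`. By `chain_law` the right side is
`∫ g (toX b y) dP.map (G x N) - ∫ g (toX b y) dP.map (G x' N)`, at most `C (W x + W x') exp (-δ N)` by `UnifErg` (compare both with `π`, test function
`g ∘ toX b`). Let `N → ∞`: `δ ≤ rate + ε`. (`n > 0`.)
-/

open MeasureTheory ProbabilityTheory Set Filter Topology
open scoped ENNReal NNReal

namespace Pool.Agent.OYG

variable {n : ℕ} (μ : Fin (n + 1) → ℝ) (a b : ℝ)

/-- comparison of exponentials -/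
theorem LB4_exp {c M r δ : ℝ} (hc : 0 < c) {N₀ : ℕ}
    (h : ∀ N : ℕ, N₀ ≤ N → c * Real.exp (-(r * N)) ≤ M * Real.exp (-(δ * N))) : δ ≤ r := by
  by_contra hlt
  push Not at hlt
  have hη : 0 < δ - r := by linarith
  obtain ⟨N₁, hN₁⟩ := exists_nat_gt (M / c / (δ - r))
  have h1 := h (max N₀ N₁) (le_max_left _ _)
  have hN : (N₁ : ℝ) ≤ ((max N₀ N₁ : ℕ) : ℝ) := by exact_mod_cast le_max_right N₀ N₁
  set N : ℝ := ((max N₀ N₁ : ℕ) : ℝ) with hNdef
  have h2 : c * Real.exp ((δ - r) * N) ≤ M := by
    have h3 : Real.exp ((δ - r) * N) = Real.exp (-(r * N)) * Real.exp (δ * N) := by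
      rw [← Real.exp_add]; congr 1; ring
    have h4 : Real.exp (-(δ * N)) * Real.exp (δ * N) = 1 := by
      rw [← Real.exp_add]; simp
    calc c * Real.exp ((δ - r) * N) = c * Real.exp (-(r * N)) * Real.exp (δ * N) := by
          rw [h3]; ring
      _ ≤ M * Real.exp (-(δ * N)) * Real.exp (δ * N) :=
          mul_le_mul_of_nonneg_right h1 (Real.exp_pos _).le
      _ = M := by rw [mul_assoc, h4, mul_one]
  have h5 : (δ - r) * N + 1 ≤ Real.exp ((δ - r) * N) := Real.add_one_le_exp _
  have h6 : M / c < (δ - r) * N := by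
    have h7 : M / c / (δ - r) < N := lt_of_lt_of_le hN₁ hN
    rw [div_lt_iff₀ hη] at h7
    linarith
  have h8 : M < c * ((δ - r) * N) := by
    rw [div_lt_iff₀ hc] at h6
    linarith
  nlinarith

theorem rate_le (hn : 0 < n) (ha : 0 < a) (hb : 0 < b) {Ω : Type*} [MeasurableSpace Ω] {P : Measure Ω}
    [IsProbabilityMeasure P]
    {B : Fin (n + 1) → ℝ≥0 → Ω → ℝ} (hB : IsBMd P n B) (hW : WProp n (P.map (blk B hB.cont 0)))
    {G : (Fin n → ℝ) → ℝ≥0 → Ω → Fin n → ℝ}
    (hG : ∀ x, IsGap n μ (fun y => a * Real.exp (-(b * y))) B x (G x)) {π : Measure (Fin n → ℝ)}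
    (hm : 0 < μ 0 - μ (Fin.succ ⟨0, hn⟩)) {δ : ℝ} (h : UnifErg P G π δ) :
    δ ≤ rate (μ 0 - μ (Fin.succ ⟨0, hn⟩)) b := by
  refine le_of_forall_pos_le_add fun ε hε => ?_
  obtain ⟨C, hC, W, hW1, hTV⟩ := h
  set i0 : Fin n := ⟨0, hn⟩ with hi0
  set r := rate (μ 0 - μ (Fin.succ i0)) b with hr
  have hκ : 0 < a * b := mul_pos ha hb
  -- the two starting points
  set x : Fin n → ℝ := fun i => if i = i0 then Real.log 2 / b else 0 with hx
  have hfil : (Finset.univ.filter (fun i : Fin n => i ≤ i0)) = {i0} := by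
    ext i
    simp only [Finset.mem_filter, Finset.mem_univ, true_and, Finset.mem_singleton]
    constructor
    · intro hi
      apply Fin.ext
      have : (i : ℕ) ≤ 0 := hi
      show (i : ℕ) = 0
      omega
    · rintro rfl; exact le_refl _
  have hX1 : toX b x i0 = 2 := by
    unfold toX
    rw [hfil, Finset.sum_singleton, hx]
    simp only [if_true]
    rw [mul_div_cancel₀ _ hb.ne', Real.exp_log (by norm_num)]
  have hX2 : toX b (0 : Fin n → ℝ) i0 = 1 := by
    unfold toX
    simp
  have hp : (toX b x, toX b (0 : Fin n → ℝ)) ∈ DD hn := by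
    refine ⟨toX_pos b x, toX_pos b 0, ?_⟩
    show toX b 0 i0 < toX b x i0
    rw [hX1, hX2]; norm_num
  obtain ⟨K, c, N₀, hK, hc, hlow⟩ := low_moment μ b (a * b) hn hb hκ hW hm hp hε
  set g : St n → ℝ := fun X => max 0 (min (X i0) K) / K with hg
  have hgm : Measurable g := by
    have h1 : Measurable fun X : St n => X i0 := measurable_pi_apply i0
    exact (measurable_const.max (h1.min measurable_const)).div_const K
  have hg1 : ∀ X, |g X| ≤ 1 := by
    intro X
    have h1 : 0 ≤ max 0 (min (X i0) K) := le_max_left _ _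
    have h2 : max 0 (min (X i0) K) ≤ K := max_le hK.le (min_le_right _ _)
    rw [hg]
    simp only
    rw [abs_of_nonneg (div_nonneg h1 hK.le), div_le_one hK]
    exact h2
  set h0 : St n × St n → ℝ≥0∞ := fun q => if q.1 i0 ≤ K then
    ENNReal.ofReal (q.1 i0 - q.2 i0) else 0 with hh0
  have hm0 : Measurable h0 := by
    have h1 : Measurable fun q : St n × St n => q.1 i0 := (measurable_pi_apply i0).comp measurable_fst
    have h2 : Measurable fun q : St n × St n => q.2 i0 := (measurable_pi_apply i0).comp measurable_snd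
    exact Measurable.ite (measurableSet_le h1 measurable_const)
      (h1.sub h2).ennreal_ofReal measurable_const
  have hD := invD_DD (n := n) μ b (a * b) hn hκ.le
  have key : ∀ N : ℕ, N₀ ≤ N → c / K * Real.exp (-((r + ε) * N)) ≤
      (C * (W x + W 0)) * Real.exp (-(δ * N)) := by
    intro N hN
    have h1 := QQ_iter_ge μ b (a * b) hW hD hgm hg1 (h := fun q => ENNReal.ofReal (1 / K) * h0 q)
      ?_ ?_ N hp
    · have h2 := Qp_iter_mul μ b (a * b) hW hm0 (ENNReal.ofReal (1 / K)) N
        (toX b x, toX b (0 : Fin n → ℝ))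
      rw [h2] at h1
      have h3 := mul_le_mul_right (hlow N hN) (ENNReal.ofReal (1 / K))
      have h4 := h3.trans h1
      rw [← ENNReal.ofReal_mul (by positivity)] at h4
      have h5 : 0 < 1 / K * (c * Real.exp (-((r + ε) * N))) := by positivity
      have h6 : 1 / K * (c * Real.exp (-((r + ε) * N))) ≤
          (QQ μ b (a * b) (P.map (blk B hB.cont 0)))^[N] g (toX b x) -
          (QQ μ b (a * b) (P.map (blk B hB.cont 0)))^[N] g (toX b 0) := by
        rcases le_or_gt ((QQ μ b (a * b) (P.map (blk B hB.cont 0)))^[N] g (toX b x) -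
          (QQ μ b (a * b) (P.map (blk B hB.cont 0)))^[N] g (toX b 0)) 0 with h7 | h7
        · exfalso
          have h8 := ENNReal.ofReal_of_nonpos h7
          simp only at h4
          rw [h8, nonpos_iff_eq_zero, ENNReal.ofReal_eq_zero] at h4
          linarith
        · exact (ENNReal.ofReal_le_ofReal_iff h7.le).1 h4
      rw [← chain_law μ a b hb hB hW (hG x) N hgm hg1,
        ← chain_law μ a b hb hB hW (hG 0) N hgm hg1] at h6
      have hgt : Measurable fun y : Fin n → ℝ => g (toX b y) := hgm.comp (measurable_toX b)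
      have h8 := hTV x N _ hgt (fun y => hg1 _)
      have h9 := hTV 0 N _ hgt (fun y => hg1 _)
      rw [integral_map ((hG x).meas N).aemeasurable hgt.aestronglyMeasurable] at h8
      rw [integral_map ((hG 0).meas N).aemeasurable hgt.aestronglyMeasurable] at h9
      have h10 := abs_le.1 h8
      have h11 := abs_le.1 h9
      have h12 : ((N : ℝ≥0) : ℝ) = (N : ℝ) := by simp
      rw [h12] at h10 h11
      have h13 : c / K * Real.exp (-((r + ε) * N)) =
          1 / K * (c * Real.exp (-((r + ε) * N))) := by ring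
      rw [h13]
      refine h6.trans ?_
      have h14 : C * (W x + W 0) * Real.exp (-(δ * N)) =
          C * W x * Real.exp (-(δ * N)) + C * W 0 * Real.exp (-(δ * N)) := by ring
      rw [h14]
      linarith [h10.2, h11.1]
    · intro q hq
      have h2 : q.2 i0 ≤ q.1 i0 := hq.2.2.le
      exact div_le_div_of_nonneg_right
        (max_le_max le_rfl (min_le_min h2 le_rfl)) hK.le
    · intro q hq
      have h2 : q.2 i0 < q.1 i0 := hq.2.2
      have h3 : 0 < q.2 i0 := hq.2.1 i0
      by_cases h4 : q.1 i0 ≤ K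
      · have h5 : h0 q = ENNReal.ofReal (q.1 i0 - q.2 i0) := by
          rw [hh0]; simp only; rw [if_pos h4]
        have h6 : g q.1 = q.1 i0 / K := by
          rw [hg]; simp only; rw [min_eq_left h4, max_eq_right (by linarith)]
        have h7 : g q.2 = q.2 i0 / K := by
          rw [hg]; simp only; rw [min_eq_left (by linarith), max_eq_right h3.le]
        rw [h5, h6, h7, ← ENNReal.ofReal_mul (by positivity)]
        apply ENNReal.ofReal_le_ofReal
        apply le_of_eq; ring
      · have h5 : h0 q = 0 := by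
          rw [hh0]; simp only; rw [if_neg h4]
        rw [h5, mul_zero]
        exact bot_le
  exact LB4_exp (c := c / K) (by positivity) key

end Pool.Agent.OYG
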