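import Pool.Agent.OYG.Defs

/-!
RAT: the maximum of `θ b m - θ² b²` over `(0,1]`: `θ = m/(2b)` if `m ≤ 2b` (value `m²/4`), `θ = 1` otherwise (value `b (m - b)`).
-/

namespace Pool.Agent.OYG

theorem exists_theta {m b : ℝ} (hm : 0 < m) (hb : 0 < b) :
    0 < rate m b ∧ ∃ θ : ℝ, 0 < θ ∧ θ ≤ 1 ∧ θ * b * m - θ ^ 2 * b ^ 2 = rate m b := by
  unfold rate
  split_ifs with h
  · refine ⟨by positivity, m / (2 * b), by positivity, ?_, ?_⟩
    · rw [div_le_one (by positivity)]
      exact h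
    · field_simp
      ring
  · have h' : 2 * b < m := not_le.mp h
    refine ⟨mul_pos hb (by linarith), 1, one_pos, le_refl _, ?_⟩
    ring

end Pool.Agent.OYG
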