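import Pool.Agent.OYG.WLA

/-!
WMG: exponential moments of the relative increments: `inc w j = B_{j+1}(1) - B_0(1)` for `w = blk 0`, a difference of two
independent standard Gaussian variables, so `E exp (c inc) = exp (c²/2) exp (c²/2)` (`mgf_gaussianReal`, `IndepFun.mgf_add` or
`gaussianReal_sub…`; convert between `∫⁻ ofReal` and `∫` with `ofReal_integral_eq_lintegral_ofReal`).
-/

open MeasureTheory ProbabilityTheory Set Filter Topology
open scoped ENNReal NNReal

namespace Pool.Agent.OYG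

variable {n : ℕ}

private theorem wmg_one {Ω : Type*} [MeasurableSpace Ω] {P : Measure Ω}
    {X : Ω → ℝ} (hX : HasLaw X (gaussianReal 0 1) P) (hm : Measurable X) (c : ℝ) :
    ∫⁻ ω, ENNReal.ofReal (Real.exp (c * X ω)) ∂P = ENNReal.ofReal (Real.exp (c ^ 2 / 2)) := by
  have h1 : ∫⁻ ω, ENNReal.ofReal (Real.exp (c * X ω)) ∂P =
      ∫⁻ x, ENNReal.ofReal (Real.exp (c * x)) ∂(gaussianReal 0 1) := by
    rw [← hX.map_eq, lintegral_map (by fun_prop) hm]
  rw [h1, ← ofReal_integral_eq_lintegral_ofReal (integrable_exp_mul_gaussianReal c)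
    (Filter.Eventually.of_forall fun x => (Real.exp_pos _).le)]
  have h2 := mgf_gaussianReal (p := gaussianReal 0 1) (X := id) (μ := 0) (v := 1)
    (by rw [Measure.map_id]) c
  rw [mgf] at h2
  simp only [id] at h2
  rw [h2]
  simp

theorem inc_mgf {Ω : Type*} [MeasurableSpace Ω] {P : Measure Ω} [IsProbabilityMeasure P]
    {B : Fin (n + 1) → ℝ≥0 → Ω → ℝ} (hB : IsBMd P n B) (j : Fin n) (c : ℝ) :
    ∫⁻ w, ENNReal.ofReal (Real.exp (c * inc w j)) ∂(P.map (blk B hB.cont 0)) =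
      ENNReal.ofReal (Real.exp (c ^ 2)) := by
  have hmeas : Measurable fun w : Blk n => ENNReal.ofReal (Real.exp (c * inc w j)) :=
    ENNReal.measurable_ofReal.comp (Real.measurable_exp.comp ((measurable_inc j).const_mul c))
  rw [lintegral_map hmeas (measurable_blk hB 0)]
  have hev : ∀ i ω, blk B hB.cont 0 ω i 1 = B i 1 ω := by
    intro i ω
    have e : (((0 : ℕ) : ℝ≥0) + ⟨((1 : unitInterval) : ℝ), (1 : unitInterval).2.1⟩) = 1 := by
      rw [Nat.cast_zero, zero_add]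
      exact NNReal.eq rfl
    show B i (((0 : ℕ) : ℝ≥0) + ⟨((1 : unitInterval) : ℝ), (1 : unitInterval).2.1⟩) ω -
      B i ((0 : ℕ) : ℝ≥0) ω = B i 1 ω
    rw [e, Nat.cast_zero, hB.zero, sub_zero]
  have h1 : ∀ ω, ENNReal.ofReal (Real.exp (c * inc (blk B hB.cont 0 ω) j)) =
      ENNReal.ofReal (Real.exp (c * B j.succ 1 ω)) *
        ENNReal.ofReal (Real.exp ((-c) * B 0 1 ω)) := by
    intro ω
    unfold inc
    rw [hev, hev, ← ENNReal.ofReal_mul (Real.exp_pos _).le, ← Real.exp_add]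
    congr 2
    ring
  simp only [h1]
  have hind : IndepFun (B j.succ 1) (B 0 1) P := by
    have h := hB.indep.comp (fun _ (f : ℝ≥0 → ℝ) => f 1) (fun _ => measurable_pi_apply 1)
    exact h.indepFun (Fin.succ_ne_zero j)
  have hm : ∀ a : ℝ, Measurable fun x : ℝ => ENNReal.ofReal (Real.exp (a * x)) := fun a =>
    ENNReal.measurable_ofReal.comp (Real.measurable_exp.comp (measurable_id.const_mul a))
  have hind2 : IndepFun (fun ω => ENNReal.ofReal (Real.exp (c * B j.succ 1 ω)))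
      (fun ω => ENNReal.ofReal (Real.exp ((-c) * B 0 1 ω))) P :=
    hind.comp (hm c) (hm (-c))
  have h2 := lintegral_mul_eq_lintegral_mul_lintegral_of_indepFun
    ((hm c).comp (hB.meas j.succ 1)) ((hm (-c)).comp (hB.meas 0 1)) hind2
  have h3 : ∫⁻ ω, ENNReal.ofReal (Real.exp (c * B j.succ 1 ω)) *
        ENNReal.ofReal (Real.exp ((-c) * B 0 1 ω)) ∂P =
      (∫⁻ ω, ENNReal.ofReal (Real.exp (c * B j.succ 1 ω)) ∂P) *
        ∫⁻ ω, ENNReal.ofReal (Real.exp ((-c) * B 0 1 ω)) ∂P := h2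
  rw [h3, wmg_one ((hB.brownian j.succ).hasLaw_eval 1) (hB.meas j.succ 1) c,
    wmg_one ((hB.brownian 0).hasLaw_eval 1) (hB.meas 0 1) (-c),
    ← ENNReal.ofReal_mul (Real.exp_pos _).le, ← Real.exp_add]
  congr 2
  ring

end Pool.Agent.OYG
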