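import Pool.Agent.OYG.WLA

/-!
WOS: exponential moments of the norm of a Brownian path, and of the block.

`rot_path`: with `ν = P.map (bpath X hX)` the measure `ν.prod ν` is invariant under the rotation by `-π/4`: `path_ext2`; for finite
`J ⊆ unitInterval` the law of `(f t)_{t ∈ J}` under `ν` is a centred Gaussian law on `J → ℝ` (image of `projectiveFamily`, see
`bpath_law`), and for it the invariance is `IsGaussian.map_rotation_eq_self_of_forall_strongDual_eq_zero` (Mathlib
`Gaussian/Fernique.lean`); restriction to `J` commutes with the rotation (it is linear). Then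
`exists_integrable_exp_sq_of_map_rotation_eq_self` (Fernique) gives `∫ exp (C ‖f‖²) dν < ∞` with `C > 0`, hence `∫ exp (c ‖f‖) dν < ∞` for
every `c` since `c r ≤ C r² + c²/(4 C)`. (Alternative to Fernique: Doob / Lévy maximal inequality on dyadic grids.)
`osc_exp`: `exp (c osc w) ≤ Σ_k exp (|c| (n+1) ‖w k‖)`, and the lines of the block have the laws of `bpath (B k)`.
-/

open MeasureTheory ProbabilityTheory Set Filter Topology
open scoped ENNReal NNReal

namespace Pool.Agent.OYG

private noncomputable def wosR (J : Finset unitInterval) (f : C(unitInterval, ℝ)) : J → ℝ :=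
  J.restrict (f : unitInterval → ℝ)

private theorem wosR_measurable (J : Finset unitInterval) : Measurable (wosR J) := by
  refine measurable_pi_lambda _ fun j => ?_
  exact (continuous_eval_const (F := C(unitInterval, ℝ)) (j : unitInterval)).measurable

/-- The marginals are centred Gaussian. -/
private theorem wos_marg {Ω : Type*} [MeasurableSpace Ω] {P : Measure Ω} [IsProbabilityMeasure P]
    (X : ℝ≥0 → Ω → ℝ) (hX : ∀ ω, Continuous fun t => X t ω) (hm : ∀ t, Measurable (X t))
    (h : IsBrownianReal X P) (J : Finset unitInterval) :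
    IsGaussian ((P.map (bpath X hX)).map (wosR J)) ∧
      ((P.map (bpath X hX)).map (wosR J))[id] = 0 := by
  have hb : Measurable (bpath X hX) := measurable_bpath X hX hm
  have h1 : (P.map (bpath X hX)).map (wosR J) = P.map (fun ω => J.restrict
      ((X ∘ (fun s : unitInterval => (⟨(s : ℝ), s.2.1⟩ : ℝ≥0))) · ω)) := by
    rw [Measure.map_map (wosR_measurable J) hb]
    rfl
  have h2 := (h.isGaussianProcess.comp_right
    (fun s : unitInterval => (⟨(s : ℝ), s.2.1⟩ : ℝ≥0))).hasGaussianLaw J
  have h3 : IsGaussian ((P.map (bpath X hX)).map (wosR J)) := by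
    rw [h1]
    exact h2.isGaussian_map
  refine ⟨h3, ?_⟩
  have h4 : Integrable id ((P.map (bpath X hX)).map (wosR J)) := IsGaussian.integrable_id
  funext j
  rw [eval_integral]
  · simp only [id_eq, Pi.zero_apply]
    rw [integral_map (wosR_measurable J).aemeasurable
      (measurable_pi_apply j).aestronglyMeasurable,
      integral_map hb.aemeasurable]
    · exact h.integral_eval ⟨((j : unitInterval) : ℝ), (j : unitInterval).2.1⟩
    · exact ((measurable_pi_apply j).comp (wosR_measurable J)).aestronglyMeasurable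
  · intro i
    exact (ContinuousLinearMap.proj (R := ℝ) (φ := fun _ : J => ℝ) i).integrable_comp h4

private theorem wos_rot {Ω : Type*} [MeasurableSpace Ω] {P : Measure Ω} [IsProbabilityMeasure P]
    (X : ℝ≥0 → Ω → ℝ) (hX : ∀ ω, Continuous fun t => X t ω) (hm : ∀ t, Measurable (X t))
    (h : IsBrownianReal X P) (θ : ℝ) :
    (((P.map (bpath X hX)).prod (P.map (bpath X hX))).map (ContinuousLinearMap.rotation θ)) =
      (P.map (bpath X hX)).prod (P.map (bpath X hX)) := by
  have hb : Measurable (bpath X hX) := measurable_bpath X hX hm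
  have : IsProbabilityMeasure (P.map (bpath X hX)) :=
    Measure.isProbabilityMeasure_map hb.aemeasurable
  set ν := P.map (bpath X hX) with hν
  have hrot : Measurable (ContinuousLinearMap.rotation (E := C(unitInterval, ℝ)) θ) :=
    (ContinuousLinearMap.continuous _).measurable
  have : IsProbabilityMeasure ((ν.prod ν).map (ContinuousLinearMap.rotation θ)) :=
    Measure.isProbabilityMeasure_map hrot.aemeasurable
  refine path_ext2 _ _ fun J => ?_
  obtain ⟨hG, h0⟩ := wos_marg X hX hm h J
  have hRR : Measurable (fun p : C(unitInterval, ℝ) × C(unitInterval, ℝ) =>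
      (J.restrict (p.1 : unitInterval → ℝ), J.restrict (p.2 : unitInterval → ℝ))) :=
    ((wosR_measurable J).comp measurable_fst).prodMk ((wosR_measurable J).comp measurable_snd)
  have hprod : (ν.prod ν).map (fun p : C(unitInterval, ℝ) × C(unitInterval, ℝ) =>
      (J.restrict (p.1 : unitInterval → ℝ), J.restrict (p.2 : unitInterval → ℝ))) =
      (ν.map (wosR J)).prod (ν.map (wosR J)) := by
    rw [Measure.map_prod_map _ _ (wosR_measurable J) (wosR_measurable J)]
    rfl
  rw [Measure.map_map hRR hrot, hprod]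
  have hcomm : (fun p : C(unitInterval, ℝ) × C(unitInterval, ℝ) =>
      (J.restrict (p.1 : unitInterval → ℝ), J.restrict (p.2 : unitInterval → ℝ))) ∘
      (ContinuousLinearMap.rotation (E := C(unitInterval, ℝ)) θ) =
      (ContinuousLinearMap.rotation (E := (J → ℝ)) θ) ∘
      (fun p : C(unitInterval, ℝ) × C(unitInterval, ℝ) =>
      (J.restrict (p.1 : unitInterval → ℝ), J.restrict (p.2 : unitInterval → ℝ))) := by
    funext p
    simp only [Function.comp_apply, ContinuousLinearMap.rotation_apply]
    rfl
  rw [hcomm, ← Measure.map_map (ContinuousLinearMap.continuous _).measurable hRR, hprod]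
  exact IsGaussian.map_rotation_eq_self h0 θ

theorem path_exp {Ω : Type*} [MeasurableSpace Ω] {P : Measure Ω} [IsProbabilityMeasure P]
    (X : ℝ≥0 → Ω → ℝ) (hX : ∀ ω, Continuous fun t => X t ω) (hm : ∀ t, Measurable (X t))
    (h : IsBrownianReal X P) (c : ℝ) :
    ∫⁻ f, ENNReal.ofReal (Real.exp (c * ‖f‖)) ∂(P.map (bpath X hX)) < ∞ := by
  have hb : Measurable (bpath X hX) := measurable_bpath X hX hm
  have : IsProbabilityMeasure (P.map (bpath X hX)) :=
    Measure.isProbabilityMeasure_map hb.aemeasurable
  obtain ⟨C, hC, hint⟩ := exists_integrable_exp_sq_of_map_rotation_eq_self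
    (wos_rot X hX hm h (-(Real.pi / 4)))
  have h1 := (hint.const_mul (Real.exp (c ^ 2 / (4 * C)))).lintegral_lt_top
  refine lt_of_le_of_lt (lintegral_mono fun f => ?_) h1
  refine ENNReal.ofReal_le_ofReal ?_
  rw [← Real.exp_add, Real.exp_le_exp]
  have h2 : 0 ≤ C * (‖f‖ - c / (2 * C)) ^ 2 := by positivity
  have h3 : C * (‖f‖ - c / (2 * C)) ^ 2 = c ^ 2 / (4 * C) + C * ‖f‖ ^ 2 - c * ‖f‖ := by
    field_simp
    ring
  linarith

variable {n : ℕ}

theorem osc_exp {Ω : Type*} [MeasurableSpace Ω] {P : Measure Ω} [IsProbabilityMeasure P]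
    {B : Fin (n + 1) → ℝ≥0 → Ω → ℝ} (hB : IsBMd P n B) (c : ℝ) :
    ∫⁻ w, ENNReal.ofReal (Real.exp (c * osc w)) ∂(P.map (blk B hB.cont 0)) < ∞ := by
  have hm := measurable_blk hB 0
  have hosc : Measurable (fun w : Blk n => osc w) := by
    unfold osc
    exact Finset.measurable_sum _ fun k _ => (measurable_pi_apply k).norm
  rw [lintegral_map (by fun_prop) hm]
  have hblk : ∀ ω k, blk B hB.cont 0 ω k = bpath (B k) (hB.cont k) ω := by
    intro ω k
    ext s
    simp only [blk, bpath, ContinuousMap.coe_mk, Nat.cast_zero, zero_add, hB.zero, sub_zero]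
  have hle : ∀ ω, ENNReal.ofReal (Real.exp (c * osc (blk B hB.cont 0 ω))) ≤
      ∑ k, ENNReal.ofReal (Real.exp ((|c| * (n + 1)) * ‖bpath (B k) (hB.cont k) ω‖)) := by
    intro ω
    obtain ⟨k, -, hk⟩ := Finset.exists_max_image Finset.univ
      (fun k : Fin (n + 1) => ‖blk B hB.cont 0 ω k‖) Finset.univ_nonempty
    refine le_trans ?_ (Finset.single_le_sum (f := fun k => ENNReal.ofReal
      (Real.exp ((|c| * (n + 1)) * ‖bpath (B k) (hB.cont k) ω‖))) (fun _ _ => bot_le)
      (Finset.mem_univ k))
    refine ENNReal.ofReal_le_ofReal (Real.exp_le_exp.mpr ?_)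
    rw [← hblk ω k]
    have h1 : osc (blk B hB.cont 0 ω) ≤ (n + 1) * ‖blk B hB.cont 0 ω k‖ := by
      unfold osc
      refine (Finset.sum_le_card_nsmul _ _ _ fun j hj => hk j hj).trans ?_
      simp
    have h0 : 0 ≤ osc (blk B hB.cont 0 ω) := Finset.sum_nonneg fun _ _ => norm_nonneg _
    calc c * osc (blk B hB.cont 0 ω) ≤ |c| * osc (blk B hB.cont 0 ω) :=
          mul_le_mul_of_nonneg_right (le_abs_self c) h0
      _ ≤ |c| * ((n + 1) * ‖blk B hB.cont 0 ω k‖) :=
          mul_le_mul_of_nonneg_left h1 (abs_nonneg c)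
      _ = _ := by ring
  refine lt_of_le_of_lt (lintegral_mono hle) ?_
  rw [lintegral_finsetSum']
  · refine ENNReal.sum_lt_top.mpr fun k _ => ?_
    have h1 := path_exp (B k) (hB.cont k) (hB.meas k) (hB.brownian k) (|c| * (n + 1))
    rw [lintegral_map (by fun_prop) (measurable_bpath (B k) (hB.cont k) (hB.meas k))] at h1
    exact h1
  · intro k _
    have h2 := measurable_bpath (B k) (hB.cont k) (hB.meas k)
    exact (by fun_prop : Measurable fun ω => ENNReal.ofReal
      (Real.exp ((|c| * (n + 1)) * ‖bpath (B k) (hB.cont k) ω‖))).aemeasurable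

end Pool.Agent.OYG
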