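import Pool.Agent.OYG.WRE
import Pool.Agent.OYG.WOS
import Pool.Agent.OYG.WMG

/-!
WPR: the law of the unit block has the properties `WProp` (assembly of WRE, WOS, WMG; `zero`: the block starts at `B i 0 - B i 0 = 0`).
-/

open MeasureTheory ProbabilityTheory Set Filter Topology
open scoped ENNReal NNReal

namespace Pool.Agent.OYG

variable {n : ℕ}

theorem wprop {Ω : Type*} [MeasurableSpace Ω] {P : Measure Ω} [IsProbabilityMeasure P]
    {B : Fin (n + 1) → ℝ≥0 → Ω → ℝ} (hB : IsBMd P n B) : WProp n (P.map (blk B hB.cont 0)) where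
  prob := Measure.isProbabilityMeasure_map (measurable_blk hB 0).aemeasurable
  zero := by
    have hm : MeasurableSet {w : Blk n | ∀ i, w i 0 = 0} := by
      have h : {w : Blk n | ∀ i, w i 0 = 0} = ⋂ i, {w : Blk n | w i 0 = 0} := by
        ext w; simp
      rw [h]
      refine MeasurableSet.iInter fun i => ?_
      have h1 : Measurable fun w : Blk n => w i 0 :=
        (continuous_eval_const (F := C(unitInterval, ℝ)) (0 : unitInterval)).measurable.comp
          (measurable_pi_apply i)
      exact h1 (measurableSet_singleton 0)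
    rw [ae_map_iff (measurable_blk hB 0).aemeasurable hm]
    refine ae_of_all _ fun ω i => ?_
    have h0 : (((0 : ℕ) : ℝ≥0) + ⟨((0 : unitInterval) : ℝ), (0 : unitInterval).2.1⟩ : ℝ≥0) =
        ((0 : ℕ) : ℝ≥0) := by
      apply NNReal.eq
      show (((0 : ℕ) : ℝ≥0) : ℝ) + ((0 : unitInterval) : ℝ) = (((0 : ℕ) : ℝ≥0) : ℝ)
      simp
    show B i (((0 : ℕ) : ℝ≥0) + ⟨((0 : unitInterval) : ℝ), (0 : unitInterval).2.1⟩) ω -
      B i ((0 : ℕ) : ℝ≥0) ω = 0
    rw [h0, sub_self]
  osc := osc_exp hB
  mgf := inc_mgf hB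
  res := fun i F hF h1 => resample hB i F hF h1

end Pool.Agent.OYG
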