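import Pool.Agent.OYG.UEX
import Pool.Agent.OYG.LB4
import Pool.Agent.OYG.WPR
import Pool.Agent.OYG.RAT

/-!
FIN: the exact rate. Upper bound for the exponents: `rate_le`; every `δ < rate` is an exponent: `unif_erg` with `θ` from
`exists_theta` and `m = μ 0 - μ 1` (`μ` is decreasing, so `m ≤ μ 0 - μ j.succ` for all `j`).
-/

open MeasureTheory ProbabilityTheory Set Filter Topology
open scoped ENNReal NNReal

namespace Pool.Agent.OYG

theorem exact_rate {Ω : Type*} [MeasurableSpace Ω] (P : Measure Ω) [IsProbabilityMeasure P]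
    (n : ℕ) (hn : 0 < n) (μ : Fin (n + 1) → ℝ) (hμ : ∀ i : Fin n, μ i.succ < μ i.castSucc)
    (a b : ℝ) (ha : 0 < a) (hb : 0 < b)
    (B : Fin (n + 1) → ℝ≥0 → Ω → ℝ) (hB : IsBMd P n B)
    (G : (Fin n → ℝ) → ℝ≥0 → Ω → Fin n → ℝ)
    (hG : ∀ x, IsGap n μ (fun y => a * Real.exp (-(b * y))) B x (G x)) (π : Measure (Fin n → ℝ))
    (hπ : IsStat P G π) :
    IsLUB {δ : ℝ | 0 < δ ∧ UnifErg P G π δ} (rate (μ 0 - μ (Fin.succ ⟨0, hn⟩)) b) := by
  have hmono : ∀ j : Fin n, μ j.succ ≤ μ (Fin.succ ⟨0, hn⟩) := by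
    have hanti : Antitone μ := Fin.antitone_iff_succ_le.2 fun i => (hμ i).le
    intro j
    exact hanti (Fin.succ_le_succ_iff.2 (Nat.zero_le _))
  have hm : 0 < μ 0 - μ (Fin.succ ⟨0, hn⟩) := by
    have := hμ ⟨0, hn⟩
    have h0 : (Fin.castSucc ⟨0, hn⟩ : Fin (n + 1)) = 0 := rfl
    rw [h0] at this
    linarith
  have hW := wprop hB
  obtain ⟨hr, θ, h0, h1, hθ⟩ := exists_theta hm hb
  refine ⟨fun δ hδ => rate_le μ a b hn ha hb hB hW hG hm hδ.2, fun u hu => ?_⟩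
  by_contra hlt
  push Not at hlt
  have h2 : max u 0 < rate (μ 0 - μ (Fin.succ ⟨0, hn⟩)) b := max_lt hlt hr
  obtain ⟨δ, hδ1, hδ2⟩ := exists_between h2
  have h3 : UnifErg P G π δ := by
    refine unif_erg μ a b ha hb hB hW hG hπ h0 h1 (m := μ 0 - μ (Fin.succ ⟨0, hn⟩)) (fun j => ?_)
      (by rw [hθ]; exact hr) (by rw [hθ]; exact hδ2)
    have := hmono j
    linarith
  have h4 := hu ⟨lt_of_le_of_lt (le_max_right _ _) hδ1, h3⟩
  have h5 := lt_of_le_of_lt (le_max_left u 0) hδ1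
  linarith

end Pool.Agent.OYG
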