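import Pool.Agent.OYG.Defs

/-!
GSH: a standard Gaussian variable and its image under a diffeomorphism close to the identity are close in total variation.

`σ` is strictly increasing (positive derivative) and surjective (`|σ - id|` bounded, continuous). Change of variables
(`integral_image_eq_integral_abs_deriv_smul` on `univ`): `∫ G(y) φ(y) dy = ∫ G(σ(η)) φ(σ(η)) σ'(η) dη`, so the difference is at most
`∫ |φ(η) - φ(σ(η)) σ'(η)| dη`, and `φ(σ)σ'/φ = exp ((η² - σ²)/2) σ' ∈ [exp (-ε q(η)), exp (ε q(η))]` with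
`q(η) = 2 + |η|/b + 1/(2b²)` (`ε ≤ 1`); for `0 ≤ ε ≤ 1`: `|exp (± ε q) - 1| ≤ ε exp q`, and `∫ exp (q(η)) φ(η) dη < ∞`.
`gaussianReal 0 1` is `volume.withDensity (gaussianPDF 0 1)`.
-/

open MeasureTheory ProbabilityTheory Set Filter Topology
open scoped ENNReal NNReal

namespace Pool.Agent.OYG

private noncomputable def GSHq (b η : ℝ) : ℝ := 2 + |η| / b + 1 / (2 * b ^ 2)

private theorem GSH_int {b : ℝ} (_hb : 0 < b) :
    Integrable (fun η => Real.exp (GSHq b η)) (gaussianReal 0 1) := by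
  have h1 : Integrable (fun η : ℝ => Real.exp ((1 / b) * η)) (gaussianReal 0 1) :=
    integrable_exp_mul_gaussianReal (1 / b)
  have h2 : Integrable (fun η : ℝ => Real.exp ((-(1 / b)) * η)) (gaussianReal 0 1) :=
    integrable_exp_mul_gaussianReal (-(1 / b))
  have h3 := (h1.add h2).const_mul (Real.exp (2 + 1 / (2 * b ^ 2)))
  refine h3.mono' ?_ ?_
  · apply Measurable.aestronglyMeasurable
    unfold GSHq
    fun_prop
  · refine Eventually.of_forall fun η => ?_
    rw [Real.norm_eq_abs, abs_of_pos (Real.exp_pos _)]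
    simp only [Pi.add_apply]
    have e : GSHq b η = (2 + 1 / (2 * b ^ 2)) + |η| / b := by unfold GSHq; ring
    rw [e, Real.exp_add]
    apply mul_le_mul_of_nonneg_left _ (Real.exp_pos _).le
    rcases abs_cases η with ⟨ha, _⟩ | ⟨ha, _⟩
    · rw [ha]
      have : η / b = 1 / b * η := by ring
      rw [this]
      have := Real.exp_pos (-(1 / b) * η)
      linarith
    · rw [ha]
      have : -η / b = -(1 / b) * η := by ring
      rw [this]
      have := Real.exp_pos (1 / b * η)
      linarith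

private theorem GSH_ptw {b ε η s s' : ℝ} (hb : 0 < b) (h0 : 0 ≤ ε) (h1 : ε ≤ 1)
    (hl : Real.exp (-(2 * ε)) ≤ s') (hu : s' ≤ Real.exp (2 * ε)) (hs : |s - η| ≤ ε / b) :
    Real.exp ((η ^ 2 - s ^ 2) / 2) * s' ≤ Real.exp (ε * GSHq b η) ∧
      Real.exp (-(ε * GSHq b η)) ≤ Real.exp ((η ^ 2 - s ^ 2) / 2) * s' := by
  have hd : 0 ≤ ε / b := by positivity
  have hε2 : ε ^ 2 ≤ ε := by nlinarith
  have hkey : |(η ^ 2 - s ^ 2) / 2| ≤ ε * (|η| / b + 1 / (2 * b ^ 2)) := by
    have e1 : (η ^ 2 - s ^ 2) / 2 = -((s - η) * (s + η)) / 2 := by ring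
    have e2 : |s + η| ≤ 2 * |η| + ε / b := by
      have : s + η = (s - η) + 2 * η := by ring
      rw [this]
      refine (abs_add_le _ _).trans ?_
      rw [abs_mul, abs_two]
      linarith
    have e3 : |(η ^ 2 - s ^ 2) / 2| = |s - η| * |s + η| / 2 := by
      rw [e1, abs_div, abs_neg, abs_mul, abs_two]
    rw [e3]
    have e4 : |s - η| * |s + η| ≤ (ε / b) * (2 * |η| + ε / b) :=
      mul_le_mul hs e2 (abs_nonneg _) hd
    have e5 : (ε / b) * (2 * |η| + ε / b) / 2 = ε * (|η| / b) + ε ^ 2 * (1 / (2 * b ^ 2)) := by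
      field_simp
    have e6 : ε ^ 2 * (1 / (2 * b ^ 2)) ≤ ε * (1 / (2 * b ^ 2)) :=
      mul_le_mul_of_nonneg_right hε2 (by positivity)
    calc |s - η| * |s + η| / 2 ≤ (ε / b) * (2 * |η| + ε / b) / 2 := by linarith
      _ = ε * (|η| / b) + ε ^ 2 * (1 / (2 * b ^ 2)) := e5
      _ ≤ ε * (|η| / b) + ε * (1 / (2 * b ^ 2)) := by linarith
      _ = ε * (|η| / b + 1 / (2 * b ^ 2)) := by ring
  have hq : ε * GSHq b η = ε * (|η| / b + 1 / (2 * b ^ 2)) + 2 * ε := by
    unfold GSHq; ring
  have k1 := (abs_le.mp hkey).1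
  have k2 := (abs_le.mp hkey).2
  constructor
  · calc Real.exp ((η ^ 2 - s ^ 2) / 2) * s'
        ≤ Real.exp ((η ^ 2 - s ^ 2) / 2) * Real.exp (2 * ε) :=
          mul_le_mul_of_nonneg_left hu (Real.exp_pos _).le
      _ = Real.exp ((η ^ 2 - s ^ 2) / 2 + 2 * ε) := by rw [Real.exp_add]
      _ ≤ Real.exp (ε * GSHq b η) := by
          apply Real.exp_le_exp.mpr
          rw [hq]
          linarith
  · calc Real.exp (-(ε * GSHq b η))
        ≤ Real.exp ((η ^ 2 - s ^ 2) / 2 + -(2 * ε)) := by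
          apply Real.exp_le_exp.mpr
          rw [hq]
          linarith
      _ = Real.exp ((η ^ 2 - s ^ 2) / 2) * Real.exp (-(2 * ε)) := by rw [Real.exp_add]
      _ ≤ Real.exp ((η ^ 2 - s ^ 2) / 2) * s' :=
          mul_le_mul_of_nonneg_left hl (Real.exp_pos _).le

private theorem GSH_abs {ε q R : ℝ} (h0 : 0 ≤ ε) (h1 : ε ≤ 1) (_hq : 0 ≤ q)
    (hu : R ≤ Real.exp (ε * q)) (hl : Real.exp (-(ε * q)) ≤ R) : |R - 1| ≤ ε * Real.exp q := by
  have hc : Real.exp (ε * q) ≤ ε * Real.exp q + (1 - ε) := by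
    have := convexOn_exp.2 (Set.mem_univ q) (Set.mem_univ 0) h0 (by linarith : 0 ≤ 1 - ε)
      (by ring)
    simp only [smul_eq_mul, mul_zero, add_zero, Real.exp_zero, mul_one] at this
    exact this
  have h2 : 1 - ε * q ≤ Real.exp (-(ε * q)) := by
    have := Real.add_one_le_exp (-(ε * q))
    linarith
  have h3 : q ≤ Real.exp q := by
    have := Real.add_one_le_exp q
    linarith
  rw [abs_le]
  constructor
  · have : ε * q ≤ ε * Real.exp q := mul_le_mul_of_nonneg_left h3 h0
    linarith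
  · linarith

theorem gauss_shift {b : ℝ} (hb : 0 < b) : ∃ C : ℝ, 0 ≤ C ∧ ∀ (ε : ℝ) (σ σ' G : ℝ → ℝ), 0 ≤ ε → ε ≤ 1 →
    (∀ η, HasDerivAt σ (σ' η) η) → (∀ η, Real.exp (-(2 * ε)) ≤ σ' η) →
    (∀ η, σ' η ≤ Real.exp (2 * ε)) → (∀ η, |σ η - η| ≤ ε / b) → Measurable G → (∀ y, |G y| ≤ 1) →
    |∫ η, G (σ η) ∂(gaussianReal 0 1) - ∫ η, G η ∂(gaussianReal 0 1)| ≤ C * ε := by
  refine ⟨∫ η, Real.exp (GSHq b η) ∂(gaussianReal 0 1),
    integral_nonneg fun η => (Real.exp_pos _).le, ?_⟩
  intro ε σ σ' G h0 h1 hder hl hu hs hG hG1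
  have hcont : Continuous σ := continuous_iff_continuousAt.mpr fun η => (hder η).continuousAt
  have hpos : ∀ η, 0 < σ' η := fun η => (Real.exp_pos _).trans_le (hl η)
  have hderiv : deriv σ = σ' := funext fun η => (hder η).deriv
  have hmono : StrictMono σ := strictMono_of_deriv_pos fun η => by
    rw [hderiv]; exact hpos η
  have hmeas' : Measurable σ' := hderiv ▸ measurable_deriv σ
  have hsurj : Function.Surjective σ := by
    apply hcont.surjective
    · apply tendsto_atTop_mono (f := fun η => η - ε / b)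
      · intro η
        have := (abs_le.mp (hs η)).1
        linarith
      · exact tendsto_atTop_add_const_right _ _ tendsto_id
    · apply tendsto_atBot_mono (f := fun η => η + ε / b)
      · intro η
        have := (abs_le.mp (hs η)).2
        linarith
      · exact tendsto_atBot_add_const_right _ _ tendsto_id
  set R : ℝ → ℝ := fun η => Real.exp ((η ^ 2 - (σ η) ^ 2) / 2) * σ' η with hR
  have hRmeas : Measurable R := by
    rw [hR]
    exact (Real.measurable_exp.comp
      (((measurable_id.pow_const 2).sub (hcont.measurable.pow_const 2)).div_const 2)).mul hmeas'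
  have hGs : Measurable fun η => G (σ η) := hG.comp hcont.measurable
  have hqpos : ∀ η, 0 ≤ GSHq b η := by
    intro η
    unfold GSHq
    positivity
  have hRb : ∀ η, |R η - 1| ≤ ε * Real.exp (GSHq b η) := by
    intro η
    obtain ⟨a1, a2⟩ := GSH_ptw hb h0 h1 (hl η) (hu η) (hs η)
    exact GSH_abs h0 h1 (hqpos η) a1 a2
  -- change of variables
  have hcv : ∫ η, G η ∂(gaussianReal 0 1) = ∫ η, R η * G (σ η) ∂(gaussianReal 0 1) := by
    have hv : (1 : ℝ≥0) ≠ 0 := one_ne_zero
    rw [integral_gaussianReal_eq_integral_smul hv, integral_gaussianReal_eq_integral_smul hv]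
    have c1 : ∫ y, gaussianPDFReal 0 1 y • G y =
        ∫ y in σ '' univ, gaussianPDFReal 0 1 y • G y := by
      rw [image_univ, hsurj.range_eq, setIntegral_univ]
    rw [c1, integral_image_eq_integral_abs_deriv_smul MeasurableSet.univ
      (fun x _ => (hder x).hasDerivWithinAt) hmono.injective.injOn, setIntegral_univ]
    apply integral_congr_ae
    refine Eventually.of_forall fun η => ?_
    simp only [smul_eq_mul]
    rw [abs_of_pos (hpos η)]
    have c2 : gaussianPDFReal 0 1 (σ η) =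
        gaussianPDFReal 0 1 η * Real.exp ((η ^ 2 - (σ η) ^ 2) / 2) := by
      unfold gaussianPDFReal
      have c3 : -(σ η - 0) ^ 2 / (2 * ((1 : ℝ≥0) : ℝ)) =
          -(η - 0) ^ 2 / (2 * ((1 : ℝ≥0) : ℝ)) + (η ^ 2 - σ η ^ 2) / 2 := by
        simp only [sub_zero, NNReal.coe_one, mul_one]
        ring
      rw [c3, Real.exp_add]
      ring
    rw [c2, hR]
    ring
  have hint1 : Integrable (fun η => G (σ η)) (gaussianReal 0 1) := by
    refine Integrable.mono' (integrable_const (1 : ℝ)) hGs.aestronglyMeasurable ?_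
    exact Eventually.of_forall fun η => by rw [Real.norm_eq_abs]; exact hG1 _
  have hintq := GSH_int hb
  have hint2 : Integrable (fun η => (R η - 1) * G (σ η)) (gaussianReal 0 1) := by
    refine Integrable.mono' (hintq.const_mul ε)
      ((hRmeas.sub_const 1).mul hGs).aestronglyMeasurable ?_
    refine Eventually.of_forall fun η => ?_
    rw [Real.norm_eq_abs, abs_mul]
    calc |R η - 1| * |G (σ η)| ≤ |R η - 1| * 1 :=
          mul_le_mul_of_nonneg_left (hG1 _) (abs_nonneg _)
      _ ≤ ε * Real.exp (GSHq b η) := by rw [mul_one]; exact hRb η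
  have hdiff : ∫ η, G (σ η) ∂(gaussianReal 0 1) - ∫ η, G η ∂(gaussianReal 0 1) =
      -∫ η, (R η - 1) * G (σ η) ∂(gaussianReal 0 1) := by
    have e1 : ∫ η, R η * G (σ η) ∂(gaussianReal 0 1) =
        ∫ η, (R η - 1) * G (σ η) ∂(gaussianReal 0 1) + ∫ η, G (σ η) ∂(gaussianReal 0 1) := by
      rw [← integral_add hint2 hint1]
      apply integral_congr_ae
      exact Eventually.of_forall fun η => by simp only; ring
    rw [hcv, e1]
    ring
  rw [hdiff, abs_neg]
  calc |∫ η, (R η - 1) * G (σ η) ∂(gaussianReal 0 1)|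
      ≤ ∫ η, |(R η - 1) * G (σ η)| ∂(gaussianReal 0 1) := abs_integral_le_integral_abs
    _ ≤ ∫ η, ε * Real.exp (GSHq b η) ∂(gaussianReal 0 1) := by
        apply integral_mono hint2.abs (hintq.const_mul ε)
        intro η
        simp only
        rw [abs_mul]
        calc |R η - 1| * |G (σ η)| ≤ |R η - 1| * 1 :=
              mul_le_mul_of_nonneg_left (hG1 _) (abs_nonneg _)
          _ ≤ ε * Real.exp (GSHq b η) := by rw [mul_one]; exact hRb η
    _ = (∫ η, Real.exp (GSHq b η) ∂(gaussianReal 0 1)) * ε := by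
        rw [integral_const_mul, mul_comm]

end Pool.Agent.OYG
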