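import Mathlib

/-!
IPR: independence of a family of pairs.

If the pairs `(X i, Y i)` are independent for different `i` (finitely many) and `X i` is independent of `Y i` for each `i`, then
`(X i)_i` and `(Y i)_i` are independent. Proof: `indepFun_iff_map_prod_eq_prod_map_map`; by `iIndepFun_iff_map_fun_eq_pi_map` the law of
`ω ↦ (i ↦ (X i ω, Y i ω))` is `Measure.pi (i ↦ law (X i) ⊗ law (Y i))`; push forward by
`MeasurableEquiv.arrowProdEquivProdArrow` (`measurePreserving_arrowProdEquivProdArrow`), and the laws of `(X i)_i`, `(Y i)_i` are product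
laws (`iIndepFun.comp` with `Prod.fst`, `Prod.snd`). The variant `indep_pair_one`: with `X` only at one index.
-/

open MeasureTheory ProbabilityTheory Set Filter Topology
open scoped ENNReal NNReal

namespace Pool.Agent.OYG

theorem indep_pairs {Ω ι α β : Type*} [MeasurableSpace Ω] [MeasurableSpace α] [MeasurableSpace β]
    [Fintype ι] {P : Measure Ω} [IsProbabilityMeasure P] (X : ι → Ω → α) (Y : ι → Ω → β)
    (hX : ∀ i, Measurable (X i)) (hY : ∀ i, Measurable (Y i))
    (h : iIndepFun (fun i ω => (X i ω, Y i ω)) P) (h2 : ∀ i, IndepFun (X i) (Y i) P) :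
    IndepFun (fun ω i => X i ω) (fun ω i => Y i ω) P := by
  have mX : Measurable (fun ω i => X i ω) := measurable_pi_lambda _ hX
  have mY : Measurable (fun ω i => Y i ω) := measurable_pi_lambda _ hY
  have hp : ∀ i, Measurable (fun ω => (X i ω, Y i ω)) := fun i => (hX i).prodMk (hY i)
  rw [indepFun_iff_map_prod_eq_prod_map_map mX.aemeasurable mY.aemeasurable]
  have iX : iIndepFun (fun i ω => X i ω) P := by
    have := h.comp (fun _ => Prod.fst) (fun _ => measurable_fst)
    exact this
  have iY : iIndepFun (fun i ω => Y i ω) P := by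
    have := h.comp (fun _ => Prod.snd) (fun _ => measurable_snd)
    exact this
  have pX : ∀ i, IsProbabilityMeasure (P.map (X i)) := fun i =>
    Measure.isProbabilityMeasure_map (hX i).aemeasurable
  have pY : ∀ i, IsProbabilityMeasure (P.map (Y i)) := fun i =>
    Measure.isProbabilityMeasure_map (hY i).aemeasurable
  have e1 : P.map (fun ω i => X i ω) = Measure.pi (fun i => P.map (X i)) :=
    (iIndepFun_iff_map_fun_eq_pi_map (fun i => (hX i).aemeasurable)).mp iX
  have e2 : P.map (fun ω i => Y i ω) = Measure.pi (fun i => P.map (Y i)) :=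
    (iIndepFun_iff_map_fun_eq_pi_map (fun i => (hY i).aemeasurable)).mp iY
  have e3 : P.map (fun ω i => (X i ω, Y i ω)) =
      Measure.pi (fun i => (P.map (X i)).prod (P.map (Y i))) := by
    rw [(iIndepFun_iff_map_fun_eq_pi_map (fun i => (hp i).aemeasurable)).mp h]
    congr 1
    funext i
    exact (indepFun_iff_map_prod_eq_prod_map_map (hX i).aemeasurable (hY i).aemeasurable).mp (h2 i)
  have e4 := (measurePreserving_arrowProdEquivProdArrow α β ι (fun i => P.map (X i))
    (fun i => P.map (Y i))).map_eq
  have mXY : Measurable (fun ω i => (X i ω, Y i ω)) := measurable_pi_lambda _ hp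
  rw [← e3, Measure.map_map (MeasurableEquiv.measurable _) mXY, ← e1, ← e2] at e4
  exact e4

end Pool.Agent.OYG
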