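import Pool.Agent.OYG.QME

/-!
LB1: exact moments of the difference of the first coordinates.

`DD hn` = positive pairs with `q.2 0 < q.1 0`. By `flow_first`: `X_1(1) - X'_1(1) = exp (b v) (X_1(0) - X'_1(0))` with `v = pv μ w 0 1 = inc w 0 - m`
(`pv_one`), `m = μ 0 - μ 1`. So `DD` is invariant, and `∫⁻ ofReal ((…)^c) dWl = ofReal ((p.1 0 - p.2 0)^c) · ∫⁻ ofReal (exp (c b (inc - m))) dWl`
`= ofReal ((…)^c) · ofReal (exp (c² b² - c b m))` by `hW.mgf`. Induction on `N` (`Qp_iter_mono` in both directions on `DD`, `Qp_iter_mul`).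
-/

open MeasureTheory ProbabilityTheory Set Filter Topology
open scoped ENNReal NNReal

namespace Pool.Agent.OYG

variable {n : ℕ} (μ : Fin (n + 1) → ℝ) (b κ : ℝ) {Wl : Measure (Blk n)}

/-- positive pairs with ordered first coordinates -/
def DD (hn : 0 < n) : Set (St n × St n) :=
  {q | Pos q.1 ∧ Pos q.2 ∧ q.2 ⟨0, hn⟩ < q.1 ⟨0, hn⟩}

theorem flow_first_diff (hn : 0 < n) (p : St n × St n) (w : Blk n) :
    flow μ b κ 1 p.1 w ⟨0, hn⟩ - flow μ b κ 1 p.2 w ⟨0, hn⟩ =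
      Real.exp (b * (inc w ⟨0, hn⟩ - (μ 0 - μ (Fin.succ ⟨0, hn⟩)))) * (p.1 ⟨0, hn⟩ - p.2 ⟨0, hn⟩) := by
  rw [flow_first, flow_first]
  have h := pv_one μ w (⟨0, hn⟩ : Fin n)
  have h2 : pv μ w 0 1 = inc w ⟨0, hn⟩ - (μ 0 - μ (Fin.succ ⟨0, hn⟩)) := by
    exact h.trans (by ring)
  rw [h2]
  ring

theorem invD_DD (hn : 0 < n) (hκ : 0 ≤ κ) : InvD μ b κ (DD hn) := by
  rintro p ⟨h1, h2, h3⟩ w
  refine ⟨flow_pos μ b κ hκ zero_le_one h1 w, flow_pos μ b κ hκ zero_le_one h2 w, ?_⟩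
  have h := flow_first_diff μ b κ hn p w
  have h4 : 0 < Real.exp (b * (inc w ⟨0, hn⟩ - (μ 0 - μ (Fin.succ ⟨0, hn⟩)))) *
      (p.1 ⟨0, hn⟩ - p.2 ⟨0, hn⟩) := mul_pos (Real.exp_pos _) (by linarith)
  show flow μ b κ 1 p.2 w ⟨0, hn⟩ < flow μ b κ 1 p.1 w ⟨0, hn⟩
  linarith

theorem LB1_measurable (hn : 0 < n) (c : ℝ) :
    Measurable (fun q : St n × St n => ENNReal.ofReal ((q.1 ⟨0, hn⟩ - q.2 ⟨0, hn⟩) ^ c)) := by
  refine ENNReal.measurable_ofReal.comp ?_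
  refine Measurable.pow_const ?_ c
  exact ((measurable_pi_apply _).comp measurable_fst).sub
    ((measurable_pi_apply _).comp measurable_snd)

/-- one step -/
theorem LB1_one (hn : 0 < n) (hW : WProp n Wl) (c : ℝ) {p : St n × St n}
    (hp : p ∈ DD hn) :
    Qp μ b κ Wl (fun q => ENNReal.ofReal ((q.1 ⟨0, hn⟩ - q.2 ⟨0, hn⟩) ^ c)) p =
      ENNReal.ofReal (Real.exp (-(c * b * (μ 0 - μ (Fin.succ ⟨0, hn⟩)) - c ^ 2 * b ^ 2))) *
        ENNReal.ofReal ((p.1 ⟨0, hn⟩ - p.2 ⟨0, hn⟩) ^ c) := by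
  unfold Qp
  set m := μ 0 - μ (Fin.succ ⟨0, hn⟩) with hm
  have hq : 0 < p.1 ⟨0, hn⟩ - p.2 ⟨0, hn⟩ := sub_pos.2 hp.2.2
  have h1 : ∀ w : Blk n, ENNReal.ofReal
      ((flow μ b κ 1 p.1 w ⟨0, hn⟩ - flow μ b κ 1 p.2 w ⟨0, hn⟩) ^ c) =
      ENNReal.ofReal (Real.exp (-(c * b * m))) *
        (ENNReal.ofReal ((p.1 ⟨0, hn⟩ - p.2 ⟨0, hn⟩) ^ c) *
        ENNReal.ofReal (Real.exp ((c * b) * inc w ⟨0, hn⟩))) := by
    intro w
    rw [flow_first_diff, Real.mul_rpow (Real.exp_pos _).le hq.le, ← Real.exp_mul,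
      ← ENNReal.ofReal_mul (Real.rpow_nonneg hq.le c), ← ENNReal.ofReal_mul (Real.exp_pos _).le]
    congr 1
    have e : Real.exp (b * (inc w ⟨0, hn⟩ - (μ 0 - μ (Fin.succ ⟨0, hn⟩))) * c) =
        Real.exp (-(c * b * m)) * Real.exp ((c * b) * inc w ⟨0, hn⟩) := by
      rw [← Real.exp_add]
      congr 1
      rw [← hm]
      ring
    rw [e]
    ring
  simp only [h1]
  rw [lintegral_const_mul' _ _ ENNReal.ofReal_ne_top, lintegral_const_mul' _ _ ENNReal.ofReal_ne_top,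
    hW.mgf]
  have e : Real.exp (-(c * b * m - c ^ 2 * b ^ 2)) =
      Real.exp (-(c * b * m)) * Real.exp ((c * b) ^ 2) := by
    rw [← Real.exp_add]
    congr 1
    ring
  rw [e, ENNReal.ofReal_mul (Real.exp_pos _).le]
  ring

theorem Qp_pow (hn : 0 < n) (hκ : 0 ≤ κ) (hW : WProp n Wl) (c : ℝ) (N : ℕ) {p : St n × St n}
    (hp : p ∈ DD hn) :
    (Qp μ b κ Wl)^[N] (fun q => ENNReal.ofReal ((q.1 ⟨0, hn⟩ - q.2 ⟨0, hn⟩) ^ c)) p =
      ENNReal.ofReal (Real.exp (-(c * b * (μ 0 - μ (Fin.succ ⟨0, hn⟩)) - c ^ 2 * b ^ 2)) ^ N) *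
        ENNReal.ofReal ((p.1 ⟨0, hn⟩ - p.2 ⟨0, hn⟩) ^ c) := by
  induction N generalizing p with
  | zero => simp
  | succ N ih =>
    set f : St n × St n → ℝ≥0∞ := fun q => ENNReal.ofReal ((q.1 ⟨0, hn⟩ - q.2 ⟨0, hn⟩) ^ c) with hf
    set e := Real.exp (-(c * b * (μ 0 - μ (Fin.succ ⟨0, hn⟩)) - c ^ 2 * b ^ 2)) with he
    have he0 : 0 ≤ e := (Real.exp_pos _).le
    rw [Function.iterate_succ_apply]
    have h1 : (Qp μ b κ Wl)^[N] (Qp μ b κ Wl f) p =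
        (Qp μ b κ Wl)^[N] (fun q => ENNReal.ofReal e * f q) p := by
      refine le_antisymm ?_ ?_
      · exact Qp_iter_mono μ b κ (invD_DD μ b κ hn hκ)
          (fun q hq => (LB1_one μ b κ hn hW c hq).le) N hp
      · exact Qp_iter_mono μ b κ (invD_DD μ b κ hn hκ)
          (fun q hq => (LB1_one μ b κ hn hW c hq).ge) N hp
    rw [h1, Qp_iter_mul μ b κ hW (LB1_measurable hn c), ih hp, ← mul_assoc,
      ← ENNReal.ofReal_mul he0, pow_succ, mul_comm e]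

end Pool.Agent.OYG
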