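import Pool.Agent.OYG.XCO

/-!
XDG: difference and growth estimates for the flow at time one.

The system is affine: with `D_j(t) = X_j(t) - X'_j(t)`, `D_0 = 0`,
`D_{j+1}(t) = exp (b v_j(t)) (D_{j+1}(0) + κ ∫_0^t exp (-b v_j(s)) D_j(s) ds)`. With `M = 2 osc w + Σ |μ k - μ 0|`
(`abs_pv_le`), on `[0,1]`: `|D_{j+1}(t)| ≤ exp (2 b M) (|D_{j+1}(0)| + κ sup |D_j|)`, so by induction
`sup |D_{j+1}| ≤ ((1+κ) exp (2 b M))^(j+1) Σ_{i ≤ j} |D_{i+1}(0)|`; at time one keep the first term exact.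
Choose C large: `C exp (C osc w) ≥ κ exp (2 b M) ((1+κ) exp (2 b M))^n`. Growth: the same induction for `X_j` itself
with `X_0 = 1` (take the inequality `X_{j+1}(1) ≤ exp (b v_j(1)) X_{j+1}(0) + …`).
-/

open MeasureTheory ProbabilityTheory Set Filter Topology
open scoped ENNReal NNReal

namespace Pool.Agent.OYG

variable {n : ℕ} (μ : Fin (n + 1) → ℝ) (b κ : ℝ)

private theorem xdg_int {v g : ℝ → ℝ} {b E B t : ℝ} (hE : ∀ s, 0 ≤ s → s ≤ 1 →
    Real.exp (-(b * v s)) ≤ E) (hB : ∀ s, 0 ≤ s → s ≤ 1 → |g s| ≤ B) (h0 : 0 ≤ t) (h1 : t ≤ 1) :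
    |∫ s in (0 : ℝ)..t, Real.exp (-(b * v s)) * g s| ≤ E * B := by
  have hE0 : 0 ≤ E := (Real.exp_pos _).le.trans (hE 0 le_rfl zero_le_one)
  have hB0 : 0 ≤ B := (abs_nonneg _).trans (hB 0 le_rfl zero_le_one)
  have h := intervalIntegral.norm_integral_le_of_norm_le_const (a := 0) (b := t) (C := E * B)
    (f := fun s => Real.exp (-(b * v s)) * g s) (by
      intro s hs
      rw [Set.uIoc_of_le h0] at hs
      rw [Real.norm_eq_abs, abs_mul, abs_of_pos (Real.exp_pos _)]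
      exact mul_le_mul (hE s hs.1.le (hs.2.trans h1)) (hB s hs.1.le (hs.2.trans h1))
        (abs_nonneg _) hE0)
  rw [Real.norm_eq_abs] at h
  refine h.trans ?_
  rw [sub_zero, abs_of_nonneg h0]
  exact mul_le_of_le_one_right (mul_nonneg hE0 hB0) h1

private theorem xdg_step {v : ℕ → ℝ → ℝ} {b κ E B t : ℝ} (hκ : 0 ≤ κ)
    (hv : ∀ j, Continuous (v j)) (X0 X0' : ℕ → ℝ)
    (hE : ∀ j s, 0 ≤ s → s ≤ 1 → Real.exp (b * v j s) ≤ E ∧ Real.exp (-(b * v j s)) ≤ E) (j : ℕ)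
    (hB : ∀ s, 0 ≤ s → s ≤ 1 → |XX b κ v X0 j s - XX b κ v X0' j s| ≤ B)
    (h0 : 0 ≤ t) (h1 : t ≤ 1) :
    |XX b κ v X0 (j + 1) t - XX b κ v X0' (j + 1) t| ≤
      Real.exp (b * v j t) * |X0 j - X0' j| + κ * (E * (E * B)) := by
  have hce : Continuous fun s => Real.exp (-(b * v j s)) :=
    Real.continuous_exp.comp (continuous_const.mul (hv j)).neg
  have hi : ∀ Y : ℕ → ℝ, IntervalIntegrable (fun s => Real.exp (-(b * v j s)) * XX b κ v Y j s)
      volume 0 t := fun Y => (hce.mul (continuous_XX b κ hv Y j)).intervalIntegrable _ _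
  have e : XX b κ v X0 (j + 1) t - XX b κ v X0' (j + 1) t = Real.exp (b * v j t) *
      (X0 j - X0' j) + Real.exp (b * v j t) * (κ * ∫ s in (0 : ℝ)..t,
        Real.exp (-(b * v j s)) * (XX b κ v X0 j s - XX b κ v X0' j s)) := by
    have e1 : (∫ s in (0 : ℝ)..t,
        Real.exp (-(b * v j s)) * (XX b κ v X0 j s - XX b κ v X0' j s)) =
        (∫ s in (0 : ℝ)..t, Real.exp (-(b * v j s)) * XX b κ v X0 j s) -
        ∫ s in (0 : ℝ)..t, Real.exp (-(b * v j s)) * XX b κ v X0' j s := by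
      rw [← intervalIntegral.integral_sub (hi X0) (hi X0')]
      congr 1
      ext s
      ring
    rw [e1, XX, XX]
    ring
  rw [e]
  refine (abs_add_le _ _).trans (add_le_add ?_ ?_)
  · rw [abs_mul, abs_of_pos (Real.exp_pos _)]
  · rw [abs_mul, abs_of_pos (Real.exp_pos _), abs_mul, abs_of_nonneg hκ]
    have h2 := xdg_int (fun s hs hs' => (hE j s hs hs').2) hB h0 h1
    have hE0 : 0 ≤ E := (Real.exp_pos _).le.trans (hE j 0 le_rfl zero_le_one).1
    have h3 := mul_le_mul (hE j t h0 h1).1 (mul_le_mul_of_nonneg_left h2 hκ)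
      (mul_nonneg hκ (abs_nonneg _)) hE0
    refine h3.trans (le_of_eq ?_)
    ring

private theorem xdg_diff {v : ℕ → ℝ → ℝ} {b κ E : ℝ} (hκ : 0 ≤ κ) (hE1 : 1 ≤ E)
    (hv : ∀ j, Continuous (v j)) (X0 X0' : ℕ → ℝ)
    (hE : ∀ j s, 0 ≤ s → s ≤ 1 → Real.exp (b * v j s) ≤ E ∧ Real.exp (-(b * v j s)) ≤ E)
    (j : ℕ) : ∀ s, 0 ≤ s → s ≤ 1 → |XX b κ v X0 j s - XX b κ v X0' j s| ≤
      ((1 + κ) * E ^ 2) ^ j * ∑ i ∈ Finset.range j, |X0 i - X0' i| := by
  induction j with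
  | zero => intro s _ _; simp [XX]
  | succ j ih =>
    intro s h0 h1
    refine (xdg_step hκ hv X0 X0' hE j ih h0 h1).trans ?_
    rw [Finset.sum_range_succ]
    set S := ∑ i ∈ Finset.range j, |X0 i - X0' i| with hS
    have hS0 : 0 ≤ S := Finset.sum_nonneg fun _ _ => abs_nonneg _
    set K := (1 + κ) * E ^ 2 with hK
    have hEE : E ≤ E ^ 2 := by nlinarith
    have hK1 : E ≤ K := by
      rw [hK]; nlinarith [mul_nonneg hκ (sq_nonneg E)]
    have hK0 : 1 ≤ K := hE1.trans hK1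
    have hKj : 1 ≤ K ^ j := one_le_pow₀ hK0
    have hE2 : κ * E ^ 2 ≤ K := by
      rw [hK]; nlinarith [sq_nonneg E]
    have h2 : Real.exp (b * v j s) * |X0 j - X0' j| ≤ K ^ (j + 1) * |X0 j - X0' j| := by
      refine mul_le_mul_of_nonneg_right ?_ (abs_nonneg _)
      rw [pow_succ]
      exact ((hE j s h0 h1).1.trans hK1).trans (le_mul_of_one_le_left (by linarith) hKj)
    have h3 : κ * (E * (E * (K ^ j * S))) ≤ K ^ (j + 1) * S := by
      have e1 : κ * (E * (E * (K ^ j * S))) = (κ * E ^ 2) * (K ^ j * S) := by ring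
      have e2 : K ^ (j + 1) * S = K * (K ^ j * S) := by ring
      rw [e1, e2]
      exact mul_le_mul_of_nonneg_right hE2 (mul_nonneg (by linarith) hS0)
    calc _ ≤ K ^ (j + 1) * |X0 j - X0' j| + K ^ (j + 1) * S := add_le_add h2 h3
      _ = _ := by ring

private theorem xdg_exp (hb : 0 < b) (w : Blk n) (j : ℕ) (s : ℝ) (h0 : 0 ≤ s) (h1 : s ≤ 1) :
    Real.exp (b * pv μ w j s) ≤ Real.exp (b * (2 * osc w + ∑ k, |μ k - μ 0|)) ∧
    Real.exp (-(b * pv μ w j s)) ≤ Real.exp (b * (2 * osc w + ∑ k, |μ k - μ 0|)) := by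
  have h := abs_le.1 (abs_pv_le μ w j h0 h1)
  constructor
  · exact Real.exp_le_exp.2 (mul_le_mul_of_nonneg_left h.2 hb.le)
  · refine Real.exp_le_exp.2 ?_
    rw [← mul_neg]
    exact mul_le_mul_of_nonneg_left (by linarith) hb.le

private theorem xdg_osc (w : Blk n) : 0 ≤ osc w := Finset.sum_nonneg fun _ _ => norm_nonneg _

/-- The constant. -/
private theorem xdg_const (hb : 0 < b) (hκ : 0 < κ) : ∃ C : ℝ, 1 ≤ C ∧ ∀ (w : Blk n) (j : ℕ),
    j ≤ n → κ * (Real.exp (b * (2 * osc w + ∑ k, |μ k - μ 0|)) *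
      (Real.exp (b * (2 * osc w + ∑ k, |μ k - μ 0|)) *
      ((1 + κ) * Real.exp (b * (2 * osc w + ∑ k, |μ k - μ 0|)) ^ 2) ^ j)) ≤
      C * Real.exp (C * osc w) := by
  set Mu := ∑ k, |μ k - μ 0| with hMu
  have hMu0 : 0 ≤ Mu := Finset.sum_nonneg fun _ _ => abs_nonneg _
  set C1 := (1 + κ) ^ (n + 1) * Real.exp (2 * b * Mu) ^ (n + 1) with hC1
  have hC1' : 1 ≤ C1 := by
    rw [hC1]
    refine one_le_mul_of_one_le_of_one_le (one_le_pow₀ (by linarith)) (one_le_pow₀ ?_)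
    exact Real.one_le_exp (by positivity)
  have hC2 : 0 ≤ 4 * b * (n + 1) := by positivity
  refine ⟨C1 + 4 * b * (n + 1), by linarith, fun w j hj => ?_⟩
  set E := Real.exp (b * (2 * osc w + Mu)) with hE
  have ho := xdg_osc w
  have hE1 : 1 ≤ E := Real.one_le_exp (by positivity)
  set K := (1 + κ) * E ^ 2 with hK
  have hK1 : 1 ≤ K := by
    rw [hK]
    exact one_le_mul_of_one_le_of_one_le (by linarith) (one_le_pow₀ hE1)
  have h1 : κ * (E * (E * K ^ j)) ≤ K ^ (n + 1) := by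
    have e1 : κ * (E * (E * K ^ j)) = (κ * E ^ 2) * K ^ j := by ring
    have e5 : K ^ (n + 1) = K * K ^ n := by ring
    rw [e1, e5]
    refine mul_le_mul ?_ (pow_le_pow_right₀ hK1 hj) (by positivity) (by positivity)
    rw [hK]; nlinarith [sq_nonneg E]
  refine h1.trans ?_
  have e2 : K ^ (n + 1) = C1 * Real.exp (4 * b * (n + 1) * osc w) := by
    have e3 : E ^ 2 = Real.exp (2 * b * Mu) * Real.exp (4 * b * osc w) := by
      rw [hE, ← Real.exp_nat_mul, ← Real.exp_add]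
      congr 1
      push_cast
      ring
    have e4 : Real.exp (4 * b * (n + 1) * osc w) = Real.exp (4 * b * osc w) ^ (n + 1) := by
      rw [← Real.exp_nat_mul]
      congr 1
      push_cast
      ring
    rw [hK, e3, e4, hC1, mul_pow, mul_pow]
    ring
  rw [e2]
  refine mul_le_mul (by linarith) (Real.exp_le_exp.2 ?_) (Real.exp_pos _).le (by linarith)
  exact mul_le_mul_of_nonneg_right (by linarith) ho

private theorem xdg_sum (f : ℕ → ℝ) (j : Fin n) :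
    ∑ i ∈ Finset.range (j : ℕ), f i = ∑ i ∈ Finset.univ.filter (fun i : Fin n => i < j), f i := by
  symm
  refine Finset.sum_bij (fun i _ => (i : ℕ)) ?_ ?_ ?_ ?_
  · intro i hi
    exact Finset.mem_range.2 (Finset.mem_filter.1 hi).2
  · intro i _ i' _ h
    exact Fin.ext h
  · intro i hi
    have h := Finset.mem_range.1 hi
    exact ⟨⟨i, h.trans j.2⟩, Finset.mem_filter.2 ⟨Finset.mem_univ _, h⟩, rfl⟩
  · intro i _
    rfl

private theorem xdg_exs (X : St n) (j : Fin n) : exs X (j : ℕ) = X j := by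
  rw [exs, dif_pos j.2]

theorem flow_diff (hb : 0 < b) (hκ : 0 < κ) : ∃ C : ℝ, 1 ≤ C ∧ ∀ (X X' : St n) (w : Blk n) (j : Fin n),
    |flow μ b κ 1 X w j - flow μ b κ 1 X' w j| ≤
      Real.exp (b * (inc w j + (μ j.succ - μ 0))) * |X j - X' j| +
        C * Real.exp (C * osc w) * ∑ i ∈ Finset.univ.filter (fun i => i < j), |X i - X' i| := by
  obtain ⟨C, hC, h⟩ := xdg_const (n := n) μ b κ hb hκ
  refine ⟨C, hC, fun X X' w j => ?_⟩
  have ho := xdg_osc w
  have hMu0 : 0 ≤ ∑ k, |μ k - μ 0| := Finset.sum_nonneg fun _ _ => abs_nonneg _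
  have hE1 : 1 ≤ Real.exp (b * (2 * osc w + ∑ k, |μ k - μ 0|)) :=
    Real.one_le_exp (by positivity)
  have h1 := xdg_diff (b := b) hκ.le hE1 (fun j => continuous_pv μ w j) (exs X) (exs X')
    (xdg_exp μ b hb w) j
  have h2 := xdg_step (b := b) hκ.le (fun j => continuous_pv μ w j) (exs X) (exs X')
    (xdg_exp μ b hb w) j h1 zero_le_one le_rfl
  rw [xdg_sum (fun i => |exs X i - exs X' i|)] at h2
  simp only [xdg_exs, pv_one] at h2
  refine h2.trans (add_le_add le_rfl ?_)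
  have h3 := h w j j.2.le
  have hS : 0 ≤ ∑ i ∈ Finset.univ.filter (fun i => i < j), |X i - X' i| :=
    Finset.sum_nonneg fun _ _ => abs_nonneg _
  refine le_trans (le_of_eq ?_) (mul_le_mul_of_nonneg_right h3 hS)
  ring

private theorem xdg_gstep {v : ℕ → ℝ → ℝ} {b κ E B t : ℝ} (hκ : 0 ≤ κ)
    (X0 : ℕ → ℝ)
    (hE : ∀ j s, 0 ≤ s → s ≤ 1 → Real.exp (b * v j s) ≤ E ∧ Real.exp (-(b * v j s)) ≤ E) (j : ℕ)
    (hB : ∀ s, 0 ≤ s → s ≤ 1 → |XX b κ v X0 j s| ≤ B)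
    (h0 : 0 ≤ t) (h1 : t ≤ 1) :
    XX b κ v X0 (j + 1) t ≤ Real.exp (b * v j t) * X0 j + κ * (E * (E * B)) ∧
    |XX b κ v X0 (j + 1) t| ≤ Real.exp (b * v j t) * |X0 j| + κ * (E * (E * B)) := by
  have h2 := xdg_int (fun s hs hs' => (hE j s hs hs').2) hB h0 h1
  have hE0 : 0 ≤ E := (Real.exp_pos _).le.trans (hE j 0 le_rfl zero_le_one).1
  have h3 := mul_le_mul (hE j t h0 h1).1 (mul_le_mul_of_nonneg_left h2 hκ)
    (mul_nonneg hκ (abs_nonneg _)) hE0
  have h4 : E * (κ * (E * B)) = κ * (E * (E * B)) := by ring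
  rw [h4] at h3
  have e : XX b κ v X0 (j + 1) t = Real.exp (b * v j t) * X0 j + Real.exp (b * v j t) *
      (κ * ∫ s in (0 : ℝ)..t, Real.exp (-(b * v j s)) * XX b κ v X0 j s) := by
    rw [XX]; ring
  have h5 : |Real.exp (b * v j t) *
      (κ * ∫ s in (0 : ℝ)..t, Real.exp (-(b * v j s)) * XX b κ v X0 j s)| ≤
      κ * (E * (E * B)) := by
    rw [abs_mul, abs_of_pos (Real.exp_pos _), abs_mul, abs_of_nonneg hκ]
    exact h3
  rw [e]
  constructor
  · exact add_le_add le_rfl ((le_abs_self _).trans h5)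
  · refine (abs_add_le _ _).trans (add_le_add ?_ h5)
    rw [abs_mul, abs_of_pos (Real.exp_pos _)]

private theorem xdg_grow {v : ℕ → ℝ → ℝ} {b κ E : ℝ} (hκ : 0 ≤ κ) (hE1 : 1 ≤ E)
    (X0 : ℕ → ℝ)
    (hE : ∀ j s, 0 ≤ s → s ≤ 1 → Real.exp (b * v j s) ≤ E ∧ Real.exp (-(b * v j s)) ≤ E)
    (j : ℕ) : ∀ s, 0 ≤ s → s ≤ 1 → |XX b κ v X0 j s| ≤
      ((1 + κ) * E ^ 2) ^ j * (1 + ∑ i ∈ Finset.range j, |X0 i|) := by
  induction j with
  | zero => intro s _ _; simp [XX]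
  | succ j ih =>
    intro s h0 h1
    refine (xdg_gstep hκ X0 hE j ih h0 h1).2.trans ?_
    rw [Finset.sum_range_succ]
    set S := ∑ i ∈ Finset.range j, |X0 i| with hS
    have hS0 : 0 ≤ S := Finset.sum_nonneg fun _ _ => abs_nonneg _
    set K := (1 + κ) * E ^ 2 with hK
    have hEE : E ≤ E ^ 2 := by nlinarith
    have hK1 : E ≤ K := by
      rw [hK]; nlinarith [mul_nonneg hκ (sq_nonneg E)]
    have hK0 : 1 ≤ K := hE1.trans hK1
    have hKj : 1 ≤ K ^ j := one_le_pow₀ hK0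
    have hE2 : κ * E ^ 2 ≤ K := by
      rw [hK]; nlinarith [sq_nonneg E]
    have h2 : Real.exp (b * v j s) * |X0 j| ≤ K ^ (j + 1) * |X0 j| := by
      refine mul_le_mul_of_nonneg_right ?_ (abs_nonneg _)
      rw [pow_succ]
      exact ((hE j s h0 h1).1.trans hK1).trans (le_mul_of_one_le_left (by linarith) hKj)
    have h3 : κ * (E * (E * (K ^ j * (1 + S)))) ≤ K ^ (j + 1) * (1 + S) := by
      have e1 : κ * (E * (E * (K ^ j * (1 + S)))) = (κ * E ^ 2) * (K ^ j * (1 + S)) := by ring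
      have e2 : K ^ (j + 1) * (1 + S) = K * (K ^ j * (1 + S)) := by ring
      rw [e1, e2]
      exact mul_le_mul_of_nonneg_right hE2 (mul_nonneg (by linarith) (by linarith))
    calc _ ≤ K ^ (j + 1) * |X0 j| + K ^ (j + 1) * (1 + S) := add_le_add h2 h3
      _ = _ := by ring

theorem flow_grow (hb : 0 < b) (hκ : 0 < κ) : ∃ C : ℝ, 1 ≤ C ∧ ∀ (X : St n) (w : Blk n) (j : Fin n),
    Pos X → flow μ b κ 1 X w j ≤
      Real.exp (b * (inc w j + (μ j.succ - μ 0))) * X j +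
        C * Real.exp (C * osc w) * (1 + ∑ i ∈ Finset.univ.filter (fun i => i < j), X i) := by
  obtain ⟨C, hC, h⟩ := xdg_const (n := n) μ b κ hb hκ
  refine ⟨C, hC, fun X w j hX => ?_⟩
  have ho := xdg_osc w
  have hMu0 : 0 ≤ ∑ k, |μ k - μ 0| := Finset.sum_nonneg fun _ _ => abs_nonneg _
  have hE1 : 1 ≤ Real.exp (b * (2 * osc w + ∑ k, |μ k - μ 0|)) :=
    Real.one_le_exp (by positivity)
  have h1 := xdg_grow (b := b) hκ.le hE1 (exs X) (xdg_exp μ b hb w) j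
  have h2 := (xdg_gstep (b := b) hκ.le (exs X) (xdg_exp μ b hb w) j h1 zero_le_one le_rfl).1
  rw [xdg_sum (fun i => |exs X i|)] at h2
  simp only [xdg_exs, pv_one, fun i => abs_of_pos (hX i)] at h2
  refine h2.trans (add_le_add le_rfl ?_)
  have h3 := h w j j.2.le
  have hS : 0 ≤ 1 + ∑ i ∈ Finset.univ.filter (fun i => i < j), X i :=
    add_nonneg zero_le_one (Finset.sum_nonneg fun i _ => (hX i).le)
  refine le_trans (le_of_eq ?_) (mul_le_mul_of_nonneg_right h3 hS)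
  ring

end Pool.Agent.OYG
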