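import Pool.Agent.OYG.LB1
import Pool.Agent.OYG.XDG

/-!
LB2: the weighted moments, and localisation of the first coordinate.

Write `q = q.1 0 - q.2 0`, `X = q.1 0`, `m = μ 0 - μ 1`, `f(c) = c b m - c² b²`. One step: by `flow_first`
`X(1) = exp (b v(1)) (X + κ I)`, `I = ∫_0^1 exp (-b v_s) ds ≤ C exp (C osc)`, `v(1) = inc - m`, so for `0 < ϑ ≤ 1`
`q(1)^θ X(1)^ϑ ≤ exp ((θ+ϑ) b (inc - m)) q^θ X^ϑ + C exp (C osc) q^θ` and (`hW.mgf`, `hW.osc`)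
`Qp (q^θ X^ϑ) ≤ e^{-f(θ+ϑ)} q^θ X^ϑ + C q^θ`. With `Qp_pow`: `a_{N+1} ≤ e^{-f(θ+ϑ)} a_N + C e^{-f(θ) N} q_0^θ` for
`a_N = Qp^[N] (q^θ X^ϑ) p`; as `f(θ) < f(θ+ϑ)`, `a_N ≤ C' e^{-f(θ) N}` (`C'` depends on `p`). (Iterate as `Qp^[N+1] = Qp^[N] ∘ Qp`:
`Qp_iter_mono`, `Qp_iter_add`, `Qp_iter_mul`.)
`local_low`: on `{X > K}` `q^θ ≤ K^(-ϑ) q^θ X^ϑ`, so `Qp^[N] (q^θ 1_{X > K}) ≤ K^(-ϑ) C' e^{-f(θ) N} ≤ (1/2) q_0^θ e^{-f(θ) N}` for `K` large; subtract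
from `Qp_pow` (as an addition identity: `Qp_iter_add`).
-/

open MeasureTheory ProbabilityTheory Set Filter Topology
open scoped ENNReal NNReal

namespace Pool.Agent.OYG

variable {n : ℕ} (μ : Fin (n + 1) → ℝ) (b κ : ℝ) {Wl : Measure (Blk n)}

theorem LB2_osc_nonneg (w : Blk n) : 0 ≤ osc w := by
  unfold osc
  exact Finset.sum_nonneg fun k _ => norm_nonneg _

theorem LB2_norm_le_osc (w : Blk n) (k : Fin (n + 1)) : ‖w k‖ ≤ osc w := by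
  unfold osc
  exact Finset.single_le_sum (f := fun k => ‖w k‖) (fun k _ => norm_nonneg _) (Finset.mem_univ k)

theorem LB2_inc_le (w : Blk n) (j : Fin n) : |inc w j| ≤ 2 * osc w := by
  unfold inc
  have h1 := (w j.succ).norm_coe_le_norm 1
  have h2 := (w 0).norm_coe_le_norm 1
  rw [Real.norm_eq_abs] at h1 h2
  have h3 := LB2_norm_le_osc w j.succ
  have h4 := LB2_norm_le_osc w 0
  have h5 := abs_sub (w j.succ 1) (w 0 1)
  linarith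

/-- the first coordinate at time one -/
theorem LB2_first_le (hn : 0 < n) (hb : 0 < b) (hκ : 0 < κ) (X : St n) (hX : 0 < X ⟨0, hn⟩)
    (w : Blk n) {ϑ : ℝ} (hϑ : 0 < ϑ) (hϑ1 : ϑ ≤ 1) :
    flow μ b κ 1 X w ⟨0, hn⟩ ^ ϑ ≤
      Real.exp (ϑ * b * (inc w ⟨0, hn⟩ - (μ 0 - μ (Fin.succ ⟨0, hn⟩)))) *
        (X ⟨0, hn⟩ ^ ϑ + (1 + κ) * Real.exp (b * (2 * osc w + ∑ k, |μ k - μ 0|))) := by
  set A := ∑ k, |μ k - μ 0| with hA
  have hA0 : 0 ≤ A := Finset.sum_nonneg fun k _ => abs_nonneg _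
  have ho := LB2_osc_nonneg w
  set I := ∫ s in (0 : ℝ)..1, Real.exp (-(b * pv μ w 0 s)) with hI
  have hI0 : 0 ≤ I := intervalIntegral.integral_nonneg zero_le_one fun s _ => (Real.exp_pos _).le
  have hI1 : I ≤ Real.exp (b * (2 * osc w + A)) := by
    have h1 : ‖I‖ ≤ Real.exp (b * (2 * osc w + A)) * |(1 : ℝ) - 0| := by
      refine intervalIntegral.norm_integral_le_of_norm_le_const fun s hs => ?_
      rw [uIoc_of_le zero_le_one] at hs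
      rw [Real.norm_of_nonneg (Real.exp_pos _).le]
      apply Real.exp_le_exp.2
      have h2 := (abs_le.1 (abs_pv_le μ w 0 hs.1.le hs.2)).1
      have h3 := mul_le_mul_of_nonneg_left h2 hb.le
      linarith
    rw [Real.norm_of_nonneg hI0] at h1
    simpa using h1
  have hE : 1 ≤ Real.exp (b * (2 * osc w + A)) := Real.one_le_exp (by positivity)
  have hpv : pv μ w 0 1 = inc w ⟨0, hn⟩ - (μ 0 - μ (Fin.succ ⟨0, hn⟩)) :=
    (pv_one μ w (⟨0, hn⟩ : Fin n)).trans (by ring)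
  rw [flow_first, hpv]
  set v := inc w ⟨0, hn⟩ - (μ 0 - μ (Fin.succ ⟨0, hn⟩)) with hv
  have hκI : 0 ≤ κ * I := mul_nonneg hκ.le hI0
  rw [Real.mul_rpow (Real.exp_pos _).le (by linarith), ← Real.exp_mul]
  have e : b * v * ϑ = ϑ * b * v := by ring
  rw [e]
  refine mul_le_mul_of_nonneg_left ?_ (Real.exp_pos _).le
  refine (Real.rpow_add_le_add_rpow hX.le hκI hϑ.le hϑ1).trans ?_
  have h4 : κ * I ≤ (1 + κ) * Real.exp (b * (2 * osc w + A)) := by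
    have := mul_le_mul_of_nonneg_left hI1 hκ.le
    linarith
  have h5 : 1 ≤ (1 + κ) * Real.exp (b * (2 * osc w + A)) := by
    have : 0 ≤ κ * Real.exp (b * (2 * osc w + A)) := by positivity
    linarith
  have h6 : (κ * I) ^ ϑ ≤ (1 + κ) * Real.exp (b * (2 * osc w + A)) := by
    calc (κ * I) ^ ϑ ≤ ((1 + κ) * Real.exp (b * (2 * osc w + A))) ^ ϑ :=
          Real.rpow_le_rpow hκI h4 hϑ.le
      _ ≤ ((1 + κ) * Real.exp (b * (2 * osc w + A))) ^ (1 : ℝ) :=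
          Real.rpow_le_rpow_of_exponent_le h5 hϑ1
      _ = _ := Real.rpow_one _
  linarith

theorem LB2_measurable (hn : 0 < n) (θ ϑ : ℝ) :
    Measurable (fun q : St n × St n =>
      ENNReal.ofReal ((q.1 ⟨0, hn⟩ - q.2 ⟨0, hn⟩) ^ θ * q.1 ⟨0, hn⟩ ^ ϑ)) := by
  refine ENNReal.measurable_ofReal.comp ?_
  refine Measurable.mul ?_ ?_
  · refine Measurable.pow_const ?_ θ
    exact ((measurable_pi_apply _).comp measurable_fst).sub
      ((measurable_pi_apply _).comp measurable_snd)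
  · exact Measurable.pow_const ((measurable_pi_apply _).comp measurable_fst) ϑ

/-- one step of the weighted moment -/
theorem LB2_one (hn : 0 < n) (hb : 0 < b) (hκ : 0 < κ) (hW : WProp n Wl) {θ ϑ : ℝ} (h0 : 0 < θ)
    (hϑ : 0 < ϑ) (hϑ1 : ϑ ≤ 1) : ∃ C : ℝ, 0 ≤ C ∧ ∀ p ∈ DD (n := n) hn,
    Qp μ b κ Wl (fun q => ENNReal.ofReal ((q.1 ⟨0, hn⟩ - q.2 ⟨0, hn⟩) ^ θ * q.1 ⟨0, hn⟩ ^ ϑ)) p ≤
      ENNReal.ofReal (Real.exp (-((θ + ϑ) * b * (μ 0 - μ (Fin.succ ⟨0, hn⟩)) -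
          (θ + ϑ) ^ 2 * b ^ 2))) *
        ENNReal.ofReal ((p.1 ⟨0, hn⟩ - p.2 ⟨0, hn⟩) ^ θ * p.1 ⟨0, hn⟩ ^ ϑ) +
      ENNReal.ofReal C * ENNReal.ofReal ((p.1 ⟨0, hn⟩ - p.2 ⟨0, hn⟩) ^ θ) := by
  set A := ∑ k, |μ k - μ 0| with hA
  set m := μ 0 - μ (Fin.succ ⟨0, hn⟩) with hm
  set c1 := 2 * b * (θ + ϑ) + 2 * b with hc1
  set A' := (θ + ϑ) * b * |m| + b * A with hA'
  set J := ∫⁻ w, ENNReal.ofReal (Real.exp (c1 * osc w)) ∂Wl with hJ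
  have hJt : J ≠ ∞ := (hW.osc c1).ne
  have hK0 : 0 ≤ (1 + κ) * Real.exp A' := by positivity
  refine ⟨(1 + κ) * Real.exp A' * J.toReal, mul_nonneg hK0 ENNReal.toReal_nonneg, ?_⟩
  intro p hp
  have hq : 0 < p.1 ⟨0, hn⟩ - p.2 ⟨0, hn⟩ := sub_pos.2 hp.2.2
  have hX : 0 < p.1 ⟨0, hn⟩ := hp.1 _
  have hqθ : 0 ≤ (p.1 ⟨0, hn⟩ - p.2 ⟨0, hn⟩) ^ θ := Real.rpow_nonneg hq.le θ
  have hXϑ : 0 ≤ p.1 ⟨0, hn⟩ ^ ϑ := Real.rpow_nonneg hX.le ϑ
  set Q := (p.1 ⟨0, hn⟩ - p.2 ⟨0, hn⟩) ^ θ with hQ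
  set Y := p.1 ⟨0, hn⟩ ^ ϑ with hY
  have key : ∀ w : Blk n, ENNReal.ofReal
      ((flow μ b κ 1 p.1 w ⟨0, hn⟩ - flow μ b κ 1 p.2 w ⟨0, hn⟩) ^ θ *
        flow μ b κ 1 p.1 w ⟨0, hn⟩ ^ ϑ) ≤
      ENNReal.ofReal (Q * Y * Real.exp (-((θ + ϑ) * b * m))) *
        ENNReal.ofReal (Real.exp (((θ + ϑ) * b) * inc w ⟨0, hn⟩)) +
      ENNReal.ofReal (Q * ((1 + κ) * Real.exp A')) * ENNReal.ofReal (Real.exp (c1 * osc w)) := by
    intro w
    rw [← ENNReal.ofReal_mul (by positivity), ← ENNReal.ofReal_mul (by positivity),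
      ← ENNReal.ofReal_add (by positivity) (by positivity)]
    apply ENNReal.ofReal_le_ofReal
    rw [flow_first_diff, Real.mul_rpow (Real.exp_pos _).le hq.le, ← Real.exp_mul, ← hm, ← hQ]
    have h1 := LB2_first_le μ b κ hn hb hκ p.1 hX w hϑ hϑ1
    rw [← hm, ← hA, ← hY] at h1
    have h2 := mul_le_mul_of_nonneg_left h1
      (show 0 ≤ Real.exp (b * (inc w ⟨0, hn⟩ - m) * θ) * Q by positivity)
    refine h2.trans ?_
    have e1 : Real.exp (b * (inc w ⟨0, hn⟩ - m) * θ) * Q *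
        (Real.exp (ϑ * b * (inc w ⟨0, hn⟩ - m)) *
          (Y + (1 + κ) * Real.exp (b * (2 * osc w + A)))) =
        Q * Y * (Real.exp (b * (inc w ⟨0, hn⟩ - m) * θ) *
          Real.exp (ϑ * b * (inc w ⟨0, hn⟩ - m))) +
        Q * (1 + κ) * (Real.exp (b * (inc w ⟨0, hn⟩ - m) * θ) *
          Real.exp (ϑ * b * (inc w ⟨0, hn⟩ - m)) * Real.exp (b * (2 * osc w + A))) := by ring
    rw [e1]
    refine add_le_add ?_ ?_
    · rw [mul_assoc (Q * Y), ← Real.exp_add, ← Real.exp_add]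
      apply le_of_eq
      congr 2
      ring
    · have e2 : Q * ((1 + κ) * Real.exp A') * Real.exp (c1 * osc w) =
          Q * (1 + κ) * (Real.exp A' * Real.exp (c1 * osc w)) := by ring
      rw [e2, ← Real.exp_add, ← Real.exp_add, ← Real.exp_add]
      refine mul_le_mul_of_nonneg_left ?_ (by positivity)
      apply Real.exp_le_exp.2
      have h3 := (abs_le.1 (LB2_inc_le w (⟨0, hn⟩ : Fin n))).2
      have h4 : -m ≤ |m| := neg_le_abs m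
      have h5 : inc w ⟨0, hn⟩ - m ≤ 2 * osc w + |m| := by linarith
      have h6 := mul_le_mul_of_nonneg_left h5 (show 0 ≤ (θ + ϑ) * b by positivity)
      rw [hc1, hA']
      linarith
  unfold Qp
  refine (lintegral_mono key).trans ?_
  rw [lintegral_add_left' (by
      have hmeas : Measurable fun w : Blk n => inc w ⟨0, hn⟩ := measurable_inc _
      exact ((ENNReal.measurable_ofReal.comp
        (Real.measurable_exp.comp (hmeas.const_mul _))).const_mul _).aemeasurable),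
    lintegral_const_mul' _ _ ENNReal.ofReal_ne_top, lintegral_const_mul' _ _ ENNReal.ofReal_ne_top,
    hW.mgf, ← hJ]
  refine add_le_add (le_of_eq ?_) (le_of_eq ?_)
  · rw [← ENNReal.ofReal_mul (by positivity), ← ENNReal.ofReal_mul (by positivity)]
    congr 1
    rw [mul_assoc (Q * Y), ← Real.exp_add, mul_comm (Q * Y)]
    congr 2
    ring
  · rw [ENNReal.ofReal_mul hqθ, ENNReal.ofReal_mul hK0, ENNReal.ofReal_toReal hJt]
    ring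

theorem Qp_weight (hn : 0 < n) (hb : 0 < b) (hκ : 0 < κ) (hW : WProp n Wl) {θ ϑ : ℝ} (h0 : 0 < θ)
    (hϑ : 0 < ϑ) (hϑ1 : ϑ ≤ 1)
    (hlt : θ * b * (μ 0 - μ (Fin.succ ⟨0, hn⟩)) - θ ^ 2 * b ^ 2 <
      (θ + ϑ) * b * (μ 0 - μ (Fin.succ ⟨0, hn⟩)) - (θ + ϑ) ^ 2 * b ^ 2)
    {p : St n × St n} (hp : p ∈ DD hn) : ∃ C : ℝ, 0 ≤ C ∧ ∀ N : ℕ,
    (Qp μ b κ Wl)^[N] (fun q => ENNReal.ofReal ((q.1 ⟨0, hn⟩ - q.2 ⟨0, hn⟩) ^ θ * q.1 ⟨0, hn⟩ ^ ϑ)) p ≤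
      ENNReal.ofReal (C * Real.exp (-(θ * b * (μ 0 - μ (Fin.succ ⟨0, hn⟩)) - θ ^ 2 * b ^ 2)) ^ N) := by
  obtain ⟨C, hC, hone⟩ := LB2_one μ b κ hn hb hκ hW h0 hϑ hϑ1
  set m := μ 0 - μ (Fin.succ ⟨0, hn⟩) with hm
  set r := Real.exp (-(θ * b * m - θ ^ 2 * b ^ 2)) with hr
  set e1 := Real.exp (-((θ + ϑ) * b * m - (θ + ϑ) ^ 2 * b ^ 2)) with he1
  have hr0 : 0 < r := Real.exp_pos _
  have he0 : 0 < e1 := Real.exp_pos _
  have her : e1 < r := Real.exp_lt_exp.2 (by linarith)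
  have hq : 0 < p.1 ⟨0, hn⟩ - p.2 ⟨0, hn⟩ := sub_pos.2 hp.2.2
  have hX : 0 < p.1 ⟨0, hn⟩ := hp.1 _
  have hqθ : 0 ≤ (p.1 ⟨0, hn⟩ - p.2 ⟨0, hn⟩) ^ θ := Real.rpow_nonneg hq.le θ
  have hXϑ : 0 ≤ p.1 ⟨0, hn⟩ ^ ϑ := Real.rpow_nonneg hX.le ϑ
  set Q := (p.1 ⟨0, hn⟩ - p.2 ⟨0, hn⟩) ^ θ with hQ
  set Y := p.1 ⟨0, hn⟩ ^ ϑ with hY
  have hre : 0 < r - e1 := by linarith
  have hC' : 0 ≤ Q * Y + C * Q / (r - e1) := by positivity
  refine ⟨Q * Y + C * Q / (r - e1), hC', ?_⟩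
  intro N
  induction N with
  | zero =>
    simp only [Function.iterate_zero, id_eq, pow_zero, mul_one]
    apply ENNReal.ofReal_le_ofReal
    have : 0 ≤ C * Q / (r - e1) := by positivity
    linarith
  | succ N ih =>
    rw [Function.iterate_succ_apply]
    refine (Qp_iter_mono μ b κ (invD_DD μ b κ hn hκ.le) hone N hp).trans ?_
    have hmF := LB2_measurable (n := n) hn θ ϑ
    rw [Qp_iter_add μ b κ hW (hmF.const_mul _), Qp_iter_mul μ b κ hW hmF,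
      Qp_iter_mul μ b κ hW (LB1_measurable hn θ), Qp_pow μ b κ hn hκ.le hW θ N hp, ← hm, ← hr, ← hQ]
    refine (add_le_add (mul_le_mul_right ih _) le_rfl).trans ?_
    have hrN : 0 ≤ r ^ N := by positivity
    rw [← ENNReal.ofReal_mul he0.le, ← ENNReal.ofReal_mul hrN, ← ENNReal.ofReal_mul hC,
      ← ENNReal.ofReal_add (by positivity) (by positivity)]
    apply ENNReal.ofReal_le_ofReal
    have h1 : C * Q ≤ (r - e1) * (Q * Y + C * Q / (r - e1)) := by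
      have e2 : (r - e1) * (Q * Y + C * Q / (r - e1)) = (r - e1) * (Q * Y) + C * Q := by
        field_simp
      rw [e2]
      have : 0 ≤ (r - e1) * (Q * Y) := by positivity
      linarith
    have h2 := mul_le_mul_of_nonneg_right h1 hrN
    rw [pow_succ]
    linarith

theorem local_low (hn : 0 < n) (hb : 0 < b) (hκ : 0 < κ) (hW : WProp n Wl) {θ : ℝ} (h0 : 0 < θ)
    (hθ : 2 * b * θ < μ 0 - μ (Fin.succ ⟨0, hn⟩)) {p : St n × St n} (hp : p ∈ DD hn) :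
    ∃ K : ℝ, 0 < K ∧ ∀ N : ℕ,
    ENNReal.ofReal (Real.exp (-(θ * b * (μ 0 - μ (Fin.succ ⟨0, hn⟩)) - θ ^ 2 * b ^ 2)) ^ N *
        (p.1 ⟨0, hn⟩ - p.2 ⟨0, hn⟩) ^ θ / 2) ≤
      (Qp μ b κ Wl)^[N] (fun q => if q.1 ⟨0, hn⟩ ≤ K then
        ENNReal.ofReal ((q.1 ⟨0, hn⟩ - q.2 ⟨0, hn⟩) ^ θ) else 0) p := by
  set m := μ 0 - μ (Fin.succ ⟨0, hn⟩) with hm
  -- the exponent
  obtain ⟨ϑ, hϑ, hϑ1, hϑb⟩ : ∃ ϑ : ℝ, 0 < ϑ ∧ ϑ ≤ 1 ∧ ϑ * b < m - 2 * b * θ := by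
    refine ⟨min 1 ((m - 2 * b * θ) / (2 * b)), lt_min one_pos (div_pos (by linarith) (by linarith)),
      min_le_left _ _, ?_⟩
    have h1 := mul_le_mul_of_nonneg_right (min_le_right 1 ((m - 2 * b * θ) / (2 * b))) hb.le
    have h2 : (m - 2 * b * θ) / (2 * b) * b = (m - 2 * b * θ) / 2 := by field_simp
    linarith
  have hlt : θ * b * m - θ ^ 2 * b ^ 2 < (θ + ϑ) * b * m - (θ + ϑ) ^ 2 * b ^ 2 := by
    have h1 : 0 < ϑ * b * (m - 2 * b * θ - ϑ * b) :=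
      mul_pos (mul_pos hϑ hb) (by linarith)
    linarith
  obtain ⟨C, hC, hCN⟩ := Qp_weight μ b κ hn hb hκ hW h0 hϑ hϑ1 hlt hp
  rw [← hm] at hCN
  set r := Real.exp (-(θ * b * m - θ ^ 2 * b ^ 2)) with hr
  have hr0 : 0 < r := Real.exp_pos _
  have hq : 0 < p.1 ⟨0, hn⟩ - p.2 ⟨0, hn⟩ := sub_pos.2 hp.2.2
  have hqθ : 0 < (p.1 ⟨0, hn⟩ - p.2 ⟨0, hn⟩) ^ θ := Real.rpow_pos_of_pos hq θ
  set Q := (p.1 ⟨0, hn⟩ - p.2 ⟨0, hn⟩) ^ θ with hQ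
  -- choice of `K`
  have hK1 : 0 < 2 * C / Q + 1 := by positivity
  set K := (2 * C / Q + 1) ^ (1 / ϑ) with hK
  have hK0 : 0 < K := Real.rpow_pos_of_pos hK1 _
  have hKϑ : K ^ ϑ = 2 * C / Q + 1 := by
    rw [hK, ← Real.rpow_mul hK1.le]
    have : 1 / ϑ * ϑ = 1 := by field_simp
    rw [this, Real.rpow_one]
  refine ⟨K, hK0, fun N => ?_⟩
  set g : St n × St n → ℝ≥0∞ := fun q => ENNReal.ofReal ((q.1 ⟨0, hn⟩ - q.2 ⟨0, hn⟩) ^ θ) with hg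
  set g1 : St n × St n → ℝ≥0∞ := fun q => if q.1 ⟨0, hn⟩ ≤ K then g q else 0 with hg1
  set g2 : St n × St n → ℝ≥0∞ := fun q => if q.1 ⟨0, hn⟩ ≤ K then 0 else g q with hg2
  set F : St n × St n → ℝ≥0∞ := fun q =>
    ENNReal.ofReal ((q.1 ⟨0, hn⟩ - q.2 ⟨0, hn⟩) ^ θ * q.1 ⟨0, hn⟩ ^ ϑ) with hF
  have hset : MeasurableSet {q : St n × St n | q.1 ⟨0, hn⟩ ≤ K} :=
    measurableSet_le ((measurable_pi_apply _).comp measurable_fst) measurable_const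
  have hgm : Measurable g := LB1_measurable hn θ
  have hg1m : Measurable g1 := Measurable.ite hset hgm measurable_const
  have hsum : g = fun q => g1 q + g2 q := by
    funext q
    simp only [hg1, hg2]
    split_ifs <;> simp
  have hpow := Qp_pow μ b κ hn hκ.le hW θ N hp
  rw [← hm, ← hr, ← hQ] at hpow
  change (Qp μ b κ Wl)^[N] g p = _ at hpow
  rw [hsum, Qp_iter_add μ b κ hW hg1m] at hpow
  -- the second part
  have hKinv : 0 ≤ (K ^ ϑ)⁻¹ := by positivity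
  have hH : (Qp μ b κ Wl)^[N] g2 p ≤ ENNReal.ofReal (r ^ N * Q / 2) := by
    have h1 : (Qp μ b κ Wl)^[N] g2 p ≤
        (Qp μ b κ Wl)^[N] (fun q => ENNReal.ofReal ((K ^ ϑ)⁻¹) * F q) p := by
      refine Qp_iter_mono μ b κ (invD_DD μ b κ hn hκ.le) (fun q hqD => ?_) N hp
      simp only [hg2]
      split_ifs with hle
      · exact bot_le
      · push Not at hle
        simp only [hg, hF]
        rw [← ENNReal.ofReal_mul hKinv]
        apply ENNReal.ofReal_le_ofReal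
        have h2 : K ^ ϑ ≤ q.1 ⟨0, hn⟩ ^ ϑ := Real.rpow_le_rpow hK0.le hle.le hϑ.le
        have h3 : 0 ≤ (q.1 ⟨0, hn⟩ - q.2 ⟨0, hn⟩) ^ θ :=
          Real.rpow_nonneg (sub_pos.2 hqD.2.2).le θ
        have h4 : 1 ≤ (K ^ ϑ)⁻¹ * q.1 ⟨0, hn⟩ ^ ϑ := by
          have hKp : 0 < K ^ ϑ := Real.rpow_pos_of_pos hK0 ϑ
          rw [inv_mul_eq_div, le_div_iff₀ hKp, one_mul]
          exact h2
        calc (q.1 ⟨0, hn⟩ - q.2 ⟨0, hn⟩) ^ θ = (q.1 ⟨0, hn⟩ - q.2 ⟨0, hn⟩) ^ θ * 1 := by ring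
          _ ≤ (q.1 ⟨0, hn⟩ - q.2 ⟨0, hn⟩) ^ θ * ((K ^ ϑ)⁻¹ * q.1 ⟨0, hn⟩ ^ ϑ) :=
              mul_le_mul_of_nonneg_left h4 h3
          _ = _ := by ring
    refine h1.trans ?_
    rw [Qp_iter_mul μ b κ hW (LB2_measurable hn θ ϑ)]
    refine (mul_le_mul_right (hCN N) _).trans ?_
    rw [← ENNReal.ofReal_mul hKinv]
    apply ENNReal.ofReal_le_ofReal
    rw [hKϑ]
    have hrN : 0 ≤ r ^ N := by positivity
    have h2 : (2 * C / Q + 1)⁻¹ * C ≤ Q / 2 := by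
      rw [inv_mul_eq_div, div_le_iff₀ hK1]
      have e2 : Q / 2 * (2 * C / Q + 1) = C + Q / 2 := by
        field_simp
      rw [e2]
      linarith
    have h3 := mul_le_mul_of_nonneg_right h2 hrN
    linarith
  -- conclusion
  have hfin : ENNReal.ofReal (r ^ N * Q / 2) ≠ ∞ := ENNReal.ofReal_ne_top
  have hnn : 0 ≤ r ^ N * Q / 2 := by positivity
  have htot : ENNReal.ofReal (r ^ N * Q / 2) + ENNReal.ofReal (r ^ N * Q / 2) ≤
      (Qp μ b κ Wl)^[N] g1 p + ENNReal.ofReal (r ^ N * Q / 2) := by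
    rw [← ENNReal.ofReal_add hnn hnn]
    have e3 : r ^ N * Q / 2 + r ^ N * Q / 2 = r ^ N * Q := by ring
    rw [e3, ENNReal.ofReal_mul (by positivity), ← hpow]
    exact add_le_add le_rfl hH
  exact (ENNReal.add_le_add_iff_right hfin).1 htot

end Pool.Agent.OYG
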