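import Pool.Agent.OYG.LB2

/-!
LB3: lower bound of the localised first moment of the difference.

Notation of LB2; `m = μ 0 - μ 1 > 0`. Case `m > 2 b`: `local_low` with `θ = 1`, `f(1) = b m - b² = rate m b`.
Case `m ≤ 2 b`: take `0 < η < m` with `2 b η ≤ ε` and `θ = (m - η)/(2b) ∈ (0,1)`, so `2 b θ < m`, `f(θ) = (m² - η²)/4 ≤ rate`. With
`ϑ' = η/(2b)` (if `ϑ' ≥ θ` take `η` smaller; only `θ - ϑ'` real is needed, `Qp_pow` holds for every real exponent):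
on `{q < e^{-2bηN} q_0}` one has `q^θ ≤ (e^{-2bηN} q_0)^ϑ' q^(θ-ϑ')`, so by `Qp_pow`
`Qp^[N] (q^θ 1_{q < e^{-2bηN} q_0}) ≤ q_0^θ exp (-(2bηϑ' + f(θ-ϑ')) N) = q_0^θ e^{-f(θ) N} e^{-η² N/4}`. For `N ≥ N₀` this is at most a quarter of
`q_0^θ e^{-f(θ)N}`, so with `local_low`: `Qp^[N] (q^θ 1_{X ≤ K, q ≥ e^{-2bηN} q_0}) ≥ (1/4) q_0^θ e^{-f(θ) N}`, and there
`q = q^θ q^(1-θ) ≥ q^θ (e^{-2bηN} q_0)^(1-θ)`. Total: `≥ (1/4) q_0 exp (-(f(θ) + 2bη(1-θ)) N) ≥ (1/4) q_0 exp (-(rate + ε) N)`.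
-/

open MeasureTheory ProbabilityTheory Set Filter Topology
open scoped ENNReal NNReal

namespace Pool.Agent.OYG

variable {n : ℕ} (μ : Fin (n + 1) → ℝ) (b κ : ℝ) {Wl : Measure (Blk n)}

lemma lb3_pt {q a θ ϑ : ℝ} (hq : 0 < q) (ha : 0 < a) (hθ1 : θ < 1) (hϑ : 0 ≤ ϑ) :
    q ^ θ ≤ a ^ ϑ * q ^ (θ - ϑ) + a ^ (-(1 - θ)) * q := by
  rcases lt_or_ge q a with h | h
  · have h1 : q ^ θ = q ^ ϑ * q ^ (θ - ϑ) := by
      rw [← Real.rpow_add hq]; congr 1; ring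
    have h2 : q ^ ϑ ≤ a ^ ϑ := Real.rpow_le_rpow hq.le h.le hϑ
    have h3 : 0 < q ^ (θ - ϑ) := Real.rpow_pos_of_pos hq _
    have h4 : 0 < a ^ (-(1 - θ)) := Real.rpow_pos_of_pos ha _
    rw [h1]
    nlinarith [mul_le_mul_of_nonneg_right h2 h3.le, mul_pos h4 hq]
  · have h1 : q = q ^ θ * q ^ (1 - θ) := by
      rw [← Real.rpow_add hq]
      have : θ + (1 - θ) = 1 := by ring
      rw [this, Real.rpow_one]
    have h2 : a ^ (1 - θ) ≤ q ^ (1 - θ) := Real.rpow_le_rpow ha.le h (by linarith)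
    have h3 : 0 < q ^ θ := Real.rpow_pos_of_pos hq _
    have h4 : 0 < a ^ (-(1 - θ)) := Real.rpow_pos_of_pos ha _
    have h5 : a ^ (-(1 - θ)) * a ^ (1 - θ) = 1 := by
      rw [← Real.rpow_add ha]; simp
    have h6 : 0 < a ^ ϑ * q ^ (θ - ϑ) :=
      mul_pos (Real.rpow_pos_of_pos ha _) (Real.rpow_pos_of_pos hq _)
    have h7 : q ^ θ ≤ a ^ (-(1 - θ)) * q := by
      calc q ^ θ = q ^ θ * (a ^ (-(1 - θ)) * a ^ (1 - θ)) := by rw [h5, mul_one]
        _ ≤ q ^ θ * (a ^ (-(1 - θ)) * q ^ (1 - θ)) := by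
            apply mul_le_mul_of_nonneg_left _ h3.le
            exact mul_le_mul_of_nonneg_left h2 h4.le
        _ = a ^ (-(1 - θ)) * (q ^ θ * q ^ (1 - θ)) := by ring
        _ = a ^ (-(1 - θ)) * q := by rw [← h1]
    linarith

lemma lb3_meas (hn : 0 < n) (c : ℝ) : Measurable (fun q : St n × St n =>
    ENNReal.ofReal ((q.1 ⟨0, hn⟩ - q.2 ⟨0, hn⟩) ^ c)) := by
  have h1 : Measurable (fun q : St n × St n => q.1 ⟨0, hn⟩ - q.2 ⟨0, hn⟩) :=
    ((measurable_pi_apply _).comp measurable_fst).sub ((measurable_pi_apply _).comp measurable_snd)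
  exact (h1.pow_const c).ennreal_ofReal

lemma lb3_meas2 (hn : 0 < n) (K : ℝ) : Measurable (fun q : St n × St n =>
    if q.1 ⟨0, hn⟩ ≤ K then ENNReal.ofReal (q.1 ⟨0, hn⟩ - q.2 ⟨0, hn⟩) else 0) := by
  have h0 : Measurable (fun q : St n × St n => q.1 ⟨0, hn⟩) :=
    (measurable_pi_apply _).comp measurable_fst
  have h1 : Measurable (fun q : St n × St n => q.1 ⟨0, hn⟩ - q.2 ⟨0, hn⟩) :=
    h0.sub ((measurable_pi_apply _).comp measurable_snd)
  exact Measurable.ite (measurableSet_le h0 measurable_const) h1.ennreal_ofReal measurable_const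

lemma lb3_cancel {x : ℝ} (hx : 0 ≤ x) {A Y : ℝ≥0∞} (hA : A ≤ ENNReal.ofReal (x / 4))
    (h : ENNReal.ofReal (x / 2) ≤ A + Y) : ENNReal.ofReal (x / 4) ≤ Y := by
  have h1 : ENNReal.ofReal (x / 2) = ENNReal.ofReal (x / 4) + ENNReal.ofReal (x / 4) := by
    rw [← ENNReal.ofReal_add (by positivity) (by positivity)]
    congr 1; ring
  rw [h1] at h
  have h2 : ENNReal.ofReal (x / 4) + ENNReal.ofReal (x / 4) ≤ ENNReal.ofReal (x / 4) + Y :=
    h.trans (by gcongr)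
  exact (ENNReal.add_le_add_iff_left ENNReal.ofReal_ne_top).mp h2

theorem low_moment (hn : 0 < n) (hb : 0 < b) (hκ : 0 < κ) (hW : WProp n Wl)
    (hm : 0 < μ 0 - μ (Fin.succ ⟨0, hn⟩)) {p : St n × St n} (hp : p ∈ DD hn) {ε : ℝ} (hε : 0 < ε) :
    ∃ (K c : ℝ) (N₀ : ℕ), 0 < K ∧ 0 < c ∧ ∀ N : ℕ, N₀ ≤ N →
    ENNReal.ofReal (c * Real.exp (-((rate (μ 0 - μ (Fin.succ ⟨0, hn⟩)) b + ε) * N))) ≤
      (Qp μ b κ Wl)^[N] (fun q => if q.1 ⟨0, hn⟩ ≤ K then
        ENNReal.ofReal (q.1 ⟨0, hn⟩ - q.2 ⟨0, hn⟩) else 0) p := by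
  set m : ℝ := μ 0 - μ (Fin.succ ⟨0, hn⟩) with hmdef
  set q0 : ℝ := p.1 ⟨0, hn⟩ - p.2 ⟨0, hn⟩ with hq0def
  have hq0 : 0 < q0 := sub_pos.mpr hp.2.2
  rcases lt_or_ge (2 * b) m with hcase | hcase
  · obtain ⟨K, hK, hlow⟩ := local_low μ b κ hn hb hκ hW (θ := 1) one_pos (by rw [mul_one]; exact hcase) hp
    refine ⟨K, q0 / 2, 0, hK, by positivity, fun N _ => ?_⟩
    have h1 := hlow N
    simp only [Real.rpow_one] at h1
    refine le_trans (ENNReal.ofReal_le_ofReal ?_) h1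
    have h2 : rate m b = b * (m - b) := by
      unfold rate; rw [if_neg (not_le.mpr hcase)]
    rw [← hmdef, ← hq0def, h2, ← Real.exp_nat_mul]
    have h3 : Real.exp (-((b * (m - b) + ε) * N)) ≤
        Real.exp ((N : ℝ) * -(1 * b * m - 1 ^ 2 * b ^ 2)) := by
      apply Real.exp_le_exp.mpr
      have : 0 ≤ ε * (N : ℝ) := by positivity
      nlinarith
    calc q0 / 2 * Real.exp (-((b * (m - b) + ε) * N)) ≤
        q0 / 2 * Real.exp ((N : ℝ) * -(1 * b * m - 1 ^ 2 * b ^ 2)) :=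
          mul_le_mul_of_nonneg_left h3 (by positivity)
      _ = _ := by ring
  · set η : ℝ := min (m / 2) (ε / (2 * b)) with hηdef
    have hη : 0 < η := lt_min (by positivity) (by positivity)
    have hηm : η ≤ m / 2 := min_le_left _ _
    have hηε : 2 * b * η ≤ ε := by
      have h1 : η ≤ ε / (2 * b) := min_le_right _ _
      rw [le_div_iff₀ (by positivity)] at h1
      linarith
    set θ : ℝ := (m - η) / (2 * b) with hθdef
    have hθ0 : 0 < θ := div_pos (by linarith) (by positivity)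
    have hθ1 : θ < 1 := by
      rw [hθdef, div_lt_one (by positivity)]; linarith
    have hbθ : 2 * b * θ = m - η := by
      rw [hθdef]; field_simp
    set ϑ : ℝ := η / (2 * b) with hϑdef
    have hϑ0 : 0 < ϑ := by positivity
    have hbϑ : 2 * b * ϑ = η := by rw [hϑdef]; field_simp
    obtain ⟨K, hK, hlow⟩ := local_low μ b κ hn hb hκ hW (θ := θ) hθ0 (by
      show 2 * b * θ < m
      rw [hbθ]; linarith) hp
    have hrate : rate m b = m ^ 2 / 4 := by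
      unfold rate; rw [if_pos hcase]
    refine ⟨K, q0 / 4, ⌈12 / η ^ 2⌉₊, hK, by positivity, fun N hN => ?_⟩
    have hNη : 3 ≤ η ^ 2 * N / 4 := by
      have h1 : 12 / η ^ 2 ≤ (N : ℝ) := (Nat.le_ceil _).trans (by exact_mod_cast hN)
      rw [div_le_iff₀ (by positivity)] at h1
      linarith
    have hquarter : Real.exp (-(η ^ 2 * N / 4)) ≤ 1 / 4 := by
      have h1 : (4 : ℝ) ≤ Real.exp (η ^ 2 * N / 4) := by
        have := Real.add_one_le_exp (η ^ 2 * N / 4)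
        linarith
      rw [Real.exp_neg, inv_eq_one_div]
      exact one_div_le_one_div_of_le (by norm_num) h1
    set a : ℝ := Real.exp (-(2 * b * η * N)) * q0 with hadef
    have ha : 0 < a := by positivity
    -- exact exponents
    have hf1 : θ * b * m - θ ^ 2 * b ^ 2 = (m ^ 2 - η ^ 2) / 4 := by
      have : θ * b = (m - η) / 2 := by linarith
      calc θ * b * m - θ ^ 2 * b ^ 2 = (θ * b) * m - (θ * b) ^ 2 := by ring
        _ = _ := by rw [this]; ring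
    have hf2 : (θ - ϑ) * b * m - (θ - ϑ) ^ 2 * b ^ 2 = m ^ 2 / 4 - η ^ 2 := by
      have : (θ - ϑ) * b = (m - 2 * η) / 2 := by linarith
      calc (θ - ϑ) * b * m - (θ - ϑ) ^ 2 * b ^ 2 = ((θ - ϑ) * b) * m - ((θ - ϑ) * b) ^ 2 := by ring
        _ = _ := by rw [this]; ring
    have hlowN := hlow N
    rw [← hmdef, ← hq0def, hf1, ← Real.exp_nat_mul] at hlowN
    have hpow := Qp_pow μ b κ hn hκ.le hW (θ - ϑ) N hp
    rw [← hmdef, ← hq0def, hf2, ← Real.exp_nat_mul] at hpow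
    set R := (Qp μ b κ Wl)^[N] (fun q => if q.1 ⟨0, hn⟩ ≤ K then
        ENNReal.ofReal (q.1 ⟨0, hn⟩ - q.2 ⟨0, hn⟩) else 0) p with hRdef
    have hsplit : (Qp μ b κ Wl)^[N] (fun q => if q.1 ⟨0, hn⟩ ≤ K then
        ENNReal.ofReal ((q.1 ⟨0, hn⟩ - q.2 ⟨0, hn⟩) ^ θ) else 0) p ≤
        ENNReal.ofReal (a ^ ϑ) * (Qp μ b κ Wl)^[N] (fun q =>
          ENNReal.ofReal ((q.1 ⟨0, hn⟩ - q.2 ⟨0, hn⟩) ^ (θ - ϑ))) p +
        ENNReal.ofReal (a ^ (-(1 - θ))) * R := by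
      rw [hRdef, ← Qp_iter_mul μ b κ hW (lb3_meas hn (θ - ϑ)), ← Qp_iter_mul μ b κ hW (lb3_meas2 hn K),
        ← Qp_iter_add μ b κ hW ((lb3_meas hn (θ - ϑ)).const_mul _)]
      apply Qp_iter_mono μ b κ (invD_DD μ b κ hn hκ.le) _ N hp
      intro q hq
      have hqpos : 0 < q.1 ⟨0, hn⟩ - q.2 ⟨0, hn⟩ := sub_pos.mpr hq.2.2
      by_cases hqK : q.1 ⟨0, hn⟩ ≤ K
      · simp only [if_pos hqK]
        rw [← ENNReal.ofReal_mul (by positivity), ← ENNReal.ofReal_mul (by positivity),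
          ← ENNReal.ofReal_add (by positivity) (by positivity)]
        exact ENNReal.ofReal_le_ofReal (lb3_pt hqpos ha hθ1 hϑ0.le)
      · simp only [if_neg hqK]
        exact bot_le
    rw [hpow] at hsplit
    set x : ℝ := Real.exp ((N : ℝ) * -((m ^ 2 - η ^ 2) / 4)) * q0 ^ θ with hxdef
    have hx : 0 < x := by positivity
    have hmain := hlowN.trans hsplit
    have hA : ENNReal.ofReal (a ^ ϑ) * (ENNReal.ofReal (Real.exp ((N : ℝ) * -(m ^ 2 / 4 - η ^ 2))) *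
        ENNReal.ofReal (q0 ^ (θ - ϑ))) ≤ ENNReal.ofReal (x / 4) := by
      rw [← ENNReal.ofReal_mul (by positivity), ← ENNReal.ofReal_mul (by positivity)]
      apply ENNReal.ofReal_le_ofReal
      have e1 : a ^ ϑ = Real.exp (-(2 * b * η * N) * ϑ) * q0 ^ ϑ := by
        rw [hadef, Real.mul_rpow (Real.exp_pos _).le hq0.le, ← Real.exp_mul]
      have e2 : q0 ^ ϑ * q0 ^ (θ - ϑ) = q0 ^ θ := by
        rw [← Real.rpow_add hq0]; congr 1; ring
      have e3 : Real.exp (-(2 * b * η * N) * ϑ) * Real.exp ((N : ℝ) * -(m ^ 2 / 4 - η ^ 2)) =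
          Real.exp ((N : ℝ) * -((m ^ 2 - η ^ 2) / 4)) * Real.exp (-(η ^ 2 * N / 4)) := by
        rw [← Real.exp_add, ← Real.exp_add]
        congr 1
        have : 2 * b * η * N * ϑ = η ^ 2 * N := by
          calc 2 * b * η * N * ϑ = (2 * b * ϑ) * η * N := by ring
            _ = η ^ 2 * N := by rw [hbϑ]; ring
        linarith
      calc a ^ ϑ * (Real.exp ((N : ℝ) * -(m ^ 2 / 4 - η ^ 2)) * q0 ^ (θ - ϑ))
          = (Real.exp (-(2 * b * η * N) * ϑ) * Real.exp ((N : ℝ) * -(m ^ 2 / 4 - η ^ 2))) *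
            (q0 ^ ϑ * q0 ^ (θ - ϑ)) := by rw [e1]; ring
        _ = x * Real.exp (-(η ^ 2 * N / 4)) := by rw [e2, e3, hxdef]; ring
        _ ≤ x * (1 / 4) := mul_le_mul_of_nonneg_left hquarter hx.le
        _ = x / 4 := by ring
    have hfin := lb3_cancel hx.le hA hmain
    -- multiply by `a^(1-θ)`
    have hR : ENNReal.ofReal (a ^ (1 - θ)) * ENNReal.ofReal (x / 4) ≤ R := by
      calc ENNReal.ofReal (a ^ (1 - θ)) * ENNReal.ofReal (x / 4)
          ≤ ENNReal.ofReal (a ^ (1 - θ)) * (ENNReal.ofReal (a ^ (-(1 - θ))) * R) := by gcongr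
        _ = (ENNReal.ofReal (a ^ (1 - θ)) * ENNReal.ofReal (a ^ (-(1 - θ)))) * R := by ring
        _ = R := by
            rw [← ENNReal.ofReal_mul (by positivity), ← Real.rpow_add ha]
            simp
    refine le_trans ?_ hR
    rw [← ENNReal.ofReal_mul (by positivity)]
    apply ENNReal.ofReal_le_ofReal
    have e4 : a ^ (1 - θ) = Real.exp (-(2 * b * η * N) * (1 - θ)) * q0 ^ (1 - θ) := by
      rw [hadef, Real.mul_rpow (Real.exp_pos _).le hq0.le, ← Real.exp_mul]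
    have e5 : q0 ^ (1 - θ) * q0 ^ θ = q0 := by
      rw [← Real.rpow_add hq0]; simp
    have e6 : a ^ (1 - θ) * (x / 4) = q0 / 4 *
        Real.exp (-(2 * b * η * N) * (1 - θ) + (N : ℝ) * -((m ^ 2 - η ^ 2) / 4)) := by
      rw [Real.exp_add, e4, hxdef]
      calc _ = (q0 ^ (1 - θ) * q0 ^ θ) / 4 * (Real.exp (-(2 * b * η * N) * (1 - θ)) *
            Real.exp ((N : ℝ) * -((m ^ 2 - η ^ 2) / 4))) := by ring
        _ = _ := by rw [e5]
    rw [e6, hrate]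
    apply mul_le_mul_of_nonneg_left _ (by positivity)
    apply Real.exp_le_exp.mpr
    have hN0 : (0 : ℝ) ≤ N := Nat.cast_nonneg _
    have h1 : 2 * b * η * N * (1 - θ) ≤ ε * N := by
      have h2 : 2 * b * η * (1 - θ) ≤ ε := by
        have h3 : 0 ≤ 2 * b * η * θ := by positivity
        nlinarith
      calc 2 * b * η * N * (1 - θ) = (2 * b * η * (1 - θ)) * N := by ring
        _ ≤ ε * N := mul_le_mul_of_nonneg_right h2 hN0
    have h4 : 0 ≤ η ^ 2 * N := by positivity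
    nlinarith

end Pool.Agent.OYG
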