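import Pool.Agent.OYG.XCO

/-!
LNK: the gap process in multiplicative coordinates.

Fix `ω`. `S_j(t) = Σ_{i ≤ j} G_i(t)` satisfies (telescoping sum of the `U'` terms, and of the Brownian motions)
`S_j(t) = Σ_{i ≤ j} x_i + V_j(t) + ∫_0^t a exp (-b G_j(s)) ds`, `V_j(t) = B_{j+1}(t) - B_0(t) + (μ_{j+1} - μ_0) t`.
So `Y = S_j - V_j` is C^1 with `Y' = a exp (-b (S_j - S_{j-1}))` (`S_{-1} = 0`) and
`(exp (b Y))' = a b exp (-b V_j) exp (b S_{j-1})`. Integrating from `N` to `N + s`, with `X_j = exp (b S_j)`: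
`X_j(N+s) = exp (b (V_j(N+s) - V_j(N))) (X_j(N) + a b ∫_0^s exp (-b (V_j(N+u) - V_j(N))) X_{j-1}(N+u) du)`,
which is the recursion defining `flow` with `w = blk B hB N ω` (`pv μ w j u = V_j(N+u) - V_j(N)` for `u ∈ [0,1]`); induction on `j`.
-/

open MeasureTheory ProbabilityTheory Set Filter Topology
open scoped ENNReal NNReal

namespace Pool.Agent.OYG

variable {n : ℕ} (μ : Fin (n + 1) → ℝ) (a b : ℝ)

/-- partial sums of a gap vector -/
private def lnkps (y : Fin n → ℝ) (k : ℕ) : ℝ := ∑ i : Fin n, if (i : ℕ) < k then y i else 0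

private theorem lnkps_zero (y : Fin n → ℝ) : lnkps y 0 = 0 := by
  unfold lnkps
  simp

private theorem lnkps_succ (y : Fin n → ℝ) {k : ℕ} (hk : k < n) :
    lnkps y (k + 1) = lnkps y k + y ⟨k, hk⟩ := by
  unfold lnkps
  have h : ∀ i : Fin n, (if (i : ℕ) < k + 1 then y i else 0) =
      (if (i : ℕ) < k then y i else 0) + (if i = ⟨k, hk⟩ then y i else 0) := by
    intro i
    by_cases h1 : (i : ℕ) < k
    · have h2 : i ≠ ⟨k, hk⟩ := by
        rintro rfl
        exact lt_irrefl _ h1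
      simp [h1, h2, Nat.lt_succ_of_lt h1]
    · by_cases h2 : i = ⟨k, hk⟩
      · subst h2
        simp
      · have h3 : ¬ (i : ℕ) < k + 1 := by
          intro h4
          apply h2
          apply Fin.ext
          change (i : ℕ) = k
          omega
        simp [h1, h2, h3]
  rw [Finset.sum_congr rfl (fun i _ => h i), Finset.sum_add_distrib]
  simp

private theorem toX_lnkps (y : Fin n → ℝ) {j : ℕ} (hj : j < n) :
    toX b y ⟨j, hj⟩ = Real.exp (b * lnkps y (j + 1)) := by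
  unfold toX lnkps
  rw [Finset.sum_filter]
  congr 2
  refine Finset.sum_congr rfl ?_
  intro i _
  have : i ≤ (⟨j, hj⟩ : Fin n) ↔ (i : ℕ) < j + 1 := by
    rw [Fin.le_def]
    change (i : ℕ) ≤ j ↔ _
    omega
  simp [this]

private theorem lnk_contG {U : ℝ → ℝ} {Ω : Type*} [MeasurableSpace Ω] {P : Measure Ω}
    {B : Fin (n + 1) → ℝ≥0 → Ω → ℝ} {x : Fin n → ℝ} {G : ℝ≥0 → Ω → Fin n → ℝ}
    (hG : IsGap n μ U B x G) (ω : Ω) (i : Fin n) :
    Continuous fun s : ℝ => G s.toNNReal ω i :=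
  (continuous_apply i).comp ((hG.cont ω).comp continuous_real_toNNReal)

private theorem lnk_sum {U : ℝ → ℝ} (hU : Continuous U) {Ω : Type*} [MeasurableSpace Ω]
    {P : Measure Ω}
    {B : Fin (n + 1) → ℝ≥0 → Ω → ℝ} {x : Fin n → ℝ} {G : ℝ≥0 → Ω → Fin n → ℝ}
    (hG : IsGap n μ U B x G) (ω : Ω) (t : ℝ≥0) (k : ℕ) (hk : k < n) :
    lnkps (G t ω) (k + 1) = lnkps x (k + 1) +
      (∫ s in (0 : ℝ)..t, ((μ ⟨k + 1, by omega⟩ - μ 0) + U (G s.toNNReal ω ⟨k, hk⟩))) +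
      B ⟨k + 1, by omega⟩ t ω - B 0 t ω := by
  induction k with
  | zero =>
    rw [lnkps_succ _ hk, lnkps_succ _ hk, lnkps_zero, lnkps_zero, hG.eq ω t ⟨0, hk⟩]
    have h1 : ∀ s : ℝ, drift n μ U (G s.toNNReal ω) ⟨0, hk⟩ =
        (μ ⟨0 + 1, by omega⟩ - μ 0) + U (G s.toNNReal ω ⟨0, hk⟩) := by
      intro s
      unfold drift
      simp only [lt_irrefl, if_false, sub_zero]
      rfl
    simp only [h1]
    have h2 : (⟨0, hk⟩ : Fin n).castSucc = (0 : Fin (n + 1)) := rfl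
    have h3 : (⟨0, hk⟩ : Fin n).succ = (⟨0 + 1, by omega⟩ : Fin (n + 1)) := rfl
    rw [h2, h3]
    ring
  | succ k ih =>
    have hk' : k < n := by omega
    rw [lnkps_succ _ hk, ih hk', lnkps_succ _ hk, hG.eq ω t ⟨k + 1, hk⟩]
    have h1 : ∀ s : ℝ, drift n μ U (G s.toNNReal ω) ⟨k + 1, hk⟩ =
        (μ ⟨k + 1 + 1, by omega⟩ - μ ⟨k + 1, by omega⟩) + U (G s.toNNReal ω ⟨k + 1, hk⟩) -
          U (G s.toNNReal ω ⟨k, hk'⟩) := by
      intro s
      unfold drift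
      simp only [Nat.succ_pos, if_true]
      rfl
    simp only [h1]
    have c1 := lnk_contG (P := P) μ hG ω ⟨k + 1, hk⟩
    have c2 := lnk_contG (P := P) μ hG ω ⟨k, hk'⟩
    have i1 : IntervalIntegrable (fun s : ℝ => (μ ⟨k + 1 + 1, by omega⟩ - μ ⟨k + 1, by omega⟩) +
        U (G s.toNNReal ω ⟨k + 1, hk⟩) - U (G s.toNNReal ω ⟨k, hk'⟩)) volume 0 t :=
      ((continuous_const.add (hU.comp c1)).sub (hU.comp c2)).intervalIntegrable _ _
    have i2 : IntervalIntegrable (fun s : ℝ => (μ ⟨k + 1, by omega⟩ - μ 0) +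
        U (G s.toNNReal ω ⟨k, hk'⟩)) volume 0 t :=
      (continuous_const.add (hU.comp c2)).intervalIntegrable _ _
    have h2 : (⟨k + 1, hk⟩ : Fin n).castSucc = (⟨k + 1, by omega⟩ : Fin (n + 1)) := rfl
    have h3 : (⟨k + 1, hk⟩ : Fin n).succ = (⟨k + 1 + 1, by omega⟩ : Fin (n + 1)) := rfl
    have h4 : (∫ s in (0 : ℝ)..t, ((μ ⟨k + 1 + 1, by omega⟩ - μ 0) +
        U (G s.toNNReal ω ⟨k + 1, hk⟩))) =
        (∫ s in (0 : ℝ)..t, ((μ ⟨k + 1, by omega⟩ - μ 0) + U (G s.toNNReal ω ⟨k, hk'⟩))) +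
        ∫ s in (0 : ℝ)..t, ((μ ⟨k + 1 + 1, by omega⟩ - μ ⟨k + 1, by omega⟩) +
          U (G s.toNNReal ω ⟨k + 1, hk⟩) - U (G s.toNNReal ω ⟨k, hk'⟩)) := by
      rw [← intervalIntegral.integral_add i2 i1]
      refine intervalIntegral.integral_congr ?_
      intro s _
      simp only
      ring
    rw [h2, h3, h4]
    ring

private theorem lnk_pv {Ω : Type*} {B : Fin (n + 1) → ℝ≥0 → Ω → ℝ}
    (hB : ∀ i ω, Continuous fun t => B i t ω) (ω : Ω) (N : ℕ) {k : ℕ} (hk : k < n) {u : ℝ}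
    (h0 : 0 ≤ u) (h1 : u ≤ 1) :
    pv μ (blk B hB N ω) k u =
      (B ⟨k + 1, by omega⟩ ((N : ℝ≥0) + u.toNNReal) ω - B ⟨k + 1, by omega⟩ (N : ℝ≥0) ω) -
      (B 0 ((N : ℝ≥0) + u.toNNReal) ω - B 0 (N : ℝ≥0) ω) +
      (μ ⟨k + 1, by omega⟩ - μ 0) * u := by
  unfold pv
  rw [dif_pos hk]
  have hp : projIcc (0 : ℝ) 1 zero_le_one u = ⟨u, h0, h1⟩ := projIcc_of_mem _ ⟨h0, h1⟩
  have hq : (⟨((⟨u, h0, h1⟩ : unitInterval) : ℝ), h0⟩ : ℝ≥0) = u.toNNReal := by
    apply NNReal.eq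
    rw [Real.coe_toNNReal _ h0]
    rfl
  rw [hp]
  have hb : ∀ i : Fin (n + 1), (blk B hB N ω) i ⟨u, h0, h1⟩ =
      B i ((N : ℝ≥0) + u.toNNReal) ω - B i (N : ℝ≥0) ω := by
    intro i
    rw [← hq]
    rfl
  rw [hb, hb]

private theorem lnk_step (hb : 0 < b) {Ω : Type*} [MeasurableSpace Ω] {P : Measure Ω}
    {B : Fin (n + 1) → ℝ≥0 → Ω → ℝ} (hB : IsBMd P n B) {x : Fin n → ℝ} {G : ℝ≥0 → Ω → Fin n → ℝ}
    (hG : IsGap n μ (fun y => a * Real.exp (-(b * y))) B x G) (ω : Ω) (N : ℕ) {k : ℕ}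
    (hk : k < n) {u : ℝ} (h0 : 0 ≤ u) (h1 : u ≤ 1) :
    lnkps (G ((N : ℝ≥0) + u.toNNReal) ω) (k + 1) = lnkps (G (N : ℝ≥0) ω) (k + 1) +
      pv μ (blk B hB.cont N ω) k u +
      ∫ r in (0 : ℝ)..u, a * Real.exp (-(b * G ((N : ℝ≥0) + r.toNNReal) ω ⟨k, hk⟩)) := by
  have hU : Continuous (fun y : ℝ => a * Real.exp (-(b * y))) := by fun_prop
  have e1 := lnk_sum (P := P) μ hU hG ω ((N : ℝ≥0) + u.toNNReal) k hk
  have e2 := lnk_sum (P := P) μ hU hG ω (N : ℝ≥0) k hk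
  have c2 := lnk_contG (P := P) μ hG ω ⟨k, hk⟩
  have ci : Continuous (fun s : ℝ => (μ ⟨k + 1, by omega⟩ - μ 0) +
      a * Real.exp (-(b * G s.toNNReal ω ⟨k, hk⟩))) :=
    continuous_const.add (hU.comp c2)
  have hcast : (((N : ℝ≥0) + u.toNNReal : ℝ≥0) : ℝ) = (N : ℝ) + u := by
    push_cast
    rw [Real.coe_toNNReal _ h0]
  have hcastN : ((N : ℝ≥0) : ℝ) = (N : ℝ) := by push_cast; rfl
  have e3 : (∫ s in (0 : ℝ)..(((N : ℝ≥0) + u.toNNReal : ℝ≥0) : ℝ), ((μ ⟨k + 1, by omega⟩ - μ 0) +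
      a * Real.exp (-(b * G s.toNNReal ω ⟨k, hk⟩)))) =
      (∫ s in (0 : ℝ)..((N : ℝ≥0) : ℝ), ((μ ⟨k + 1, by omega⟩ - μ 0) +
      a * Real.exp (-(b * G s.toNNReal ω ⟨k, hk⟩)))) + ((μ ⟨k + 1, by omega⟩ - μ 0) * u +
      ∫ r in (0 : ℝ)..u, a * Real.exp (-(b * G ((N : ℝ≥0) + r.toNNReal) ω ⟨k, hk⟩))) := by
    rw [hcast, hcastN]
    rw [← intervalIntegral.integral_add_adjacent_intervals
      (ci.intervalIntegrable 0 (N : ℝ)) (ci.intervalIntegrable (N : ℝ) ((N : ℝ) + u))]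
    congr 1
    have e4 : (∫ s in (N : ℝ)..((N : ℝ) + u), ((μ ⟨k + 1, by omega⟩ - μ 0) +
        a * Real.exp (-(b * G s.toNNReal ω ⟨k, hk⟩)))) =
        ∫ r in (0 : ℝ)..u, ((μ ⟨k + 1, by omega⟩ - μ 0) +
        a * Real.exp (-(b * G ((N : ℝ) + r).toNNReal ω ⟨k, hk⟩))) := by
      have := intervalIntegral.integral_comp_add_left (a := (0 : ℝ)) (b := u)
        (fun s : ℝ => (μ ⟨k + 1, by omega⟩ - μ 0) +
        a * Real.exp (-(b * G s.toNNReal ω ⟨k, hk⟩))) (N : ℝ)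
      rw [this, add_zero]
    rw [e4]
    have e5 : (∫ r in (0 : ℝ)..u, ((μ ⟨k + 1, by omega⟩ - μ 0) +
        a * Real.exp (-(b * G ((N : ℝ) + r).toNNReal ω ⟨k, hk⟩)))) =
        ∫ r in (0 : ℝ)..u, ((μ ⟨k + 1, by omega⟩ - μ 0) +
        a * Real.exp (-(b * G ((N : ℝ≥0) + r.toNNReal) ω ⟨k, hk⟩))) := by
      refine intervalIntegral.integral_congr ?_
      intro r hr
      rw [uIcc_of_le h0] at hr
      have : ((N : ℝ) + r).toNNReal = (N : ℝ≥0) + r.toNNReal := by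
        rw [Real.toNNReal_add (by positivity) hr.1]
        congr 1
        exact Real.toNNReal_natCast N
      simp only [this]
    rw [e5, intervalIntegral.integral_add (by simp)]
    · simp
      ring
    · have cc : Continuous (fun r : ℝ => G ((N : ℝ≥0) + r.toNNReal) ω ⟨k, hk⟩) :=
        (continuous_apply _).comp ((hG.cont ω).comp
          (continuous_const.add continuous_real_toNNReal))
      exact (hU.comp cc).intervalIntegrable _ _
  rw [e3] at e1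
  rw [lnk_pv μ hB.cont ω N hk h0 h1, e1, e2]
  ring

private theorem lnk_exp (hb : 0 < b) {Ω : Type*} [MeasurableSpace Ω] {P : Measure Ω}
    {B : Fin (n + 1) → ℝ≥0 → Ω → ℝ} (hB : IsBMd P n B) {x : Fin n → ℝ} {G : ℝ≥0 → Ω → Fin n → ℝ}
    (hG : IsGap n μ (fun y => a * Real.exp (-(b * y))) B x G) (ω : Ω) (N : ℕ) {k : ℕ}
    (hk : k < n) {u : ℝ} (h0 : 0 ≤ u) (h1 : u ≤ 1) :
    Real.exp (b * lnkps (G ((N : ℝ≥0) + u.toNNReal) ω) (k + 1)) =
      Real.exp (b * pv μ (blk B hB.cont N ω) k u) *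
      (Real.exp (b * lnkps (G (N : ℝ≥0) ω) (k + 1)) + a * b *
        ∫ r in (0 : ℝ)..u, Real.exp (-(b * pv μ (blk B hB.cont N ω) k r)) *
          Real.exp (b * lnkps (G ((N : ℝ≥0) + r.toNNReal) ω) k)) := by
  set c := lnkps (G (N : ℝ≥0) ω) (k + 1) with hc
  set h : ℝ → ℝ := fun r => a * Real.exp (-(b * G ((N : ℝ≥0) + r.toNNReal) ω ⟨k, hk⟩)) with hh
  have cc : Continuous (fun r : ℝ => G ((N : ℝ≥0) + r.toNNReal) ω ⟨k, hk⟩) :=
    (continuous_apply _).comp ((hG.cont ω).comp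
      (continuous_const.add continuous_real_toNNReal))
  have hcont : Continuous h := by
    rw [hh]
    exact continuous_const.mul (Real.continuous_exp.comp (continuous_const.mul cc).neg)
  set y : ℝ → ℝ := fun r => c + ∫ s in (0 : ℝ)..r, h s with hy
  have hyd : ∀ r, HasDerivAt y (h r) r := by
    intro r
    have := (intervalIntegral.integral_hasDerivAt_right (hcont.intervalIntegrable 0 r)
      (hcont.stronglyMeasurableAtFilter _ _) hcont.continuousAt)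
    exact this.const_add c
  have hyc : Continuous y := continuous_iff_continuousAt.2 fun r => (hyd r).continuousAt
  have hed : ∀ r, HasDerivAt (fun r => Real.exp (b * y r)) (Real.exp (b * y r) * (b * h r)) r := by
    intro r
    exact ((hyd r).const_mul b).exp
  have hint : (∫ r in (0 : ℝ)..u, Real.exp (b * y r) * (b * h r)) =
      Real.exp (b * y u) - Real.exp (b * y 0) := by
    refine intervalIntegral.integral_eq_sub_of_hasDerivAt (fun r _ => hed r) ?_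
    exact ((Real.continuous_exp.comp (continuous_const.mul hyc)).mul
      (continuous_const.mul hcont)).intervalIntegrable _ _
  have hy0 : y 0 = c := by
    simp [hy]
  have hstep : ∀ r, 0 ≤ r → r ≤ 1 → lnkps (G ((N : ℝ≥0) + r.toNNReal) ω) (k + 1) =
      y r + pv μ (blk B hB.cont N ω) k r := by
    intro r hr0 hr1
    rw [lnk_step μ a b hb hB hG ω N hk hr0 hr1]
    simp only [hy, hh, hc]
    ring
  have hcongr : (∫ r in (0 : ℝ)..u, Real.exp (b * y r) * (b * h r)) = a * b *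
      ∫ r in (0 : ℝ)..u, Real.exp (-(b * pv μ (blk B hB.cont N ω) k r)) *
          Real.exp (b * lnkps (G ((N : ℝ≥0) + r.toNNReal) ω) k) := by
    rw [← intervalIntegral.integral_const_mul]
    refine intervalIntegral.integral_congr ?_
    intro r hr
    rw [uIcc_of_le h0] at hr
    have e1 := hstep r hr.1 (hr.2.trans h1)
    rw [lnkps_succ _ hk] at e1
    have e2 : lnkps (G ((N : ℝ≥0) + r.toNNReal) ω) k =
        y r + pv μ (blk B hB.cont N ω) k r - G ((N : ℝ≥0) + r.toNNReal) ω ⟨k, hk⟩ := by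
      linarith
    simp only [e2, hh]
    have e3 : Real.exp (b * y r) * (b * (a * Real.exp (-(b * G ((N : ℝ≥0) + r.toNNReal) ω ⟨k, hk⟩)))) =
        a * b * (Real.exp (b * y r) * Real.exp (-(b * G ((N : ℝ≥0) + r.toNNReal) ω ⟨k, hk⟩))) := by
      ring
    rw [e3, ← Real.exp_add, ← Real.exp_add]
    congr 2
    ring
  rw [hstep u h0 h1]
  rw [← hcongr, hint, hy0, mul_add, Real.exp_add]
  ring

theorem gap_flow (hb : 0 < b) {Ω : Type*} [MeasurableSpace Ω] {P : Measure Ω}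
    {B : Fin (n + 1) → ℝ≥0 → Ω → ℝ} (hB : IsBMd P n B) {x : Fin n → ℝ} {G : ℝ≥0 → Ω → Fin n → ℝ}
    (hG : IsGap n μ (fun y => a * Real.exp (-(b * y))) B x G) (ω : Ω) (N : ℕ) (s : ℝ≥0) (hs : s ≤ 1) :
    toX b (G ((N : ℝ≥0) + s) ω) =
      flow μ b (a * b) s (toX b (G N ω)) (blk B hB.cont N ω) := by
  have key : ∀ k : ℕ, k ≤ n → ∀ u : ℝ, 0 ≤ u → u ≤ 1 →
      XX b (a * b) (pv μ (blk B hB.cont N ω)) (exs (toX b (G N ω))) k u =
        Real.exp (b * lnkps (G ((N : ℝ≥0) + u.toNNReal) ω) k) := by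
    intro k
    induction k with
    | zero =>
      intro _ u _ _
      rw [lnkps_zero]
      simp [XX]
    | succ k ih =>
      intro hk u h0 h1
      have hk' : k < n := hk
      rw [lnk_exp μ a b hb hB hG ω N hk' h0 h1]
      have e1 : exs (toX b (G N ω)) k = Real.exp (b * lnkps (G (N : ℝ≥0) ω) (k + 1)) := by
        unfold exs
        rw [dif_pos hk', toX_lnkps]
      have e2 : (∫ s in (0 : ℝ)..u, Real.exp (-(b * pv μ (blk B hB.cont N ω) k s)) *
          XX b (a * b) (pv μ (blk B hB.cont N ω)) (exs (toX b (G N ω))) k s) =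
          ∫ r in (0 : ℝ)..u, Real.exp (-(b * pv μ (blk B hB.cont N ω) k r)) *
          Real.exp (b * lnkps (G ((N : ℝ≥0) + r.toNNReal) ω) k) := by
        refine intervalIntegral.integral_congr ?_
        intro r hr
        rw [uIcc_of_le h0] at hr
        simp only
        rw [ih hk'.le r hr.1 (hr.2.trans h1)]
      simp only [XX]
      rw [e1, e2]
  funext j
  obtain ⟨j, hj⟩ := j
  rw [toX_lnkps]
  unfold flow
  have := key (j + 1) hj (s : ℝ) s.2 (by exact_mod_cast hs)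
  rw [Real.toNNReal_coe] at this
  exact this.symm

theorem gap_zero {Ω : Type*} [MeasurableSpace Ω] {P : Measure Ω}
    {B : Fin (n + 1) → ℝ≥0 → Ω → ℝ} (hB : IsBMd P n B) {x : Fin n → ℝ} {G : ℝ≥0 → Ω → Fin n → ℝ}
    {U' : ℝ → ℝ} (hG : IsGap n μ U' B x G) (ω : Ω) : G 0 ω = x := by
  funext i
  rw [hG.eq ω 0 i, hB.zero, hB.zero]
  simp

theorem toX_pos (x : Fin n → ℝ) : Pos (toX b x) := by
  intro j
  exact Real.exp_pos _

theorem toG_toX (hb : 0 < b) (x : Fin n → ℝ) : toG b (toX b x) = x := by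
  funext j
  obtain ⟨j, hj⟩ := j
  unfold toG
  rw [toX_lnkps, Real.log_exp]
  by_cases h : 0 < j
  · obtain ⟨k, rfl⟩ : ∃ k, j = k + 1 := ⟨j - 1, by omega⟩
    have hk : k < n := by omega
    have e1 : toX b x ⟨((⟨k + 1, hj⟩ : Fin n) : ℕ) - 1, by omega⟩ =
        Real.exp (b * lnkps x (k + 1)) := toX_lnkps b x hk
    rw [e1, Real.log_exp]
    simp only [Nat.succ_pos, if_true]
    rw [lnkps_succ x hj]
    field_simp
    ring
  · have h0 : j = 0 := by omega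
    subst h0
    simp only [lt_irrefl, if_false]
    rw [lnkps_succ x hj, lnkps_zero]
    field_simp
    ring

theorem toX_toG (hb : 0 < b) {X : St n} (hX : Pos X) : toX b (toG b X) = X := by
  have key : ∀ j : ℕ, ∀ hj : j < n, b * lnkps (toG b X) (j + 1) = Real.log (X ⟨j, hj⟩) := by
    intro j
    induction j with
    | zero =>
      intro hj
      rw [lnkps_succ _ hj, lnkps_zero]
      unfold toG
      simp only [lt_irrefl, if_false]
      field_simp
      ring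
    | succ j ih =>
      intro hj
      have hj' : j < n := by omega
      rw [lnkps_succ _ hj, mul_add, ih hj']
      unfold toG
      simp only [Nat.succ_pos, if_true]
      have e : (⟨j + 1 - 1, by omega⟩ : Fin n) = ⟨j, hj'⟩ := rfl
      rw [e]
      field_simp
      ring
  funext j
  obtain ⟨j, hj⟩ := j
  rw [toX_lnkps, key j hj, Real.exp_log (hX _)]

end Pool.Agent.OYG
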