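import Pool.Agent.OYG.WLA
import Pool.Agent.OYG.IPR

/-!
WIN: the block during `[N, N+1]` is independent of the previous blocks.

For each line `i`: `IsPreBrownianReal.indepFun_shift` with `t₀ = N` says that `X i ω = (t ↦ B i (N + t) ω - B i N ω)` is independent of
`Y i ω = (t : Iic N ↦ B i t ω)`. Both are measurable functions of the line `t ↦ B i t ω`, so the pairs `(X i, Y i)` are independent
for different `i` (`iIndepFun.comp`). `indep_pairs` gives `(X i)_i ⟂ (Y i)_i`. Finally `blk N` is a measurable function of `(X i)_i`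
(`measurable_path`: evaluation of the block at `s` is the coordinate `s`), and the blocks `k < N` are measurable functions of `(Y i)_i`
… as functions of `(Y i)_i` they are only paths when continuous: to avoid this, use `IndepFun` of sigma algebras:
`IndepFun` is `Indep (comap …) (comap …)` and `comap (blk k) ≤ comap (Y)`: a set `(blk k)⁻¹ S`, `S` Borel in the path space, is by
`path_comap` of the form `{ω | (values of blk k ω) ∈ A}` with `A` in the product sigma algebra, so it lies in `comap Y`.
-/

open MeasureTheory ProbabilityTheory Set Filter Topology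
open scoped ENNReal NNReal

namespace Pool.Agent.OYG

variable {n : ℕ}

private theorem win_path {Ω ι E : Type*} (mE : MeasurableSpace E) (φ : Ω → E)
    (f : Ω → ι → C(unitInterval, ℝ))
    (h : ∀ i s, ∃ g : E → ℝ, Measurable g ∧ ∀ ω, f ω i s = g (φ ω)) :
    MeasurableSpace.comap f inferInstance ≤ MeasurableSpace.comap φ mE := by
  rw [← measurable_iff_comap_le]
  refine @measurable_pi_lambda _ _ _ (MeasurableSpace.comap φ mE) _ _ (fun i => ?_)
  refine @measurable_path _ (MeasurableSpace.comap φ mE) _ (fun s => ?_)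
  obtain ⟨g, hg, hfg⟩ := h i s
  have e : (fun ω => f ω i s) = g ∘ φ := by
    funext ω
    exact hfg ω
  rw [e]
  exact hg.comp (comap_measurable φ)

theorem indep_blk {Ω : Type*} [MeasurableSpace Ω] {P : Measure Ω} [IsProbabilityMeasure P]
    {B : Fin (n + 1) → ℝ≥0 → Ω → ℝ} (hB : IsBMd P n B) (N : ℕ) :
    IndepFun (fun ω (k : Fin N) => blk B hB.cont k ω) (blk B hB.cont N) P := by
  set X : Fin (n + 1) → Ω → ℝ≥0 → ℝ := fun i ω t => B i ((N : ℝ≥0) + t) ω - B i (N : ℝ≥0) ω with hX
  set Y : Fin (n + 1) → Ω → (Set.Iic (N : ℝ≥0)) → ℝ := fun i ω t => B i (t : ℝ≥0) ω with hY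
  have hXm : ∀ i, Measurable (X i) := fun i =>
    measurable_pi_lambda _ fun t => (hB.meas i _).sub (hB.meas i _)
  have hYm : ∀ i, Measurable (Y i) := fun i => measurable_pi_lambda _ fun t => hB.meas i _
  have h2 : ∀ i, IndepFun (X i) (Y i) P := fun i => (hB.brownian i).indepFun_shift (N : ℝ≥0)
  have h1 : iIndepFun (fun i ω => (X i ω, Y i ω)) P := by
    have h := hB.indep.comp (fun _ (f : ℝ≥0 → ℝ) =>
      ((fun t : ℝ≥0 => f ((N : ℝ≥0) + t) - f (N : ℝ≥0)), (fun t : Set.Iic (N : ℝ≥0) => f t)))
      (fun _ => by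
        refine Measurable.prodMk ?_ ?_
        · exact measurable_pi_lambda _ fun t =>
            (measurable_pi_apply _).sub (measurable_pi_apply _)
        · exact measurable_pi_lambda _ fun t => measurable_pi_apply _)
    exact h
  have h3 := (indep_pairs X Y hXm hYm h1 h2).symm
  rw [IndepFun_iff_Indep] at h3 ⊢
  refine indep_of_indep_of_le_left (indep_of_indep_of_le_right h3 ?_) ?_
  · refine win_path _ _ _ fun i s => ⟨fun x => x i ⟨(s : ℝ), s.2.1⟩, ?_, fun ω => rfl⟩
    exact (measurable_pi_apply _).comp (measurable_pi_apply _)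
  · have key : MeasurableSpace.comap (fun ω (q : Fin N × Fin (n + 1)) =>
        blk B hB.cont q.1 ω q.2) inferInstance ≤
        MeasurableSpace.comap (fun ω i => Y i ω) inferInstance := by
      refine win_path _ _ _ ?_
      rintro ⟨k, i⟩ s
      have hk1 : ((k : ℕ) : ℝ≥0) ≤ N := by
        exact_mod_cast k.2.le
      have hk2 : ((k : ℕ) : ℝ≥0) + ⟨(s : ℝ), s.2.1⟩ ≤ N := by
        have h4 : ((k : ℕ) : ℝ≥0) + 1 ≤ N := by
          have : (k : ℕ) + 1 ≤ N := k.2
          exact_mod_cast this
        refine le_trans (add_le_add le_rfl ?_) h4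
        exact s.2.2
      refine ⟨fun y => y i ⟨((k : ℕ) : ℝ≥0) + ⟨(s : ℝ), s.2.1⟩, hk2⟩ - y i ⟨((k : ℕ) : ℝ≥0), hk1⟩,
        ?_, fun ω => rfl⟩
      have hev : ∀ t : Set.Iic (N : ℝ≥0),
          Measurable fun y : Fin (n + 1) → (Set.Iic (N : ℝ≥0)) → ℝ => y i t := fun t =>
        (measurable_pi_apply t).comp (measurable_pi_apply i)
      exact (hev _).sub (hev _)
    refine le_trans ?_ key
    rw [← measurable_iff_comap_le]
    refine @measurable_pi_lambda _ _ _ (MeasurableSpace.comap _ inferInstance) _ _ (fun k => ?_)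
    refine @measurable_pi_lambda _ _ _ (MeasurableSpace.comap _ inferInstance) _ _ (fun i => ?_)
    have h5 : (fun ω => blk B hB.cont k ω i) = (fun z : Fin N × Fin (n + 1) → C(unitInterval, ℝ) =>
      z (k, i)) ∘ (fun ω (q : Fin N × Fin (n + 1)) => blk B hB.cont q.1 ω q.2) := rfl
    rw [h5]
    exact (measurable_pi_apply _).comp (comap_measurable _)

end Pool.Agent.OYG
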