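import Pool.Agent.OYG.WLA

/-!
WSH: all blocks have the same law.

`shift_bmd`: `IsBrownianReal.shift`; independence of the lines by `iIndepFun.comp` with the measurable maps
`f ↦ (t ↦ f (N + t) - f N)`. `map_blk`: `blk B hB.cont N = blk (shifted lines) _ 0` as functions, apply `map_blk_zero` to the shifted
lines and to `B`, and `bpath_law` line by line.
-/

open MeasureTheory ProbabilityTheory Set Filter Topology
open scoped ENNReal NNReal

namespace Pool.Agent.OYG

variable {n : ℕ}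

theorem shift_bmd {Ω : Type*} [MeasurableSpace Ω] {P : Measure Ω}
    {B : Fin (n + 1) → ℝ≥0 → Ω → ℝ} (hB : IsBMd P n B) (T : ℝ≥0) :
    IsBMd P n (fun i t ω => B i (T + t) ω - B i T ω) where
  meas := fun i t => (hB.meas i (T + t)).sub (hB.meas i T)
  brownian := fun i => (hB.brownian i).shift T
  cont := fun i ω => ((hB.cont i ω).comp (continuous_const.add continuous_id)).sub continuous_const
  zero := fun i ω => by
    show B i (T + 0) ω - B i T ω = 0
    rw [add_zero, sub_self]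
  indep := by
    have h := hB.indep.comp (fun _ (f : ℝ≥0 → ℝ) (t : ℝ≥0) => f (T + t) - f T) (fun _ => by
      refine measurable_pi_lambda _ fun t => ?_
      exact (measurable_pi_apply _).sub (measurable_pi_apply _))
    exact h

theorem map_blk {Ω : Type*} [MeasurableSpace Ω] {P : Measure Ω}
    {B : Fin (n + 1) → ℝ≥0 → Ω → ℝ} (hB : IsBMd P n B) (N : ℕ) :
    P.map (blk B hB.cont N) = P.map (blk B hB.cont 0) := by
  have hS := shift_bmd hB (N : ℝ≥0)
  have h1 : blk B hB.cont N = blk (fun i t ω => B i ((N : ℝ≥0) + t) ω - B i (N : ℝ≥0) ω) hS.cont 0 := by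
    funext ω i
    ext s
    show B i ((N : ℝ≥0) + ⟨(s : ℝ), s.2.1⟩) ω - B i (N : ℝ≥0) ω =
      (B i ((N : ℝ≥0) + (((0 : ℕ) : ℝ≥0) + ⟨(s : ℝ), s.2.1⟩)) ω - B i (N : ℝ≥0) ω) -
        (B i ((N : ℝ≥0) + ((0 : ℕ) : ℝ≥0)) ω - B i (N : ℝ≥0) ω)
    rw [Nat.cast_zero, zero_add, add_zero]
    ring
  rw [h1, map_blk_zero hS, map_blk_zero hB]
  congr 1
  funext i
  exact bpath_law _ _ (hS.cont i) (hB.cont i) (hS.meas i) (hB.meas i) (hS.brownian i)
    (hB.brownian i)

end Pool.Agent.OYG
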