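import Pool.Agent.OYG.LNK
import Pool.Agent.OYG.WSH
import Pool.Agent.OYG.WIN

/-!
MK1: the state at time `N` is a function of the first `N` blocks; independence of the next block.

`chain_meas`: induction on `N`: `Ψ_0 = toX b x` (`gap_zero`), `Ψ_{N+1}(u) = flow 1 (Ψ_N (u restricted)) (u (last))` (`gap_flow` with `s = 1`,
`measurable_flow`). `one_step`: `toX b (G N ω) = Ψ (blocks < N)` is independent of `blk N` (`indep_blk`, `IndepFun.comp`), whose law is
`Wl` (`map_blk`); so the law of the pair is the product (`indepFun_iff_map_prod_eq_prod_map_map`), `integral_map` and `integral_prod`.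
-/

open MeasureTheory ProbabilityTheory Set Filter Topology
open scoped ENNReal NNReal

namespace Pool.Agent.OYG

variable {n : ℕ} (μ : Fin (n + 1) → ℝ) (a b : ℝ)

theorem chain_meas (hb : 0 < b) {Ω : Type*} [MeasurableSpace Ω] {P : Measure Ω}
    {B : Fin (n + 1) → ℝ≥0 → Ω → ℝ} (hB : IsBMd P n B) {x : Fin n → ℝ} {G : ℝ≥0 → Ω → Fin n → ℝ}
    (hG : IsGap n μ (fun y => a * Real.exp (-(b * y))) B x G) (N : ℕ) :
    ∃ Ψ : (Fin N → Blk n) → St n, Measurable Ψ ∧
      ∀ ω, toX b (G N ω) = Ψ (fun k => blk B hB.cont k ω) := by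
  induction N with
  | zero =>
    refine ⟨fun _ => toX b x, measurable_const, fun ω => ?_⟩
    have h := gap_zero μ hB hG ω
    rw [Nat.cast_zero, h]
  | succ N ih =>
    obtain ⟨Ψ, hΨ, hΨ'⟩ := ih
    refine ⟨fun u => flow μ b (a * b) 1 (Ψ (fun k : Fin N => u k.castSucc)) (u (Fin.last N)), ?_, ?_⟩
    · have h1 : Measurable (fun u : Fin (N + 1) → Blk n => (fun k : Fin N => u k.castSucc)) :=
        measurable_pi_lambda _ fun k => measurable_pi_apply (k.castSucc)
      have h2 : Measurable (fun u : Fin (N + 1) → Blk n => u (Fin.last N)) :=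
        measurable_pi_apply (Fin.last N)
      exact (measurable_flow μ b (a * b) 1).comp (Measurable.prodMk (hΨ.comp h1) h2)
    · intro ω
      have h := gap_flow μ a b hb hB hG ω N 1 le_rfl
      rw [Nat.cast_succ, h, NNReal.coe_one, hΨ' ω]
      rfl

theorem one_step (hb : 0 < b) {Ω : Type*} [MeasurableSpace Ω] {P : Measure Ω} [IsProbabilityMeasure P]
    {B : Fin (n + 1) → ℝ≥0 → Ω → ℝ} (hB : IsBMd P n B) {x : Fin n → ℝ} {G : ℝ≥0 → Ω → Fin n → ℝ}
    (hG : IsGap n μ (fun y => a * Real.exp (-(b * y))) B x G) (N : ℕ) {h : St n × Blk n → ℝ}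
    (hm : Measurable h) (h1 : ∀ p, |h p| ≤ 1) :
    ∫ ω, h (toX b (G N ω), blk B hB.cont N ω) ∂P =
      ∫ ω, (∫ w, h (toX b (G N ω), w) ∂(P.map (blk B hB.cont 0))) ∂P := by
  obtain ⟨Ψ, hΨ, hΨ'⟩ := chain_meas μ a b hb hB hG N
  have hX : (fun ω => toX b (G N ω)) = fun ω => Ψ (fun k : Fin N => blk B hB.cont k ω) :=
    funext hΨ'
  have hmb : ∀ k : ℕ, Measurable (blk B hB.cont k) := fun k => measurable_blk hB k
  have hmX : Measurable (fun ω => toX b (G N ω)) := by
    rw [hX]
    exact hΨ.comp (measurable_pi_lambda _ fun k => hmb k)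
  have hind : IndepFun (fun ω => toX b (G N ω)) (blk B hB.cont N) P := by
    rw [hX]
    exact (indep_blk hB N).comp hΨ measurable_id
  have hprod : P.map (fun ω => (toX b (G N ω), blk B hB.cont N ω)) =
      (P.map (fun ω => toX b (G N ω))).prod (P.map (blk B hB.cont N)) :=
    (indepFun_iff_map_prod_eq_prod_map_map hmX.aemeasurable (hmb N).aemeasurable).1 hind
  have : IsProbabilityMeasure (P.map (fun ω => toX b (G N ω))) :=
    Measure.isProbabilityMeasure_map hmX.aemeasurable
  have : IsProbabilityMeasure (P.map (blk B hB.cont 0)) :=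
    Measure.isProbabilityMeasure_map (hmb 0).aemeasurable
  rw [← integral_map (f := h) (hmX.prodMk (hmb N)).aemeasurable hm.aestronglyMeasurable, hprod,
    map_blk hB N]
  rw [integral_prod]
  · rw [integral_map hmX.aemeasurable]
    exact (hm.stronglyMeasurable.integral_prod_right' (ν := P.map (blk B hB.cont 0))).aestronglyMeasurable
  · refine Integrable.of_bound (C := 1) hm.aestronglyMeasurable (Filter.Eventually.of_forall fun p => ?_)
    rw [Real.norm_eq_abs]
    exact h1 p

end Pool.Agent.OYG
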