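import Pool.Agent.OYG.XCO

/-!
XLO: lower bound of the flow at time one, independent of the (positive) state.

With `M = 2 osc w + Σ |μ k - μ 0|` and `b M` bounding `|b v_j|` on `[0,1]`, put `τ = 1/(n+1)`. Claim: for
`s ∈ [j τ, 1]`: `X_j(s) ≥ (κ' τ exp (-2 b M))^j` with `κ' = min κ 1` (`X_0 = 1`); induction: drop the initial
term and integrate over `[j τ, (j+1) τ]` only. For `j + 1 ≤ n` take `s = 1`.
-/

open MeasureTheory ProbabilityTheory Set Filter Topology
open scoped ENNReal NNReal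

namespace Pool.Agent.OYG

variable {n : ℕ} (μ : Fin (n + 1) → ℝ) (b κ : ℝ)

private theorem xlo_one {v : ℕ → ℝ → ℝ} (hv : ∀ j, Continuous (v j)) (hb : 0 < b) (hκ : 0 < κ)
    {X0 : ℕ → ℝ} (hX : ∀ j, 0 < X0 j) {M τ : ℝ} (hM : ∀ j s, 0 ≤ s → s ≤ 1 → |v j s| ≤ M)
    (hτ : 0 < τ) (j : ℕ) : ∀ s : ℝ, j * τ ≤ s → s ≤ 1 →
      (κ * τ * Real.exp (-(2 * b * M))) ^ j ≤ XX b κ v X0 j s := by
  induction j with
  | zero =>
    intro s _ _
    change _ ≤ (1 : ℝ)
    simp
  | succ j ih =>
    intro t ht h1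
    set L := κ * τ * Real.exp (-(2 * b * M)) with hL
    have hL0 : 0 < L := by positivity
    have hjτ : (0 : ℝ) ≤ j * τ := by positivity
    have hj1 : ((j + 1 : ℕ) : ℝ) * τ = j * τ + τ := by
      push_cast
      ring
    rw [hj1] at ht
    have ht0 : 0 ≤ t := by linarith
    have hc : Continuous (fun s => Real.exp (-(b * v j s)) * XX b κ v X0 j s) :=
      (Real.continuous_exp.comp ((continuous_const.mul (hv j)).neg)).mul (continuous_XX b κ hv X0 j)
    have hnn : ∀ s, 0 ≤ s → 0 ≤ Real.exp (-(b * v j s)) * XX b κ v X0 j s := fun s hs =>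
      mul_nonneg (Real.exp_pos _).le (XX_pos b κ hv hκ.le hX j hs).le
    have hsplit : ∫ s in (0 : ℝ)..t, Real.exp (-(b * v j s)) * XX b κ v X0 j s =
        (∫ s in (0 : ℝ)..(j * τ), Real.exp (-(b * v j s)) * XX b κ v X0 j s) +
        ((∫ s in (j * τ)..(j * τ + τ), Real.exp (-(b * v j s)) * XX b κ v X0 j s) +
        ∫ s in (j * τ + τ)..t, Real.exp (-(b * v j s)) * XX b κ v X0 j s) := by
      rw [intervalIntegral.integral_add_adjacent_intervals (hc.intervalIntegrable _ _)
        (hc.intervalIntegrable _ _), intervalIntegral.integral_add_adjacent_intervals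
        (hc.intervalIntegrable _ _) (hc.intervalIntegrable _ _)]
    have i1 : 0 ≤ ∫ s in (0 : ℝ)..(j * τ), Real.exp (-(b * v j s)) * XX b κ v X0 j s :=
      intervalIntegral.integral_nonneg hjτ fun s hs => hnn s hs.1
    have i3 : 0 ≤ ∫ s in (j * τ + τ)..t, Real.exp (-(b * v j s)) * XX b κ v X0 j s :=
      intervalIntegral.integral_nonneg ht fun s hs => hnn s (by linarith [hs.1])
    have i2 : τ * (Real.exp (-(b * M)) * L ^ j) ≤
        ∫ s in (j * τ)..(j * τ + τ), Real.exp (-(b * v j s)) * XX b κ v X0 j s := by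
      have h2 : ∫ s in (j * τ)..(j * τ + τ), (Real.exp (-(b * M)) * L ^ j) =
          τ * (Real.exp (-(b * M)) * L ^ j) := by
        rw [intervalIntegral.integral_const, smul_eq_mul]
        ring
      rw [← h2]
      apply intervalIntegral.integral_mono_on (by linarith)
        (continuous_const.intervalIntegrable _ _) (hc.intervalIntegrable _ _)
      intro s hs
      have hs0 : 0 ≤ s := hjτ.trans hs.1
      have hs1 : s ≤ 1 := by linarith [hs.2]
      have e1 := ih s hs.1 hs1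
      have e2 : Real.exp (-(b * M)) ≤ Real.exp (-(b * v j s)) := by
        apply Real.exp_le_exp.2
        have := (abs_le.1 (hM j s hs0 hs1)).2
        nlinarith
      exact mul_le_mul e2 e1 (pow_nonneg hL0.le _) (Real.exp_pos _).le
    change L ^ (j + 1) ≤ Real.exp (b * v j t) *
      (X0 j + κ * ∫ s in (0 : ℝ)..t, Real.exp (-(b * v j s)) * XX b κ v X0 j s)
    have e3 : Real.exp (-(b * M)) ≤ Real.exp (b * v j t) := by
      apply Real.exp_le_exp.2
      have := (abs_le.1 (hM j t ht0 h1)).1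
      nlinarith
    have e4 : κ * (τ * (Real.exp (-(b * M)) * L ^ j)) ≤
        X0 j + κ * ∫ s in (0 : ℝ)..t, Real.exp (-(b * v j s)) * XX b κ v X0 j s := by
      have h3 : τ * (Real.exp (-(b * M)) * L ^ j) ≤
          ∫ s in (0 : ℝ)..t, Real.exp (-(b * v j s)) * XX b κ v X0 j s := by
        rw [hsplit]
        linarith
      have h4 := mul_le_mul_of_nonneg_left h3 hκ.le
      have := (hX j).le
      linarith
    have p : 0 ≤ κ * (τ * (Real.exp (-(b * M)) * L ^ j)) := by positivity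
    calc L ^ (j + 1) = Real.exp (-(b * M)) * (κ * (τ * (Real.exp (-(b * M)) * L ^ j))) := by
          have h5 : Real.exp (-(2 * b * M)) = Real.exp (-(b * M)) * Real.exp (-(b * M)) := by
            rw [← Real.exp_add]
            congr 1
            ring
          rw [pow_succ]
          nth_rewrite 2 [hL]
          rw [h5]
          ring
      _ ≤ Real.exp (b * v j t) * (κ * (τ * (Real.exp (-(b * M)) * L ^ j))) :=
          mul_le_mul_of_nonneg_right e3 p
      _ ≤ _ := mul_le_mul_of_nonneg_left e4 (Real.exp_pos _).le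

theorem flow_low (hb : 0 < b) (hκ : 0 < κ) : ∃ C : ℝ, 1 ≤ C ∧ ∀ (X : St n) (w : Blk n) (j : Fin n),
    Pos X → (C * Real.exp (C * osc w))⁻¹ ≤ flow μ b κ 1 X w j := by
  set τ : ℝ := 1 / ((n : ℝ) + 1) with hτ
  have hn1 : (0 : ℝ) < (n : ℝ) + 1 := by positivity
  have hτ0 : 0 < τ := by positivity
  set S : ℝ := ∑ k, |μ k - μ 0| with hS
  have hS0 : 0 ≤ S := Finset.sum_nonneg fun i _ => abs_nonneg _
  set c : ℝ := min (κ * τ) 1 with hc
  have hc0 : 0 < c := lt_min (by positivity) one_pos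
  have hc1 : c ≤ 1 := min_le_right _ _
  have hcinv : 1 ≤ c⁻¹ := (one_le_inv₀ hc0).2 hc1
  set C1 : ℝ := (c⁻¹ * Real.exp (2 * b * S)) ^ (n : ℕ) with hC1
  have hbase : 1 ≤ c⁻¹ * Real.exp (2 * b * S) :=
    one_le_mul_of_one_le_of_one_le hcinv (Real.one_le_exp (by positivity))
  have hC11 : 1 ≤ C1 := one_le_pow₀ hbase
  refine ⟨max C1 (4 * b * n), hC11.trans (le_max_left _ _), ?_⟩
  intro X w j hX
  set C := max C1 (4 * b * n) with hC
  have hosc0 : 0 ≤ osc w := Finset.sum_nonneg fun i _ => norm_nonneg _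
  set M : ℝ := 2 * osc w + S with hM
  have hM0 : 0 ≤ M := by positivity
  have key := xlo_one b κ (continuous_pv μ w) hb hκ (exs_pos hX) (M := M) (τ := τ)
    (fun i s h0 h1 => abs_pv_le μ w i h0 h1) hτ0 (j + 1) 1 (by
      have h7 : (((j : ℕ) + 1 : ℕ) : ℝ) ≤ n := by exact_mod_cast j.isLt
      have h8 : (((j : ℕ) + 1 : ℕ) : ℝ) * τ ≤ n * τ := mul_le_mul_of_nonneg_right h7 hτ0.le
      have h9 : (n : ℝ) * τ ≤ 1 := by
        rw [hτ, mul_one_div, div_le_one hn1]
        linarith
      exact h8.trans h9) le_rfl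
  have h1 : (κ * τ * Real.exp (-(2 * b * M))) ^ ((j : ℕ) + 1) ≤ flow μ b κ 1 X w j := key
  refine le_trans ?_ h1
  have hE0 : 0 < c * Real.exp (-(2 * b * M)) := mul_pos hc0 (Real.exp_pos _)
  have hE1 : c * Real.exp (-(2 * b * M)) ≤ 1 := by
    have : Real.exp (-(2 * b * M)) ≤ 1 := by
      apply Real.exp_le_one_iff.2
      have : 0 ≤ 2 * b * M := by positivity
      linarith
    exact mul_le_one₀ hc1 (Real.exp_pos _).le this
  have h2 : (c * Real.exp (-(2 * b * M))) ^ (n : ℕ) ≤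
      (κ * τ * Real.exp (-(2 * b * M))) ^ ((j : ℕ) + 1) := by
    calc (c * Real.exp (-(2 * b * M))) ^ (n : ℕ)
        ≤ (c * Real.exp (-(2 * b * M))) ^ ((j : ℕ) + 1) :=
          pow_le_pow_of_le_one hE0.le hE1 j.isLt
      _ ≤ _ := pow_le_pow_left₀ hE0.le
          (mul_le_mul_of_nonneg_right (min_le_left _ _) (Real.exp_pos _).le) _
  refine le_trans ?_ h2
  have h3 : (c * Real.exp (-(2 * b * M))) ^ (n : ℕ) =
      (C1 * Real.exp (4 * b * n * osc w))⁻¹ := by
    have e1 : c * Real.exp (-(2 * b * M)) =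
        (c⁻¹ * Real.exp (2 * b * S) * Real.exp (4 * b * osc w))⁻¹ := by
      have h5 : Real.exp (-(2 * b * M)) = Real.exp (-(2 * b * S)) * Real.exp (-(4 * b * osc w)) := by
        rw [← Real.exp_add]
        congr 1
        rw [hM]
        ring
      rw [h5, mul_inv, mul_inv, inv_inv, ← Real.exp_neg, ← Real.exp_neg]
      ring
    rw [e1, inv_pow, mul_pow, ← hC1, ← Real.exp_nat_mul]
    congr 3
    ring
  rw [h3]
  have hCpos : 0 < C1 := by linarith
  apply inv_anti₀ (by positivity)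
  apply mul_le_mul (le_max_left _ _) _ (Real.exp_pos _).le
    (hCpos.le.trans (le_max_left _ _))
  apply Real.exp_le_exp.2
  exact mul_le_mul_of_nonneg_right (le_max_right _ _) hosc0

end Pool.Agent.OYG
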