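import Pool.Agent.OYG.QME
import Pool.Agent.OYG.XDG
import Pool.Agent.OYG.XLO

/-!
MO1: one step moment and difference estimates.

For `0 < θ ≤ 1` and non-negative reals `(Σ a_i)^θ ≤ Σ a_i^θ` (`Real.rpow_add_le_add_rpow` and induction, or
`Real.rpow_sum_le...`), `(a c)^θ = a^θ c^θ`. From `flow_grow` / `flow_diff`, `hW.mgf` with `c = θ b`
(`exp (θ b (inc + μ_{j+1} - μ_0))` has integral `exp (θ b (μ_{j+1} - μ_0) + θ² b²) ≤ exp (-θ b m + θ² b²)`), and `hW.osc`.
Last estimate: for `x, y > 0`: `min 1 |log x - log y| ≤ 2 |x - y| / y` and `min 1 a ≤ (min 1 a)^θ`; the flow at time one is at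
least `(C exp (C osc))⁻¹` (`flow_low`).
-/

open MeasureTheory ProbabilityTheory Set Filter Topology
open scoped ENNReal NNReal

namespace Pool.Agent.OYG

variable {n : ℕ} (μ : Fin (n + 1) → ℝ) (b κ : ℝ) {Wl : Measure (Blk n)}

private theorem MO1_sum_rpow {θ : ℝ} (h0 : 0 < θ) (h1 : θ ≤ 1) {ι : Type*} (S : Finset ι)
    (f : ι → ℝ≥0∞) : (∑ i ∈ S, f i) ^ θ ≤ ∑ i ∈ S, f i ^ θ := by
  classical
  induction S using Finset.induction_on with
  | empty => simp [h0]
  | insert a s ha ih =>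
    rw [Finset.sum_insert ha, Finset.sum_insert ha]
    exact (ENNReal.rpow_add_le_add_rpow _ _ h0.le h1).trans (add_le_add le_rfl ih)

private theorem MO1_gen (hW : WProp n Wl) {θ m : ℝ} (hb : 0 < b) (h0 : 0 < θ) (h1 : θ ≤ 1)
    {j : Fin n} (hm : m ≤ μ 0 - μ j.succ) {C₀ : ℝ} (hC₀ : 0 ≤ C₀) {F : Blk n → ℝ}
    (hF : ∀ w, 0 ≤ F w) {x : ℝ} (hx : 0 ≤ x) (S : Finset (Fin n)) {y : Fin n → ℝ}
    (hy : ∀ i, 0 ≤ y i) {e : ℝ} (he : 0 ≤ e)
    (hle : ∀ w, F w ≤ Real.exp (b * (inc w j + (μ j.succ - μ 0))) * x +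
      C₀ * Real.exp (C₀ * osc w) * (e + ∑ i ∈ S, y i)) :
    ∫⁻ w, ENNReal.ofReal (F w ^ θ) ∂Wl ≤
      ENNReal.ofReal (Real.exp (-(θ * b * m - θ ^ 2 * b ^ 2))) * ENNReal.ofReal (x ^ θ) +
        (∫⁻ w, ENNReal.ofReal (C₀ ^ θ * Real.exp (θ * C₀ * osc w)) ∂Wl) *
          (ENNReal.ofReal (e ^ θ) + ∑ i ∈ S, ENNReal.ofReal (y i ^ θ)) := by
  have hS0 : 0 ≤ ∑ i ∈ S, y i := Finset.sum_nonneg (fun i _ => hy i)
  have hpt : ∀ w, ENNReal.ofReal (F w ^ θ) ≤
      ENNReal.ofReal (Real.exp ((θ * b) * inc w j)) *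
        (ENNReal.ofReal (Real.exp (θ * b * (μ j.succ - μ 0))) * ENNReal.ofReal (x ^ θ)) +
      ENNReal.ofReal (C₀ ^ θ * Real.exp (θ * C₀ * osc w)) *
          (ENNReal.ofReal (e ^ θ) + ∑ i ∈ S, ENNReal.ofReal (y i ^ θ)) := by
    intro w
    have hA : 0 ≤ Real.exp (b * (inc w j + (μ j.succ - μ 0))) * x := by positivity
    have hD : 0 ≤ C₀ * Real.exp (C₀ * osc w) := by positivity
    have e1 : ENNReal.ofReal (F w) ≤
        ENNReal.ofReal (Real.exp (b * (inc w j + (μ j.succ - μ 0)))) * ENNReal.ofReal x +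
        ENNReal.ofReal (C₀ * Real.exp (C₀ * osc w)) *
          (ENNReal.ofReal e + ∑ i ∈ S, ENNReal.ofReal (y i)) := by
      refine (ENNReal.ofReal_le_ofReal (hle w)).trans ?_
      rw [ENNReal.ofReal_add hA (by positivity), ENNReal.ofReal_mul (Real.exp_pos _).le,
        ENNReal.ofReal_mul hD, ENNReal.ofReal_add he hS0,
        ENNReal.ofReal_sum_of_nonneg (fun i _ => hy i)]
    have e2 : ENNReal.ofReal (F w ^ θ) = (ENNReal.ofReal (F w)) ^ θ :=
      (ENNReal.ofReal_rpow_of_nonneg (hF w) h0.le).symm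
    rw [e2]
    refine (ENNReal.rpow_le_rpow e1 h0.le).trans ?_
    refine (ENNReal.rpow_add_le_add_rpow _ _ h0.le h1).trans ?_
    rw [ENNReal.mul_rpow_of_nonneg _ _ h0.le, ENNReal.mul_rpow_of_nonneg _ _ h0.le]
    apply add_le_add
    · rw [ENNReal.ofReal_rpow_of_nonneg (Real.exp_pos _).le h0.le,
        ENNReal.ofReal_rpow_of_nonneg hx h0.le, ← Real.exp_mul, ← mul_assoc]
      apply mul_le_mul' _ le_rfl
      rw [← ENNReal.ofReal_mul (Real.exp_pos _).le, ← Real.exp_add]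
      apply le_of_eq
      congr 2
      ring
    · rw [ENNReal.ofReal_rpow_of_nonneg hD h0.le, Real.mul_rpow hC₀ (Real.exp_pos _).le,
        ← Real.exp_mul]
      apply mul_le_mul'
      · apply le_of_eq
        congr 3
        ring
      · refine (ENNReal.rpow_add_le_add_rpow _ _ h0.le h1).trans ?_
        apply add_le_add
        · rw [ENNReal.ofReal_rpow_of_nonneg he h0.le]
        · refine (MO1_sum_rpow h0 h1 S _).trans ?_
          apply le_of_eq
          apply Finset.sum_congr rfl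
          intro i _
          rw [ENNReal.ofReal_rpow_of_nonneg (hy i) h0.le]
  refine (lintegral_mono hpt).trans ?_
  have hmeas1 : Measurable fun w : Blk n => ENNReal.ofReal (Real.exp ((θ * b) * inc w j)) :=
    ENNReal.measurable_ofReal.comp (Real.measurable_exp.comp ((measurable_inc j).const_mul _))
  have hmeas2 : Measurable fun w : Blk n =>
      ENNReal.ofReal (C₀ ^ θ * Real.exp (θ * C₀ * osc w)) :=
    ENNReal.measurable_ofReal.comp
      ((Real.measurable_exp.comp (measurable_osc.const_mul _)).const_mul _)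
  rw [lintegral_add_left (hmeas1.mul_const _), lintegral_mul_const _ hmeas1,
    lintegral_mul_const _ hmeas2, hW.mgf j (θ * b)]
  refine add_le_add ?_ le_rfl
  rw [← mul_assoc, ← ENNReal.ofReal_mul (Real.exp_pos _).le, ← Real.exp_add]
  refine mul_le_mul' (ENNReal.ofReal_le_ofReal (Real.exp_le_exp.2 ?_)) le_rfl
  have : θ * b * (μ j.succ - μ 0) ≤ θ * b * (-m) :=
    mul_le_mul_of_nonneg_left (by linarith) (by positivity)
  nlinarith [this]

private theorem MO1_osc_fin (hW : WProp n Wl) (A c : ℝ) (hA : 0 ≤ A) :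
    ∫⁻ w, ENNReal.ofReal (A * Real.exp (c * osc w)) ∂Wl < ∞ := by
  have h : ∀ w : Blk n, ENNReal.ofReal (A * Real.exp (c * osc w)) =
      ENNReal.ofReal A * ENNReal.ofReal (Real.exp (c * osc w)) := fun w => ENNReal.ofReal_mul hA
  have hmeas : Measurable fun w : Blk n => ENNReal.ofReal (Real.exp (c * osc w)) :=
    ENNReal.measurable_ofReal.comp (Real.measurable_exp.comp (measurable_osc.const_mul _))
  simp_rw [h]
  rw [lintegral_const_mul _ hmeas]
  exact ENNReal.mul_lt_top ENNReal.ofReal_lt_top (hW.osc c)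

private theorem MO1_log {x y : ℝ} (hx : 0 < x) (hy : 0 < y) :
    min 1 |Real.log x - Real.log y| ≤ 2 * |x - y| / y := by
  rcases le_or_gt (y / 2) |x - y| with h | h
  · refine (min_le_left _ _).trans ?_
    rw [le_div_iff₀ hy]
    linarith
  · refine (min_le_right _ _).trans ?_
    obtain ⟨h1, h2⟩ := abs_lt.1 h
    have hx2 : y / 2 < x := by linarith
    rw [abs_le]
    constructor
    · -- log x - log y ≥ -(2 |x - y| / y)
      have e1 : Real.log y - Real.log x ≤ y / x - 1 := by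
        rw [← Real.log_div hy.ne' hx.ne']
        exact Real.log_le_sub_one_of_pos (by positivity)
      have e2 : y / x - 1 ≤ 2 * |x - y| / y := by
        rw [div_sub_one hx.ne', div_le_div_iff₀ hx hy]
        have e3 : y - x ≤ |x - y| := by
          rw [abs_sub_comm]
          exact le_abs_self _
        have e4 : 0 ≤ |x - y| := abs_nonneg _
        nlinarith
      linarith
    · have e1 : Real.log x - Real.log y ≤ x / y - 1 := by
        rw [← Real.log_div hx.ne' hy.ne']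
        exact Real.log_le_sub_one_of_pos (by positivity)
      have e2 : x / y - 1 ≤ 2 * |x - y| / y := by
        rw [div_sub_one hy.ne']
        apply div_le_div_of_nonneg_right _ hy.le
        have e3 : x - y ≤ |x - y| := le_abs_self _
        have e4 : 0 ≤ |x - y| := abs_nonneg _
        linarith
      linarith

private theorem MO1_inc_le (w : Blk n) (j : Fin n) : inc w j ≤ 2 * osc w := by
  unfold inc osc
  have h1 : w j.succ 1 ≤ ‖w j.succ‖ :=
    (le_abs_self _).trans ((Real.norm_eq_abs _).symm.le.trans ((w j.succ).norm_coe_le_norm 1))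
  have h2 : -(w 0 1) ≤ ‖w 0‖ :=
    (neg_le_abs _).trans ((Real.norm_eq_abs _).symm.le.trans ((w 0).norm_coe_le_norm 1))
  have h3 : ‖w j.succ‖ ≤ ∑ k, ‖w k‖ :=
    Finset.single_le_sum (f := fun k => ‖w k‖) (fun k _ => norm_nonneg _) (Finset.mem_univ _)
  have h4 : ‖w 0‖ ≤ ∑ k, ‖w k‖ :=
    Finset.single_le_sum (f := fun k => ‖w k‖) (fun k _ => norm_nonneg _) (Finset.mem_univ _)
  linarith

private theorem MO1_osc_nonneg (w : Blk n) : 0 ≤ osc w :=
  Finset.sum_nonneg (fun _ _ => norm_nonneg _)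

theorem mo_step (hb : 0 < b) (hκ : 0 < κ) (hW : WProp n Wl) {θ m : ℝ} (h0 : 0 < θ) (h1 : θ ≤ 1)
    (hm : ∀ j : Fin n, m ≤ μ 0 - μ j.succ) : ∃ C : ℝ, 0 ≤ C ∧ ∀ p : St n × St n, Pos p.1 → Pos p.2 →
    ∀ j, Qp μ b κ Wl (fun q => ENNReal.ofReal (q.1 j ^ θ)) p ≤
      ENNReal.ofReal (Real.exp (-(θ * b * m - θ ^ 2 * b ^ 2))) * ENNReal.ofReal (p.1 j ^ θ) +
        ENNReal.ofReal C * (1 + ∑ i ∈ Finset.univ.filter (fun i => i < j), ENNReal.ofReal (p.1 i ^ θ)) := by
  obtain ⟨C₀, hC₀, hg⟩ := flow_grow μ b κ hb hκ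
  have hC₀' : 0 ≤ C₀ := by linarith
  have hfin : ∫⁻ w, ENNReal.ofReal (C₀ ^ θ * Real.exp (θ * C₀ * osc w)) ∂Wl < ∞ :=
    MO1_osc_fin hW _ _ (Real.rpow_nonneg hC₀' _)
  refine ⟨(∫⁻ w, ENNReal.ofReal (C₀ ^ θ * Real.exp (θ * C₀ * osc w)) ∂Wl).toReal,
    ENNReal.toReal_nonneg, ?_⟩
  intro p hp1 _ j
  rw [ENNReal.ofReal_toReal hfin.ne]
  have hmain := MO1_gen μ b hW hb h0 h1 (hm j) hC₀'
    (F := fun w => flow μ b κ 1 p.1 w j) (fun w => (flow_pos μ b κ hκ.le zero_le_one hp1 w j).le)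
    (x := p.1 j) (hp1 j).le (Finset.univ.filter (fun i => i < j)) (y := p.1)
    (fun i => (hp1 i).le) (e := 1) zero_le_one (fun w => hg p.1 w j hp1)
  rw [Real.one_rpow, ENNReal.ofReal_one] at hmain
  exact hmain

theorem pa_step (hb : 0 < b) (hκ : 0 < κ) (hW : WProp n Wl) {θ m : ℝ} (h0 : 0 < θ) (h1 : θ ≤ 1)
    (hm : ∀ j : Fin n, m ≤ μ 0 - μ j.succ) : ∃ C : ℝ, 0 ≤ C ∧ ∀ p : St n × St n, Pos p.1 → Pos p.2 →
    ∀ j, Qp μ b κ Wl (fun q => ENNReal.ofReal (|q.1 j - q.2 j| ^ θ)) p ≤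
      ENNReal.ofReal (Real.exp (-(θ * b * m - θ ^ 2 * b ^ 2))) *
          ENNReal.ofReal (|p.1 j - p.2 j| ^ θ) +
        ENNReal.ofReal C * ∑ i ∈ Finset.univ.filter (fun i => i < j),
          ENNReal.ofReal (|p.1 i - p.2 i| ^ θ) := by
  obtain ⟨C₀, hC₀, hg⟩ := flow_diff μ b κ hb hκ
  have hC₀' : 0 ≤ C₀ := by linarith
  have hfin : ∫⁻ w, ENNReal.ofReal (C₀ ^ θ * Real.exp (θ * C₀ * osc w)) ∂Wl < ∞ :=
    MO1_osc_fin hW _ _ (Real.rpow_nonneg hC₀' _)
  refine ⟨(∫⁻ w, ENNReal.ofReal (C₀ ^ θ * Real.exp (θ * C₀ * osc w)) ∂Wl).toReal,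
    ENNReal.toReal_nonneg, ?_⟩
  intro p _ _ j
  rw [ENNReal.ofReal_toReal hfin.ne]
  have hmain := MO1_gen μ b hW hb h0 h1 (hm j) hC₀'
    (F := fun w => |flow μ b κ 1 p.1 w j - flow μ b κ 1 p.2 w j|) (fun w => abs_nonneg _)
    (x := |p.1 j - p.2 j|) (abs_nonneg _) (Finset.univ.filter (fun i => i < j))
    (y := fun i => |p.1 i - p.2 i|)
    (fun i => abs_nonneg _) (e := 0) le_rfl
    (fun w => by rw [zero_add]; exact hg p.1 p.2 w j)
  rw [Real.zero_rpow h0.ne', ENNReal.ofReal_zero, zero_add] at hmain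
  exact hmain

theorem pa_last (hb : 0 < b) (hκ : 0 < κ) (hW : WProp n Wl) {θ : ℝ} (h0 : 0 < θ) (h1 : θ ≤ 1) :
    ∃ C : ℝ, 0 ≤ C ∧ ∀ p : St n × St n, Pos p.1 → Pos p.2 → ∀ j,
      Qp μ b κ Wl (fun q => ENNReal.ofReal (min 1 |Real.log (q.1 j) - Real.log (q.2 j)|)) p ≤
        ENNReal.ofReal C * ∑ i, ENNReal.ofReal (|p.1 i - p.2 i| ^ θ) := by
  obtain ⟨C₀, hC₀, hg⟩ := flow_diff μ b κ hb hκ
  obtain ⟨C₁, hC₁, hl⟩ := flow_low μ b κ hb hκ
  have hC₀' : 0 ≤ C₀ := by linarith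
  have hC₁' : 0 < C₁ := by linarith
  set A : ℝ := Real.exp (b * ∑ k, |μ k - μ 0|) with hA
  have hA0 : 0 < A := Real.exp_pos _
  -- the constants
  set K : ℝ := 2 * C₁ * (A + C₀) with hK
  set c : ℝ := C₁ + (2 * b + C₀) with hc
  have hK0 : 0 ≤ K := by positivity
  have hfin : ∫⁻ w, ENNReal.ofReal (K ^ θ * Real.exp (θ * c * osc w)) ∂Wl < ∞ :=
    MO1_osc_fin hW _ _ (Real.rpow_nonneg hK0 _)
  refine ⟨(∫⁻ w, ENNReal.ofReal (K ^ θ * Real.exp (θ * c * osc w)) ∂Wl).toReal,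
    ENNReal.toReal_nonneg, ?_⟩
  intro p hp1 hp2 j
  rw [ENNReal.ofReal_toReal hfin.ne]
  have hs0 : 0 ≤ ∑ i, |p.1 i - p.2 i| := Finset.sum_nonneg (fun i _ => abs_nonneg _)
  -- pointwise bound
  have hreal : ∀ w, min 1 |Real.log (flow μ b κ 1 p.1 w j) - Real.log (flow μ b κ 1 p.2 w j)| ≤
      K * Real.exp (c * osc w) * ∑ i, |p.1 i - p.2 i| := by
    intro w
    have hx := flow_pos μ b κ hκ.le zero_le_one hp1 w j
    have hy := flow_pos μ b κ hκ.le zero_le_one hp2 w j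
    have ho := MO1_osc_nonneg w
    refine (MO1_log hx hy).trans ?_
    have hlow := hl p.2 w j hp2
    have hpos : 0 < C₁ * Real.exp (C₁ * osc w) := by positivity
    have hinv : (flow μ b κ 1 p.2 w j)⁻¹ ≤ C₁ * Real.exp (C₁ * osc w) :=
      inv_le_of_inv_le₀ hpos hlow
    have hd := hg p.1 p.2 w j
    have hexp1 : Real.exp (b * (inc w j + (μ j.succ - μ 0))) ≤ A * Real.exp (2 * b * osc w) := by
      rw [hA, ← Real.exp_add]
      apply Real.exp_le_exp.2
      have h1 := MO1_inc_le w j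
      have h2 : μ j.succ - μ 0 ≤ ∑ k, |μ k - μ 0| :=
        (le_abs_self _).trans (Finset.single_le_sum (f := fun k => |μ k - μ 0|)
          (fun k _ => abs_nonneg _) (Finset.mem_univ _))
      have h3 : b * (inc w j + (μ j.succ - μ 0)) ≤ b * (2 * osc w + ∑ k, |μ k - μ 0|) :=
        mul_le_mul_of_nonneg_left (by linarith) hb.le
      linarith
    have hexp2 : Real.exp (2 * b * osc w) ≤ Real.exp ((2 * b + C₀) * osc w) := by
      apply Real.exp_le_exp.2
      have : 0 ≤ C₀ * osc w := by positivity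
      linarith
    have hexp3 : Real.exp (C₀ * osc w) ≤ Real.exp ((2 * b + C₀) * osc w) := by
      apply Real.exp_le_exp.2
      have : 0 ≤ b * osc w := by positivity
      linarith
    have hj : |p.1 j - p.2 j| ≤ ∑ i, |p.1 i - p.2 i| :=
      Finset.single_le_sum (f := fun i => |p.1 i - p.2 i|) (fun k _ => abs_nonneg _)
        (Finset.mem_univ _)
    have hsub : ∑ i ∈ Finset.univ.filter (fun i => i < j), |p.1 i - p.2 i| ≤
        ∑ i, |p.1 i - p.2 i| :=
      Finset.sum_le_sum_of_subset_of_nonneg (Finset.filter_subset _ _)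
        (fun i _ _ => abs_nonneg _)
    have hd2 : |flow μ b κ 1 p.1 w j - flow μ b κ 1 p.2 w j| ≤
        (A + C₀) * Real.exp ((2 * b + C₀) * osc w) * ∑ i, |p.1 i - p.2 i| := by
      refine hd.trans ?_
      have t1 : Real.exp (b * (inc w j + (μ j.succ - μ 0))) * |p.1 j - p.2 j| ≤
          A * Real.exp ((2 * b + C₀) * osc w) * ∑ i, |p.1 i - p.2 i| := by
        apply mul_le_mul _ hj (abs_nonneg _) (by positivity)
        exact hexp1.trans (mul_le_mul_of_nonneg_left hexp2 hA0.le)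
      have t2 : C₀ * Real.exp (C₀ * osc w) *
          ∑ i ∈ Finset.univ.filter (fun i => i < j), |p.1 i - p.2 i| ≤
          C₀ * Real.exp ((2 * b + C₀) * osc w) * ∑ i, |p.1 i - p.2 i| := by
        apply mul_le_mul _ hsub (Finset.sum_nonneg (fun i _ => abs_nonneg _)) (by positivity)
        exact mul_le_mul_of_nonneg_left hexp3 hC₀'
      linarith
    rw [div_eq_mul_inv]
    calc 2 * |flow μ b κ 1 p.1 w j - flow μ b κ 1 p.2 w j| * (flow μ b κ 1 p.2 w j)⁻¹
        ≤ 2 * ((A + C₀) * Real.exp ((2 * b + C₀) * osc w) * ∑ i, |p.1 i - p.2 i|) *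
          (C₁ * Real.exp (C₁ * osc w)) := by
          apply mul_le_mul _ hinv (by positivity) (by positivity)
          exact mul_le_mul_of_nonneg_left hd2 (by norm_num)
      _ = K * (Real.exp (C₁ * osc w) * Real.exp ((2 * b + C₀) * osc w)) *
          ∑ i, |p.1 i - p.2 i| := by
          rw [hK]
          ring
      _ = K * Real.exp (c * osc w) * ∑ i, |p.1 i - p.2 i| := by
          rw [← Real.exp_add, hc]
          congr 3
          ring
  have hpt : ∀ w, ENNReal.ofReal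
      (min 1 |Real.log (flow μ b κ 1 p.1 w j) - Real.log (flow μ b κ 1 p.2 w j)|) ≤
      ENNReal.ofReal (K ^ θ * Real.exp (θ * c * osc w)) *
        ∑ i, ENNReal.ofReal (|p.1 i - p.2 i| ^ θ) := by
    intro w
    set M := min 1 |Real.log (flow μ b κ 1 p.1 w j) - Real.log (flow μ b κ 1 p.2 w j)| with hM
    have hM0 : 0 ≤ M := le_min zero_le_one (abs_nonneg _)
    have hM1 : M ≤ 1 := min_le_left _ _
    have e1 : M ≤ M ^ θ := by
      rcases hM0.eq_or_lt with h | h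
      · rw [← h, Real.zero_rpow h0.ne']
      · calc M = M ^ (1 : ℝ) := (Real.rpow_one M).symm
          _ ≤ M ^ θ := Real.rpow_le_rpow_of_exponent_ge h hM1 h1
    have e2 : ENNReal.ofReal M ≤ (ENNReal.ofReal M) ^ θ := by
      rw [ENNReal.ofReal_rpow_of_nonneg hM0 h0.le]
      exact ENNReal.ofReal_le_ofReal e1
    refine e2.trans ?_
    have e3 : ENNReal.ofReal M ≤ ENNReal.ofReal (K * Real.exp (c * osc w)) *
        ∑ i, ENNReal.ofReal (|p.1 i - p.2 i|) := by
      refine (ENNReal.ofReal_le_ofReal (hreal w)).trans ?_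
      rw [ENNReal.ofReal_mul (by positivity),
        ENNReal.ofReal_sum_of_nonneg (fun i _ => abs_nonneg _)]
    refine (ENNReal.rpow_le_rpow e3 h0.le).trans ?_
    rw [ENNReal.mul_rpow_of_nonneg _ _ h0.le, ENNReal.ofReal_rpow_of_nonneg (by positivity) h0.le,
      Real.mul_rpow hK0 (Real.exp_pos _).le, ← Real.exp_mul]
    apply mul_le_mul'
    · apply le_of_eq
      congr 3
      ring
    · refine (MO1_sum_rpow h0 h1 _ _).trans ?_
      apply le_of_eq
      apply Finset.sum_congr rfl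
      intro i _
      rw [ENNReal.ofReal_rpow_of_nonneg (abs_nonneg _) h0.le]
  have hmeas2 : Measurable fun w : Blk n =>
      ENNReal.ofReal (K ^ θ * Real.exp (θ * c * osc w)) :=
    ENNReal.measurable_ofReal.comp
      ((Real.measurable_exp.comp (measurable_osc.const_mul _)).const_mul _)
  refine (lintegral_mono hpt).trans ?_
  rw [lintegral_mul_const _ hmeas2]

end Pool.Agent.OYG
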