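import Mathlib

/-!
RSQ: two elementary triangular recursions.

(1) By strong induction on `j`: `a_j(N) ≤ c_j (1+N)^j r^N S`, `S = Σ a_i(0)`: iterate
`a_j(N) ≤ r^N a_j(0) + Σ_{M<N} r^(N-1-M) C n c (1+M)^(j-1) r^M S`, and `Σ_{M<N} (1+M)^(j-1) ≤ N (1+N)^(j-1)`.
(2) Same with the extra terms: `Σ_{M<N} r^(N-1-M) ≤ 1/(1-r)`. The constants only depend on `n, r, C`.
All in `ℝ≥0∞` (values may be infinite at time 0).
-/

open scoped ENNReal

namespace Pool.Agent.OYG

private theorem rsq_sum_le (n : ℕ) (j : Fin n) (f : Fin n → ℝ≥0∞) (B : ℝ≥0∞)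
    (h : ∀ i, i < j → f i ≤ B) :
    ∑ i ∈ Finset.univ.filter (fun i => i < j), f i ≤ ENNReal.ofReal n * B := by
  have h1 : ∑ i ∈ Finset.univ.filter (fun i => i < j), f i ≤
      (Finset.univ.filter (fun i : Fin n => i < j)).card • B :=
    Finset.sum_le_card_nsmul _ _ _ fun i hi => h i (Finset.mem_filter.1 hi).2
  refine h1.trans ?_
  rw [nsmul_eq_mul]
  have h2 : (Finset.univ.filter (fun i : Fin n => i < j)).card ≤ n := by
    refine (Finset.card_filter_le _ _).trans ?_
    simp
  rw [ENNReal.ofReal_natCast]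
  gcongr

private theorem rsq_single (n : ℕ) (a : Fin n → ℕ → ℝ≥0∞) (j : Fin n) :
    a j 0 ≤ ∑ i, a i 0 :=
  Finset.single_le_sum (f := fun i => a i 0) (fun _ _ => bot_le) (Finset.mem_univ j)

private theorem rsq_pow (k N : ℕ) (D : ℝ) (hD : 0 ≤ D) :
    (1 + N * D) * (1 + (N : ℝ)) ^ k ≤ (1 + D) * (1 + (N : ℝ)) ^ (k + 1) := by
  rw [pow_succ]
  have h1 : (1 + (N : ℝ) * D) ≤ (1 + D) * (1 + N) := by nlinarith [N.cast_nonneg (α := ℝ)]
  have h2 : 0 ≤ (1 + (N : ℝ)) ^ k := by positivity
  nlinarith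

private theorem rsq_step (k N : ℕ) (D r : ℝ) (hD : 0 ≤ D) (hr : 0 < r) :
    (1 + N * D) * (1 + (N : ℝ)) ^ k * r ^ (N + 1) + D * (1 + (N : ℝ)) ^ k * r ^ (N + 1) ≤
      (1 + ((N + 1 : ℕ) : ℝ) * D) * (1 + ((N + 1 : ℕ) : ℝ)) ^ k * r ^ (N + 1) := by
  have h1 : (1 + (N : ℝ)) ^ k ≤ (1 + ((N + 1 : ℕ) : ℝ)) ^ k := by
    push_cast
    gcongr
    linarith
  have h2 : 0 ≤ r ^ (N + 1) := by positivity
  have h3 : (1 + (N : ℝ) * D) * (1 + (N : ℝ)) ^ k * r ^ (N + 1) +
      D * (1 + (N : ℝ)) ^ k * r ^ (N + 1) =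
      (1 + ((N + 1 : ℕ) : ℝ) * D) * (1 + (N : ℝ)) ^ k * r ^ (N + 1) := by
    push_cast; ring
  rw [h3]
  gcongr

theorem rec_one (n : ℕ) {r C : ℝ} (hr : 0 < r) (hC : 0 ≤ C) : ∃ C' : ℝ, 0 ≤ C' ∧
    ∀ a : Fin n → ℕ → ℝ≥0∞, (∀ j N, a j (N + 1) ≤ ENNReal.ofReal r * a j N +
      ENNReal.ofReal C * ∑ i ∈ Finset.univ.filter (fun i => i < j), a i N) →
    ∀ j N, a j N ≤ ENNReal.ofReal (C' * (1 + N) ^ n * r ^ N) * ∑ i, a i 0 := by
  have key : ∀ k : ℕ, ∃ c : ℝ, 0 ≤ c ∧
      ∀ a : Fin n → ℕ → ℝ≥0∞, (∀ j N, a j (N + 1) ≤ ENNReal.ofReal r * a j N +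
        ENNReal.ofReal C * ∑ i ∈ Finset.univ.filter (fun i => i < j), a i N) →
      ∀ j : Fin n, (j : ℕ) < k → ∀ N : ℕ,
        a j N ≤ ENNReal.ofReal (c * (1 + N) ^ k * r ^ N) * ∑ i, a i 0 := by
    intro k
    induction k with
    | zero => exact ⟨0, le_rfl, fun a _ j hj => absurd hj (by omega)⟩
    | succ k ih =>
      obtain ⟨c, hc, h⟩ := ih
      set D : ℝ := C * n * c / r with hDdef
      have hD : 0 ≤ D := by positivity
      refine ⟨1 + D, by positivity, fun a ha j hj => ?_⟩
      have h1 : ∀ N : ℕ, a j N ≤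
          ENNReal.ofReal ((1 + N * D) * (1 + N) ^ k * r ^ N) * ∑ i, a i 0 := by
        intro N
        induction N with
        | zero =>
          have := rsq_single n a j
          simpa using this
        | succ N ihN =>
          have h2 : ∑ i ∈ Finset.univ.filter (fun i => i < j), a i N ≤
              ENNReal.ofReal n * (ENNReal.ofReal (c * (1 + N) ^ k * r ^ N) * ∑ i, a i 0) :=
            rsq_sum_le n j _ _ fun i hi => h a ha i (by
              have : (i : ℕ) < j := hi
              omega) N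
          calc a j (N + 1) ≤ ENNReal.ofReal r * a j N +
                ENNReal.ofReal C * ∑ i ∈ Finset.univ.filter (fun i => i < j), a i N := ha j N
            _ ≤ ENNReal.ofReal r * (ENNReal.ofReal ((1 + N * D) * (1 + N) ^ k * r ^ N) *
                  ∑ i, a i 0) + ENNReal.ofReal C * (ENNReal.ofReal n *
                  (ENNReal.ofReal (c * (1 + N) ^ k * r ^ N) * ∑ i, a i 0)) := by gcongr
            _ = ENNReal.ofReal ((1 + N * D) * (1 + (N : ℝ)) ^ k * r ^ (N + 1) +
                  D * (1 + (N : ℝ)) ^ k * r ^ (N + 1)) * ∑ i, a i 0 := by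
                rw [ENNReal.ofReal_add (by positivity) (by positivity),
                  add_mul (ENNReal.ofReal _) (ENNReal.ofReal _),
                  ← mul_assoc (ENNReal.ofReal r), ← ENNReal.ofReal_mul hr.le,
                  ← mul_assoc (ENNReal.ofReal n), ← ENNReal.ofReal_mul (Nat.cast_nonneg n),
                  ← mul_assoc (ENNReal.ofReal C), ← ENNReal.ofReal_mul hC]
                have e1 : r * ((1 + (N : ℝ) * D) * (1 + (N : ℝ)) ^ k * r ^ N) =
                    (1 + N * D) * (1 + (N : ℝ)) ^ k * r ^ (N + 1) := by ring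
                have e2 : C * ((n : ℝ) * (c * (1 + (N : ℝ)) ^ k * r ^ N)) =
                    D * (1 + (N : ℝ)) ^ k * r ^ (N + 1) := by
                  rw [hDdef, pow_succ]; field_simp
                rw [e1, e2]
            _ ≤ _ := by
                gcongr
                exact rsq_step k N D r hD hr
      intro N
      refine (h1 N).trans (mul_le_mul' (ENNReal.ofReal_le_ofReal ?_) le_rfl)
      exact mul_le_mul_of_nonneg_right (rsq_pow k N D hD) (by positivity)
  obtain ⟨c, hc, h⟩ := key n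
  exact ⟨c, hc, fun a ha j N => h a ha j j.2 N⟩

theorem rec_two (n : ℕ) {r C : ℝ} (hr : 0 < r) (hr1 : r < 1) (hC : 0 ≤ C) : ∃ C' : ℝ, 0 ≤ C' ∧
    ∀ a : Fin n → ℕ → ℝ≥0∞, (∀ j N, a j (N + 1) ≤ ENNReal.ofReal r * a j N +
      ENNReal.ofReal C * (1 + ∑ i ∈ Finset.univ.filter (fun i => i < j), a i N)) →
    ∀ j N, a j N ≤ ENNReal.ofReal C' +
      ENNReal.ofReal (C' * (1 + N) ^ n * r ^ N) * ∑ i, a i 0 := by
  have key : ∀ k : ℕ, ∃ c : ℝ, 0 ≤ c ∧
      ∀ a : Fin n → ℕ → ℝ≥0∞, (∀ j N, a j (N + 1) ≤ ENNReal.ofReal r * a j N +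
        ENNReal.ofReal C * (1 + ∑ i ∈ Finset.univ.filter (fun i => i < j), a i N)) →
      ∀ j : Fin n, (j : ℕ) < k → ∀ N : ℕ,
        a j N ≤ ENNReal.ofReal c + ENNReal.ofReal (c * (1 + N) ^ k * r ^ N) * ∑ i, a i 0 := by
    intro k
    induction k with
    | zero => exact ⟨0, le_rfl, fun a _ j hj => absurd hj (by omega)⟩
    | succ k ih =>
      obtain ⟨c, hc, h⟩ := ih
      have h1r : 0 < 1 - r := by linarith
      set D : ℝ := C * n * c / r with hDdef
      set E : ℝ := (C + C * n * c) / (1 - r) with hEdef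
      have hD : 0 ≤ D := by positivity
      have hE : 0 ≤ E := by positivity
      refine ⟨E + (1 + D), by positivity, fun a ha j hj => ?_⟩
      have h1 : ∀ N : ℕ, a j N ≤ ENNReal.ofReal E +
          ENNReal.ofReal ((1 + N * D) * (1 + N) ^ k * r ^ N) * ∑ i, a i 0 := by
        intro N
        induction N with
        | zero =>
          have := rsq_single n a j
          refine this.trans ?_
          simp
        | succ N ihN =>
          have h2 : ∑ i ∈ Finset.univ.filter (fun i => i < j), a i N ≤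
              ENNReal.ofReal n * (ENNReal.ofReal c +
                ENNReal.ofReal (c * (1 + N) ^ k * r ^ N) * ∑ i, a i 0) :=
            rsq_sum_le n j _ _ fun i hi => h a ha i (by
              have : (i : ℕ) < j := hi
              omega) N
          calc a j (N + 1) ≤ ENNReal.ofReal r * a j N +
                ENNReal.ofReal C * (1 + ∑ i ∈ Finset.univ.filter (fun i => i < j), a i N) := ha j N
            _ ≤ ENNReal.ofReal r * (ENNReal.ofReal E +
                  ENNReal.ofReal ((1 + N * D) * (1 + N) ^ k * r ^ N) *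
                  ∑ i, a i 0) + ENNReal.ofReal C * (1 + ENNReal.ofReal n *
                  (ENNReal.ofReal c + ENNReal.ofReal (c * (1 + N) ^ k * r ^ N) *
                    ∑ i, a i 0)) := by gcongr
            _ = (ENNReal.ofReal r * ENNReal.ofReal E + (ENNReal.ofReal C +
                  ENNReal.ofReal C * (ENNReal.ofReal n * ENNReal.ofReal c))) +
                (ENNReal.ofReal r * ENNReal.ofReal ((1 + N * D) * (1 + N) ^ k * r ^ N) +
                  ENNReal.ofReal C * (ENNReal.ofReal n *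
                    ENNReal.ofReal (c * (1 + N) ^ k * r ^ N))) * ∑ i, a i 0 := by ring
            _ = ENNReal.ofReal E + ENNReal.ofReal ((1 + N * D) * (1 + (N : ℝ)) ^ k * r ^ (N + 1) +
                  D * (1 + (N : ℝ)) ^ k * r ^ (N + 1)) * ∑ i, a i 0 := by
                rw [← ENNReal.ofReal_mul hr.le, ← ENNReal.ofReal_mul (Nat.cast_nonneg n),
                  ← ENNReal.ofReal_mul hC, ← ENNReal.ofReal_add hC (by positivity),
                  ← ENNReal.ofReal_add (by positivity) (by positivity),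
                  ← ENNReal.ofReal_mul hr.le, ← ENNReal.ofReal_mul (Nat.cast_nonneg n),
                  ← ENNReal.ofReal_mul hC, ← ENNReal.ofReal_add (by positivity) (by positivity)]
                have e0 : r * E + (C + C * ((n : ℝ) * c)) = E := by
                  rw [hEdef]; field_simp; ring
                have e1 : r * ((1 + (N : ℝ) * D) * (1 + (N : ℝ)) ^ k * r ^ N) =
                    (1 + N * D) * (1 + (N : ℝ)) ^ k * r ^ (N + 1) := by ring
                have e2 : C * ((n : ℝ) * (c * (1 + (N : ℝ)) ^ k * r ^ N)) =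
                    D * (1 + (N : ℝ)) ^ k * r ^ (N + 1) := by
                  rw [hDdef, pow_succ]; field_simp
                rw [e0, e1, e2]
            _ ≤ _ := by
                gcongr
                exact rsq_step k N D r hD hr
      intro N
      refine (h1 N).trans ?_
      have h3 : (1 + (N : ℝ) * D) * (1 + N) ^ k * r ^ N ≤
          (E + (1 + D)) * (1 + N) ^ (k + 1) * r ^ N := by
        have h4 := rsq_pow k N D hD
        have h5 : (1 + D) * (1 + (N : ℝ)) ^ (k + 1) ≤ (E + (1 + D)) * (1 + (N : ℝ)) ^ (k + 1) := by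
          have : 0 ≤ (1 + (N : ℝ)) ^ (k + 1) := by positivity
          nlinarith
        have h6 : 0 ≤ r ^ N := by positivity
        exact mul_le_mul_of_nonneg_right (h4.trans h5) h6
      exact add_le_add (ENNReal.ofReal_le_ofReal (by linarith))
        (mul_le_mul' (ENNReal.ofReal_le_ofReal h3) le_rfl)
  obtain ⟨c, hc, h⟩ := key n
  exact ⟨c, hc, fun a ha j N => h a ha j j.2 N⟩

end Pool.Agent.OYG
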