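import Pool.Agent.OYG.MO1
import Pool.Agent.OYG.RSQ

/-!
MOM: iterated moment and difference bounds: `rec_two` / `rec_one` applied to
`a j N = Qp^[N] (fun q => ofReal (q.1 j ^ θ)) p` (resp. the differences). `a j (N+1) = Qp^[N] (Qp f_j) p`
(`Function.iterate_succ_apply`), bounded with `mo_step` through `Qp_iter_mono` on the positive pairs, `Qp_iter_add`,
`Qp_iter_mul`, `Qp_iter_sum`, `Qp_iter_const`.
-/

open MeasureTheory ProbabilityTheory Set Filter Topology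
open scoped ENNReal NNReal

namespace Pool.Agent.OYG

variable {n : ℕ} (μ : Fin (n + 1) → ℝ) (b κ : ℝ) {Wl : Measure (Blk n)}

theorem mom (hb : 0 < b) (hκ : 0 < κ) (hW : WProp n Wl) {θ m : ℝ} (h0 : 0 < θ) (h1 : θ ≤ 1)
    (hm : ∀ j : Fin n, m ≤ μ 0 - μ j.succ) (hf : 0 < θ * b * m - θ ^ 2 * b ^ 2) :
    ∃ C : ℝ, 0 ≤ C ∧ ∀ p : St n × St n, Pos p.1 → Pos p.2 → ∀ j N,
      (Qp μ b κ Wl)^[N] (fun q => ENNReal.ofReal (q.1 j ^ θ)) p ≤ ENNReal.ofReal C +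
        ENNReal.ofReal (C * (1 + N) ^ n * Real.exp (-(θ * b * m - θ ^ 2 * b ^ 2)) ^ N) *
          ∑ i, ENNReal.ofReal (p.1 i ^ θ) := by
  obtain ⟨C, hC, hstep⟩ := mo_step μ b κ hb hκ hW h0 h1 hm
  have hr1 : Real.exp (-(θ * b * m - θ ^ 2 * b ^ 2)) < 1 := by
    rw [Real.exp_lt_one_iff]
    linarith
  obtain ⟨C', hC', hrec⟩ := rec_two n (Real.exp_pos (-(θ * b * m - θ ^ 2 * b ^ 2))) hr1 hC
  refine ⟨C', hC', ?_⟩
  intro p hp1 hp2 j N
  have hmeas : ∀ i : Fin n, Measurable fun q : St n × St n => ENNReal.ofReal (q.1 i ^ θ) := by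
    intro i
    exact ENNReal.measurable_ofReal.comp
      (((measurable_pi_apply i).comp measurable_fst).pow_const θ)
  refine hrec (fun j N => (Qp μ b κ Wl)^[N] (fun q => ENNReal.ofReal (q.1 j ^ θ)) p) ?_ j N
  intro j N
  have e1 : (Qp μ b κ Wl)^[N + 1] (fun q => ENNReal.ofReal (q.1 j ^ θ)) p =
      (Qp μ b κ Wl)^[N] (Qp μ b κ Wl (fun q => ENNReal.ofReal (q.1 j ^ θ))) p := by
    rw [Function.iterate_succ_apply]
  have e2 : (Qp μ b κ Wl)^[N] (Qp μ b κ Wl (fun q => ENNReal.ofReal (q.1 j ^ θ))) p ≤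
      (Qp μ b κ Wl)^[N] (fun q =>
        ENNReal.ofReal (Real.exp (-(θ * b * m - θ ^ 2 * b ^ 2))) * ENNReal.ofReal (q.1 j ^ θ) +
        ENNReal.ofReal C * (1 + ∑ i ∈ Finset.univ.filter (fun i => i < j),
          ENNReal.ofReal (q.1 i ^ θ))) p :=
    Qp_iter_mono μ b κ (invD_pos μ b κ hκ.le) (fun q hq => hstep q hq.1 hq.2 j) N
      (show p ∈ {p : St n × St n | Pos p.1 ∧ Pos p.2} from ⟨hp1, hp2⟩)
  show (Qp μ b κ Wl)^[N + 1] (fun q => ENNReal.ofReal (q.1 j ^ θ)) p ≤ _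
  rw [e1]
  refine e2.trans ?_
  have hsum : Measurable fun q : St n × St n =>
      ∑ i ∈ Finset.univ.filter (fun i => i < j), ENNReal.ofReal (q.1 i ^ θ) :=
    Finset.measurable_sum _ (fun i _ => hmeas i)
  have hone : Measurable fun q : St n × St n =>
      (1 : ℝ≥0∞) + ∑ i ∈ Finset.univ.filter (fun i => i < j), ENNReal.ofReal (q.1 i ^ θ) :=
    measurable_const.add hsum
  rw [Qp_iter_add μ b κ hW (f := fun q : St n × St n =>
        ENNReal.ofReal (Real.exp (-(θ * b * m - θ ^ 2 * b ^ 2))) * ENNReal.ofReal (q.1 j ^ θ))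
      (g := fun q : St n × St n => ENNReal.ofReal C *
        (1 + ∑ i ∈ Finset.univ.filter (fun i => i < j), ENNReal.ofReal (q.1 i ^ θ)))
      ((hmeas j).const_mul _) N p,
    Qp_iter_mul μ b κ hW (hmeas j) _ N p,
    Qp_iter_mul μ b κ hW (f := fun q : St n × St n =>
      (1 : ℝ≥0∞) + ∑ i ∈ Finset.univ.filter (fun i => i < j), ENNReal.ofReal (q.1 i ^ θ)) hone _ N p,
    Qp_iter_add μ b κ hW (f := fun _ : St n × St n => (1 : ℝ≥0∞))
      (g := fun q : St n × St n => ∑ i ∈ Finset.univ.filter (fun i => i < j),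
        ENNReal.ofReal (q.1 i ^ θ)) measurable_const N p,
    Qp_iter_const μ b κ hW 1 N p,
    Qp_iter_sum μ b κ hW _ (f := fun i (q : St n × St n) => ENNReal.ofReal (q.1 i ^ θ)) hmeas N p]

theorem pai (hb : 0 < b) (hκ : 0 < κ) (hW : WProp n Wl) {θ m : ℝ} (h0 : 0 < θ) (h1 : θ ≤ 1)
    (hm : ∀ j : Fin n, m ≤ μ 0 - μ j.succ) :
    ∃ C : ℝ, 0 ≤ C ∧ ∀ p : St n × St n, Pos p.1 → Pos p.2 → ∀ j N,
      (Qp μ b κ Wl)^[N] (fun q => ENNReal.ofReal (|q.1 j - q.2 j| ^ θ)) p ≤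
        ENNReal.ofReal (C * (1 + N) ^ n * Real.exp (-(θ * b * m - θ ^ 2 * b ^ 2)) ^ N) *
          ∑ i, ENNReal.ofReal (|p.1 i - p.2 i| ^ θ) := by
  obtain ⟨C, hC, hstep⟩ := pa_step μ b κ hb hκ hW h0 h1 hm
  obtain ⟨C', hC', hrec⟩ := rec_one n (Real.exp_pos (-(θ * b * m - θ ^ 2 * b ^ 2))) hC
  refine ⟨C', hC', ?_⟩
  intro p hp1 hp2 j N
  have hmeas : ∀ i : Fin n, Measurable fun q : St n × St n =>
      ENNReal.ofReal (|q.1 i - q.2 i| ^ θ) := by
    intro i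
    have hd : Measurable fun q : St n × St n => q.1 i - q.2 i :=
      ((measurable_pi_apply i).comp measurable_fst).sub
        ((measurable_pi_apply i).comp measurable_snd)
    have habs : Measurable fun q : St n × St n => |q.1 i - q.2 i| := by
      simpa [Real.norm_eq_abs] using hd.norm
    exact ENNReal.measurable_ofReal.comp (habs.pow_const θ)
  refine hrec (fun j N => (Qp μ b κ Wl)^[N] (fun q => ENNReal.ofReal (|q.1 j - q.2 j| ^ θ)) p)
    ?_ j N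
  intro j N
  have e1 : (Qp μ b κ Wl)^[N + 1] (fun q => ENNReal.ofReal (|q.1 j - q.2 j| ^ θ)) p =
      (Qp μ b κ Wl)^[N] (Qp μ b κ Wl (fun q => ENNReal.ofReal (|q.1 j - q.2 j| ^ θ))) p := by
    rw [Function.iterate_succ_apply]
  have e2 : (Qp μ b κ Wl)^[N] (Qp μ b κ Wl (fun q => ENNReal.ofReal (|q.1 j - q.2 j| ^ θ))) p ≤
      (Qp μ b κ Wl)^[N] (fun q =>
        ENNReal.ofReal (Real.exp (-(θ * b * m - θ ^ 2 * b ^ 2))) *
          ENNReal.ofReal (|q.1 j - q.2 j| ^ θ) +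
        ENNReal.ofReal C * ∑ i ∈ Finset.univ.filter (fun i => i < j),
          ENNReal.ofReal (|q.1 i - q.2 i| ^ θ)) p :=
    Qp_iter_mono μ b κ (invD_pos μ b κ hκ.le) (fun q hq => hstep q hq.1 hq.2 j) N
      (show p ∈ {p : St n × St n | Pos p.1 ∧ Pos p.2} from ⟨hp1, hp2⟩)
  show (Qp μ b κ Wl)^[N + 1] (fun q => ENNReal.ofReal (|q.1 j - q.2 j| ^ θ)) p ≤ _
  rw [e1]
  refine e2.trans ?_
  have hsum : Measurable fun q : St n × St n =>
      ∑ i ∈ Finset.univ.filter (fun i => i < j), ENNReal.ofReal (|q.1 i - q.2 i| ^ θ) :=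
    Finset.measurable_sum _ (fun i _ => hmeas i)
  rw [Qp_iter_add μ b κ hW (f := fun q : St n × St n =>
        ENNReal.ofReal (Real.exp (-(θ * b * m - θ ^ 2 * b ^ 2))) *
          ENNReal.ofReal (|q.1 j - q.2 j| ^ θ))
      (g := fun q : St n × St n => ENNReal.ofReal C *
        ∑ i ∈ Finset.univ.filter (fun i => i < j), ENNReal.ofReal (|q.1 i - q.2 i| ^ θ))
      ((hmeas j).const_mul _) N p,
    Qp_iter_mul μ b κ hW (hmeas j) _ N p,
    Qp_iter_mul μ b κ hW (f := fun q : St n × St n =>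
      ∑ i ∈ Finset.univ.filter (fun i => i < j), ENNReal.ofReal (|q.1 i - q.2 i| ^ θ))
      hsum _ N p,
    Qp_iter_sum μ b κ hW _
      (f := fun i (q : St n × St n) => ENNReal.ofReal (|q.1 i - q.2 i| ^ θ)) hmeas N p]

end Pool.Agent.OYG
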