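import Pool.Agent.OYG.Defs

/-!
PHI: matching of the end point of one line (calculus in one variable).

For `c ≥ 0` continuous on `[0,1]` and `x > 0` put `Φ(x,η) = exp (b η) (x + ∫_0^1 c(s) exp (-b η s) ds)`. It is continuously
differentiable in `η` with `∂Φ(x,η) = b exp (b η) (x + ∫_0^1 (1-s) c(s) exp (-b η s) ds) > 0` (write
`Φ = exp (b η) x + ∫ c(s) exp (b η (1-s)) ds`), it is `≥ x exp (b η)`, tends to `∞` at `+∞` and to `0` at `-∞`
(dominated convergence, or: only needed is the intermediate value statement below).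
For `|log x - log x'| ≤ ε`: `Φ(x, η + ε/b) ≥ Φ(x', η)` since `exp ε · x ≥ x'` and `exp ε exp (-ε s) ≥ 1`, and `Φ(x, η - ε/b) ≤ Φ(x', η)`.
So there is a unique `σ(η) ∈ [η - ε/b, η + ε/b]` with `Φ(x, σ(η)) = Φ(x', η)` (IVT, strict monotonicity; no limits needed).
Derivative: the inverse function `Φ(x,·)⁻¹` is differentiable on the range (`HasDerivAt.of_local_left_inverse` or
`HasStrictDerivAt.to_localInverse`), so `σ' = ∂Φ(x',η)/∂Φ(x,σ(η))`. With `D(x,η) = ∂Φ(x,η)` increasing in `η`: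
`D(x,σ) ≤ D(x, η + ε/b) ≤ exp (2ε) D(x',η)` and `D(x,σ) ≥ exp (-2ε) D(x',η)`. Hence `exp (-2ε) ≤ σ' ≤ exp (2ε)`.
-/

open MeasureTheory ProbabilityTheory Set Filter Topology
open scoped ENNReal NNReal

namespace Pool.Agent.OYG

/-- the function `Φ` in expanded form -/
noncomputable def phiF (b : ℝ) (g : ℝ → ℝ) (x η : ℝ) : ℝ :=
  x * Real.exp (b * η) + ∫ s in (0 : ℝ)..1, g s * Real.exp (b * η * (1 - s))

/-- its derivative -/
noncomputable def phiD (b : ℝ) (g : ℝ → ℝ) (x η : ℝ) : ℝ :=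
  x * (b * Real.exp (b * η)) + ∫ s in (0 : ℝ)..1, g s * (b * (1 - s)) * Real.exp (b * η * (1 - s))

lemma phi_int_deriv {b : ℝ} (hb : 0 < b) {g : ℝ → ℝ} (hg : Continuous g) (η₀ : ℝ) :
    HasDerivAt (fun η => ∫ s in (0 : ℝ)..1, g s * Real.exp (b * η * (1 - s)))
      (∫ s in (0 : ℝ)..1, g s * (b * (1 - s)) * Real.exp (b * η₀ * (1 - s))) η₀ := by
  obtain ⟨C, hC⟩ := isCompact_Icc.exists_bound_of_continuousOn
    (hg.continuousOn (s := Icc (0 : ℝ) 1))
  refine (intervalIntegral.hasDerivAt_integral_of_dominated_loc_of_deriv_le (μ := volume)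
    (F := fun η s => g s * Real.exp (b * η * (1 - s)))
    (F' := fun η s => g s * (b * (1 - s)) * Real.exp (b * η * (1 - s)))
    (s := Metric.ball η₀ 1)
    (bound := fun _ => C * b * Real.exp (b * (|η₀| + 1))) (Metric.ball_mem_nhds _ one_pos)
    ?_ ?_ ?_ ?_ ?_ ?_).2
  · refine Eventually.of_forall fun η => ?_
    exact (Continuous.aestronglyMeasurable (by fun_prop))
  · exact Continuous.intervalIntegrable (by fun_prop) _ _
  · exact (Continuous.aestronglyMeasurable (by fun_prop))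
  · refine Eventually.of_forall fun s hs η hη => ?_
    rw [uIoc_of_le zero_le_one] at hs
    have h1 : ‖g s‖ ≤ C := hC s ⟨hs.1.le, hs.2⟩
    have h2 : |η| ≤ |η₀| + 1 := by
      have h3 : |η - η₀| < 1 := by simpa [Real.dist_eq] using hη
      have := abs_sub_abs_le_abs_sub η η₀
      linarith
    have h4 : b * η * (1 - s) ≤ b * (|η₀| + 1) := by
      have h5 : η ≤ |η₀| + 1 := (le_abs_self η).trans h2
      have h6 : 0 ≤ |η₀| + 1 := by positivity
      have h7 : 0 ≤ 1 - s := by linarith [hs.2]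
      have h8 : 1 - s ≤ 1 := by linarith [hs.1]
      calc b * η * (1 - s) = b * (η * (1 - s)) := by ring
        _ ≤ b * ((|η₀| + 1) * (1 - s)) := by
            apply mul_le_mul_of_nonneg_left _ hb.le
            exact mul_le_mul_of_nonneg_right h5 h7
        _ ≤ b * ((|η₀| + 1) * 1) := by
            apply mul_le_mul_of_nonneg_left _ hb.le
            exact mul_le_mul_of_nonneg_left h8 h6
        _ = _ := by ring
    have h9 : ‖b * (1 - s)‖ ≤ b := by
      rw [Real.norm_eq_abs, abs_of_nonneg (mul_nonneg hb.le (by linarith [hs.2]))]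
      nlinarith [hs.1]
    rw [norm_mul, norm_mul, Real.norm_eq_abs (Real.exp _), abs_of_pos (Real.exp_pos _)]
    have hC0 : 0 ≤ C := (norm_nonneg _).trans h1
    have h10 : ‖g s‖ * ‖b * (1 - s)‖ ≤ C * b := mul_le_mul h1 h9 (norm_nonneg _) hC0
    exact mul_le_mul h10 (Real.exp_le_exp.mpr h4) (Real.exp_pos _).le (by positivity)
  · exact intervalIntegrable_const
  · refine Eventually.of_forall fun s _ η _ => ?_
    have h1 : HasDerivAt (fun η : ℝ => b * η * (1 - s)) (b * (1 - s)) η := by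
      have := ((hasDerivAt_id η).const_mul b).mul_const (1 - s)
      simpa using this
    have h2 := (h1.exp).const_mul (g s)
    have h3 : g s * (b * (1 - s)) * Real.exp (b * η * (1 - s)) =
        g s * (Real.exp (b * η * (1 - s)) * (b * (1 - s))) := by ring
    show HasDerivAt (fun η : ℝ => g s * Real.exp (b * η * (1 - s)))
      (g s * (b * (1 - s)) * Real.exp (b * η * (1 - s))) η
    rw [h3]
    exact h2

lemma phiF_deriv {b : ℝ} (hb : 0 < b) {g : ℝ → ℝ} (hg : Continuous g) (x η₀ : ℝ) :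
    HasDerivAt (phiF b g x) (phiD b g x η₀) η₀ := by
  have h1 : HasDerivAt (fun η : ℝ => b * η) b η₀ := by
    simpa using (hasDerivAt_id η₀).const_mul b
  have h2 := (h1.exp).const_mul x
  have h3 := h2.add (phi_int_deriv hb hg η₀)
  have h4 : HasDerivAt (phiF b g x) (x * (Real.exp (b * η₀) * b) +
      ∫ s in (0 : ℝ)..1, g s * (b * (1 - s)) * Real.exp (b * η₀ * (1 - s))) η₀ := h3
  unfold phiD
  rw [mul_comm b (Real.exp (b * η₀))]
  exact h4

lemma phi_ii {g : ℝ → ℝ} (hg : Continuous g) : IntervalIntegrable g volume 0 1 :=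
  hg.intervalIntegrable _ _

lemma phiF_strictMono {b : ℝ} (hb : 0 < b) {g : ℝ → ℝ} (hg : Continuous g)
    (hg0 : ∀ s ∈ Icc (0 : ℝ) 1, 0 ≤ g s) {x : ℝ} (hx : 0 < x) : StrictMono (phiF b g x) := by
  intro η₁ η₂ h
  unfold phiF
  apply add_lt_add_of_lt_of_le
  · apply mul_lt_mul_of_pos_left _ hx
    exact Real.exp_lt_exp.mpr (mul_lt_mul_of_pos_left h hb)
  · apply intervalIntegral.integral_mono_on zero_le_one (phi_ii (by fun_prop)) (phi_ii (by fun_prop))
    intro s hs
    apply mul_le_mul_of_nonneg_left _ (hg0 s hs)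
    apply Real.exp_le_exp.mpr
    exact mul_le_mul_of_nonneg_right (mul_le_mul_of_nonneg_left h.le hb.le) (by linarith [hs.2])

lemma phiD_pos {b : ℝ} (hb : 0 < b) {g : ℝ → ℝ}
    (hg0 : ∀ s ∈ Icc (0 : ℝ) 1, 0 ≤ g s) {x : ℝ} (hx : 0 < x) (η : ℝ) : 0 < phiD b g x η := by
  unfold phiD
  apply add_pos_of_pos_of_nonneg (by positivity)
  apply intervalIntegral.integral_nonneg zero_le_one
  intro s hs
  have := hg0 s hs
  have : 0 ≤ b * (1 - s) := mul_nonneg hb.le (by linarith [hs.2])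
  positivity

lemma phi_exp_le {b η σ s ε : ℝ} (hb : 0 < b) (hs : s ∈ Icc (0 : ℝ) 1)
    (h : b * (σ - η) ≤ ε) (hε : 0 ≤ ε) :
    Real.exp (b * σ * (1 - s)) ≤ Real.exp ε * Real.exp (b * η * (1 - s)) := by
  rw [← Real.exp_add]
  apply Real.exp_le_exp.mpr
  have h1 : b * (σ - η) * (1 - s) ≤ ε * (1 - s) :=
    mul_le_mul_of_nonneg_right h (by linarith [hs.2])
  have h2 : ε * (1 - s) ≤ ε := by nlinarith [hs.1]
  nlinarith

/-- comparison of the derivatives -/
lemma phiD_le {b : ℝ} (hb : 0 < b) {g : ℝ → ℝ} (hg : Continuous g)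
    (hg0 : ∀ s ∈ Icc (0 : ℝ) 1, 0 ≤ g s) {x x' ε : ℝ} (hx' : 0 < x') (hε : 0 ≤ ε)
    (hxx : x ≤ Real.exp ε * x') {η σ : ℝ} (h : b * (σ - η) ≤ ε) :
    phiD b g x σ ≤ Real.exp (2 * ε) * phiD b g x' η := by
  unfold phiD
  rw [mul_add, ← intervalIntegral.integral_const_mul]
  have hE : Real.exp (2 * ε) = Real.exp ε * Real.exp ε := by rw [← Real.exp_add]; ring_nf
  have h1e : 1 ≤ Real.exp ε := Real.one_le_exp hε
  apply add_le_add
  · have h1 : Real.exp (b * σ) ≤ Real.exp ε * Real.exp (b * η) := by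
      rw [← Real.exp_add]
      apply Real.exp_le_exp.mpr
      linarith
    calc x * (b * Real.exp (b * σ)) ≤ (Real.exp ε * x') * (b * Real.exp (b * σ)) :=
          mul_le_mul_of_nonneg_right hxx (by positivity)
      _ ≤ (Real.exp ε * x') * (b * (Real.exp ε * Real.exp (b * η))) := by
          apply mul_le_mul_of_nonneg_left _ (by positivity)
          exact mul_le_mul_of_nonneg_left h1 hb.le
      _ = _ := by rw [hE]; ring
  · apply intervalIntegral.integral_mono_on zero_le_one (phi_ii (by fun_prop)) (phi_ii (by fun_prop))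
    intro s hs
    have h2 := phi_exp_le hb hs h hε
    have h3 : 0 ≤ g s * (b * (1 - s)) :=
      mul_nonneg (hg0 s hs) (mul_nonneg hb.le (by linarith [hs.2]))
    calc g s * (b * (1 - s)) * Real.exp (b * σ * (1 - s))
        ≤ g s * (b * (1 - s)) * (Real.exp ε * Real.exp (b * η * (1 - s))) :=
          mul_le_mul_of_nonneg_left h2 h3
      _ ≤ g s * (b * (1 - s)) * (Real.exp (2 * ε) * Real.exp (b * η * (1 - s))) := by
          apply mul_le_mul_of_nonneg_left _ h3
          apply mul_le_mul_of_nonneg_right _ (Real.exp_pos _).le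
          rw [hE]
          nlinarith
      _ = _ := by ring

/-- comparison of the functions -/
lemma phiF_le {b : ℝ} (hb : 0 < b) {g : ℝ → ℝ} (hg : Continuous g)
    (hg0 : ∀ s ∈ Icc (0 : ℝ) 1, 0 ≤ g s) {x x' ε : ℝ} (hε : 0 ≤ ε)
    (hxx : x' ≤ Real.exp ε * x) (η : ℝ) :
    phiF b g x' η ≤ phiF b g x (η + ε / b) := by
  unfold phiF
  have e1 : b * (η + ε / b) = b * η + ε := by field_simp
  rw [e1]
  apply add_le_add
  · rw [Real.exp_add]
    calc x' * Real.exp (b * η) ≤ (Real.exp ε * x) * Real.exp (b * η) :=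
          mul_le_mul_of_nonneg_right hxx (Real.exp_pos _).le
      _ = _ := by ring
  · apply intervalIntegral.integral_mono_on zero_le_one (phi_ii (by fun_prop)) (phi_ii (by fun_prop))
    intro s hs
    apply mul_le_mul_of_nonneg_left _ (hg0 s hs)
    apply Real.exp_le_exp.mpr
    apply mul_le_mul_of_nonneg_right _ (by linarith [hs.2])
    linarith

lemma phi_form {b : ℝ} {c g : ℝ → ℝ} (hcg : ∀ s ∈ Icc (0 : ℝ) 1, c s = g s) (x η : ℝ) :
    Real.exp (b * η) * (x + ∫ s in (0 : ℝ)..1, c s * Real.exp (-(b * η * s))) = phiF b g x η := by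
  unfold phiF
  rw [mul_add, ← intervalIntegral.integral_const_mul, mul_comm (Real.exp (b * η)) x]
  congr 1
  apply intervalIntegral.integral_congr
  intro s hs
  rw [uIcc_of_le zero_le_one] at hs
  show Real.exp (b * η) * (c s * Real.exp (-(b * η * s))) = g s * Real.exp (b * η * (1 - s))
  rw [hcg s hs]
  have : Real.exp (b * η * (1 - s)) = Real.exp (b * η) * Real.exp (-(b * η * s)) := by
    rw [← Real.exp_add]; congr 1; ring
  rw [this]; ring

theorem exists_sigma {b : ℝ} (hb : 0 < b) {c : ℝ → ℝ} (hc : ContinuousOn c (Icc 0 1))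
    (hc0 : ∀ s ∈ Icc (0 : ℝ) 1, 0 ≤ c s) {x x' : ℝ} (hx : 0 < x) (hx' : 0 < x') {ε : ℝ} (hε : 0 ≤ ε)
    (hxx : |Real.log x - Real.log x'| ≤ ε) : ∃ σ σ' : ℝ → ℝ,
    (∀ η, Real.exp (b * σ η) * (x + ∫ s in (0 : ℝ)..1, c s * Real.exp (-(b * σ η * s))) =
      Real.exp (b * η) * (x' + ∫ s in (0 : ℝ)..1, c s * Real.exp (-(b * η * s)))) ∧
    (∀ η, HasDerivAt σ (σ' η) η) ∧ (∀ η, Real.exp (-(2 * ε)) ≤ σ' η) ∧
    (∀ η, σ' η ≤ Real.exp (2 * ε)) ∧ ∀ η, |σ η - η| ≤ ε / b := by
  set g : ℝ → ℝ := Set.IccExtend (zero_le_one (α := ℝ)) ((Icc (0 : ℝ) 1).restrict c) with hgdef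
  have hg : Continuous g := (continuousOn_iff_continuous_restrict.mp hc).Icc_extend'
  have hcg : ∀ s ∈ Icc (0 : ℝ) 1, c s = g s := fun s hs => by
    rw [hgdef, Set.IccExtend_of_mem _ _ hs]; rfl
  have hg0 : ∀ s ∈ Icc (0 : ℝ) 1, 0 ≤ g s := fun s hs => by rw [← hcg s hs]; exact hc0 s hs
  have hlog := abs_le.mp hxx
  have hx1 : x' ≤ Real.exp ε * x := by
    rw [← Real.exp_log hx, ← Real.exp_log hx', ← Real.exp_add]
    apply Real.exp_le_exp.mpr
    linarith
  have hx2 : x ≤ Real.exp ε * x' := by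
    rw [← Real.exp_log hx, ← Real.exp_log hx', ← Real.exp_add]
    apply Real.exp_le_exp.mpr
    linarith
  have hcont : ∀ y : ℝ, Continuous (phiF b g y) := fun y =>
    continuous_iff_continuousAt.mpr fun η => (phiF_deriv hb hg y η).continuousAt
  have hδ : 0 ≤ ε / b := by positivity
  have hex : ∀ η : ℝ, ∃ σ : ℝ, |σ - η| ≤ ε / b ∧ phiF b g x σ = phiF b g x' η := by
    intro η
    have h1 : phiF b g x' η ≤ phiF b g x (η + ε / b) := phiF_le hb hg hg0 hε hx1 η
    have h2 : phiF b g x (η - ε / b) ≤ phiF b g x' η := by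
      have := phiF_le hb hg hg0 hε hx2 (η - ε / b)
      rw [sub_add_cancel] at this
      exact this
    have h3 := intermediate_value_Icc (show η - ε / b ≤ η + ε / b by linarith)
      (hcont x).continuousOn
    obtain ⟨σ, hσ, hσ2⟩ := h3 ⟨h2, h1⟩
    exact ⟨σ, abs_le.mpr ⟨by linarith [hσ.1], by linarith [hσ.2]⟩, hσ2⟩
  choose σ hσ1 hσ2 using hex
  have hmono := phiF_strictMono hb hg hg0 hx
  -- continuity of `σ`
  have hσc : ∀ η, ContinuousAt σ η := by
    intro η
    rw [Metric.continuousAt_iff']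
    intro e he
    have h1 : phiF b g x (σ η - e) < phiF b g x' η := by
      rw [← hσ2 η]; exact hmono (by linarith)
    have h2 : phiF b g x' η < phiF b g x (σ η + e) := by
      rw [← hσ2 η]; exact hmono (by linarith)
    have h3 := ((hcont x').continuousAt (x := η)).eventually (lt_mem_nhds h1)
    have h4 := ((hcont x').continuousAt (x := η)).eventually (gt_mem_nhds h2)
    filter_upwards [h3, h4] with y hy1 hy2
    rw [← hσ2 y] at hy1 hy2
    have h5 := hmono.lt_iff_lt.mp hy1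
    have h6 := hmono.lt_iff_lt.mp hy2
    rw [Real.dist_eq, abs_lt]
    constructor <;> linarith
  -- derivative
  have hDx : ∀ η, 0 < phiD b g x (σ η) := fun η => phiD_pos hb hg0 hx _
  have hDx' : ∀ η, 0 < phiD b g x' η := fun η => phiD_pos hb hg0 hx' _
  refine ⟨σ, fun η => phiD b g x' η / phiD b g x (σ η), ?_, ?_, ?_, ?_, hσ1⟩
  · intro η
    rw [phi_form hcg, phi_form hcg]
    exact hσ2 η
  · intro η
    rw [hasDerivAt_iff_tendsto_slope]
    have hd1 := hasDerivAt_iff_tendsto_slope.mp (phiF_deriv hb hg x' η)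
    have hd2 : ContinuousAt (dslope (phiF b g x) (σ η)) (σ η) :=
      continuousAt_dslope_same.mpr (phiF_deriv hb hg x (σ η)).differentiableAt
    have hd3 : Tendsto (fun y => dslope (phiF b g x) (σ η) (σ y)) (𝓝[≠] η)
        (𝓝 (phiD b g x (σ η))) := by
      have h1 : Tendsto (fun y => dslope (phiF b g x) (σ η) (σ y)) (𝓝 η)
          (𝓝 (dslope (phiF b g x) (σ η) (σ η))) := hd2.tendsto.comp (hσc η).tendsto
      rw [dslope_same, (phiF_deriv hb hg x (σ η)).deriv] at h1
      exact h1.mono_left nhdsWithin_le_nhds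
    have hd4 := hd1.div hd3 (hDx η).ne'
    refine hd4.congr' ?_
    filter_upwards [self_mem_nhdsWithin] with y hy
    have hy' : y ≠ η := hy
    have hpos : dslope (phiF b g x) (σ η) (σ y) ≠ 0 := by
      rcases eq_or_ne (σ y) (σ η) with h | h
      · rw [h, dslope_same, (phiF_deriv hb hg x (σ η)).deriv]
        exact (hDx η).ne'
      · rw [dslope_of_ne _ h, slope_def_field]
        apply div_ne_zero
        · intro h0
          exact h (hmono.injective (sub_eq_zero.mp h0))
        · exact sub_ne_zero.mpr h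
    show slope (phiF b g x') η y / dslope (phiF b g x) (σ η) (σ y) = slope σ η y
    rw [div_eq_iff hpos]
    have h1 : (σ y - σ η) • dslope (phiF b g x) (σ η) (σ y) =
        phiF b g x (σ y) - phiF b g x (σ η) := sub_smul_dslope _ _ _
    rw [hσ2 y, hσ2 η, smul_eq_mul] at h1
    rw [slope_def_field, slope_def_field, ← h1]
    ring
  · intro η
    have h1 : phiD b g x (σ η) ≤ Real.exp (2 * ε) * phiD b g x' η :=
      phiD_le hb hg hg0 hx' hε hx2 (by
        have := (abs_le.mp (hσ1 η)).2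
        rw [le_div_iff₀ hb] at this
        linarith)
    show Real.exp (-(2 * ε)) ≤ phiD b g x' η / phiD b g x (σ η)
    rw [le_div_iff₀ (hDx η), Real.exp_neg, inv_mul_le_iff₀ (Real.exp_pos _)]
    exact h1
  · intro η
    have h1 : phiD b g x' η ≤ Real.exp (2 * ε) * phiD b g x (σ η) :=
      phiD_le hb hg hg0 hx hε hx1 (by
        have h2 := (abs_le.mp (hσ1 η)).1
        have h3 : η - σ η ≤ ε / b := by linarith
        rw [le_div_iff₀ hb] at h3
        linarith)
    show phiD b g x' η / phiD b g x (σ η) ≤ Real.exp (2 * ε)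
    rw [div_le_iff₀ (hDx η)]
    exact h1

end Pool.Agent.OYG
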