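import Pool.Agent.OYG.RGS

/-!
RGI: `n` steps of the chain are Lipschitz in total variation, in logarithmic coordinates.

Claim by induction on `m ≤ n`: there is `K` such that for all measurable `g` with `|g| ≤ 1`, all `ε ≥ 0` and all positive
`X, X'` which agree in the coordinates `k` with `(k : ℕ) < n - m` and with `|log X k - log X' k| ≤ ε`:
`|QQ^[m] g X - QQ^[m] g X'| ≤ K ε`. `m = 0`: `X = X'`. Step: `reg_step` with `j = n - m - 1`, `g := QQ^[m] g`,
`L = K (1 + 2n)`; for `ε > 1` use the bound `2` (take `K ≥ 2`).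
-/

open MeasureTheory ProbabilityTheory Set Filter Topology
open scoped ENNReal NNReal

namespace Pool.Agent.OYG

variable {n : ℕ} (μ : Fin (n + 1) → ℝ) (b κ : ℝ) {Wl : Measure (Blk n)}

private theorem rgi_ind (hb : 0 < b) (hκ : 0 < κ) (hW : WProp n Wl) (m : ℕ) (hmn : m ≤ n) :
    ∃ K : ℝ, 0 ≤ K ∧
    ∀ (g : St n → ℝ) (ε : ℝ), Measurable g → (∀ X, |g X| ≤ 1) → 0 ≤ ε →
    ∀ X X' : St n, Pos X → Pos X' → (∀ k : Fin n, (k : ℕ) < n - m → X k = X' k) →
      (∀ k, |Real.log (X k) - Real.log (X' k)| ≤ ε) →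
      |(QQ μ b κ Wl)^[m] g X - (QQ μ b κ Wl)^[m] g X'| ≤ K * ε := by
  induction m with
  | zero =>
    refine ⟨0, le_rfl, ?_⟩
    intro g ε _ _ hε X X' _ _ hag _
    have hXX : X = X' := funext fun k => hag k (by
      have := k.2
      omega)
    rw [hXX, sub_self, abs_zero, zero_mul]
  | succ m ih =>
    obtain ⟨K, hK, hK2⟩ := ih (by omega)
    obtain ⟨C, hC, hst⟩ := reg_step μ b κ hb hκ hW
    refine ⟨C + K * (1 + 2 * n) + 2, by positivity, ?_⟩
    intro g ε hgm hg1 hε X X' hX hX' hag hlog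
    have hQm := measurable_QQ_iter μ b κ hW hgm m
    have hQ1 := abs_QQ_iter_le μ b κ hW hg1 m
    rw [Function.iterate_succ_apply']
    rcases le_or_gt ε 1 with hε1 | hε1
    · have hjn : n - m - 1 < n := by omega
      have h := hst ⟨n - m - 1, hjn⟩ ((QQ μ b κ Wl)^[m] g) (K * (1 + 2 * n)) ε hQm hQ1
        (by positivity) hε hε1 (by
          intro Y Y' hY hY' hk hl
          have h1 := hK2 g ((1 + 2 * n) * ε) hgm hg1 (by positivity) Y Y' hY hY' (by
            intro k hk2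
            exact hk k (by
              show (k : ℕ) ≤ n - m - 1
              omega)) hl
          calc _ ≤ K * ((1 + 2 * n) * ε) := h1
            _ = K * (1 + 2 * n) * ε := by ring) X X' hX hX' (by
          intro k hk
          have hk' : (k : ℕ) < n - m - 1 := hk
          exact hag k (by omega)) hlog
      refine h.trans ?_
      have : (C + K * (1 + 2 * ↑n)) * ε ≤ (C + K * (1 + 2 * ↑n) + 2) * ε :=
        mul_le_mul_of_nonneg_right (by linarith) hε
      exact this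
    · have h1 := abs_QQ_iter_le μ b κ hW hg1 (m + 1) X
      have h2 := abs_QQ_iter_le μ b κ hW hg1 (m + 1) X'
      rw [Function.iterate_succ_apply'] at h1 h2
      have h3 : |QQ μ b κ Wl ((QQ μ b κ Wl)^[m] g) X - QQ μ b κ Wl ((QQ μ b κ Wl)^[m] g) X'| ≤ 2 := by
        refine (abs_sub _ _).trans ?_
        linarith
      have h4 : (0 : ℝ) ≤ C + K * (1 + 2 * n) := by positivity
      calc _ ≤ (2 : ℝ) := h3
        _ ≤ 2 * ε := by linarith
        _ ≤ (C + K * (1 + 2 * ↑n) + 2) * ε := by nlinarith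

theorem reg (hb : 0 < b) (hκ : 0 < κ) (hW : WProp n Wl) : ∃ K : ℝ, 0 ≤ K ∧
    ∀ (g : St n → ℝ) (ε : ℝ), Measurable g → (∀ X, |g X| ≤ 1) → 0 ≤ ε →
    ∀ X X' : St n, Pos X → Pos X' → (∀ k, |Real.log (X k) - Real.log (X' k)| ≤ ε) →
      |(QQ μ b κ Wl)^[n] g X - (QQ μ b κ Wl)^[n] g X'| ≤ K * ε := by
  obtain ⟨K, hK, h⟩ := rgi_ind μ b κ hb hκ hW n le_rfl
  refine ⟨K, hK, ?_⟩
  intro g ε hgm hg1 hε X X' hX hX' hlog
  exact h g ε hgm hg1 hε X X' hX hX' (fun k hk => by omega) hlog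

end Pool.Agent.OYG
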