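import Pool.Agent.OYG.XCO

/-!
XLP: Lipschitz property of the flow in logarithmic coordinates, with respect to the state and the noise.

If `|log X_j - log X'_j| ≤ A` for all `j` and `|v_j(s) - v'_j(s)| ≤ D` on `[0,1]`, then
`|log X_j(t) - log X'_j(t)| ≤ A + 2 b D (j+1)` (coordinate `j` of the flow): by induction
`X_{j+1}(t) ≤ exp (b D) exp (b v'_j(t)) (exp A X'_{j+1}(0) + exp (b D) κ ∫ exp (-b v'_j(s)) exp (A + 2 b D j) X'_j(s))`
and symmetrically.
-/

open MeasureTheory ProbabilityTheory Set Filter Topology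
open scoped ENNReal NNReal

namespace Pool.Agent.OYG

variable {n : ℕ} (μ : Fin (n + 1) → ℝ) (b κ : ℝ)

private theorem xlp_one {v v' : ℕ → ℝ → ℝ} (hv : ∀ j, Continuous (v j)) (hv' : ∀ j, Continuous (v' j))
    (hb : 0 < b) (hκ : 0 < κ) {X0 X0' : ℕ → ℝ} (hX' : ∀ j, 0 < X0' j) {A D : ℝ} (hA0 : 0 ≤ A)
    (hD0 : 0 ≤ D) (hA : ∀ j, X0 j ≤ Real.exp A * X0' j)
    (hD : ∀ j s, 0 ≤ s → s ≤ 1 → |v j s - v' j s| ≤ D) (j : ℕ) :
    ∀ t : ℝ, 0 ≤ t → t ≤ 1 → XX b κ v X0 j t ≤ Real.exp (A + 2 * b * D * j) * XX b κ v' X0' j t := by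
  induction j with
  | zero =>
    intro t _ _
    change (1 : ℝ) ≤ Real.exp (A + 2 * b * D * ((0 : ℕ) : ℝ)) * 1
    rw [mul_one, Nat.cast_zero, mul_zero, add_zero]
    exact Real.one_le_exp hA0
  | succ j ih =>
    intro t h0 h1
    have hc : Continuous (fun s => Real.exp (-(b * v j s)) * XX b κ v X0 j s) :=
      (Real.continuous_exp.comp ((continuous_const.mul (hv j)).neg)).mul (continuous_XX b κ hv X0 j)
    have hc' : Continuous (fun s => Real.exp (-(b * v' j s)) * XX b κ v' X0' j s) :=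
      (Real.continuous_exp.comp ((continuous_const.mul (hv' j)).neg)).mul
        (continuous_XX b κ hv' X0' j)
    have hint : ∫ s in (0 : ℝ)..t, Real.exp (-(b * v j s)) * XX b κ v X0 j s ≤
        ∫ s in (0 : ℝ)..t, Real.exp (b * D + (A + 2 * b * D * j)) *
          (Real.exp (-(b * v' j s)) * XX b κ v' X0' j s) := by
      have hc'' : Continuous (fun s => Real.exp (b * D + (A + 2 * b * D * j)) *
          (Real.exp (-(b * v' j s)) * XX b κ v' X0' j s)) := continuous_const.mul hc'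
      apply intervalIntegral.integral_mono_on h0 (hc.intervalIntegrable _ _)
        (hc''.intervalIntegrable _ _)
      intro s hs
      have hs1 : s ≤ 1 := hs.2.trans h1
      have e1 := ih s hs.1 hs1
      have e2 : Real.exp (-(b * v j s)) ≤ Real.exp (b * D) * Real.exp (-(b * v' j s)) := by
        rw [← Real.exp_add]
        apply Real.exp_le_exp.2
        have := (abs_le.1 (hD j s hs.1 hs1)).1
        nlinarith
      have p1 : 0 ≤ Real.exp (A + 2 * b * D * j) * XX b κ v' X0' j s :=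
        mul_nonneg (Real.exp_pos _).le (XX_pos b κ hv' hκ.le hX' j hs.1).le
      calc Real.exp (-(b * v j s)) * XX b κ v X0 j s
          ≤ Real.exp (-(b * v j s)) * (Real.exp (A + 2 * b * D * j) * XX b κ v' X0' j s) :=
            mul_le_mul_of_nonneg_left e1 (Real.exp_pos _).le
        _ ≤ (Real.exp (b * D) * Real.exp (-(b * v' j s))) *
            (Real.exp (A + 2 * b * D * j) * XX b κ v' X0' j s) :=
            mul_le_mul_of_nonneg_right e2 p1
        _ = _ := by
          rw [Real.exp_add (b * D)]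
          ring
    rw [intervalIntegral.integral_const_mul] at hint
    set I' := ∫ s in (0 : ℝ)..t, Real.exp (-(b * v' j s)) * XX b κ v' X0' j s with hI'
    have hI'0 : 0 ≤ I' := intervalIntegral.integral_nonneg h0 fun s hs =>
      mul_nonneg (Real.exp_pos _).le (XX_pos b κ hv' hκ.le hX' j hs.1).le
    change Real.exp (b * v j t) *
      (X0 j + κ * ∫ s in (0 : ℝ)..t, Real.exp (-(b * v j s)) * XX b κ v X0 j s) ≤
      Real.exp (A + 2 * b * D * ((j + 1 : ℕ) : ℝ)) * (Real.exp (b * v' j t) * (X0' j + κ * I'))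
    have e3 : Real.exp (b * v j t) ≤ Real.exp (b * D) * Real.exp (b * v' j t) := by
      rw [← Real.exp_add]
      apply Real.exp_le_exp.2
      have := (abs_le.1 (hD j t h0 h1)).2
      nlinarith
    have hbD : 0 ≤ b * D := mul_nonneg hb.le hD0
    have hbDj : 0 ≤ b * D * j := mul_nonneg hbD (Nat.cast_nonneg j)
    have e4 : X0 j + κ * ∫ s in (0 : ℝ)..t, Real.exp (-(b * v j s)) * XX b κ v X0 j s ≤
        Real.exp (b * D + (A + 2 * b * D * j)) * (X0' j + κ * I') := by
      have e5 : X0 j ≤ Real.exp (b * D + (A + 2 * b * D * j)) * X0' j := by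
        refine (hA j).trans (mul_le_mul_of_nonneg_right (Real.exp_le_exp.2 ?_) (hX' j).le)
        nlinarith
      have e6 := mul_le_mul_of_nonneg_left hint hκ.le
      nlinarith
    have p2 : 0 ≤ Real.exp (b * D + (A + 2 * b * D * j)) * (X0' j + κ * I') :=
      mul_nonneg (Real.exp_pos _).le (add_nonneg (hX' j).le (mul_nonneg hκ.le hI'0))
    calc Real.exp (b * v j t) *
          (X0 j + κ * ∫ s in (0 : ℝ)..t, Real.exp (-(b * v j s)) * XX b κ v X0 j s)
        ≤ Real.exp (b * v j t) * (Real.exp (b * D + (A + 2 * b * D * j)) * (X0' j + κ * I')) :=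
          mul_le_mul_of_nonneg_left e4 (Real.exp_pos _).le
      _ ≤ (Real.exp (b * D) * Real.exp (b * v' j t)) *
          (Real.exp (b * D + (A + 2 * b * D * j)) * (X0' j + κ * I')) :=
          mul_le_mul_of_nonneg_right e3 p2
      _ = _ := by
        have e7 : A + 2 * b * D * ((j + 1 : ℕ) : ℝ) = b * D + (b * D + (A + 2 * b * D * j)) := by
          push_cast
          ring
        rw [e7, Real.exp_add (b * D) (b * D + (A + 2 * b * D * j))]
        ring

private theorem xlp_half (hb : 0 < b) (hκ : 0 < κ) {X X' : St n} (hX : Pos X) (hX' : Pos X')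
    {w w' : Blk n} {A D : ℝ} (hA : ∀ j, |Real.log (X j) - Real.log (X' j)| ≤ A) (hA0 : 0 ≤ A)
    (hD0 : 0 ≤ D) (hD : ∀ j s, 0 ≤ s → s ≤ 1 → |pv μ w j s - pv μ w' j s| ≤ D) {t : ℝ}
    (h0 : 0 ≤ t) (h1 : t ≤ 1) (j : Fin n) :
    Real.log (flow μ b κ t X w j) ≤ Real.log (flow μ b κ t X' w' j) + (A + 2 * b * D * n) := by
  have key := xlp_one b κ (continuous_pv μ w) (continuous_pv μ w') hb hκ (exs_pos hX') hA0 hD0
    (X0 := exs X) (by
      intro i
      unfold exs
      by_cases h : i < n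
      · rw [dif_pos h, dif_pos h]
        have h2 := (abs_le.1 (hA ⟨i, h⟩)).2
        have h3 : Real.log (X ⟨i, h⟩) ≤ A + Real.log (X' ⟨i, h⟩) := by linarith
        have h4 := Real.exp_le_exp.2 h3
        rwa [Real.exp_log (hX _), Real.exp_add, Real.exp_log (hX' _)] at h4
      · rw [dif_neg h, dif_neg h, mul_one]
        exact Real.one_le_exp hA0) hD (j + 1) t h0 h1
  have p1 : 0 < flow μ b κ t X w j := flow_pos μ b κ hκ.le h0 hX w j
  have p2 : 0 < flow μ b κ t X' w' j := flow_pos μ b κ hκ.le h0 hX' w' j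
  have h5 : flow μ b κ t X w j ≤
      Real.exp (A + 2 * b * D * (((j : ℕ) + 1 : ℕ) : ℝ)) * flow μ b κ t X' w' j := key
  have h6 := Real.log_le_log p1 h5
  rw [Real.log_mul (Real.exp_pos _).ne' p2.ne', Real.log_exp] at h6
  have h7 : (((j : ℕ) + 1 : ℕ) : ℝ) ≤ n := by exact_mod_cast j.isLt
  have h8 : 0 ≤ 2 * b * D := by positivity
  have h9 := mul_le_mul_of_nonneg_left h7 h8
  linarith

theorem flow_lip (hb : 0 < b) (hκ : 0 < κ) {X X' : St n} (hX : Pos X) (hX' : Pos X') {w w' : Blk n}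
    {A D : ℝ} (hA : ∀ j, |Real.log (X j) - Real.log (X' j)| ≤ A) (hA0 : 0 ≤ A) (hD0 : 0 ≤ D)
    (hD : ∀ j s, 0 ≤ s → s ≤ 1 → |pv μ w j s - pv μ w' j s| ≤ D) {t : ℝ} (h0 : 0 ≤ t) (h1 : t ≤ 1)
    (j : Fin n) :
    |Real.log (flow μ b κ t X w j) - Real.log (flow μ b κ t X' w' j)| ≤ A + 2 * b * D * n := by
  have e1 := xlp_half μ b κ hb hκ hX hX' hA hA0 hD0 hD h0 h1 j
  have e2 := xlp_half μ b κ hb hκ hX' hX (fun i => by rw [abs_sub_comm]; exact hA i) hA0 hD0
    (fun i s hs hs' => by rw [abs_sub_comm]; exact hD i s hs hs') h0 h1 j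
  rw [abs_le]
  constructor <;> linarith

end Pool.Agent.OYG
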