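import Pool.Agent.OYG.QME
import Pool.Agent.OYG.XLP
import Pool.Agent.OYG.PHI
import Pool.Agent.OYG.GSH

/-!
RGS: one step of the regularisation (matching of coordinate `j`).

`hW.res` for the line `j.succ` and `F w = g (flow 1 X w)`: `QQ g X = ∫ w, ∫ η, g (flow 1 X (resm j.succ w η)) dγ(η) dWl`,
same for `X'`. Fix `w`. `pv μ (resm j.succ w η) k = pv μ w k` for `k ≠ j` and `pv μ (resm j.succ w η) j s = β(s) + η s`,
`β(s) = pv μ w j s - w_{j+1}(1) s` (`s ∈ [0,1]`). The function `Y(s) = XX b κ (pv μ …) (exs X) j s` does not depend on `η` and is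
the same for `X` and `X'` (agreement below `j`). So coordinate `j` of `flow 1 X (resm … η)` is
`exp (b β(1)) · exp (b η) (X j + ∫_0^1 c(s) exp (-b η s) ds)`, `c(s) = κ exp (-b β(s)) Y(s)`. Take `σ` from `exists_sigma` with `x = X j`, `x' = X' j`:
`flow 1 X (resm … (σ η))` and `flow 1 X' (resm … η)` agree in the coordinates `≤ j` and differ by at most `(1 + 2 n) ε` in
logarithmic coordinates (`flow_lip` with `A = ε`, `D = ε/b`). Hence `|g (…) - g (…)| ≤ L ε`. And
`|∫ g (flow 1 X (resm … η)) dγ - ∫ g (flow 1 X (resm … (σ η))) dγ| ≤ C ε` by `gauss_shift`. (No measurability in `w` of `σ` is needed: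
first bound the inner difference for each `w`, then integrate.)
-/

open MeasureTheory ProbabilityTheory Set Filter Topology
open scoped ENNReal NNReal

namespace Pool.Agent.OYG

variable {n : ℕ} (μ : Fin (n + 1) → ℝ) (b κ : ℝ) {Wl : Measure (Blk n)}

private theorem rgs_XX_congr (b κ : ℝ) {v v' : ℕ → ℝ → ℝ} {X0 X0' : ℕ → ℝ} :
    ∀ j : ℕ, (∀ k, k < j → v k = v' k) → (∀ k, k < j → X0 k = X0' k) →
      XX b κ v X0 j = XX b κ v' X0' j
  | 0 => fun _ _ => rfl
  | j + 1 => fun h1 h2 => by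
    have ih := rgs_XX_congr b κ j (fun k hk => h1 k (Nat.lt_succ_of_lt hk))
      (fun k hk => h2 k (Nat.lt_succ_of_lt hk))
    funext t
    simp only [XX]
    rw [h1 j (Nat.lt_succ_self j), h2 j (Nat.lt_succ_self j), ih]

private theorem rgs_pv_ne (w : Blk n) (j : Fin n) (η : ℝ) (k : ℕ) (hk : k ≠ j) :
    pv μ (resm j.succ w η) k = pv μ w k := by
  funext s
  unfold pv
  by_cases h : k < n
  · rw [dif_pos h, dif_pos h]
    have h1 : (⟨k + 1, by omega⟩ : Fin (n + 1)) ≠ j.succ := by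
      intro h2
      apply hk
      have := congrArg Fin.val h2
      simpa using this
    have h2 : (0 : Fin (n + 1)) ≠ j.succ := (Fin.succ_ne_zero j).symm
    rw [resm, Function.update_of_ne h1, Function.update_of_ne h2]
  · rw [dif_neg h, dif_neg h]

private theorem rgs_pv_eq (w : Blk n) (j : Fin n) (η : ℝ) (s : ℝ) (h0 : 0 ≤ s) (h1 : s ≤ 1) :
    pv μ (resm j.succ w η) j s = pv μ w j s - w j.succ 1 * s + η * s := by
  unfold pv
  rw [dif_pos j.2, dif_pos j.2]
  have h2 : (0 : Fin (n + 1)) ≠ j.succ := (Fin.succ_ne_zero j).symm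
  have h3 : (⟨(j : ℕ) + 1, by omega⟩ : Fin (n + 1)) = j.succ := rfl
  have h4 : ((projIcc (0 : ℝ) 1 zero_le_one s : unitInterval) : ℝ) = s := by
    rw [projIcc_of_mem zero_le_one ⟨h0, h1⟩]
  rw [h3, resm, Function.update_self, Function.update_of_ne h2]
  simp only [ContinuousMap.add_apply, ContinuousMap.smul_apply, smul_eq_mul, idp,
    ContinuousMap.coe_mk]
  rw [h4]
  ring

private theorem rgs_coord (w : Blk n) (j : Fin n) (X : St n) (η : ℝ) :
    flow μ b κ 1 X (resm j.succ w η) j =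
      Real.exp (b * (pv μ w j 1 - w j.succ 1)) * (Real.exp (b * η) * (X j +
        ∫ s in (0 : ℝ)..1, (κ * Real.exp (-(b * (pv μ w j s - w j.succ 1 * s))) *
          XX b κ (pv μ w) (exs X) j s) * Real.exp (-(b * η * s)))) := by
  have h1 : XX b κ (pv μ (resm j.succ w η)) (exs X) j = XX b κ (pv μ w) (exs X) j :=
    rgs_XX_congr b κ _ (fun k hk => rgs_pv_ne μ w j η k (ne_of_lt hk)) (fun _ _ => rfl)
  have hX : exs X j = X j := by
    unfold exs
    rw [dif_pos j.2]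
  show XX b κ (pv μ (resm j.succ w η)) (exs X) ((j : ℕ) + 1) 1 = _
  simp only [XX]
  rw [h1, hX, rgs_pv_eq μ w j η 1 zero_le_one le_rfl]
  have h2 : κ * ∫ s in (0 : ℝ)..1, Real.exp (-(b * pv μ (resm j.succ w η) j s)) *
      XX b κ (pv μ w) (exs X) j s =
      ∫ s in (0 : ℝ)..1, (κ * Real.exp (-(b * (pv μ w j s - w j.succ 1 * s))) *
          XX b κ (pv μ w) (exs X) j s) * Real.exp (-(b * η * s)) := by
    rw [← intervalIntegral.integral_const_mul]
    refine intervalIntegral.integral_congr fun s hs => ?_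
    rw [uIcc_of_le zero_le_one] at hs
    show κ * (Real.exp (-(b * pv μ (resm j.succ w η) j s)) * XX b κ (pv μ w) (exs X) j s) = _
    rw [rgs_pv_eq μ w j η s hs.1 hs.2]
    have h3 : -(b * (pv μ w j s - w j.succ 1 * s + η * s)) =
        -(b * (pv μ w j s - w j.succ 1 * s)) + -(b * η * s) := by ring
    rw [h3, Real.exp_add]
    ring
  rw [h2]
  have h4 : b * (pv μ w j 1 - w j.succ 1 * 1 + η * 1) =
      b * (pv μ w j 1 - w j.succ 1) + b * η := by ring
  rw [h4, Real.exp_add]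
  ring

private theorem rgs_match (hb : 0 < b) (hκ : 0 < κ) (w : Blk n) (j : Fin n) {X X' : St n}
    (hX : Pos X) (hX' : Pos X') (hag : ∀ k, k < j → X k = X' k) {ε : ℝ} (hε : 0 ≤ ε)
    (hlog : ∀ k, |Real.log (X k) - Real.log (X' k)| ≤ ε) :
    ∃ σ σ' : ℝ → ℝ, (∀ η, HasDerivAt σ (σ' η) η) ∧ (∀ η, Real.exp (-(2 * ε)) ≤ σ' η) ∧
    (∀ η, σ' η ≤ Real.exp (2 * ε)) ∧ (∀ η, |σ η - η| ≤ ε / b) ∧
    ∀ η, (∀ k, k ≤ j → flow μ b κ 1 X (resm j.succ w (σ η)) k =
        flow μ b κ 1 X' (resm j.succ w η) k) ∧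
      ∀ k, |Real.log (flow μ b κ 1 X (resm j.succ w (σ η)) k) -
        Real.log (flow μ b κ 1 X' (resm j.succ w η) k)| ≤ (1 + 2 * n) * ε := by
  have hexs : ∀ k, k < (j : ℕ) → exs X k = exs X' k := by
    intro k hk
    have hkn : k < n := lt_trans hk j.2
    unfold exs
    rw [dif_pos hkn, dif_pos hkn]
    exact hag ⟨k, hkn⟩ hk
  have hYY : XX b κ (pv μ w) (exs X) j = XX b κ (pv μ w) (exs X') j :=
    rgs_XX_congr b κ _ (fun _ _ => rfl) hexs
  have hc : ContinuousOn (fun s => κ * Real.exp (-(b * (pv μ w j s - w j.succ 1 * s))) *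
      XX b κ (pv μ w) (exs X) j s) (Icc 0 1) := by
    have h1 := continuous_pv μ w j
    have h2 := continuous_XX b κ (v := pv μ w) (fun k => continuous_pv μ w k) (exs X) j
    exact Continuous.continuousOn (by fun_prop)
  have hc0 : ∀ s ∈ Icc (0 : ℝ) 1, 0 ≤ κ * Real.exp (-(b * (pv μ w j s - w j.succ 1 * s))) *
      XX b κ (pv μ w) (exs X) j s := by
    intro s hs
    have h2 := XX_pos b κ (v := pv μ w) (fun k => continuous_pv μ w k) hκ.le (exs_pos hX) j hs.1
    positivity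
  obtain ⟨σ, σ', h1, h2, h3, h4, h5⟩ := exists_sigma hb hc hc0 (hX j) (hX' j) hε (hlog j)
  refine ⟨σ, σ', h2, h3, h4, h5, fun η => ⟨?_, ?_⟩⟩
  · intro k hk
    rcases lt_or_eq_of_le hk with hk | hk
    · show XX b κ (pv μ (resm j.succ w (σ η))) (exs X) ((k : ℕ) + 1) 1 =
        XX b κ (pv μ (resm j.succ w η)) (exs X') ((k : ℕ) + 1) 1
      rw [rgs_XX_congr b κ ((k : ℕ) + 1) (v := pv μ (resm j.succ w (σ η)))
        (v' := pv μ (resm j.succ w η)) (X0 := exs X) (X0' := exs X')]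
      · intro i hi
        have hi' : i ≠ (j : ℕ) := by
          have : (k : ℕ) < j := hk
          omega
        rw [rgs_pv_ne μ w j _ i hi', rgs_pv_ne μ w j _ i hi']
      · intro i hi
        refine hexs i ?_
        have : (k : ℕ) < j := hk
        omega
    · subst hk
      rw [rgs_coord, rgs_coord, h1 η, ← hYY]
  · intro k
    have hD : ∀ (i : ℕ) s, 0 ≤ s → s ≤ 1 →
        |pv μ (resm j.succ w (σ η)) i s - pv μ (resm j.succ w η) i s| ≤ ε / b := by
      intro i s hs0 hs1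
      by_cases hi : i = (j : ℕ)
      · subst hi
        rw [rgs_pv_eq μ w j _ s hs0 hs1, rgs_pv_eq μ w j _ s hs0 hs1]
        have e : pv μ w j s - w j.succ 1 * s + σ η * s - (pv μ w j s - w j.succ 1 * s + η * s) =
            (σ η - η) * s := by ring
        rw [e, abs_mul, abs_of_nonneg hs0]
        calc |σ η - η| * s ≤ |σ η - η| * 1 := by
              exact mul_le_mul_of_nonneg_left hs1 (abs_nonneg _)
          _ ≤ ε / b := by rw [mul_one]; exact h5 η
      · rw [rgs_pv_ne μ w j _ i hi, rgs_pv_ne μ w j _ i hi, sub_self, abs_zero]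
        positivity
    have h6 := flow_lip μ b κ hb hκ hX hX' hlog hε (by positivity) hD zero_le_one le_rfl k
    refine h6.trans (le_of_eq ?_)
    field_simp

private theorem rgs_inner (A A' σ : ℝ → ℝ) (hA : Measurable A) (hA' : Measurable A')
    (h1 : ∀ y, |A y| ≤ 1) (h1' : ∀ y, |A' y| ≤ 1) (hσ : Measurable σ) {c₁ c₂ : ℝ}
    (h : |∫ η, A (σ η) ∂(gaussianReal 0 1) - ∫ η, A η ∂(gaussianReal 0 1)| ≤ c₁)
    (h2 : ∀ η, |A (σ η) - A' η| ≤ c₂) :
    |∫ η, A η ∂(gaussianReal 0 1) - ∫ η, A' η ∂(gaussianReal 0 1)| ≤ c₁ + c₂ := by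
  have hi1 : Integrable (fun η => A (σ η)) (gaussianReal 0 1) :=
    Integrable.of_bound (hA.comp hσ).aestronglyMeasurable 1
      (Eventually.of_forall fun η => by rw [Real.norm_eq_abs]; exact h1 _)
  have hi2 : Integrable A' (gaussianReal 0 1) :=
    Integrable.of_bound hA'.aestronglyMeasurable 1
      (Eventually.of_forall fun η => by rw [Real.norm_eq_abs]; exact h1' _)
  have hb2 : |(∫ η, A (σ η) ∂(gaussianReal 0 1)) - ∫ η, A' η ∂(gaussianReal 0 1)| ≤ c₂ := by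
    rw [← integral_sub hi1 hi2]
    have h7 := norm_integral_le_of_norm_le_const (μ := gaussianReal 0 1) (C := c₂)
      (f := fun η => A (σ η) - A' η) (Eventually.of_forall fun η => by
      rw [Real.norm_eq_abs]
      exact h2 η)
    rw [Real.norm_eq_abs] at h7
    simpa using h7
  have ha' := abs_le.1 h
  have hb' := abs_le.1 hb2
  rw [abs_le]
  constructor
  · linarith [ha'.1, ha'.2, hb'.1, hb'.2]
  · linarith [ha'.1, ha'.2, hb'.1, hb'.2]

private theorem rgs_outer {E : Type*} [MeasurableSpace E] (W : Measure E) [IsProbabilityMeasure W]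
    (A A' : E × ℝ → ℝ) (hA : Measurable A) (hA' : Measurable A') (h1 : ∀ p, |A p| ≤ 1)
    (h1' : ∀ p, |A' p| ≤ 1) {K : ℝ}
    (h : ∀ w, |∫ η, A (w, η) ∂(gaussianReal 0 1) - ∫ η, A' (w, η) ∂(gaussianReal 0 1)| ≤ K) :
    |∫ w, (∫ η, A (w, η) ∂(gaussianReal 0 1)) ∂W -
      ∫ w, (∫ η, A' (w, η) ∂(gaussianReal 0 1)) ∂W| ≤ K := by
  have hint : ∀ Z : E × ℝ → ℝ, Measurable Z → (∀ p, |Z p| ≤ 1) → Integrable (fun w =>
      ∫ η, Z (w, η) ∂(gaussianReal 0 1)) W := by
    intro Z hZ hZ1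
    refine Integrable.of_bound ?_ 1 ?_
    · exact (hZ.stronglyMeasurable.integral_prod_right').aestronglyMeasurable
    · refine Eventually.of_forall fun w => ?_
      have h8 := norm_integral_le_of_norm_le_const (μ := gaussianReal 0 1) (C := 1)
        (f := fun η => Z (w, η)) (Eventually.of_forall fun η => by
          rw [Real.norm_eq_abs]; exact hZ1 _)
      simpa using h8
  rw [← integral_sub (hint A hA h1) (hint A' hA' h1')]
  have h9 := norm_integral_le_of_norm_le_const (μ := W) (C := K)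
    (f := fun w => (∫ η, A (w, η) ∂(gaussianReal 0 1)) - ∫ η, A' (w, η) ∂(gaussianReal 0 1))
    (Eventually.of_forall fun w => by rw [Real.norm_eq_abs]; exact h w)
  rw [Real.norm_eq_abs] at h9
  simpa using h9

private theorem rgs_meas {g : St n → ℝ} (hgm : Measurable g) (Z : St n) :
    Measurable fun w : Blk n => g (flow μ b κ 1 Z w) := by
  have h : Measurable fun w : Blk n => flow μ b κ 1 Z w :=
    (measurable_flow μ b κ 1).comp (measurable_prodMk_left (x := Z))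
  exact hgm.comp h

private theorem rgs_meas2 {g : St n → ℝ} (hgm : Measurable g) (Z : St n) (i : Fin (n + 1)) :
    Measurable fun p : Blk n × ℝ => g (flow μ b κ 1 Z (resm i p.1 p.2)) := by
  have h1 := rgs_meas μ b κ hgm Z
  revert h1
  generalize hA : (fun w : Blk n => g (flow μ b κ 1 Z w)) = A
  intro h1
  have h2 : (fun p : Blk n × ℝ => g (flow μ b κ 1 Z (resm i p.1 p.2))) =
      fun p => A (resm i p.1 p.2) := by
    rw [← hA]
  rw [h2]
  exact h1.comp (measurable_resm i)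

private theorem rgs_meas3 {g : St n → ℝ} (hgm : Measurable g) (Z : St n) (i : Fin (n + 1))
    (w : Blk n) : Measurable fun η : ℝ => g (flow μ b κ 1 Z (resm i w η)) := by
  have h1 := rgs_meas2 μ b κ hgm Z i
  revert h1
  generalize hA : (fun p : Blk n × ℝ => g (flow μ b κ 1 Z (resm i p.1 p.2))) = A
  intro h1
  have h2 : (fun η : ℝ => g (flow μ b κ 1 Z (resm i w η))) = fun η => A (w, η) := by
    rw [← hA]
  rw [h2]
  exact h1.comp measurable_prodMk_left

private theorem rgs_QQ (hW : WProp n Wl) {g : St n → ℝ} (hgm : Measurable g)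
    (hg1 : ∀ X, |g X| ≤ 1) (Z : St n) (i : Fin (n + 1)) : QQ μ b κ Wl g Z =
      ∫ w, (∫ η, g (flow μ b κ 1 Z (resm i w η)) ∂(gaussianReal 0 1)) ∂Wl := by
  have h1 := rgs_meas μ b κ hgm Z
  have h3 : ∀ w : Blk n, |g (flow μ b κ 1 Z w)| ≤ 1 := fun w => hg1 _
  show ∫ w, g (flow μ b κ 1 Z w) ∂Wl = _
  exact hW.res i (fun w => g (flow μ b κ 1 Z w)) h1 h3

private theorem rgs_one {g : St n → ℝ} (hgm : Measurable g) (hg1 : ∀ X, |g X| ≤ 1) (w : Blk n)
    (j : Fin n) (X X' : St n) {σ : ℝ → ℝ} (hσ : Measurable σ) {c₁ c₂ : ℝ}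
    (h : |∫ η, g (flow μ b κ 1 X (resm j.succ w (σ η))) ∂(gaussianReal 0 1) -
      ∫ η, g (flow μ b κ 1 X (resm j.succ w η)) ∂(gaussianReal 0 1)| ≤ c₁)
    (h2 : ∀ η, |g (flow μ b κ 1 X (resm j.succ w (σ η))) -
      g (flow μ b κ 1 X' (resm j.succ w η))| ≤ c₂) :
    |∫ η, g (flow μ b κ 1 X (resm j.succ w η)) ∂(gaussianReal 0 1) -
      ∫ η, g (flow μ b κ 1 X' (resm j.succ w η)) ∂(gaussianReal 0 1)| ≤ c₁ + c₂ := by
  have h1 := rgs_meas3 μ b κ hgm X j.succ w
  have h1' := rgs_meas3 μ b κ hgm X' j.succ w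
  have h3 : ∀ η, |g (flow μ b κ 1 X (resm j.succ w η))| ≤ 1 := fun _ => hg1 _
  have h3' : ∀ η, |g (flow μ b κ 1 X' (resm j.succ w η))| ≤ 1 := fun _ => hg1 _
  revert h h1 h1' h2 h3 h3'
  generalize hA : (fun η : ℝ => g (flow μ b κ 1 X (resm j.succ w η))) = A
  generalize hA' : (fun η : ℝ => g (flow μ b κ 1 X' (resm j.succ w η))) = A'
  have e1 : ∀ η, g (flow μ b κ 1 X (resm j.succ w η)) = A η := fun η => by rw [← hA]
  have e2 : ∀ η, g (flow μ b κ 1 X' (resm j.succ w η)) = A' η := fun η => by rw [← hA']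
  simp only [e1, e2]
  intro h h2 h1 h1' h3 h3'
  exact rgs_inner A A' σ h1 h1' h3 h3' hσ h h2

theorem reg_step (hb : 0 < b) (hκ : 0 < κ) (hW : WProp n Wl) : ∃ C : ℝ, 0 ≤ C ∧
    ∀ (j : Fin n) (g : St n → ℝ) (L ε : ℝ), Measurable g → (∀ X, |g X| ≤ 1) → 0 ≤ L → 0 ≤ ε → ε ≤ 1 →
    (∀ Y Y' : St n, Pos Y → Pos Y' → (∀ k, k ≤ j → Y k = Y' k) →
      (∀ k, |Real.log (Y k) - Real.log (Y' k)| ≤ (1 + 2 * n) * ε) → |g Y - g Y'| ≤ L * ε) →
    ∀ X X' : St n, Pos X → Pos X' → (∀ k, k < j → X k = X' k) →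
      (∀ k, |Real.log (X k) - Real.log (X' k)| ≤ ε) →
      |QQ μ b κ Wl g X - QQ μ b κ Wl g X'| ≤ (C + L) * ε := by
  have hprob := hW.prob
  obtain ⟨C, hC, hgs⟩ := gauss_shift hb
  refine ⟨C, hC, ?_⟩
  intro j g L ε hgm hg1 hL hε hε1 hlip X X' hX hX' hag hlog
  rw [rgs_QQ μ b κ hW hgm hg1 X j.succ, rgs_QQ μ b κ hW hgm hg1 X' j.succ]
  have hin : ∀ w : Blk n, |(∫ η, g (flow μ b κ 1 X (resm j.succ w η)) ∂(gaussianReal 0 1)) -
      ∫ η, g (flow μ b κ 1 X' (resm j.succ w η)) ∂(gaussianReal 0 1)| ≤ (C + L) * ε := by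
    intro w
    obtain ⟨σ, σ', h2, h3, h4, h5, h6⟩ := rgs_match μ b κ hb hκ w j hX hX' hag hε hlog
    have hG := rgs_meas3 μ b κ hgm X j.succ w
    have hG1 : ∀ η : ℝ, |g (flow μ b κ 1 X (resm j.succ w η))| ≤ 1 := fun η => hg1 _
    have hσc : Continuous σ := continuous_iff_continuousAt.2 fun η => (h2 η).continuousAt
    have ha := hgs ε σ σ' (fun η => g (flow μ b κ 1 X (resm j.succ w η))) hε hε1 h2 h3 h4 h5 hG hG1
    have h7 : ∀ η, |g (flow μ b κ 1 X (resm j.succ w (σ η))) -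
      g (flow μ b κ 1 X' (resm j.succ w η))| ≤ L * ε := fun η =>
      hlip _ _ (flow_pos μ b κ hκ.le zero_le_one hX _)
          (flow_pos μ b κ hκ.le zero_le_one hX' _) (h6 η).1 (h6 η).2
    rw [add_mul]
    exact rgs_one μ b κ hgm hg1 w j X X' hσc.measurable ha h7
  have hF := rgs_meas2 μ b κ hgm X j.succ
  have hF' := rgs_meas2 μ b κ hgm X' j.succ
  have hF1 : ∀ p : Blk n × ℝ, |g (flow μ b κ 1 X (resm j.succ p.1 p.2))| ≤ 1 := fun _ => hg1 _
  have hF1' : ∀ p : Blk n × ℝ, |g (flow μ b κ 1 X' (resm j.succ p.1 p.2))| ≤ 1 := fun _ => hg1 _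
  exact rgs_outer Wl (fun p => g (flow μ b κ 1 X (resm j.succ p.1 p.2)))
    (fun p => g (flow μ b κ 1 X' (resm j.succ p.1 p.2))) hF hF' hF1 hF1' hin

end Pool.Agent.OYG
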