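import Pool.Agent.OYG.RGI
import Pool.Agent.OYG.MOM
import Pool.Agent.OYG.QCP

/-!
UPB: contraction in total variation of the chain started from two states.

`g₁ = QQ^[n] g`: by `reg` and `|g₁| ≤ 1`, `|g₁ Y - g₁ Y'| ≤ (K + 2) Σ_j min 1 |log Y j - log Y' j|` (if all
`|log Y j - log Y' j| ≤ 1` use `ε = max`; otherwise the sum is at least one). `QQ_iter_le` with `N = 1` and `pa_last`:
`|QQ g₁ Y - QQ g₁ Y'| ≤ C Σ_i |Y i - Y' i|^θ`. `QQ_iter_le` again with `N` steps and `pai`. Finally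
`|x - y|^θ ≤ x^θ + y^θ` for positive `x, y`. `QQ^[N + (n+1)] g = QQ^[N] (QQ (QQ^[n] g))`.
-/

open MeasureTheory ProbabilityTheory Set Filter Topology
open scoped ENNReal NNReal

namespace Pool.Agent.OYG

variable {n : ℕ} (μ : Fin (n + 1) → ℝ) (b κ : ℝ) {Wl : Measure (Blk n)}

private theorem upb_rpow {x y θ : ℝ} (hx : 0 < x) (hy : 0 < y) (h0 : 0 < θ) :
    |x - y| ^ θ ≤ x ^ θ + y ^ θ := by
  rcases le_total x y with h | h
  · have h1 : |x - y| ≤ y := by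
      rw [abs_sub_comm, abs_of_nonneg (by linarith)]; linarith
    have h2 : |x - y| ^ θ ≤ y ^ θ := Real.rpow_le_rpow (abs_nonneg _) h1 h0.le
    have h3 : 0 ≤ x ^ θ := Real.rpow_nonneg hx.le _
    linarith
  · have h1 : |x - y| ≤ x := by
      rw [abs_of_nonneg (by linarith)]; linarith
    have h2 : |x - y| ^ θ ≤ x ^ θ := Real.rpow_le_rpow (abs_nonneg _) h1 h0.le
    have h3 : 0 ≤ y ^ θ := Real.rpow_nonneg hy.le _
    linarith

private theorem upb_first (hb : 0 < b) (hκ : 0 < κ) (hW : WProp n Wl) : ∃ K : ℝ, 0 ≤ K ∧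
    ∀ (g : St n → ℝ), Measurable g → (∀ X, |g X| ≤ 1) →
    ∀ X X' : St n, Pos X → Pos X' →
      |(QQ μ b κ Wl)^[n] g X - (QQ μ b κ Wl)^[n] g X'| ≤
        K * ∑ j, min 1 |Real.log (X j) - Real.log (X' j)| := by
  obtain ⟨K, hK, hreg⟩ := reg μ b κ hb hκ hW
  refine ⟨K + 2, by linarith, fun g hg hg1 X X' hX hX' => ?_⟩
  by_cases hall : ∀ j, |Real.log (X j) - Real.log (X' j)| ≤ 1
  · have hs : ∑ j, min 1 |Real.log (X j) - Real.log (X' j)| =
        ∑ j, |Real.log (X j) - Real.log (X' j)| :=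
      Finset.sum_congr rfl fun j _ => min_eq_right (hall j)
    rw [hs]
    have hnn : 0 ≤ ∑ j, |Real.log (X j) - Real.log (X' j)| :=
      Finset.sum_nonneg fun j _ => abs_nonneg _
    have := hreg g (∑ j, |Real.log (X j) - Real.log (X' j)|) hg hg1 hnn X X' hX hX' (fun k =>
      Finset.single_le_sum (f := fun j => |Real.log (X j) - Real.log (X' j)|)
        (fun j _ => abs_nonneg _) (Finset.mem_univ k))
    nlinarith
  · push Not at hall
    obtain ⟨j, hj⟩ := hall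
    have hs : 1 ≤ ∑ j, min 1 |Real.log (X j) - Real.log (X' j)| := by
      have h1 : min 1 |Real.log (X j) - Real.log (X' j)| ≤
          ∑ j, min 1 |Real.log (X j) - Real.log (X' j)| :=
        Finset.single_le_sum (f := fun j => min 1 |Real.log (X j) - Real.log (X' j)|)
          (fun j _ => le_min zero_le_one (abs_nonneg _)) (Finset.mem_univ j)
      rwa [min_eq_left hj.le] at h1
    have a1 := abs_QQ_iter_le μ b κ hW hg1 n X
    have a2 := abs_QQ_iter_le μ b κ hW hg1 n X'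
    have a3 : |(QQ μ b κ Wl)^[n] g X - (QQ μ b κ Wl)^[n] g X'| ≤ 2 := by
      rw [abs_le] at a1 a2 ⊢
      constructor <;> linarith [a1.1, a1.2, a2.1, a2.2]
    nlinarith

private theorem upb_ofReal_sum {ι : Type} (s : Finset ι) (f : ι → ℝ) (hf : ∀ i, 0 ≤ f i) :
    ENNReal.ofReal (∑ i ∈ s, f i) = ∑ i ∈ s, ENNReal.ofReal (f i) :=
  ENNReal.ofReal_sum_of_nonneg fun i _ => hf i

private theorem upb_second (hb : 0 < b) (hκ : 0 < κ) (hW : WProp n Wl) {θ : ℝ} (h0 : 0 < θ)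
    (h1 : θ ≤ 1) : ∃ K : ℝ, 0 ≤ K ∧
    ∀ (g : St n → ℝ), Measurable g → (∀ X, |g X| ≤ 1) →
    ∀ p : St n × St n, Pos p.1 → Pos p.2 →
      ENNReal.ofReal |(QQ μ b κ Wl)^[n + 1] g p.1 - (QQ μ b κ Wl)^[n + 1] g p.2| ≤
        ENNReal.ofReal K * ∑ j, ENNReal.ofReal (|p.1 j - p.2 j| ^ θ) := by
  obtain ⟨K, hK, hf⟩ := upb_first μ b κ hb hκ hW
  obtain ⟨C, hC, hl⟩ := pa_last μ b κ hb hκ hW h0 h1
  refine ⟨K * (n * C), by positivity, fun g hg hg1 p hp1 hp2 => ?_⟩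
  have hD := invD_pos μ b κ (n := n) hκ.le
  have e1 : (QQ μ b κ Wl)^[n + 1] g = (QQ μ b κ Wl)^[1] ((QQ μ b κ Wl)^[n] g) := by
    rw [← Function.iterate_add_apply, Nat.add_comm 1 n]
  have hmj : ∀ j : Fin n, Measurable (fun q : St n × St n =>
      ENNReal.ofReal (min 1 |Real.log (q.1 j) - Real.log (q.2 j)|)) := by
    intro j
    have m1 : Measurable fun q : St n × St n => q.1 j := (measurable_pi_apply j).comp measurable_fst
    have m2 : Measurable fun q : St n × St n => q.2 j := (measurable_pi_apply j).comp measurable_snd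
    have m3 : Measurable fun q : St n × St n => Real.log (q.1 j) - Real.log (q.2 j) :=
      (Real.measurable_log.comp m1).sub (Real.measurable_log.comp m2)
    have m4 : Measurable fun q : St n × St n => |Real.log (q.1 j) - Real.log (q.2 j)| :=
      measurable_abs.comp m3
    exact ENNReal.measurable_ofReal.comp (measurable_const.min m4)
  have hh : ∀ q ∈ {p : St n × St n | Pos p.1 ∧ Pos p.2},
      ENNReal.ofReal |(QQ μ b κ Wl)^[n] g q.1 - (QQ μ b κ Wl)^[n] g q.2| ≤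
        ENNReal.ofReal K * ∑ j, ENNReal.ofReal (min 1 |Real.log (q.1 j) - Real.log (q.2 j)|) := by
    intro q hq
    rw [← upb_ofReal_sum _ _ (fun j => le_min zero_le_one (abs_nonneg _)),
      ← ENNReal.ofReal_mul hK]
    exact ENNReal.ofReal_le_ofReal (hf g hg hg1 q.1 q.2 hq.1 hq.2)
  have st := QQ_iter_le μ b κ hW hD (measurable_QQ_iter μ b κ hW hg n)
    (fun X => abs_QQ_iter_le μ b κ hW hg1 n X) hh 1 (p := p) ⟨hp1, hp2⟩
  rw [e1]
  refine st.trans ?_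
  rw [Qp_iter_mul μ b κ hW (Finset.measurable_sum _ fun j _ => hmj j),
    Qp_iter_sum μ b κ hW Finset.univ hmj]
  have st2 : ∑ j : Fin n, (Qp μ b κ Wl)^[1]
      (fun q => ENNReal.ofReal (min 1 |Real.log (q.1 j) - Real.log (q.2 j)|)) p ≤
      ∑ j : Fin n, ENNReal.ofReal C * ∑ i, ENNReal.ofReal (|p.1 i - p.2 i| ^ θ) :=
    Finset.sum_le_sum fun j _ => hl p hp1 hp2 j
  refine (mul_le_mul_right st2 _).trans ?_
  rw [Finset.sum_const, Finset.card_univ, Fintype.card_fin, nsmul_eq_mul, ← mul_assoc, ← mul_assoc,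
    ENNReal.ofReal_mul hK, ENNReal.ofReal_mul (Nat.cast_nonneg n), ENNReal.ofReal_natCast,
    ← mul_assoc]

theorem upb (hb : 0 < b) (hκ : 0 < κ) (hW : WProp n Wl) {θ m : ℝ} (h0 : 0 < θ) (h1 : θ ≤ 1)
    (hm : ∀ j : Fin n, m ≤ μ 0 - μ j.succ) :
    ∃ C : ℝ, 0 ≤ C ∧ ∀ (g : St n → ℝ), Measurable g → (∀ X, |g X| ≤ 1) →
    ∀ (N : ℕ) (X X' : St n), Pos X → Pos X' →
      |(QQ μ b κ Wl)^[N + (n + 1)] g X - (QQ μ b κ Wl)^[N + (n + 1)] g X'| ≤
        C * (1 + N) ^ n * Real.exp (-(θ * b * m - θ ^ 2 * b ^ 2)) ^ N *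
          ∑ i, (X i ^ θ + X' i ^ θ) := by
  obtain ⟨K, hK, hsec⟩ := upb_second μ b κ hb hκ hW h0 h1
  obtain ⟨C, hC, hpai⟩ := pai μ b κ hb hκ hW h0 h1 hm
  refine ⟨K * (n * C), by positivity, fun g hg hg1 N X X' hX hX' => ?_⟩
  have hD := invD_pos μ b κ (n := n) hκ.le
  have hmj : ∀ j : Fin n, Measurable (fun q : St n × St n =>
      ENNReal.ofReal (|q.1 j - q.2 j| ^ θ)) := by
    intro j
    have m1 : Measurable fun q : St n × St n => q.1 j := (measurable_pi_apply j).comp measurable_fst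
    have m2 : Measurable fun q : St n × St n => q.2 j := (measurable_pi_apply j).comp measurable_snd
    exact ENNReal.measurable_ofReal.comp ((measurable_abs.comp (m1.sub m2)).pow_const θ)
  rw [Function.iterate_add_apply]
  have st := QQ_iter_le μ b κ hW hD (measurable_QQ_iter μ b κ hW hg (n + 1))
    (fun X => abs_QQ_iter_le μ b κ hW hg1 (n + 1) X)
    (h := fun q => ENNReal.ofReal K * ∑ j, ENNReal.ofReal (|q.1 j - q.2 j| ^ θ))
    (fun q hq => hsec g hg hg1 q hq.1 hq.2) N (p := (X, X')) ⟨hX, hX'⟩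
  rw [Qp_iter_mul μ b κ hW (Finset.measurable_sum _ fun j _ => hmj j),
    Qp_iter_sum μ b κ hW Finset.univ hmj] at st
  have st2 : ∑ j : Fin n, (Qp μ b κ Wl)^[N]
      (fun q => ENNReal.ofReal (|q.1 j - q.2 j| ^ θ)) (X, X') ≤
      ∑ j : Fin n, ENNReal.ofReal
        (C * (1 + N) ^ n * Real.exp (-(θ * b * m - θ ^ 2 * b ^ 2)) ^ N) *
          ∑ i, ENNReal.ofReal (|X i - X' i| ^ θ) :=
    Finset.sum_le_sum fun j _ => hpai (X, X') hX hX' j N
  have st3 := st.trans (mul_le_mul_right st2 _)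
  have hnn : ∀ i : Fin n, 0 ≤ |X i - X' i| ^ θ := fun i => Real.rpow_nonneg (abs_nonneg _) _
  have hsn : 0 ≤ ∑ i, |X i - X' i| ^ θ := Finset.sum_nonneg fun i _ => hnn i
  have hE : 0 ≤ C * (1 + N : ℝ) ^ n * Real.exp (-(θ * b * m - θ ^ 2 * b ^ 2)) ^ N := by positivity
  rw [Finset.sum_const, Finset.card_univ, Fintype.card_fin, nsmul_eq_mul,
    ← upb_ofReal_sum _ _ hnn, ← ENNReal.ofReal_mul hE, ← ENNReal.ofReal_natCast,
    ← ENNReal.ofReal_mul (Nat.cast_nonneg n), ← ENNReal.ofReal_mul hK,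
    ENNReal.ofReal_le_ofReal_iff (mul_nonneg hK (mul_nonneg (Nat.cast_nonneg n)
      (mul_nonneg hE hsn)))] at st3
  refine st3.trans ?_
  have hsum : ∑ i, |X i - X' i| ^ θ ≤ ∑ i, (X i ^ θ + X' i ^ θ) :=
    Finset.sum_le_sum fun i _ => upb_rpow (hX i) (hX' i) h0
  calc K * ((n : ℝ) * (C * (1 + N : ℝ) ^ n * Real.exp (-(θ * b * m - θ ^ 2 * b ^ 2)) ^ N *
        ∑ i, |X i - X' i| ^ θ))
      = (K * (n * C) * (1 + N : ℝ) ^ n * Real.exp (-(θ * b * m - θ ^ 2 * b ^ 2)) ^ N) *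
        ∑ i, |X i - X' i| ^ θ := by ring
    _ ≤ (K * (n * C) * (1 + N : ℝ) ^ n * Real.exp (-(θ * b * m - θ ^ 2 * b ^ 2)) ^ N) *
        ∑ i, (X i ^ θ + X' i ^ θ) := mul_le_mul_of_nonneg_left hsum (by positivity)

end Pool.Agent.OYG
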