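import Pool.Agent.OYG.STM
import Pool.Agent.OYG.UPB

/-!
STA: convergence of the chain to the stationary distribution.

`∫ g dν = ∫ QQ^[N + (n+1)] g dν` (`stat_QQ`), so
`QQ^[N+(n+1)] g X - ∫ g dν = ∫ (QQ^[N+(n+1)] g X - QQ^[N+(n+1)] g X') dν(X')`, bounded with `upb` by
`C (1+N)^n r^N ∫ Σ_i (X i ^ θ + X' i ^ θ) dν(X')`; the moments `∫ X' i ^ θ dν` are finite (`stat_mom`). `norm_integral_le_of_norm_le` or
`abs_integral_le_integral_abs` and `integral_mono_ae` (`ν`-almost all `X'` are positive).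
-/

open MeasureTheory ProbabilityTheory Set Filter Topology
open scoped ENNReal NNReal

namespace Pool.Agent.OYG

variable {n : ℕ} (μ : Fin (n + 1) → ℝ) (b κ : ℝ) {Wl : Measure (Blk n)}

theorem chain_conv (hb : 0 < b) (hκ : 0 < κ) (hW : WProp n Wl) {ν : Measure (St n)}
    (hν : StatQ μ b κ Wl ν) {θ m : ℝ} (h0 : 0 < θ) (h1 : θ ≤ 1)
    (hm : ∀ j : Fin n, m ≤ μ 0 - μ j.succ) (hf : 0 < θ * b * m - θ ^ 2 * b ^ 2) :
    ∃ C : ℝ, 0 ≤ C ∧ ∀ g : St n → ℝ, Measurable g → (∀ X, |g X| ≤ 1) → ∀ (N : ℕ) (X : St n), Pos X →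
      |(QQ μ b κ Wl)^[N + (n + 1)] g X - ∫ Y, g Y ∂ν| ≤
        C * (1 + N) ^ n * Real.exp (-(θ * b * m - θ ^ 2 * b ^ 2)) ^ N * (1 + ∑ i, X i ^ θ) := by
  obtain ⟨C, hC, hup⟩ := upb μ b κ hb hκ hW (θ := θ) (m := m) h0 h1 hm
  have := hν.prob
  have hint : ∀ i : Fin n, Integrable (fun Y : St n => Y i ^ θ) ν := by
    intro i
    refine ⟨((measurable_pi_apply i).pow_const θ).aestronglyMeasurable, ?_⟩
    rw [hasFiniteIntegral_iff_ofReal]
    · exact stat_mom μ b κ hb hκ hW hν h0 h1 hm hf i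
    · filter_upwards [hν.pos] with Y hY
      exact Real.rpow_nonneg (hY i).le θ
  obtain ⟨M, hM⟩ : ∃ M : ℝ, M = ∑ i : Fin n, ∫ Y : St n, Y i ^ θ ∂ν := ⟨_, rfl⟩
  have hM0 : 0 ≤ M := by
    rw [hM]
    refine Finset.sum_nonneg fun i _ => integral_nonneg_of_ae ?_
    filter_upwards [hν.pos] with Y hY
    exact Real.rpow_nonneg (hY i).le θ
  refine ⟨C * (1 + M), by positivity, ?_⟩
  intro g hg hg1 N X hX
  obtain ⟨c, hc⟩ : ∃ c : ℝ, c = C * (1 + N) ^ n * Real.exp (-(θ * b * m - θ ^ 2 * b ^ 2)) ^ N :=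
    ⟨_, rfl⟩
  have hc0 : 0 ≤ c := by
    rw [hc]
    positivity
  obtain ⟨G, hG⟩ : ∃ G : St n → ℝ, G = (QQ μ b κ Wl)^[N + (n + 1)] g := ⟨_, rfl⟩
  have hGint : Integrable G ν := by
    rw [hG]
    refine Integrable.of_bound (C := 1)
      (measurable_QQ_iter μ b κ hW hg _).aestronglyMeasurable
      (Filter.Eventually.of_forall fun Y => ?_)
    rw [Real.norm_eq_abs]
    exact abs_QQ_iter_le μ b κ hW hg1 _ Y
  have e1 : G X - ∫ Y, g Y ∂ν = ∫ Y, (G X - G Y) ∂ν := by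
    rw [integral_sub (integrable_const _) hGint, ← stat_QQ μ b κ hW hν hg hg1 (N + (n + 1)), hG]
    simp
  rw [← hG, e1]
  have e2 : ∀ᵐ Y ∂ν, ‖G X - G Y‖ ≤ c * ∑ i, (X i ^ θ + Y i ^ θ) := by
    filter_upwards [hν.pos] with Y hY
    rw [Real.norm_eq_abs, hG, hc]
    exact hup g hg hg1 N X Y hX hY
  have hI : Integrable (fun Y : St n => c * ∑ i, (X i ^ θ + Y i ^ θ)) ν := by
    refine Integrable.const_mul (integrable_finsetSum _ fun i _ => ?_) c
    exact (integrable_const _).add (hint i)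
  have e3 := norm_integral_le_of_norm_le hI e2
  rw [Real.norm_eq_abs] at e3
  refine e3.trans ?_
  have e4 : ∫ Y, c * ∑ i, (X i ^ θ + Y i ^ θ) ∂ν = c * (∑ i, X i ^ θ + M) := by
    have hadd : ∀ i ∈ (Finset.univ : Finset (Fin n)),
        Integrable (fun Y : St n => X i ^ θ + Y i ^ θ) ν :=
      fun i _ => (integrable_const _).add (hint i)
    rw [integral_const_mul, integral_finsetSum _ hadd]
    congr 1
    rw [hM, ← Finset.sum_add_distrib]
    refine Finset.sum_congr rfl fun i _ => ?_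
    rw [integral_add (integrable_const _) (hint i)]
    simp
  rw [e4]
  have hX0 : 0 ≤ ∑ i, X i ^ θ := Finset.sum_nonneg fun i _ => Real.rpow_nonneg (hX i).le θ
  have e5 : c * (∑ i, X i ^ θ + M) ≤ c * ((1 + M) * (1 + ∑ i, X i ^ θ)) := by
    apply mul_le_mul_of_nonneg_left _ hc0
    nlinarith [mul_nonneg hM0 hX0]
  refine e5.trans (le_of_eq ?_)
  rw [hc]
  ring

end Pool.Agent.OYG
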