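import Pool.Agent.OYG.STN
import Pool.Agent.OYG.MOM

/-!
STM: moments of the stationary distribution.

For `K : ℕ` put `f_K X = min (ofReal (X j ^ θ)) K`. `∫⁻ f_K dν = ∫⁻ Qp^[N] (f_K ∘ fst) (X, X) dν` (`stat_Qp`), and for positive `X`
`Qp^[N] (f_K ∘ fst) (X, X) ≤ min K (C + C (1+N)^n r^N S(X))`, `S(X) = Σ_i ofReal (X i ^ θ) < ∞` (`Qp_iter_mono`, `Qp_iter_const`, `mom`), `r < 1`.
Let `N → ∞` (dominated convergence, `(1+N)^n r^N → 0`): `∫⁻ f_K dν ≤ C`. Then `K → ∞` by monotone convergence: `∫⁻ ofReal (X j ^ θ) dν ≤ C`.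
-/

open MeasureTheory ProbabilityTheory Set Filter Topology
open scoped ENNReal NNReal

namespace Pool.Agent.OYG

variable {n : ℕ} (μ : Fin (n + 1) → ℝ) (b κ : ℝ) {Wl : Measure (Blk n)}

private theorem stm_coef (n : ℕ) (C r : ℝ) (hr0 : 0 < r) (hr1 : r < 1) :
    Tendsto (fun N : ℕ => ENNReal.ofReal (C * (1 + N) ^ n * r ^ N)) atTop (𝓝 0) := by
  have h1 : Tendsto (fun N : ℕ => (N : ℝ) ^ n * r ^ N) atTop (𝓝 0) :=
    tendsto_pow_const_mul_const_pow_of_abs_lt_one n (by rw [abs_of_pos hr0]; exact hr1)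
  have h2 : Tendsto (fun N : ℕ => ((N + 1 : ℕ) : ℝ) ^ n * r ^ (N + 1)) atTop (𝓝 0) :=
    (tendsto_add_atTop_iff_nat 1).2 h1
  have h3 : Tendsto (fun N : ℕ => (C / r) * (((N + 1 : ℕ) : ℝ) ^ n * r ^ (N + 1))) atTop
      (𝓝 ((C / r) * 0)) := h2.const_mul _
  have h4 : (fun N : ℕ => (C / r) * (((N + 1 : ℕ) : ℝ) ^ n * r ^ (N + 1))) =
      fun N : ℕ => C * (1 + N) ^ n * r ^ N := by
    funext N
    push_cast
    rw [pow_succ]
    field_simp
    ring
  rw [h4, mul_zero] at h3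
  have h5 := (ENNReal.continuous_ofReal.tendsto 0).comp h3
  rw [ENNReal.ofReal_zero] at h5
  exact h5

theorem stat_mom (hb : 0 < b) (hκ : 0 < κ) (hW : WProp n Wl) {ν : Measure (St n)}
    (hν : StatQ μ b κ Wl ν) {θ m : ℝ} (h0 : 0 < θ) (h1 : θ ≤ 1)
    (hm : ∀ j : Fin n, m ≤ μ 0 - μ j.succ) (hf : 0 < θ * b * m - θ ^ 2 * b ^ 2) (j : Fin n) :
    ∫⁻ X, ENNReal.ofReal (X j ^ θ) ∂ν < ∞ := by
  obtain ⟨C, hC0, hC⟩ := mom μ b κ hb hκ hW h0 h1 hm hf
  have := hν.prob
  have hr0 : 0 < Real.exp (-(θ * b * m - θ ^ 2 * b ^ 2)) := Real.exp_pos _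
  have hr1 : Real.exp (-(θ * b * m - θ ^ 2 * b ^ 2)) < 1 := by
    rw [Real.exp_lt_one_iff]
    linarith
  set r := Real.exp (-(θ * b * m - θ ^ 2 * b ^ 2)) with hr
  set f : St n → ℝ≥0∞ := fun X => ENNReal.ofReal (X j ^ θ) with hfdef
  have hfm : Measurable f := ((measurable_pi_apply j).pow_const θ).ennreal_ofReal
  set S : St n → ℝ≥0∞ := fun X => ∑ i, ENNReal.ofReal (X i ^ θ) with hS
  have hSm : Measurable S :=
    Finset.measurable_sum _ fun i _ => ((measurable_pi_apply i).pow_const θ).ennreal_ofReal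
  have hSf : ∀ X, S X < ∞ := fun X => ENNReal.sum_lt_top.2 fun i _ => ENNReal.ofReal_lt_top
  set c : ℕ → ℝ≥0∞ := fun N => ENNReal.ofReal (C * (1 + N) ^ n * r ^ N) with hc
  have hc0 : Tendsto c atTop (𝓝 0) := stm_coef n C r hr0 hr1
  have key : ∀ K : ℕ, ∫⁻ X, min (f X) (K : ℝ≥0∞) ∂ν ≤ ENNReal.ofReal C := by
    intro K
    have hKm : Measurable fun X => min (f X) (K : ℝ≥0∞) := hfm.min measurable_const
    have hb1 : ∀ N : ℕ, ∫⁻ X, min (f X) (K : ℝ≥0∞) ∂ν ≤
        ∫⁻ X, min (K : ℝ≥0∞) (ENNReal.ofReal C + c N * S X) ∂ν := by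
      intro N
      rw [← stat_Qp μ b κ hW hν hKm N]
      apply lintegral_mono_ae
      filter_upwards [hν.pos] with X hX
      have hmem : (X, X) ∈ {p : St n × St n | Pos p.1 ∧ Pos p.2} := ⟨hX, hX⟩
      refine le_min ?_ ?_
      · refine (Qp_iter_mono μ b κ (invD_pos μ b κ hκ.le)
          (g := fun _ => (K : ℝ≥0∞)) (fun p _ => min_le_right _ _) N hmem).trans ?_
        rw [Qp_iter_const μ b κ hW]
      · refine (Qp_iter_mono μ b κ (invD_pos μ b κ hκ.le)
          (g := fun q => ENNReal.ofReal (q.1 j ^ θ)) (fun p _ => min_le_left _ _) N hmem).trans ?_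
        exact hC (X, X) hX hX j N
    have hlim : Tendsto (fun N : ℕ => ∫⁻ X, min (K : ℝ≥0∞) (ENNReal.ofReal C + c N * S X) ∂ν) atTop
        (𝓝 (∫⁻ _X, min (K : ℝ≥0∞) (ENNReal.ofReal C) ∂ν)) := by
      apply tendsto_lintegral_of_dominated_convergence (fun _ => (K : ℝ≥0∞))
      · intro N
        exact measurable_const.min (measurable_const.add (measurable_const.mul hSm))
      · intro N
        exact Eventually.of_forall fun X => min_le_left _ _
      · rw [lintegral_const, measure_univ, mul_one]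
        exact ENNReal.natCast_ne_top K
      · refine Eventually.of_forall fun X => ?_
        have h2 : Tendsto (fun N => c N * S X) atTop (𝓝 (0 * S X)) :=
          ENNReal.Tendsto.mul_const hc0 (Or.inr (hSf X).ne)
        rw [zero_mul] at h2
        have h3 : Tendsto (fun N => ENNReal.ofReal C + c N * S X) atTop
            (𝓝 (ENNReal.ofReal C + 0)) := tendsto_const_nhds.add h2
        rw [add_zero] at h3
        exact tendsto_const_nhds.min h3
    have h4 := ge_of_tendsto' hlim hb1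
    refine h4.trans ?_
    rw [lintegral_const, measure_univ, mul_one]
    exact min_le_right _ _
  have hsup : ∀ X, f X = ⨆ K : ℕ, min (f X) (K : ℝ≥0∞) := by
    intro X
    apply le_antisymm
    · obtain ⟨K, hK⟩ := exists_nat_gt (X j ^ θ)
      have h5 : f X ≤ (K : ℝ≥0∞) := by
        rw [hfdef]
        simp only
        rw [← ENNReal.ofReal_natCast]
        exact ENNReal.ofReal_le_ofReal hK.le
      calc f X = min (f X) (K : ℝ≥0∞) := (min_eq_left h5).symm
        _ ≤ _ := le_iSup (fun K : ℕ => min (f X) (K : ℝ≥0∞)) K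
    · exact iSup_le fun K => min_le_left _ _
  have hfin : ∫⁻ X, f X ∂ν ≤ ENNReal.ofReal C := by
    calc ∫⁻ X, f X ∂ν = ∫⁻ X, ⨆ K : ℕ, min (f X) (K : ℝ≥0∞) ∂ν := by
          apply lintegral_congr
          exact hsup
      _ = ⨆ K : ℕ, ∫⁻ X, min (f X) (K : ℝ≥0∞) ∂ν := by
          apply lintegral_iSup
          · intro K
            exact hfm.min measurable_const
          · intro K K' hKK X
            exact min_le_min le_rfl (by exact_mod_cast hKK)
      _ ≤ ENNReal.ofReal C := iSup_le key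
  exact hfin.trans_lt ENNReal.ofReal_lt_top

end Pool.Agent.OYG
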