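import Pool.Agent.OYG.QME

/-!
STN: a stationary distribution of the chain is invariant for all iterates.

From `hν.inv`: `∫ g dν = ∫ QQ g dν` (`integral_map`, `integral_prod`), then induction (`Function.iterate_succ_apply`, with `QQ g` in place of `g`).
For `Qp`: `Qp (fun q => f q.1) (X, X') = ∫⁻ w, f (flow X w)` does not depend on `X'`, call it `f₁ X`; `∫⁻ f₁ dν = ∫⁻ f dν` (`lintegral_map`,
`lintegral_prod`); induction with `f₁` (`Function.iterate_succ_apply`).
-/

open MeasureTheory ProbabilityTheory Set Filter Topology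
open scoped ENNReal NNReal

namespace Pool.Agent.OYG

variable {n : ℕ} (μ : Fin (n + 1) → ℝ) (b κ : ℝ) {Wl : Measure (Blk n)}

private theorem stn_one (hW : WProp n Wl) {ν : Measure (St n)} (hν : StatQ μ b κ Wl ν) {g : St n → ℝ}
    (hm : Measurable g) (h1 : ∀ X, |g X| ≤ 1) :
    ∫ X, QQ μ b κ Wl g X ∂ν = ∫ X, g X ∂ν := by
  have := hν.prob
  have := hW.prob
  have hF : Measurable fun p : St n × Blk n => flow μ b κ 1 p.1 p.2 := measurable_flow μ b κ 1
  conv_rhs => rw [← hν.inv]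
  rw [integral_map hF.aemeasurable hm.aestronglyMeasurable]
  have hint : Integrable (fun p : St n × Blk n => g (flow μ b κ 1 p.1 p.2)) (ν.prod Wl) := by
    refine Integrable.of_bound (hm.comp hF).aestronglyMeasurable 1 ?_
    exact Filter.Eventually.of_forall fun p => by
      simpa [Real.norm_eq_abs] using h1 (flow μ b κ 1 p.1 p.2)
  rw [integral_prod _ hint]
  rfl

theorem stat_QQ (hW : WProp n Wl) {ν : Measure (St n)} (hν : StatQ μ b κ Wl ν) {g : St n → ℝ}
    (hm : Measurable g) (h1 : ∀ X, |g X| ≤ 1) (N : ℕ) :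
    ∫ X, (QQ μ b κ Wl)^[N] g X ∂ν = ∫ X, g X ∂ν := by
  induction N generalizing g with
  | zero => rfl
  | succ N ih =>
    have e : (QQ μ b κ Wl)^[N + 1] g = (QQ μ b κ Wl)^[N] (QQ μ b κ Wl g) :=
      Function.iterate_succ_apply _ _ _
    rw [e]
    rw [ih (g := QQ μ b κ Wl g) (measurable_QQ_iter μ b κ hW hm 1)
      (fun X => abs_QQ_iter_le μ b κ hW h1 1 X)]
    exact stn_one μ b κ hW hν hm h1

private theorem stn_onep (hW : WProp n Wl) {ν : Measure (St n)} (hν : StatQ μ b κ Wl ν)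
    {f : St n → ℝ≥0∞} (hm : Measurable f) :
    ∫⁻ X, (∫⁻ w, f (flow μ b κ 1 X w) ∂Wl) ∂ν = ∫⁻ X, f X ∂ν := by
  have := hν.prob
  have := hW.prob
  have hF : Measurable fun p : St n × Blk n => flow μ b κ 1 p.1 p.2 := measurable_flow μ b κ 1
  conv_rhs => rw [← hν.inv]
  rw [lintegral_map hm hF]
  exact (lintegral_prod (fun p : St n × Blk n => f (flow μ b κ 1 p.1 p.2))
    (hm.comp hF).aemeasurable).symm

theorem stat_Qp (hW : WProp n Wl) {ν : Measure (St n)} (hν : StatQ μ b κ Wl ν) {f : St n → ℝ≥0∞}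
    (hm : Measurable f) (N : ℕ) :
    ∫⁻ X, (Qp μ b κ Wl)^[N] (fun q => f q.1) (X, X) ∂ν = ∫⁻ X, f X ∂ν := by
  have := hν.prob
  have := hW.prob
  have hF : Measurable fun p : St n × Blk n => flow μ b κ 1 p.1 p.2 := measurable_flow μ b κ 1
  induction N generalizing f with
  | zero => rfl
  | succ N ih =>
    have e : (Qp μ b κ Wl)^[N + 1] (fun q => f q.1) =
        (Qp μ b κ Wl)^[N] (fun q => (fun X => ∫⁻ w, f (flow μ b κ 1 X w) ∂Wl) q.1) :=
      Function.iterate_succ_apply _ _ _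
    rw [e]
    have hm1 : Measurable (fun X => ∫⁻ w, f (flow μ b κ 1 X w) ∂Wl) :=
      (hm.comp hF).lintegral_prod_right'
    rw [ih (f := fun X => ∫⁻ w, f (flow μ b κ 1 X w) ∂Wl) hm1]
    exact stn_onep μ b κ hW hν hm

end Pool.Agent.OYG
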