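import Pool.Agent.OYG.MKV

/-!
STQ: the stationary distribution in multiplicative coordinates.

`stat_flow`: for a measurable set `A` of gap vectors, with `Wl = P.map (blk 0)`: the left side at `A` is
`∫⁻ x, Wl {w | toG b (flow s (toX b x) w) ∈ A} dπ` (`Measure.prod_apply`, `lintegral_map`), the integrand is `P.map (G x s) A` by `real_zero`, and the
integral is `π A` by `hπ.stat`. `statQ`: `toX b (toG b Y) = Y` for positive `Y` (`toX_toG`) and the flow of positive states is positive, so
applying `toX b` to `stat_flow` with `s = 1` gives the invariance (`Measure.map_map`, the maps agree almost everywhere: all states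
`toX b x` are positive).
-/

open MeasureTheory ProbabilityTheory Set Filter Topology
open scoped ENNReal NNReal

namespace Pool.Agent.OYG

variable {n : ℕ} (μ : Fin (n + 1) → ℝ) (a b : ℝ)

theorem stat_flow (hb : 0 < b) {Ω : Type*} [MeasurableSpace Ω] {P : Measure Ω} [IsProbabilityMeasure P]
    {B : Fin (n + 1) → ℝ≥0 → Ω → ℝ} (hB : IsBMd P n B)
    {G : (Fin n → ℝ) → ℝ≥0 → Ω → Fin n → ℝ}
    (hG : ∀ x, IsGap n μ (fun y => a * Real.exp (-(b * y))) B x (G x)) {π : Measure (Fin n → ℝ)}
    (hπ : IsStat P G π) (s : ℝ≥0) (hs : s ≤ 1) :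
    ((π.map (toX b)).prod (P.map (blk B hB.cont 0))).map
      (fun p : St n × Blk n => toG b (flow μ b (a * b) s p.1 p.2)) = π := by
  have hp := hπ.prob
  have hblk := measurable_blk hB 0
  have hW : IsProbabilityMeasure (P.map (blk B hB.cont 0)) :=
    Measure.isProbabilityMeasure_map hblk.aemeasurable
  have hmX : Measurable (toX b : (Fin n → ℝ) → St n) := measurable_toX b
  have hν : IsProbabilityMeasure (π.map (toX b)) := Measure.isProbabilityMeasure_map hmX.aemeasurable
  have hm : Measurable (fun p : St n × Blk n => toG b (flow μ b (a * b) s p.1 p.2)) :=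
    (measurable_toG b).comp (measurable_flow μ b (a * b) s)
  have hR : ∀ x, P.map (G x s) = (P.map (blk B hB.cont 0)).map
      (fun w => toG b (flow μ b (a * b) s (toX b x) w)) := fun x =>
    real_zero μ a b hb hB (hG x) s hs
  revert hm hR
  generalize hΦ : (fun p : St n × Blk n => toG b (flow μ b (a * b) s p.1 p.2)) = Φ
  have e : ∀ X : St n, (fun w : Blk n => toG b (flow μ b (a * b) s X w)) = fun w => Φ (X, w) := by
    intro X
    rw [← hΦ]
  simp only [e]
  intro hm hR
  ext A hA
  rw [Measure.map_apply hm hA, Measure.prod_apply (hm hA),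
    lintegral_map (measurable_measure_prodMk_left (hm hA)) hmX, ← hπ.stat s A hA]
  refine lintegral_congr fun x => ?_
  have hmx : Measurable (fun w : Blk n => Φ (toX b x, w)) := hm.comp measurable_prodMk_left
  rw [hR x, Measure.map_apply hmx hA]
  rfl

theorem statQ (ha : 0 < a) (hb : 0 < b) {Ω : Type*} [MeasurableSpace Ω] {P : Measure Ω}
    [IsProbabilityMeasure P]
    {B : Fin (n + 1) → ℝ≥0 → Ω → ℝ} (hB : IsBMd P n B)
    {G : (Fin n → ℝ) → ℝ≥0 → Ω → Fin n → ℝ}
    (hG : ∀ x, IsGap n μ (fun y => a * Real.exp (-(b * y))) B x (G x)) {π : Measure (Fin n → ℝ)}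
    (hπ : IsStat P G π) : StatQ μ b (a * b) (P.map (blk B hB.cont 0)) (π.map (toX b)) := by
  have hp := hπ.prob
  have hblk := measurable_blk hB 0
  have hW : IsProbabilityMeasure (P.map (blk B hB.cont 0)) :=
    Measure.isProbabilityMeasure_map hblk.aemeasurable
  have hmX : Measurable (toX b : (Fin n → ℝ) → St n) := measurable_toX b
  have hν : IsProbabilityMeasure (π.map (toX b)) := Measure.isProbabilityMeasure_map hmX.aemeasurable
  have hm : Measurable (fun p : St n × Blk n => toG b (flow μ b (a * b) 1 p.1 p.2)) :=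
    (measurable_toG b).comp (measurable_flow μ b (a * b) 1)
  have hset : MeasurableSet {X : St n | Pos X} := by
    have h1 : {X : St n | Pos X} = ⋂ j, {X : St n | 0 < X j} := by
      ext X
      simp [Pos]
    rw [h1]
    exact MeasurableSet.iInter fun j => measurableSet_lt measurable_const (measurable_pi_apply j)
  have hpos : ∀ᵐ X ∂(π.map (toX b)), Pos X :=
    (ae_map_iff hmX.aemeasurable hset).2 (Eventually.of_forall fun x => toX_pos b x)
  refine ⟨hν, hpos, ?_⟩
  have h1 := stat_flow μ a b hb hB hG hπ 1 le_rfl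
  rw [NNReal.coe_one] at h1
  have h2 : ((π.map (toX b)).prod (P.map (blk B hB.cont 0))).map
      (fun p : St n × Blk n => flow μ b (a * b) 1 p.1 p.2) =
      (((π.map (toX b)).prod (P.map (blk B hB.cont 0))).map
      (fun p : St n × Blk n => toG b (flow μ b (a * b) 1 p.1 p.2))).map (toX b) := by
    rw [Measure.map_map hmX hm]
    refine Measure.map_congr ?_
    have h3 : ∀ᵐ p ∂((π.map (toX b)).prod (P.map (blk B hB.cont 0))), Pos (p : St n × Blk n).1 :=
      Measure.quasiMeasurePreserving_fst.ae hpos
    filter_upwards [h3] with p hp1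
    have h4 := flow_pos μ b (a * b) (mul_pos ha hb).le zero_le_one hp1 p.2
    exact (toX_toG b hb h4).symm
  rw [h2, h1]

end Pool.Agent.OYG
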