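import Pool.Agent.OYG.STA
import Pool.Agent.OYG.STQ

/-!
UEX: uniform ergodicity with every exponent below `θ b m - θ² b²`.

`W x = 1 + Σ_i (toX b x i)^θ ≥ 1`. For real `t` let `N = ⌊t⌋`, `s = t - N ∈ [0,1]`. By `real_law`
`∫ g dP.map (G x t) = QQ^[N] g_s (toX b x)` with `g_s X = ∫ g (toG b (flow s X w)) dWl` (`|g_s| ≤ 1`, measurable), and by `stat_flow`
`∫ g dπ = ∫ g_s dν`, `ν = π.map (toX b)`. If `N ≥ n + 1`: `chain_conv` with `N - (n+1)` gives the bound
`C (1+N)^n r^(N-(n+1)) W x ≤ C' e^(-δ t) W x` because `δ < θ b m - θ² b²` absorbs the polynomial (`(1+N)^n e^{-εN}` is bounded). If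
`N < n + 1` the difference is at most `2 ≤ 2 e^(|δ| (n+2)) e^(-δ t)`.
-/

open MeasureTheory ProbabilityTheory Set Filter Topology
open scoped ENNReal NNReal

namespace Pool.Agent.OYG

variable {n : ℕ} (μ : Fin (n + 1) → ℝ) (a b : ℝ)

private theorem uex_bound (n : ℕ) {ρ δ : ℝ} (h : δ < ρ) :
    ∃ M : ℝ, 0 ≤ M ∧ ∀ N : ℕ, (1 + N : ℝ) ^ n * Real.exp (-ρ) ^ N ≤
      M * Real.exp (-(δ * N)) := by
  have hq0 : 0 < Real.exp (-(ρ - δ)) := Real.exp_pos _
  have hq1 : Real.exp (-(ρ - δ)) < 1 := by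
    rw [Real.exp_lt_one_iff]
    linarith
  set q := Real.exp (-(ρ - δ)) with hq
  have h1 : Tendsto (fun N : ℕ => (N : ℝ) ^ n * q ^ N) atTop (𝓝 0) :=
    tendsto_pow_const_mul_const_pow_of_abs_lt_one n (by rw [abs_of_pos hq0]; exact hq1)
  obtain ⟨M0, hM0⟩ := h1.bddAbove_range
  have hM1 : ∀ N : ℕ, (N : ℝ) ^ n * q ^ N ≤ M0 := fun N => hM0 ⟨N, rfl⟩
  refine ⟨max M0 0 / q, div_nonneg (le_max_right _ _) hq0.le, fun N => ?_⟩
  have h2 := hM1 (N + 1)
  have h3 : Real.exp (-ρ) ^ N = q ^ N * Real.exp (-(δ * N)) := by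
    rw [hq, ← Real.exp_nat_mul, ← Real.exp_nat_mul, ← Real.exp_add]
    congr 1
    ring
  have h4 : (1 + N : ℝ) ^ n * q ^ N ≤ max M0 0 / q := by
    rw [le_div_iff₀ hq0]
    calc (1 + N : ℝ) ^ n * q ^ N * q = ((N + 1 : ℕ) : ℝ) ^ n * q ^ (N + 1) := by
          push_cast
          rw [pow_succ]
          ring
      _ ≤ M0 := h2
      _ ≤ max M0 0 := le_max_left _ _
  rw [h3, ← mul_assoc]
  exact mul_le_mul_of_nonneg_right h4 (Real.exp_pos _).le

private theorem uex_abs {E : Type*} [MeasurableSpace E] (ρ : Measure E) [IsProbabilityMeasure ρ]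
    {g : E → ℝ} (h1 : ∀ y, |g y| ≤ 1) : |∫ y, g y ∂ρ| ≤ 1 := by
  have h := norm_integral_le_of_norm_le_const (μ := ρ) (f := g) (C := 1)
    (Eventually.of_forall fun y => by rw [Real.norm_eq_abs]; exact h1 y)
  rw [Real.norm_eq_abs] at h
  simpa using h

theorem unif_erg (ha : 0 < a) (hb : 0 < b) {Ω : Type*} [MeasurableSpace Ω] {P : Measure Ω}
    [IsProbabilityMeasure P]
    {B : Fin (n + 1) → ℝ≥0 → Ω → ℝ} (hB : IsBMd P n B) (hW : WProp n (P.map (blk B hB.cont 0)))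
    {G : (Fin n → ℝ) → ℝ≥0 → Ω → Fin n → ℝ}
    (hG : ∀ x, IsGap n μ (fun y => a * Real.exp (-(b * y))) B x (G x)) {π : Measure (Fin n → ℝ)}
    (hπ : IsStat P G π) {θ m δ : ℝ} (h0 : 0 < θ) (h1 : θ ≤ 1)
    (hm : ∀ j : Fin n, m ≤ μ 0 - μ j.succ) (hf : 0 < θ * b * m - θ ^ 2 * b ^ 2)
    (hδ : δ < θ * b * m - θ ^ 2 * b ^ 2) : UnifErg P G π δ := by
  have hκ : 0 < a * b := mul_pos ha hb
  have hν := statQ μ a b ha hb hB hG hπ
  obtain ⟨C0, hC0, hconv⟩ := chain_conv μ b (a * b) hb hκ hW hν h0 h1 hm hf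
  obtain ⟨M, hM0, hM⟩ := uex_bound n hδ
  have hprobπ := hπ.prob
  have hprobW := hW.prob
  have hE : 0 < Real.exp (|δ| * (n + 2)) := Real.exp_pos _
  have hW1 : ∀ x : Fin n → ℝ, 1 ≤ 1 + ∑ i, toX b x i ^ θ := by
    intro x
    have : 0 ≤ ∑ i, toX b x i ^ θ :=
      Finset.sum_nonneg fun i _ => Real.rpow_nonneg (toX_pos b x i).le _
    linarith
  refine ⟨(C0 * M + 2) * Real.exp (|δ| * (n + 2)),
    mul_pos (by positivity) hE, fun x => 1 + ∑ i, toX b x i ^ θ, hW1, ?_⟩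
  intro x t g hgm hg1
  set N := ⌊t⌋₊ with hN
  set s := t - (N : ℝ≥0) with hs
  have hNt : (N : ℝ≥0) ≤ t := Nat.floor_le zero_le
  have hts : t = (N : ℝ≥0) + s := (add_tsub_cancel_of_le hNt).symm
  have hs1 : s ≤ 1 := by
    have h2 : t < (N : ℝ≥0) + 1 := Nat.lt_floor_add_one t
    rw [hs]
    exact tsub_le_iff_left.2 h2.le
  have htR : (t : ℝ) = N + s := by
    conv_lhs => rw [hts]
    push_cast
    rfl
  have hsR : (s : ℝ) ≤ 1 := by exact_mod_cast hs1
  have hs0 : (0 : ℝ) ≤ s := s.2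
  have hWx := hW1 x
  set Wx := 1 + ∑ i, toX b x i ^ θ with hWxdef
  by_cases hcase : n + 1 ≤ N
  · obtain ⟨N', hN'⟩ := Nat.exists_eq_add_of_le hcase
    have hN'' : N = N' + (n + 1) := by omega
    have hφm : Measurable fun p : St n × Blk n => toG b (flow μ b (a * b) s p.1 p.2) :=
      (measurable_toG b).comp (measurable_flow μ b (a * b) s)
    set gs : St n → ℝ := fun X => ∫ w, g (toG b (flow μ b (a * b) s X w)) ∂(P.map (blk B hB.cont 0))
      with hgs
    have hgsm : Measurable gs := by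
      have h2 : StronglyMeasurable (Function.uncurry fun (X : St n) (w : Blk n) =>
          g (toG b (flow μ b (a * b) s X w))) := (hgm.comp hφm).stronglyMeasurable
      exact h2.integral_prod_right.measurable
    have hgs1 : ∀ X, |gs X| ≤ 1 := fun X => uex_abs _ fun w => hg1 _
    have hl := real_law μ a b hb hB hW (hG x) N s hs1 hgm hg1
    have hst := stat_flow μ a b hb hB hG hπ s hs1
    have hpi : ∫ y, g y ∂π = ∫ X, gs X ∂(π.map (toX b)) := by
      conv_lhs => rw [← hst]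
      have hνp := hν.prob
      rw [integral_map hφm.aemeasurable hgm.aestronglyMeasurable]
      rw [integral_prod]
      refine Integrable.of_bound (hgm.comp hφm).aestronglyMeasurable 1
        (Eventually.of_forall fun p => ?_)
      rw [Real.norm_eq_abs]
      exact hg1 _
    have hmain := hconv gs hgsm hgs1 N' (toX b x) (toX_pos b x)
    rw [← hN'', ← hpi] at hmain
    rw [← hts] at hl
    rw [hl]
    refine hmain.trans ?_
    have h3 := hM N'
    have h4 : Real.exp (-(δ * N')) ≤ Real.exp (|δ| * (n + 2)) * Real.exp (-(δ * t)) := by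
      rw [← Real.exp_add]
      apply Real.exp_le_exp.2
      have h5 : (N : ℝ) = N' + (n + 1) := by
        rw [hN'']
        push_cast
        ring
      have h6 : δ * (n + 1 + s) ≤ |δ| * (n + 2) := by
        have h7 : δ * (n + 1 + s) ≤ |δ| * (n + 1 + s) :=
          mul_le_mul_of_nonneg_right (le_abs_self δ) (by positivity)
        have h8 : |δ| * (n + 1 + s) ≤ |δ| * (n + 2) :=
          mul_le_mul_of_nonneg_left (by linarith) (abs_nonneg δ)
        linarith
      rw [htR, h5]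
      linarith
    have h9 : C0 * (1 + N') ^ n * Real.exp (-(θ * b * m - θ ^ 2 * b ^ 2)) ^ N' ≤
        (C0 * M + 2) * Real.exp (|δ| * (n + 2)) * Real.exp (-(δ * t)) := by
      calc C0 * (1 + N') ^ n * Real.exp (-(θ * b * m - θ ^ 2 * b ^ 2)) ^ N'
          = C0 * ((1 + N') ^ n * Real.exp (-(θ * b * m - θ ^ 2 * b ^ 2)) ^ N') := by ring
        _ ≤ C0 * (M * Real.exp (-(δ * N'))) := mul_le_mul_of_nonneg_left h3 hC0
        _ ≤ C0 * (M * (Real.exp (|δ| * (n + 2)) * Real.exp (-(δ * t)))) := by gcongr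
        _ = C0 * M * (Real.exp (|δ| * (n + 2)) * Real.exp (-(δ * t))) := by ring
        _ ≤ (C0 * M + 2) * (Real.exp (|δ| * (n + 2)) * Real.exp (-(δ * t))) := by
            gcongr
            linarith
        _ = _ := by ring
    calc C0 * (1 + N') ^ n * Real.exp (-(θ * b * m - θ ^ 2 * b ^ 2)) ^ N' *
          (1 + ∑ i, toX b x i ^ θ)
        ≤ (C0 * M + 2) * Real.exp (|δ| * (n + 2)) * Real.exp (-(δ * t)) * Wx :=
          mul_le_mul_of_nonneg_right h9 (by linarith)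
      _ = (C0 * M + 2) * Real.exp (|δ| * (n + 2)) * Wx * Real.exp (-(δ * t)) := by ring
  · have hNn : (N : ℝ) ≤ n := by
      have : N ≤ n := by omega
      exact_mod_cast this
    have hpr : IsProbabilityMeasure (P.map (G x t)) :=
      Measure.isProbabilityMeasure_map ((hG x).meas t).aemeasurable
    have h2 : |∫ y, g y ∂(P.map (G x t)) - ∫ y, g y ∂π| ≤ 2 := by
      have h3 := uex_abs (P.map (G x t)) hg1
      have h4 := uex_abs π hg1
      rw [abs_le] at h3 h4 ⊢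
      constructor <;> linarith [h3.1, h3.2, h4.1, h4.2]
    refine h2.trans ?_
    have h5 : 1 ≤ Real.exp (|δ| * (n + 2)) * Real.exp (-(δ * t)) := by
      rw [← Real.exp_add]
      apply Real.one_le_exp
      have h6 : δ * t ≤ |δ| * (n + 2) := by
        have h7 : δ * t ≤ |δ| * t := mul_le_mul_of_nonneg_right (le_abs_self δ) t.2
        have h8 : |δ| * (t : ℝ) ≤ |δ| * (n + 2) :=
          mul_le_mul_of_nonneg_left (by rw [htR]; linarith) (abs_nonneg δ)
        linarith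
      linarith
    have h10 : (2 : ℝ) ≤ (C0 * M + 2) := by nlinarith
    calc (2 : ℝ) = 2 * 1 * 1 := by norm_num
      _ ≤ (C0 * M + 2) * (Real.exp (|δ| * (n + 2)) * Real.exp (-(δ * t))) * Wx := by
          gcongr
      _ = (C0 * M + 2) * Real.exp (|δ| * (n + 2)) * Wx * Real.exp (-(δ * t)) := by ring

end Pool.Agent.OYG
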