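import Pool.Agent.OYG.WPA

/-!
WLA: the law of a Brownian path during `[0,1]` is unique, and the block of lines has the product law.

`measurable_bpath`: `measurable_path`. `bpath_law`: by `path_ext`; for finite `J ⊆ unitInterval` the image of `P.map (bpath X hX)`
is the law of `(X t)_{t ∈ J}` (as elements of `ℝ≥0`), which by `hX.hasLaw` for the finite set `I = J.image (·)` of `ℝ≥0` is a fixed
image of `projectiveFamily I`, the same for `Y`.
`map_blk_zero`: `blk B hB.cont 0 ω i = bpath (B i) _ ω` because `B i 0 ω = 0`; `iIndepFun.comp` with the measurable map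
restriction... (each line path is a measurable function of the whole line: `measurable_path`), then
`iIndepFun_iff_map_fun_eq_pi_map`.
-/

open MeasureTheory ProbabilityTheory Set Filter Topology
open scoped ENNReal NNReal

namespace Pool.Agent.OYG

private def wlaF (s : unitInterval) : ℝ≥0 := ⟨(s : ℝ), s.2.1⟩

theorem measurable_bpath {Ω : Type*} [MeasurableSpace Ω] (X : ℝ≥0 → Ω → ℝ)
    (hX : ∀ ω, Continuous fun t => X t ω) (hm : ∀ t, Measurable (X t)) : Measurable (bpath X hX) := by
  exact measurable_path _ fun s => hm ⟨(s : ℝ), s.2.1⟩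

theorem bpath_law {Ω Ω' : Type*} [MeasurableSpace Ω] [MeasurableSpace Ω'] {P : Measure Ω}
    {P' : Measure Ω'} (X : ℝ≥0 → Ω → ℝ) (Y : ℝ≥0 → Ω' → ℝ)
    (hX : ∀ ω, Continuous fun t => X t ω) (hY : ∀ ω, Continuous fun t => Y t ω)
    (hmX : ∀ t, Measurable (X t)) (hmY : ∀ t, Measurable (Y t))
    (h : IsBrownianReal X P) (h' : IsBrownianReal Y P') :
    P.map (bpath X hX) = P'.map (bpath Y hY) := by
  have hP : IsProbabilityMeasure P := h.isGaussianProcess.isProbabilityMeasure
  have hP' : IsProbabilityMeasure P' := h'.isGaussianProcess.isProbabilityMeasure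
  have hbX := measurable_bpath X hX hmX
  have hbY := measurable_bpath Y hY hmY
  have h1 : IsProbabilityMeasure (P.map (bpath X hX)) :=
    Measure.isProbabilityMeasure_map hbX.aemeasurable
  have h2 : IsProbabilityMeasure (P'.map (bpath Y hY)) :=
    Measure.isProbabilityMeasure_map hbY.aemeasurable
  refine path_ext _ _ fun J => ?_
  have hR : Measurable (fun f : C(unitInterval, ℝ) => J.restrict (f : unitInterval → ℝ)) :=
    measurable_pi_lambda _ fun j =>
      (continuous_eval_const (F := C(unitInterval, ℝ)) (j : unitInterval)).measurable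
  rw [Measure.map_map hR hbX, Measure.map_map hR hbY]
  classical
  set I : Finset ℝ≥0 := J.image wlaF with hI
  let g : (I → ℝ) → (J → ℝ) := fun x t => x ⟨wlaF t, Finset.mem_image_of_mem _ t.2⟩
  have hg : Measurable g := measurable_pi_lambda _ fun j => measurable_pi_apply _
  have e1 := (h.hasLaw I).map_eq
  have e2 := (h'.hasLaw I).map_eq
  have m1 : Measurable (fun ω => I.restrict (X · ω)) :=
    measurable_pi_lambda _ fun j => hmX _
  have m2 : Measurable (fun ω => I.restrict (Y · ω)) :=
    measurable_pi_lambda _ fun j => hmY _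
  have e3 : (fun f : C(unitInterval, ℝ) => J.restrict (f : unitInterval → ℝ)) ∘ bpath X hX =
      g ∘ (fun ω => I.restrict (X · ω)) := rfl
  have e4 : (fun f : C(unitInterval, ℝ) => J.restrict (f : unitInterval → ℝ)) ∘ bpath Y hY =
      g ∘ (fun ω => I.restrict (Y · ω)) := rfl
  rw [e3, e4, ← Measure.map_map hg m1, ← Measure.map_map hg m2, e1, e2]

variable {n : ℕ}

theorem measurable_blk {Ω : Type*} [MeasurableSpace Ω] {P : Measure Ω}
    {B : Fin (n + 1) → ℝ≥0 → Ω → ℝ} (hB : IsBMd P n B) (N : ℕ) : Measurable (blk B hB.cont N) := by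
  refine measurable_pi_lambda _ fun i => measurable_path _ fun s => ?_
  exact (hB.meas i _).sub (hB.meas i _)

theorem comap_bpath {Ω : Type*} (X : ℝ≥0 → Ω → ℝ)
    (hX : ∀ ω, Continuous fun t => X t ω) :
    MeasurableSpace.comap (bpath X hX) instMSPath =
      MeasurableSpace.comap (fun ω (s : unitInterval) => X ⟨(s : ℝ), s.2.1⟩ ω)
        (inferInstance : MeasurableSpace (unitInterval → ℝ)) := by
  rw [path_comap, MeasurableSpace.comap_comp]
  rfl

theorem map_blk_zero {Ω : Type*} [MeasurableSpace Ω] {P : Measure Ω}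
    {B : Fin (n + 1) → ℝ≥0 → Ω → ℝ} (hB : IsBMd P n B) :
    P.map (blk B hB.cont 0) = Measure.pi (fun i => P.map (bpath (B i) (hB.cont i))) := by
  have hP : IsProbabilityMeasure P := (hB.brownian 0).isGaussianProcess.isProbabilityMeasure
  have h1 : iIndepFun (fun i ω (s : unitInterval) => B i ⟨(s : ℝ), s.2.1⟩ ω) P := by
    exact hB.indep.comp (fun i (f : ℝ≥0 → ℝ) (s : unitInterval) => f ⟨(s : ℝ), s.2.1⟩)
      fun i => measurable_pi_lambda _ fun s => measurable_pi_apply _
  have h2 : iIndepFun (fun i => bpath (B i) (hB.cont i)) P := by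
    have h3 : iIndep (fun i => MeasurableSpace.comap (bpath (B i) (hB.cont i)) instMSPath) P := by
      have h4 := h1.iIndep
      simp_rw [comap_bpath]
      exact h4
    exact h3
  have h3 := (iIndepFun_iff_map_fun_eq_pi_map (fun i =>
    (measurable_bpath (B i) (hB.cont i) (hB.meas i)).aemeasurable)).mp h2
  rw [← h3]
  congr 1
  funext ω k
  ext s
  simp only [blk, bpath, ContinuousMap.coe_mk, Nat.cast_zero, zero_add, hB.zero, sub_zero]

end Pool.Agent.OYG
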