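import Pool.Agent.OYG.FME

/-!
WPA: measures on path spaces are determined by their finite dimensional marginals.

`ext_of_comap`: every measurable set of `E` is `φ ⁻¹' A` with `A` measurable in `ι → ℝ`, and `ν.map φ = ν'.map φ` by
`MeasureTheory.IsProjectiveLimit.unique` (both are projective limits of the family
`J ↦ (ν.map φ).map J.restrict`, `Measure.map_map`).
`path_comap`: the evaluations are continuous, hence Borel measurable, so `comap ≤ borel`; the other inclusion is `measurable_path`
(module FME) applied to the identity from `C(unitInterval, ℝ)` with the sigma algebra `comap`. `path_ext`: first two together.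
`path_ext2`: the same with `E = C × C`, `ι = unitInterval ⊕ unitInterval` (the product sigma algebra is the comap of the pair of
evaluations), the finite marginals of the pair follow from the hypothesis with `J` the union of the two parts.
-/

open MeasureTheory ProbabilityTheory Set Filter Topology
open scoped ENNReal NNReal

namespace Pool.Agent.OYG

theorem ext_of_comap {E ι : Type*} [mE : MeasurableSpace E] (φ : E → ι → ℝ)
    (hφ : mE = MeasurableSpace.comap φ inferInstance) (ν ν' : Measure E) [IsFiniteMeasure ν]
    [IsFiniteMeasure ν']
    (h : ∀ J : Finset ι, ν.map (fun e => J.restrict (φ e)) = ν'.map (fun e => J.restrict (φ e))) :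
    ν = ν' := by
  have hm : Measurable φ := by
    rw [measurable_iff_comap_le]
    exact hφ.ge
  have hr : ∀ J : Finset ι, Measurable (J.restrict : (ι → ℝ) → (J → ℝ)) := fun J =>
    Finset.measurable_restrict J
  have h1 : ν.map φ = ν'.map φ := by
    have e1 : IsProjectiveLimit (ν.map φ) (fun J : Finset ι => (ν.map φ).map J.restrict) :=
      fun J => rfl
    have e2 : IsProjectiveLimit (ν'.map φ) (fun J : Finset ι => (ν.map φ).map J.restrict) := by
      intro J
      show (ν'.map φ).map J.restrict = (ν.map φ).map J.restrict
      rw [Measure.map_map (hr J) hm, Measure.map_map (hr J) hm]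
      exact (h J).symm
    have : ∀ J : Finset ι, IsFiniteMeasure ((ν.map φ).map J.restrict) := fun J => inferInstance
    exact IsProjectiveLimit.unique e1 e2
  ext s hs
  have hs' : @MeasurableSet E (MeasurableSpace.comap φ inferInstance) s := hφ ▸ hs
  obtain ⟨A, hA, rfl⟩ := hs'
  rw [← Measure.map_apply hm hA, ← Measure.map_apply hm hA, h1]

private theorem measurable_eval_path (t : unitInterval) :
    Measurable fun f : C(unitInterval, ℝ) => f t :=
  (continuous_eval_const t).measurable

theorem path_comap : instMSPath =
    MeasurableSpace.comap (fun (f : C(unitInterval, ℝ)) (t : unitInterval) => f t) inferInstance := by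
  apply le_antisymm
  · have h := @measurable_path C(unitInterval, ℝ)
      (MeasurableSpace.comap (fun (f : C(unitInterval, ℝ)) (t : unitInterval) => f t) inferInstance)
      (fun f => f) (by
        intro s
        exact (measurable_pi_apply s).comp (comap_measurable _))
    rw [measurable_iff_comap_le] at h
    have h2 : MeasurableSpace.comap (fun f : C(unitInterval, ℝ) => f) instMSPath = instMSPath :=
      MeasurableSpace.comap_id
    rw [h2] at h
    exact h
  · rw [← measurable_iff_comap_le]
    exact measurable_pi_lambda _ measurable_eval_path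

theorem path_ext (ν ν' : Measure C(unitInterval, ℝ)) [IsFiniteMeasure ν] [IsFiniteMeasure ν']
    (h : ∀ J : Finset unitInterval,
      ν.map (fun (f : C(unitInterval, ℝ)) => J.restrict (f : unitInterval → ℝ)) =
      ν'.map (fun (f : C(unitInterval, ℝ)) => J.restrict (f : unitInterval → ℝ))) : ν = ν' :=
  ext_of_comap (fun (f : C(unitInterval, ℝ)) (t : unitInterval) => f t) path_comap ν ν' h

theorem path_ext2 (ν ν' : Measure (C(unitInterval, ℝ) × C(unitInterval, ℝ))) [IsFiniteMeasure ν]
    [IsFiniteMeasure ν']
    (h : ∀ J : Finset unitInterval,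
      ν.map (fun p : C(unitInterval, ℝ) × C(unitInterval, ℝ) =>
        (J.restrict (p.1 : unitInterval → ℝ), J.restrict (p.2 : unitInterval → ℝ))) =
      ν'.map (fun p : C(unitInterval, ℝ) × C(unitInterval, ℝ) =>
        (J.restrict (p.1 : unitInterval → ℝ), J.restrict (p.2 : unitInterval → ℝ)))) :
    ν = ν' := by
  classical
  refine ext_of_comap (ι := unitInterval ⊕ unitInterval)
    (fun (p : C(unitInterval, ℝ) × C(unitInterval, ℝ)) => Sum.elim (fun t => p.1 t) (fun t => p.2 t))
    ?_ ν ν' ?_
  · have h1 : MeasurableSpace.comap (fun (f : C(unitInterval, ℝ)) (t : unitInterval) => f t)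
        inferInstance = ⨆ t : unitInterval,
          MeasurableSpace.comap (fun f : C(unitInterval, ℝ) => f t) inferInstance := by
      show MeasurableSpace.comap _ (⨆ a : unitInterval, _) = _
      rw [MeasurableSpace.comap_iSup]
      simp only [MeasurableSpace.comap_comp]
      rfl
    show MeasurableSpace.comap Prod.fst instMSPath ⊔ MeasurableSpace.comap Prod.snd instMSPath =
      MeasurableSpace.comap _ (⨆ a : unitInterval ⊕ unitInterval, _)
    rw [path_comap, h1, MeasurableSpace.comap_iSup, MeasurableSpace.comap_iSup,
      MeasurableSpace.comap_iSup, iSup_sum]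
    simp only [MeasurableSpace.comap_comp]
    rfl
  · intro J
    set K : Finset unitInterval := J.toLeft ∪ J.toRight with hK
    have hl : ∀ t : unitInterval, Sum.inl t ∈ J → t ∈ K := fun t ht =>
      Finset.mem_union_left _ (Finset.mem_toLeft.2 ht)
    have hr : ∀ t : unitInterval, Sum.inr t ∈ J → t ∈ K := fun t ht =>
      Finset.mem_union_right _ (Finset.mem_toRight.2 ht)
    set g : ((K → ℝ) × (K → ℝ)) → (J → ℝ) := fun q j =>
      match j with
      | ⟨Sum.inl t, ht⟩ => q.1 ⟨t, hl t ht⟩
      | ⟨Sum.inr t, ht⟩ => q.2 ⟨t, hr t ht⟩ with hg
    have hgm : Measurable g := by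
      refine measurable_pi_lambda _ ?_
      rintro ⟨t | t, ht⟩
      · exact (measurable_pi_apply _).comp measurable_fst
      · exact (measurable_pi_apply _).comp measurable_snd
    have hm : Measurable (fun p : C(unitInterval, ℝ) × C(unitInterval, ℝ) =>
        (K.restrict (p.1 : unitInterval → ℝ), K.restrict (p.2 : unitInterval → ℝ))) := by
      refine Measurable.prodMk ?_ ?_
      · refine measurable_pi_lambda _ fun t => ?_
        exact (measurable_eval_path t.1).comp measurable_fst
      · refine measurable_pi_lambda _ fun t => ?_
        exact (measurable_eval_path t.1).comp measurable_snd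
    have hcomp : (fun p : C(unitInterval, ℝ) × C(unitInterval, ℝ) =>
        J.restrict (Sum.elim (fun t => p.1 t) (fun t => p.2 t) : unitInterval ⊕ unitInterval → ℝ)) =
        g ∘ (fun p : C(unitInterval, ℝ) × C(unitInterval, ℝ) =>
        (K.restrict (p.1 : unitInterval → ℝ), K.restrict (p.2 : unitInterval → ℝ))) := by
      funext p j
      obtain ⟨t | t, ht⟩ := j <;> rfl
    rw [hcomp, ← Measure.map_map hgm hm, ← Measure.map_map hgm hm, h K]

end Pool.Agent.OYG
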