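import Pool.Agent.OYG.WRI

/-!
WRE: resampling of the end point of one line.

`resm i (resm i w 0) η = resm i w η` and `resm i w (w i 1) = w` (the path `idp` has value one at one). With `u = resm i (blk 0) 0` and `e = B i 1`
independent (`indep_end`), `e` of law `gaussianReal 0 1` (`IsPreBrownianReal.hasLaw_eval`): the law of `(u, e)` is the product
(`indepFun_iff_map_prod_eq_prod_map_map`), so `∫ F(w) dWl = ∫ F (resm i u e) dP = ∫∫ F (resm i u η) dγ(η) dP`
(`integral_map`, `integral_prod`; `F` bounded measurable, `measurable_resm`), and `resm i u η = resm i (blk 0) η`.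
-/

open MeasureTheory ProbabilityTheory Set Filter Topology
open scoped ENNReal NNReal

namespace Pool.Agent.OYG

variable {n : ℕ}

private theorem WRE_resm_resm (i : Fin (n + 1)) (w : Blk n) (η : ℝ) :
    resm i (resm i w 0) η = resm i w η := by
  unfold resm
  funext k
  by_cases hk : k = i
  · subst hk
    simp only [Function.update_self]
    ext s
    simp [idp]
    ring
  · simp [Function.update_of_ne hk]

private theorem WRE_resm_self (i : Fin (n + 1)) (w : Blk n) : resm i w (w i 1) = w := by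
  unfold resm
  funext k
  by_cases hk : k = i
  · subst hk
    simp
  · simp [Function.update_of_ne hk]

private theorem WRE_measurable_blk {Ω : Type*} [MeasurableSpace Ω] {P : Measure Ω}
    {B : Fin (n + 1) → ℝ≥0 → Ω → ℝ} (hB : IsBMd P n B) : Measurable (blk B hB.cont 0) := by
  apply measurable_pi_lambda
  intro i
  apply measurable_path
  intro s
  exact (hB.meas i _).sub (hB.meas i _)

private theorem WRE_blk_one {Ω : Type*} [MeasurableSpace Ω] {P : Measure Ω}
    {B : Fin (n + 1) → ℝ≥0 → Ω → ℝ} (hB : IsBMd P n B) (i : Fin (n + 1)) (ω : Ω) :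
    blk B hB.cont 0 ω i 1 = B i 1 ω := by
  have h1 : blk B hB.cont 0 ω i 1 = B i (((0 : ℕ) : ℝ≥0) + ⟨((1 : unitInterval) : ℝ), (1 : unitInterval).2.1⟩) ω -
      B i ((0 : ℕ) : ℝ≥0) ω := rfl
  rw [h1]
  have h2 : (((0 : ℕ) : ℝ≥0) + ⟨((1 : unitInterval) : ℝ), (1 : unitInterval).2.1⟩) = (1 : ℝ≥0) := by
    rw [Nat.cast_zero, zero_add]
    rfl
  have h3 : (((0 : ℕ) : ℝ≥0)) = 0 := Nat.cast_zero
  rw [h2, h3, hB.zero, sub_zero]

theorem resample {Ω : Type*} [MeasurableSpace Ω] {P : Measure Ω} [IsProbabilityMeasure P]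
    {B : Fin (n + 1) → ℝ≥0 → Ω → ℝ} (hB : IsBMd P n B) (i : Fin (n + 1)) (F : Blk n → ℝ)
    (hF : Measurable F) (hF1 : ∀ w, |F w| ≤ 1) :
    ∫ w, F w ∂(P.map (blk B hB.cont 0)) =
      ∫ w, (∫ η, F (resm i w η) ∂(gaussianReal 0 1)) ∂(P.map (blk B hB.cont 0)) := by
  have hmb : Measurable (blk B hB.cont 0) := WRE_measurable_blk hB
  have hmr : Measurable fun p : Blk n × ℝ => resm i p.1 p.2 := measurable_resm i
  have hG : Measurable fun p : Blk n × ℝ => F (resm i p.1 p.2) := hF.comp hmr
  have hmu : Measurable fun ω => resm i (blk B hB.cont 0 ω) 0 :=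
    hmr.comp (hmb.prodMk measurable_const)
  have hme : Measurable fun ω => B i 1 ω := hB.meas i 1
  have hlaw : P.map (fun ω => B i 1 ω) = gaussianReal 0 1 :=
    ((hB.brownian i).toIsPreBrownianReal.hasLaw_eval 1).map_eq
  have hprod : P.map (fun ω => (resm i (blk B hB.cont 0 ω) 0, B i 1 ω)) =
      (P.map (fun ω => resm i (blk B hB.cont 0 ω) 0)).prod (gaussianReal 0 1) := by
    rw [← hlaw]
    exact (indepFun_iff_map_prod_eq_prod_map_map hmu.aemeasurable hme.aemeasurable).1
      (indep_end hB i)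
  have : IsProbabilityMeasure (P.map (fun ω => resm i (blk B hB.cont 0 ω) 0)) :=
    Measure.isProbabilityMeasure_map hmu.aemeasurable
  have hint : Integrable (fun p : Blk n × ℝ => F (resm i p.1 p.2))
      ((P.map (fun ω => resm i (blk B hB.cont 0 ω) 0)).prod (gaussianReal 0 1)) := by
    apply Integrable.of_bound hG.aestronglyMeasurable 1
    exact Filter.Eventually.of_forall fun p => by
      rw [Real.norm_eq_abs]
      exact hF1 _
  have hinner : StronglyMeasurable fun w : Blk n => ∫ η, F (resm i w η) ∂(gaussianReal 0 1) :=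
    hG.stronglyMeasurable.integral_prod_right
  calc ∫ w, F w ∂(P.map (blk B hB.cont 0)) = ∫ ω, F (blk B hB.cont 0 ω) ∂P :=
        integral_map hmb.aemeasurable hF.aestronglyMeasurable
    _ = ∫ ω, F (resm i (resm i (blk B hB.cont 0 ω) 0) (B i 1 ω)) ∂P := by
        congr 1
        funext ω
        rw [WRE_resm_resm]
        congr 1
        rw [← WRE_blk_one hB i ω, WRE_resm_self]
    _ = ∫ p, F (resm i p.1 p.2) ∂(P.map (fun ω => (resm i (blk B hB.cont 0 ω) 0, B i 1 ω))) :=
        (integral_map (hmu.prodMk hme).aemeasurable hG.aestronglyMeasurable).symm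
    _ = ∫ u, (∫ η, F (resm i u η) ∂(gaussianReal 0 1))
          ∂(P.map (fun ω => resm i (blk B hB.cont 0 ω) 0)) := by
        rw [hprod, integral_prod _ hint]
    _ = ∫ ω, (∫ η, F (resm i (resm i (blk B hB.cont 0 ω) 0) η) ∂(gaussianReal 0 1)) ∂P :=
        integral_map hmu.aemeasurable hinner.aestronglyMeasurable
    _ = ∫ ω, (∫ η, F (resm i (blk B hB.cont 0 ω) η) ∂(gaussianReal 0 1)) ∂P := by
        simp_rw [WRE_resm_resm]
    _ = ∫ w, (∫ η, F (resm i w η) ∂(gaussianReal 0 1)) ∂(P.map (blk B hB.cont 0)) :=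
        (integral_map hmb.aemeasurable hinner.aestronglyMeasurable).symm

end Pool.Agent.OYG
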