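import Pool.Agent.OYG.WLA
import Pool.Agent.OYG.IPR

/-!
WRI: the end point of line `i` is independent of its bridge and of the other lines.

For the line `i`: `(B i 1)` and the process `s ↦ B i s - s B i 1` (`s ∈ unitInterval`) form a jointly Gaussian process (linear images of
`B i`, see the proof of `IsPreBrownianReal.indepFun_shift` in Mathlib for the pattern `of_isGaussianProcess`) with covariance
`min s 1 - s = 0`: `IsGaussianProcess.indepFun_of_covariance_eq_zero`. For the other lines take as first component a constant:
apply `indep_pairs` with `X k = B i 1` if `k = i` and `0` otherwise, and `Y k ω` = the function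
`s ↦ B k s - (if k = i then s * B i 1 else 0)` on `unitInterval`; the pairs are measurable functions of the lines. Then
`resm i (blk B hB.cont 0 ω) 0` is determined by `Y`: as in WIN use the sigma algebras (`path_comap`); note `blk … 0 ω k s = B k s ω`
since `B k 0 = 0`, and `resm i w 0 i = w i - w i 1 • idp`.
-/

open MeasureTheory ProbabilityTheory Set Filter Topology
open scoped ENNReal NNReal

namespace Pool.Agent.OYG

variable {n : ℕ}

private def wriF (s : unitInterval) : ℝ≥0 := ⟨(s : ℝ), s.2.1⟩

private theorem wri_line {Ω : Type*} [MeasurableSpace Ω] {P : Measure Ω} [IsProbabilityMeasure P]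
    {X : ℝ≥0 → Ω → ℝ} (h : IsBrownianReal X P) :
    IndepFun (fun ω => X 1 ω) (fun ω (s : unitInterval) => X (wriF s) ω - (s : ℝ) * X 1 ω) P := by
  have hG := h.isGaussianProcess
  have key : IndepFun (fun ω (u : Unit) => X 1 ω)
      (fun ω (s : unitInterval) => X (wriF s) ω - (s : ℝ) * X 1 ω) P := by
    refine IsGaussianProcess.indepFun_of_covariance_eq_zero
      (X := fun (_ : Unit) ω => X 1 ω)
      (Y := fun (s : unitInterval) ω => X (wriF s) ω - (s : ℝ) * X 1 ω) ?_ ?_ ?_ ?_
    · apply hG.of_isGaussianProcess
      rintro (u | s)
      · exact ⟨{1}, { toFun x := x ⟨1, by simp⟩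
                      map_add' x y := by simp
                      map_smul' c x := by simp }, by simp⟩
      · exact ⟨{wriF s, 1}, { toFun x := x ⟨wriF s, by simp⟩ - (s : ℝ) * x ⟨1, by simp⟩
                              map_add' x y := by simp; ring
                              map_smul' c x := by simp; ring }, by simp⟩
    · intro _
      exact h.aemeasurable 1
    · intro s
      exact (h.aemeasurable _).sub ((h.aemeasurable 1).const_mul _)
    · intro _ s
      have m1 : MemLp (X 1) 2 P := (hG.hasGaussianLaw_eval 1).memLp_two
      have m2 : MemLp (X (wriF s)) 2 P := (hG.hasGaussianLaw_eval _).memLp_two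
      have e1 : cov[fun ω => X 1 ω, fun ω => X (wriF s) ω - (s : ℝ) * X 1 ω; P] =
          cov[X 1, X (wriF s); P] - (s : ℝ) * cov[X 1, X 1; P] := by
        rw [covariance_fun_sub_right m1 m2 (m1.const_mul _), covariance_const_mul_right]
      rw [e1, h.covariance_eval, h.covariance_eval]
      have e2 : min (1 : ℝ≥0) (wriF s) = wriF s := min_eq_right s.2.2
      rw [e2, min_self]
      have e3 : ((wriF s : ℝ≥0) : ℝ) = (s : ℝ) := rfl
      rw [e3, NNReal.coe_one, mul_one, sub_self]
  exact key.comp (φ := fun f : Unit → ℝ => f ()) (ψ := id) (measurable_pi_apply _) measurable_id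

theorem indep_end {Ω : Type*} [MeasurableSpace Ω] {P : Measure Ω} [IsProbabilityMeasure P]
    {B : Fin (n + 1) → ℝ≥0 → Ω → ℝ} (hB : IsBMd P n B) (i : Fin (n + 1)) :
    IndepFun (fun ω => resm i (blk B hB.cont 0 ω) 0) (fun ω => B i 1 ω) P := by
  let X : Fin (n + 1) → Ω → ℝ := fun k ω => if k = i then B k 1 ω else 0
  let Y : Fin (n + 1) → Ω → (unitInterval → ℝ) := fun k ω s =>
    B k (wriF s) ω - (if k = i then (s : ℝ) * B k 1 ω else 0)
  have hXm : ∀ k, Measurable (X k) := by
    intro k
    by_cases hk : k = i
    · simp only [X, if_pos hk]
      exact hB.meas k 1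
    · simp only [X, if_neg hk]
      exact measurable_const
  have hYm : ∀ k, Measurable (Y k) := by
    intro k
    refine measurable_pi_lambda _ fun s => ?_
    by_cases hk : k = i
    · simp only [Y, if_pos hk]
      exact (hB.meas k _).sub ((hB.meas k 1).const_mul _)
    · simp only [Y, if_neg hk]
      exact (hB.meas k _).sub measurable_const
  have h1 : iIndepFun (fun k ω => (X k ω, Y k ω)) P := by
    have h2 := hB.indep.comp (fun k (f : ℝ≥0 → ℝ) => ((if k = i then f 1 else 0 : ℝ),
      (fun s : unitInterval => f (wriF s) - (if k = i then (s : ℝ) * f 1 else 0)))) (by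
        intro k
        refine Measurable.prodMk ?_ ?_
        · by_cases hk : k = i
          · simp only [if_pos hk]
            exact measurable_pi_apply _
          · simp only [if_neg hk]
            exact measurable_const
        · refine measurable_pi_lambda _ fun s => ?_
          by_cases hk : k = i
          · simp only [if_pos hk]
            exact (measurable_pi_apply _).sub ((measurable_pi_apply _).const_mul _)
          · simp only [if_neg hk]
            exact (measurable_pi_apply _).sub measurable_const)
    exact h2
  have h2 : ∀ k, IndepFun (X k) (Y k) P := by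
    intro k
    by_cases hk : k = i
    · have h3 := wri_line (hB.brownian k)
      have e1 : X k = fun ω => B k 1 ω := by
        funext ω
        simp only [X, if_pos hk]
      have e2 : Y k = fun ω (s : unitInterval) => B k (wriF s) ω - (s : ℝ) * B k 1 ω := by
        funext ω s
        simp only [Y, if_pos hk]
      rw [e1, e2]
      exact h3
    · have e1 : X k = fun _ => (0 : ℝ) := by
        funext ω
        simp only [X, if_neg hk]
      rw [e1]
      exact indepFun_const_left _ _
  have h3 := indep_pairs X Y hXm hYm h1 h2
  have hind : Indep (MeasurableSpace.comap (fun ω k => Y k ω) inferInstance)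
      (MeasurableSpace.comap (fun ω k => X k ω) inferInstance) P := h3.symm
  have hle1 : MeasurableSpace.comap (fun ω => B i 1 ω) inferInstance ≤
      MeasurableSpace.comap (fun ω k => X k ω) inferInstance := by
    have h4 : Measurable[MeasurableSpace.comap (fun ω k => X k ω) inferInstance]
        (fun ω => B i 1 ω) := by
      have h5 : (fun ω => B i 1 ω) = (fun f : Fin (n + 1) → ℝ => f i) ∘ (fun ω k => X k ω) := by
        funext ω
        simp [X]
      rw [h5]
      exact (measurable_pi_apply i).comp (comap_measurable _)
    exact h4.comap_le
  have hle2 : MeasurableSpace.comap (fun ω => resm i (blk B hB.cont 0 ω) 0) inferInstance ≤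
      MeasurableSpace.comap (fun ω k => Y k ω) inferInstance := by
    have h4 : Measurable[MeasurableSpace.comap (fun ω k => Y k ω) inferInstance]
        (fun ω => resm i (blk B hB.cont 0 ω) 0) := by
      refine @measurable_pi_lambda _ _ _ (MeasurableSpace.comap (fun ω k => Y k ω) inferInstance)
        _ _ fun k => ?_
      refine @measurable_path _ (MeasurableSpace.comap (fun ω k => Y k ω) inferInstance) _
        fun s => ?_
      have h5 : (fun ω => (resm i (blk B hB.cont 0 ω) 0 k) s) =
          (fun f : Fin (n + 1) → unitInterval → ℝ => f k s) ∘ (fun ω k => Y k ω) := by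
        funext ω
        simp only [Function.comp_apply, Y]
        by_cases hk : k = i
        · subst hk
          have e0 : wriF 1 = 1 := NNReal.coe_injective rfl
          simp only [resm, Function.update_self, blk, idp, wriF, ContinuousMap.add_apply,
            ContinuousMap.smul_apply, ContinuousMap.coe_mk, if_true, Nat.cast_zero, zero_add,
            hB.zero, smul_eq_mul, sub_zero] at e0 ⊢
          rw [e0]
          ring
        · simp only [resm, Function.update_of_ne hk, blk, wriF, ContinuousMap.coe_mk, if_neg hk,
            Nat.cast_zero, zero_add, hB.zero, sub_zero]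
      rw [h5]
      exact ((measurable_pi_apply s).comp (measurable_pi_apply k)).comp (comap_measurable _)
    exact h4.comap_le
  exact indep_of_indep_of_le_left (indep_of_indep_of_le_right hind hle1) hle2

end Pool.Agent.OYG
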