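import Pool.Agent.OYG.Defs

/-!
XCO: continuity and positivity of the flow.

`XX b κ v X0 j` is continuous in `t` when all `v j` are continuous (induction on `j`;
`intervalIntegral.continuous_primitive` or `continuous_parametric_intervalIntegral...`), positive for
`t ≥ 0` when the `X0 j` are positive and `κ ≥ 0` (the integral is `≥ 0`), bounded below by
`exp (b v_j(t)) X0 j`. For the flow: `pv μ w j` is continuous in `s` (projIcc is continuous).
`flow_first`: the first coordinate, directly from the definition (`XX 0 = 1`). `flow_congr`: coordinate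
`j` of the flow only depends on the coordinates `≤ j` of the state.
-/

open MeasureTheory ProbabilityTheory Set Filter Topology
open scoped ENNReal NNReal

namespace Pool.Agent.OYG

variable {n : ℕ} (μ : Fin (n + 1) → ℝ) (b κ : ℝ)

theorem continuous_XX {v : ℕ → ℝ → ℝ} (hv : ∀ j, Continuous (v j)) (X0 : ℕ → ℝ) (j : ℕ) :
    Continuous (XX b κ v X0 j) := by
  induction j with
  | zero =>
    change Continuous (fun _ : ℝ => (1 : ℝ))
    exact continuous_const
  | succ j ih =>
    have hc : Continuous (fun s => Real.exp (-(b * v j s)) * XX b κ v X0 j s) :=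
      (Real.continuous_exp.comp ((continuous_const.mul (hv j)).neg)).mul ih
    have hp : Continuous (fun t : ℝ => ∫ s in (0 : ℝ)..t, Real.exp (-(b * v j s)) * XX b κ v X0 j s) :=
      intervalIntegral.continuous_primitive (fun x y => hc.intervalIntegrable x y) 0
    change Continuous (fun t => Real.exp (b * v j t) *
      (X0 j + κ * ∫ s in (0 : ℝ)..t, Real.exp (-(b * v j s)) * XX b κ v X0 j s))
    exact (Real.continuous_exp.comp (continuous_const.mul (hv j))).mul
      (continuous_const.add (continuous_const.mul hp))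

theorem XX_pos {v : ℕ → ℝ → ℝ} (hv : ∀ j, Continuous (v j)) (hκ : 0 ≤ κ) {X0 : ℕ → ℝ}
    (hX : ∀ j, 0 < X0 j) (j : ℕ) {t : ℝ} (ht : 0 ≤ t) : 0 < XX b κ v X0 j t := by
  induction j generalizing t with
  | zero =>
    change (0 : ℝ) < 1
    exact one_pos
  | succ j ih =>
    change 0 < Real.exp (b * v j t) *
      (X0 j + κ * ∫ s in (0 : ℝ)..t, Real.exp (-(b * v j s)) * XX b κ v X0 j s)
    have h1 : 0 ≤ ∫ s in (0 : ℝ)..t, Real.exp (-(b * v j s)) * XX b κ v X0 j s :=
      intervalIntegral.integral_nonneg ht fun s hs => mul_nonneg (Real.exp_pos _).le (ih hs.1).le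
    exact mul_pos (Real.exp_pos _) (add_pos_of_pos_of_nonneg (hX j) (mul_nonneg hκ h1))

theorem continuous_pv (w : Blk n) (j : ℕ) : Continuous (pv μ w j) := by
  unfold pv
  by_cases h : j < n
  · simp only [h, dif_pos]
    exact (((w _).continuous.comp continuous_projIcc).sub
      ((w 0).continuous.comp continuous_projIcc)).add (continuous_const.mul continuous_id)
  · simp only [h, dif_neg, not_false_iff]
    exact continuous_const

theorem exs_pos {X : St n} (hX : Pos X) (j : ℕ) : 0 < exs X j := by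
  unfold exs
  by_cases h : j < n
  · rw [dif_pos h]
    exact hX _
  · rw [dif_neg h]
    exact one_pos

theorem flow_pos (hκ : 0 ≤ κ) {t : ℝ} (ht : 0 ≤ t) {X : St n} (hX : Pos X) (w : Blk n) :
    Pos (flow μ b κ t X w) := fun j =>
  XX_pos b κ (continuous_pv μ w) hκ (exs_pos hX) (j + 1) ht

/-- the first coordinate of the flow -/
theorem flow_first (hn : 0 < n) (t : ℝ) (X : St n) (w : Blk n) :
    flow μ b κ t X w ⟨0, hn⟩ = Real.exp (b * pv μ w 0 t) *
      (X ⟨0, hn⟩ + κ * ∫ s in (0 : ℝ)..t, Real.exp (-(b * pv μ w 0 s))) := by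
  have e : exs X 0 = X ⟨0, hn⟩ := by
    unfold exs
    rw [dif_pos hn]
  change Real.exp (b * pv μ w 0 t) *
      (exs X 0 + κ * ∫ s in (0 : ℝ)..t, Real.exp (-(b * pv μ w 0 s)) * 1) = _
  rw [e]
  simp only [mul_one]

private theorem xco_congr (v : ℕ → ℝ → ℝ) (X0 X0' : ℕ → ℝ) (j : ℕ) (h : ∀ i, i < j → X0 i = X0' i) :
    XX b κ v X0 j = XX b κ v X0' j := by
  induction j with
  | zero => rfl
  | succ j ih =>
    have h1 := ih fun i hi => h i (Nat.lt_succ_of_lt hi)
    funext t
    change Real.exp (b * v j t) *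
      (X0 j + κ * ∫ s in (0 : ℝ)..t, Real.exp (-(b * v j s)) * XX b κ v X0 j s) =
      Real.exp (b * v j t) *
      (X0' j + κ * ∫ s in (0 : ℝ)..t, Real.exp (-(b * v j s)) * XX b κ v X0' j s)
    rw [h1, h j (Nat.lt_succ_self j)]

theorem flow_congr (t : ℝ) (X X' : St n) (w : Blk n) (j : Fin n) (h : ∀ i, i ≤ j → X i = X' i) :
    flow μ b κ t X w j = flow μ b κ t X' w j := by
  have := xco_congr b κ (pv μ w) (exs X) (exs X') (j + 1) (by
    intro i hi
    have hin : i < n := by
      have := j.isLt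
      omega
    unfold exs
    rw [dif_pos hin, dif_pos hin]
    apply h
    rw [Fin.le_def]
    exact Nat.lt_succ_iff.1 hi)
  exact congrFun this t

/-- bound of the driving paths on `[0,1]` -/
theorem abs_pv_le (w : Blk n) (j : ℕ) {s : ℝ} (h0 : 0 ≤ s) (h1 : s ≤ 1) :
    |pv μ w j s| ≤ 2 * osc w + ∑ k, |μ k - μ 0| := by
  have hosc : ∀ k, ‖w k‖ ≤ osc w := fun k =>
    Finset.single_le_sum (f := fun k => ‖w k‖) (fun i _ => norm_nonneg _) (Finset.mem_univ k)
  have hosc0 : 0 ≤ osc w := Finset.sum_nonneg fun i _ => norm_nonneg _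
  have hs : ∀ k, |μ k - μ 0| ≤ ∑ k, |μ k - μ 0| := fun k =>
    Finset.single_le_sum (f := fun k => |μ k - μ 0|) (fun i _ => abs_nonneg _) (Finset.mem_univ k)
  have hs0 : 0 ≤ ∑ k, |μ k - μ 0| := Finset.sum_nonneg fun i _ => abs_nonneg _
  unfold pv
  by_cases h : j < n
  · rw [dif_pos h]
    have e1 : |w ⟨j + 1, by omega⟩ (projIcc 0 1 zero_le_one s)| ≤ osc w :=
      ((w ⟨j + 1, by omega⟩).norm_coe_le_norm _).trans (hosc _)
    have e2 : |w 0 (projIcc 0 1 zero_le_one s)| ≤ osc w :=
      ((w 0).norm_coe_le_norm _).trans (hosc _)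
    have e3 : |(μ ⟨j + 1, by omega⟩ - μ 0) * s| ≤ ∑ k, |μ k - μ 0| := by
      rw [abs_mul, abs_of_nonneg h0]
      have := hs ⟨j + 1, by omega⟩
      have h2 : |μ ⟨j + 1, by omega⟩ - μ 0| * s ≤ |μ ⟨j + 1, by omega⟩ - μ 0| * 1 :=
        mul_le_mul_of_nonneg_left h1 (abs_nonneg _)
      linarith
    have e4 := abs_add_le (w ⟨j + 1, by omega⟩ (projIcc 0 1 zero_le_one s) -
      w 0 (projIcc 0 1 zero_le_one s)) ((μ ⟨j + 1, by omega⟩ - μ 0) * s)
    have e5 := abs_sub (w ⟨j + 1, by omega⟩ (projIcc 0 1 zero_le_one s))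
      (w 0 (projIcc 0 1 zero_le_one s))
    linarith
  · rw [dif_neg h, abs_zero]
    linarith

theorem pv_one (w : Blk n) (j : Fin n) :
    pv μ w j 1 = inc w j + (μ j.succ - μ 0) := by
  unfold pv inc
  rw [dif_pos j.isLt]
  have e : projIcc (0 : ℝ) 1 zero_le_one 1 = 1 := by
    rw [projIcc_of_right_le _ (le_refl (1 : ℝ))]
    rfl
  rw [e, mul_one]
  rfl

end Pool.Agent.OYG
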